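import Pool.Agent.Work.MP_d3517d_nt.Slash

/-!
# The polynomials `(a - c X)^n` and the fixed vectors of the unipotent elements (MP_d3517d_nt)

`dl n a c = (a - c X)^n` is the `n`-th power of the linear form `det ((a, c), (X, 1))`.
-/

open Polynomial Matrix

noncomputable section

namespace Gouvea.Cnt

variable {K : Type*} [Field K]

/-- the polynomial `(a - c X)^n` -/
def dl (n : ℕ) (a c : K) : K[X] := (C a - C c * X) ^ n

lemma slashM_lin (n : ℕ) (g : Matrix (Fin 2) (Fin 2) K) (u v : K) :
    slashM n g ((C u + C v * X) ^ n) =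
      (C u * (C (g 1 0) * X + C (g 1 1)) + C v * (C (g 0 0) * X + C (g 0 1))) ^ n := by
  have h1 : ∀ j ∈ Finset.range (n + 1), ((C u + C v * X) ^ n : K[X]).coeff j =
      u ^ (n - j) * v ^ j * (n.choose j : K) := by
    intro j hj
    have hj' : j ≤ n := Nat.lt_succ_iff.1 (Finset.mem_range.1 hj)
    rw [add_comm (C u), (Commute.all (C v * X : K[X]) (C u)).add_pow, finsetSum_coeff,
      Finset.sum_eq_single j]
    · rw [mul_pow, ← C_pow, ← C_pow, ← C_eq_natCast]
      rw [show (C (v ^ j) * X ^ j * C (u ^ (n - j)) * C ((n.choose j : ℕ) : K) : K[X]) =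
        C (u ^ (n - j) * v ^ j * (n.choose j : K)) * X ^ j by
          simp only [map_mul]
          ring]
      rw [coeff_C_mul_X_pow, if_pos rfl]
    · intro i _ hij
      rw [mul_pow, ← C_pow, ← C_pow, ← C_eq_natCast]
      rw [show (C (v ^ i) * X ^ i * C (u ^ (n - i)) * C ((n.choose i : ℕ) : K) : K[X]) =
        C (u ^ (n - i) * v ^ i * (n.choose i : K)) * X ^ i by
          simp only [map_mul]
          ring]
      rw [coeff_C_mul_X_pow, if_neg (Ne.symm hij)]
    · intro h
      exact absurd hj h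
  rw [slashM_apply, add_comm (C u * (C (g 1 0) * X + C (g 1 1))),
    (Commute.all (C v * (C (g 0 0) * X + C (g 0 1)) : K[X]) _).add_pow]
  refine Finset.sum_congr rfl fun j hj => ?_
  rw [h1 j hj, mul_pow, mul_pow, map_mul, map_mul, map_pow, map_pow, map_natCast]
  ring

/-- `(dl w) | g = dl (adj(g) w)` -/
lemma slashM_dl (n : ℕ) (g : Matrix (Fin 2) (Fin 2) K) (a c : K) :
    slashM n g (dl n a c) = dl n (g 1 1 * a - g 0 1 * c) (g 0 0 * c - g 1 0 * a) := by
  have h1 : (dl n a c : K[X]) = (C a + C (-c) * X) ^ n := by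
    rw [dl, map_neg]
    ring
  rw [h1, slashM_lin, dl]
  congr 1
  simp only [map_sub, map_mul, map_neg]
  ring

lemma dl_smul (n : ℕ) (t a c : K) : dl n (t * a) (t * c) = C (t ^ n) * dl n a c := by
  rw [dl, dl, map_pow, ← mul_pow]
  congr 1
  simp only [map_mul]
  ring

/-- `(dl (g w)) | g = det(g)^n dl w` -/
lemma slashM_dl_smul (n : ℕ) (g : Matrix (Fin 2) (Fin 2) K) (a c : K) :
    slashM n g (dl n (g 0 0 * a + g 0 1 * c) (g 1 0 * a + g 1 1 * c)) =
      C (g.det ^ n) * dl n a c := by
  rw [slashM_dl, ← dl_smul, Matrix.det_fin_two]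
  congr 1 <;> ring

lemma dl_ne_zero (n : ℕ) {a c : K} (h : ¬ (a = 0 ∧ c = 0)) : dl n a c ≠ 0 := by
  refine pow_ne_zero _ fun h0 => h ?_
  have h1 := congrArg (fun P : K[X] => P.coeff 0) h0
  have h2 := congrArg (fun P : K[X] => P.coeff 1) h0
  simp at h1 h2
  exact ⟨h1, h2⟩

lemma natDegree_dl_le (n : ℕ) (a c : K) : (dl n a c).natDegree ≤ n := by
  have h1 : (C a - C c * X : K[X]).natDegree ≤ 1 := by
    refine (natDegree_sub_le _ _).trans ?_
    rw [natDegree_C]
    exact max_le (Nat.zero_le _) ((natDegree_C_mul_le _ _).trans natDegree_X_le)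
  exact (natDegree_pow_le_of_le n h1).trans (by rw [mul_one])

variable [CharZero K]

/-- a polynomial invariant under a nonzero translation is constant -/
lemma eq_C_of_translate {n : ℕ} {P : K[X]} (hP : P.natDegree ≤ n) {j : K} (hj : j ≠ 0)
    (h : slashM n !![1, j; 0, 1] P = P) : P = C (P.coeff 0) := by
  have h1 : slashM n !![1, j; 0, 1] P = P.comp (X + C j) := by
    rw [slashM_apply, Polynomial.comp, Polynomial.eval₂_eq_sum_range' (n := n + 1) _
      (Nat.lt_succ_of_le hP)]
    refine Finset.sum_congr rfl fun i _ => ?_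
    simp
  rw [h1] at h
  have h2 : ∀ m : ℕ, P.eval ((m : K) * j) = P.eval 0 := by
    intro m
    induction m with
    | zero => simp
    | succ m ih =>
      have h3 := congrArg (fun Q : K[X] => Q.eval ((m : K) * j)) h
      simp only [eval_comp, eval_add, eval_X, eval_C] at h3
      rw [← ih, ← h3]
      congr 1
      push_cast
      ring
  have h3 : P - C (P.eval 0) = 0 := by
    refine Polynomial.eq_zero_of_infinite_isRoot _ ?_
    refine Set.Infinite.mono (s := Set.range fun m : ℕ => (m : K) * j) ?_ ?_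
    · rintro _ ⟨m, rfl⟩
      rw [Set.mem_ofPred_eq, IsRoot.def, eval_sub, eval_C, h2, sub_self]
    · refine Set.infinite_range_of_injective fun a b hab => ?_
      exact_mod_cast mul_right_cancel₀ hj hab
  have h4 : P = C (P.eval 0) := sub_eq_zero.1 h3
  rw [h4]
  simp

/-- **the fixed vectors of a unipotent element**: `T_w^j = 1 + j w ⊗ det(w, ·)`, `w = (a, c)` -/
theorem eq_dl_of_fixed {n : ℕ} {P : K[X]} (hP : P.natDegree ≤ n) {a c j : K} (hj : j ≠ 0)
    (hw : ¬ (a = 0 ∧ c = 0))
    (h : slashM n !![1 - j * (a * c), j * a ^ 2; -(j * c ^ 2), 1 + j * (a * c)] P = P) :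
    ∃ κ : K, P = C κ * dl n a c := by
  have hmem : ∀ {Q : K[X]}, Q.natDegree ≤ n → Q ∈ degreeLE K n := fun hQ =>
    mem_degreeLE.2 (degree_le_of_natDegree_le hQ)
  by_cases hc : c = 0
  · subst hc
    have ha : a ≠ 0 := fun h0 => hw ⟨h0, rfl⟩
    have h1 : (!![1 - j * (a * 0), j * a ^ 2; -(j * 0 ^ 2), 1 + j * (a * 0)] :
        Matrix (Fin 2) (Fin 2) K) = !![1, j * a ^ 2; 0, 1] := by
      ext i k
      fin_cases i <;> fin_cases k <;> simp
    rw [h1] at h
    have h2 := eq_C_of_translate hP (mul_ne_zero hj (pow_ne_zero 2 ha)) h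
    refine ⟨P.coeff 0 / a ^ n, ?_⟩
    rw [dl, map_zero, zero_mul, sub_zero, ← C_pow, ← C_mul, div_mul_cancel₀ _ (pow_ne_zero n ha)]
    exact h2
  · set g : Matrix (Fin 2) (Fin 2) K := !![a, -c⁻¹; c, 0] with hg
    set g' : Matrix (Fin 2) (Fin 2) K := !![0, c⁻¹; -c, a] with hg'
    have hgg : g * g' = 1 := by
      rw [hg, hg']
      ext i k
      fin_cases i <;> fin_cases k <;> simp [Matrix.mul_apply, Fin.sum_univ_two, hc]
      ring
    have hgt : !![1 - j * (a * c), j * a ^ 2; -(j * c ^ 2), 1 + j * (a * c)] * g =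
        g * !![1, j; 0, 1] := by
      rw [hg]
      ext i k
      fin_cases i <;> fin_cases k <;> simp [Matrix.mul_apply, Fin.sum_univ_two] <;> field_simp <;>
        ring
    have h1 : slashM n !![1, j; 0, 1] (slashM n g P) = slashM n g P := by
      rw [slashM_slashM, ← hgt, ← slashM_slashM, h]
    have h2 := eq_C_of_translate (natDegree_slashM_le n g P) hj h1
    have h3 : P = slashM n g' (slashM n g P) := by
      rw [slashM_slashM, hgg, slashM_one n P (hmem hP)]
    have h4 : slashM n g' (C ((slashM n g P).coeff 0)) =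
        C ((slashM n g P).coeff 0) * dl n a c := by
      have h5 : (C ((slashM n g P).coeff 0) : K[X]) =
          (slashM n g P).coeff 0 • (C (1 : K) + C 0 * X) ^ n := by
        rw [smul_eq_C_mul]
        simp
      rw [h5, map_smul, slashM_lin, smul_eq_C_mul, dl]
      congr 2
      rw [hg']
      simp
      ring
    refine ⟨(slashM n g P).coeff 0, ?_⟩
    rw [← h4, ← h2]
    exact h3

end Gouvea.Cnt
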