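import Pool.Agent.Work.MP_d3517d_nt.Cnt.ResDefs
import Pool.Agent.Work.MP_d3517d_nt.Cnt.Form

/-!
# Partial boundary symbols (MP_d3517d_nt, exact Eichler–Shimura)

`bdS M n F` is the partial boundary symbol attached to a homogeneous function `F` of degree `-n`
on vectors: `(x, y) ↦ β(x) - β(y)` with `β(a/c) = F(a, c) (a - c X)^n`.
-/

open Polynomial CongruenceSubgroup
open scoped MatrixGroups

noncomputable section

namespace Gouvea.Cnt

open Gouvea.ES Gouvea.Theta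

/-! ### the Hecke operators on functions on vectors -/

lemma hop_apply (M q : ℕ) (F : ℤ × ℤ → ℂ) (v : ℤ × ℤ) :
    hop M q F v = ∑ b ∈ Finset.range q, F (vm !![1, (b : ℤ); 0, (q : ℤ)] v) +
      if q ∣ M then 0 else F (vm !![(q : ℤ), 0; 0, 1] v) := rfl

open Classical in
/-- the sum over the representatives -/
lemma hop_eq (M q : ℕ) (F : ℤ × ℤ → ℂ) (v : ℤ × ℤ) :
    hop M q F v = ∑ i : {i : Option (Fin q) // q ∣ M → i ≠ none}, F (vm (hrep q i.1) v) := by
  have h1 : (∑ i : {i : Option (Fin q) // q ∣ M → i ≠ none}, F (vm (hrep q i.1) v)) =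
      ∑ i : Option (Fin q), if (q ∣ M → i ≠ none) then F (vm (hrep q i) v) else 0 := by
    rw [← Finset.sum_filter]
    exact (Finset.sum_subtype _ (fun i => by simp) (fun i => F (vm (hrep q i) v))).symm
  rw [h1, hop_apply, Fintype.sum_option, add_comm, Finset.sum_range]
  congr 1
  · by_cases h : q ∣ M
    · simp [h]
    · simp [h, hrep, mV]
  · refine Finset.sum_congr rfl fun i _ => ?_
    simp [hrep, mU]

lemma vm_smul (g : Matrix (Fin 2) (Fin 2) ℤ) (l : ℤ) (v : ℤ × ℤ) :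
    vm g (l * v.1, l * v.2) = (l * (vm g v).1, l * (vm g v).2) := by
  simp only [vm]
  refine Prod.ext ?_ ?_ <;> ring

lemma vm_zero (g : Matrix (Fin 2) (Fin 2) ℤ) : vm g (0, 0) = (0, 0) := by
  simp [vm]

/-- `T_q`, `U_q` preserve the homogeneous functions -/
theorem hop_mem_HF {e : ℤ} {M q : ℕ} (hq : q.Prime) {F : ℤ × ℤ → ℂ} (hF : F ∈ HF e M) :
    hop M q F ∈ HF e M := by
  classical
  obtain ⟨h1, h2, h3⟩ := hF
  refine ⟨?_, fun l hl v => ?_, fun g hg v => ?_⟩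
  · rw [hop_eq]
    refine Finset.sum_eq_zero fun i _ => ?_
    rw [vm_zero, h1]
  · rw [hop_eq, hop_eq, Finset.mul_sum]
    refine Finset.sum_congr rfl fun i _ => ?_
    rw [vm_smul, h2 l hl]
  · have h4 : ∀ i : {i : Option (Fin q) // q ∣ M → i ≠ none},
        ∃ j : {i : Option (Fin q) // q ∣ M → i ≠ none}, ∃ δ ∈ Gamma0 M,
          hrep q i.1 * g.1 = δ.1 * hrep q j.1 := by
      intro i
      obtain ⟨j, hj, δ, hδ, h⟩ := hrep_stable hq g hg i.1 i.2
      exact ⟨⟨j, hj⟩, δ, hδ, h⟩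
    choose π δ hδ hπ using h4
    have hinj : Function.Injective π := by
      intro i j hij
      refine Subtype.ext (hrep_inj hq (δ i * (δ j)⁻¹) ?_)
      have h5 := hπ i
      have h6 := hπ j
      rw [hij] at h5
      have h7 : hrep q j.1 * g.1 * (g⁻¹ : SL(2, ℤ)).1 = hrep q j.1 := by
        rw [Matrix.mul_assoc]
        have h8 : g.1 * (g⁻¹ : SL(2, ℤ)).1 = 1 := by
          have h9 : (g * g⁻¹ : SL(2, ℤ)).1 = 1 := by
            rw [mul_inv_cancel]
            rfl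
          exact h9
        rw [h8, Matrix.mul_one]
      have h8 : (δ j).1 * ((δ j)⁻¹ : SL(2, ℤ)).1 = 1 := by
        have h9 : (δ j * (δ j)⁻¹ : SL(2, ℤ)).1 = 1 := by
          rw [mul_inv_cancel]
          rfl
        exact h9
      have h8' : ((δ j)⁻¹ : SL(2, ℤ)).1 * (δ j).1 = 1 := by
        have h9 : ((δ j)⁻¹ * δ j : SL(2, ℤ)).1 = 1 := by
          rw [inv_mul_cancel]
          rfl
        exact h9
      have h10 : hrep q (π j).1 = ((δ j)⁻¹ : SL(2, ℤ)).1 * (hrep q j.1 * g.1) := by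
        rw [h6, ← Matrix.mul_assoc, h8', Matrix.one_mul]
      have h11 : hrep q i.1 = hrep q i.1 * g.1 * (g⁻¹ : SL(2, ℤ)).1 := by
        rw [Matrix.mul_assoc]
        have h8 : g.1 * (g⁻¹ : SL(2, ℤ)).1 = 1 := by
          have h9 : (g * g⁻¹ : SL(2, ℤ)).1 = 1 := by
            rw [mul_inv_cancel]
            rfl
          exact h9
        rw [h8, Matrix.mul_one]
      have h12 : (δ i * (δ j)⁻¹ : SL(2, ℤ)).1 = (δ i).1 * ((δ j)⁻¹ : SL(2, ℤ)).1 := rfl
      calc hrep q i.1 = (δ i).1 * hrep q (π j).1 * (g⁻¹ : SL(2, ℤ)).1 := by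
            rw [← h5]
            exact h11
        _ = (δ i).1 * (((δ j)⁻¹ : SL(2, ℤ)).1 * (hrep q j.1 * g.1)) * (g⁻¹ : SL(2, ℤ)).1 := by
            rw [← h10]
        _ = (δ i).1 * ((δ j)⁻¹ : SL(2, ℤ)).1 * (hrep q j.1 * g.1 * (g⁻¹ : SL(2, ℤ)).1) := by
            simp only [Matrix.mul_assoc]
        _ = (δ i * (δ j)⁻¹ : SL(2, ℤ)).1 * hrep q j.1 := by rw [h7, h12]
    rw [hop_eq, hop_eq, ← Equiv.sum_comp
      (Equiv.ofBijective π (Finite.injective_iff_bijective.1 hinj))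
      (fun i => F (vm (hrep q i.1) v))]
    refine Finset.sum_congr rfl fun i _ => ?_
    rw [← vm_mul, hπ i, vm_mul, h3 _ (hδ i)]
    rfl

lemma inC_up {v : ℤ × ℤ} (hv : inC v) (q : ℕ) (b : ℤ) :
    inC (vm !![1, b; 0, (q : ℤ)] v) := by
  obtain ⟨l, a, c, hl, ha, hc, rfl⟩ := hv
  refine ⟨l, a + b * c, q * c, hl, ?_, hc.mul_left _, ?_⟩
  · obtain ⟨t, ht⟩ := hc
    refine ha.add_even ⟨b * (2 * t), ?_⟩
    rw [ht]
    ring
  · simp only [vm, Matrix.of_apply, Matrix.cons_val', Matrix.cons_val_zero,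
      Matrix.cons_val_one, Matrix.empty_val', Matrix.cons_val_fin_one]
    refine Prod.ext ?_ ?_ <;> ring

lemma inC_V {v : ℤ × ℤ} (hv : inC v) {q : ℕ} (hq : Odd q) :
    inC (vm !![(q : ℤ), 0; 0, 1] v) := by
  obtain ⟨l, a, c, hl, ha, hc, rfl⟩ := hv
  refine ⟨l, q * a, c, hl, ?_, hc, ?_⟩
  · have h1 : Odd (q : ℤ) := by exact_mod_cast hq
    exact h1.mul ha
  · simp only [vm, Matrix.of_apply, Matrix.cons_val', Matrix.cons_val_zero,
      Matrix.cons_val_one, Matrix.empty_val', Matrix.cons_val_fin_one]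
    refine Prod.ext ?_ ?_ <;> ring

lemma odd_of_level {M q : ℕ} (hq : q.Prime) (hM : 4 ∣ M) (h : ¬ q ∣ M) : Odd q := by
  rcases hq.eq_two_or_odd' with rfl | h2
  · exact absurd (dvd_trans (by norm_num) hM) h
  · exact h2

theorem hop_mem_HOut {e : ℤ} {M q : ℕ} (hq : q.Prime) (hM : 4 ∣ M) {F : ℤ × ℤ → ℂ}
    (hF : F ∈ HOut e M) : hop M q F ∈ HOut e M := by
  refine ⟨hop_mem_HF hq hF.1, fun v hv => ?_⟩
  rw [hop_apply, Finset.sum_eq_zero, zero_add]
  · split_ifs with h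
    · rfl
    · exact hF.2 _ (inC_V hv (odd_of_level hq hM h))
  · intro b _
    exact hF.2 _ (inC_up hv q _)

/-- the Hecke operator on the homogeneous functions -/
def hopF (e : ℤ) (M : ℕ) {q : ℕ} (hq : q.Prime) : HF e M →ₗ[ℂ] HF e M :=
  (hop M q).restrict fun _ hF => hop_mem_HF hq hF

lemma hopF_coe (e : ℤ) (M : ℕ) {q : ℕ} (hq : q.Prime) (F : HF e M) :
    (hopF e M hq F : ℤ × ℤ → ℂ) = hop M q F.1 := rfl

/-! ### the partial boundary symbols -/

/-- the condition of homogeneity -/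
def IsHom (n : ℕ) (F : ℤ × ℤ → ℂ) : Prop :=
  ∀ l : ℤ, l ≠ 0 → ∀ v : ℤ × ℤ, F (l * v.1, l * v.2) = (l : ℂ) ^ (-(n : ℤ)) * F v

lemma ne_of_odd {u : ℤ} (hu : Odd u) : u ≠ 0 := by
  rintro rfl
  exact (by decide : ¬ Odd (0 : ℤ)) hu

lemma hom_dl {n : ℕ} {F : ℤ × ℤ → ℂ} (hF : IsHom n F) {l : ℤ} (hl : l ≠ 0) (a c : ℤ) :
    C (F (l * a, l * c)) * dl n ((l * a : ℤ) : ℂ) ((l * c : ℤ) : ℂ) =
      C (F (a, c)) * dl n (a : ℂ) (c : ℂ) := by
  have h1 := hF l hl (a, c)
  have hl' : (l : ℂ) ≠ 0 := by exact_mod_cast hl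
  rw [h1]
  push_cast
  rw [dl_smul, map_mul, mul_mul_mul_comm, ← map_mul, zpow_neg, zpow_natCast,
    inv_mul_cancel₀ (pow_ne_zero n hl'), map_one, one_mul]

lemma hom_dl_eq {n : ℕ} {F : ℤ × ℤ → ℂ} (hF : IsHom n F) {a c a' c' : ℤ} (ha : a ≠ 0)
    (ha' : a' ≠ 0) (h : a * c' = a' * c) :
    C (F (a, c)) * dl n (a : ℂ) (c : ℂ) = C (F (a', c')) * dl n (a' : ℂ) (c' : ℂ) := by
  rw [← hom_dl hF ha' a c, ← hom_dl hF ha a' c', h, mul_comm a' a]

/-- the value of the boundary function at a cusp -/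
def bval {n : ℕ} {F : ℤ × ℤ → ℂ} (hF : IsHom n F) : PS.Cusp → ℂ[X] :=
  Quotient.lift (fun x : PS.PreCusp => C (F (x.u, x.v)) * dl n (x.u : ℂ) (x.v : ℂ))
    fun x y (h : x.u * y.v = y.u * x.v) => hom_dl_eq hF (ne_of_odd x.hu) (ne_of_odd y.hu) h

lemma bval_mk {n : ℕ} {F : ℤ × ℤ → ℂ} (hF : IsHom n F) (u v : ℤ) (hu hv) :
    bval hF (PS.Cusp.mk u v hu hv) = C (F (u, v)) * dl n (u : ℂ) (v : ℂ) := rfl

lemma natDegree_bval_le {n : ℕ} {F : ℤ × ℤ → ℂ} (hF : IsHom n F) (x : PS.Cusp) :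
    (bval hF x).natDegree ≤ n := by
  induction x using PS.Cusp.ind' with
  | h u v hu hv =>
    rw [bval_mk]
    exact (natDegree_C_mul_le _ _).trans (natDegree_dl_le n _ _)

/-- the action of a matrix on the boundary function -/
lemma slash_bval {n : ℕ} {F : ℤ × ℤ → ℂ} (hF : IsHom n F) (g : PS.S4) (u v : ℤ) (hu : Odd u)
    (hv : (4 : ℤ) ∣ v) :
    slashM n (g.1.map (Int.cast : ℤ → ℂ)) (bval hF (g • PS.Cusp.mk u v hu hv)) =
      C ((g.1.det : ℂ) ^ n * F (vm g.1 (u, v))) * dl n (u : ℂ) (v : ℂ) := by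
  obtain ⟨hu', hv', h⟩ := PS.smul_mk g u v hu hv
  rw [h, bval_mk, ← smul_eq_C_mul, map_smul]
  have h1 := slashM_dl_smul n (g.1.map (Int.cast : ℤ → ℂ)) (u : ℂ) (v : ℂ)
  have h2 : (g.1.map (Int.cast : ℤ → ℂ)).det = (g.1.det : ℂ) := by
    rw [Matrix.det_fin_two, Matrix.det_fin_two]
    simp
  simp only [Matrix.map_apply] at h1
  push_cast
  rw [h1, h2, smul_eq_C_mul, ← mul_assoc, ← map_mul, mul_comm (F _)]
  rfl

lemma isHom_of_mem {n M : ℕ} {F : ℤ × ℤ → ℂ} (hF : F ∈ HF (-(n : ℤ)) M) : IsHom n F := hF.2.1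

/-- **The partial boundary symbol** of a homogeneous function of degree `-n`. -/
def bdS (M n : ℕ) : HF (-(n : ℤ)) M →ₗ[ℂ] PS.Sym ℂ M n where
  toFun F := ⟨fun x y i => (bval (isHom_of_mem F.2) x).coeff i -
      (bval (isHom_of_mem F.2) y).coeff i, by
    refine ⟨fun x y z => ?_, fun g hg => ?_⟩
    · funext i
      simp only [Pi.add_apply]
      ring
    · funext x y i
      have h1 : ∀ x : PS.Cusp, slashM n (g.1.map (Int.cast : ℤ → ℂ))
          (bval (isHom_of_mem F.2) (g • x)) = bval (isHom_of_mem F.2) x := by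
        intro x
        induction x using PS.Cusp.ind' with
        | h u v hu hv =>
          have h2 := F.2.2.2 (toSL hg) (toSL_mem hg) (u, v)
          have h3 : (toSL hg).1 = g.1 := rfl
          rw [h3] at h2
          rw [slash_bval, h2, hg.1, bval_mk]
          simp
      rw [PS.act_apply]
      have h2 : (fun i : Fin (n + 1) => (bval (isHom_of_mem F.2) (g • x)).coeff i -
          (bval (isHom_of_mem F.2) (g • y)).coeff i) = fun i : Fin (n + 1) =>
          (bval (isHom_of_mem F.2) (g • x) - bval (isHom_of_mem F.2) (g • y)).coeff i := by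
        funext i
        rw [coeff_sub]
      have h3 := PS.coeff_slashM_eq n (g.1.map (Int.cast : ℤ → ℂ))
        (bval (isHom_of_mem F.2) (g • x) - bval (isHom_of_mem F.2) (g • y)) i
      rw [map_sub, h1, h1, coeff_sub] at h3
      rw [h2]
      exact h3.symm⟩
  map_add' F G := by
    refine Subtype.ext ?_
    funext x y i
    induction x using PS.Cusp.ind' with
    | h u v hu hv =>
      induction y using PS.Cusp.ind' with
      | h u' v' hu' hv' =>
        change (bval _ (PS.Cusp.mk u v hu hv)).coeff i - (bval _ (PS.Cusp.mk u' v' hu' hv')).coeff i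
          = ((bval _ (PS.Cusp.mk u v hu hv)).coeff i -
            (bval _ (PS.Cusp.mk u' v' hu' hv')).coeff i) +
            ((bval _ (PS.Cusp.mk u v hu hv)).coeff i - (bval _ (PS.Cusp.mk u' v' hu' hv')).coeff i)
        simp only [bval_mk, coeff_C_mul]
        change (F.1 (u, v) + G.1 (u, v)) * _ - (F.1 (u', v') + G.1 (u', v')) * _ = _
        ring
  map_smul' a F := by
    refine Subtype.ext ?_
    funext x y i
    induction x using PS.Cusp.ind' with
    | h u v hu hv =>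
      induction y using PS.Cusp.ind' with
      | h u' v' hu' hv' =>
        change (bval _ (PS.Cusp.mk u v hu hv)).coeff i - (bval _ (PS.Cusp.mk u' v' hu' hv')).coeff i
          = a * ((bval _ (PS.Cusp.mk u v hu hv)).coeff i -
            (bval _ (PS.Cusp.mk u' v' hu' hv')).coeff i)
        simp only [bval_mk, coeff_C_mul]
        change (a * F.1 (u, v)) * _ - (a * F.1 (u', v')) * _ = _
        ring

lemma bdS_apply (M n : ℕ) (F : HF (-(n : ℤ)) M) (x y : PS.Cusp) (i : Fin (n + 1)) :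
    (bdS M n F : PS.Cusp → PS.Cusp → Fin (n + 1) → ℂ) x y i =
      (bval (isHom_of_mem F.2) x).coeff i - (bval (isHom_of_mem F.2) y).coeff i := rfl

/-- the action of a matrix on a partial boundary symbol -/
lemma act_bdS {M n : ℕ} (F : HF (-(n : ℤ)) M) (g : PS.S4) (u v u' v' : ℤ) (hu : Odd u)
    (hv : (4 : ℤ) ∣ v) (hu' : Odd u') (hv' : (4 : ℤ) ∣ v') (i : Fin (n + 1)) :
    PS.act ℂ n g (bdS M n F) (PS.Cusp.mk u v hu hv) (PS.Cusp.mk u' v' hu' hv') i =
      (g.1.det : ℂ) ^ n * (F.1 (vm g.1 (u, v)) * (dl n (u : ℂ) (v : ℂ)).coeff i -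
        F.1 (vm g.1 (u', v')) * (dl n (u' : ℂ) (v' : ℂ)).coeff i) := by
  rw [PS.act_apply]
  have h2 : (bdS M n F : PS.Cusp → PS.Cusp → Fin (n + 1) → ℂ) (g • PS.Cusp.mk u v hu hv)
      (g • PS.Cusp.mk u' v' hu' hv') = fun i : Fin (n + 1) =>
      (bval (isHom_of_mem F.2) (g • PS.Cusp.mk u v hu hv) -
        bval (isHom_of_mem F.2) (g • PS.Cusp.mk u' v' hu' hv')).coeff i := by
    funext i
    rw [coeff_sub]
    rfl
  rw [h2, ← PS.coeff_slashM_eq, map_sub, slash_bval, slash_bval, coeff_sub, coeff_C_mul,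
    coeff_C_mul]
  ring

/-- **The Hecke operators on the partial boundary symbols.** -/
theorem bdS_hecke {M n q : ℕ} (hq : q.Prime) (hM : 4 ∣ M) (F : HF (-(n : ℤ)) M) :
    PS.hecke ℂ M n q (bdS M n F) =
      (bdS M n ((q : ℂ) ^ n • hopF (-(n : ℤ)) M hq F) : PS.Cusp → PS.Cusp → Fin (n + 1) → ℂ) := by
  funext x y i
  induction x using PS.Cusp.ind' with
  | h u v hu hv =>
    induction y using PS.Cusp.ind' with
    | h u' v' hu' hv' =>
      rw [bdS_apply, bval_mk, bval_mk, coeff_C_mul, coeff_C_mul]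
      have h1 : ∀ w : ℤ × ℤ, ((((q : ℂ) ^ n • hopF (-(n : ℤ)) M hq F : HF (-(n : ℤ)) M) :
          ℤ × ℤ → ℂ) w) = (q : ℂ) ^ n * hop M q F.1 w := fun w => rfl
      rw [h1, h1, PS.hecke, LinearMap.add_apply, LinearMap.sum_apply]
      simp only [Pi.add_apply, Finset.sum_apply]
      have hq0 : (q : ℤ) ≠ 0 := by exact_mod_cast hq.ne_zero
      have h2 : ∀ b : ℕ, PS.act ℂ n (PS.upS 1 (b : ℤ) (q : ℤ)) (bdS M n F)
          (PS.Cusp.mk u v hu hv) (PS.Cusp.mk u' v' hu' hv') i =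
          (q : ℂ) ^ n * (F.1 (vm !![1, (b : ℤ); 0, (q : ℤ)] (u, v)) *
            (dl n (u : ℂ) (v : ℂ)).coeff i -
          F.1 (vm !![1, (b : ℤ); 0, (q : ℤ)] (u', v')) * (dl n (u' : ℂ) (v' : ℂ)).coeff i) := by
        intro b
        rw [act_bdS, PS.upS_coe odd_one hq0]
        congr 2
        rw [Matrix.det_fin_two_of]
        push_cast
        ring
      rw [Finset.sum_congr rfl fun b _ => h2 b, ← Finset.mul_sum, Finset.sum_sub_distrib,
        ← Finset.sum_mul, ← Finset.sum_mul, hop_apply, hop_apply]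
      by_cases h : q ∣ M
      · simp only [if_pos h, LinearMap.zero_apply, Pi.zero_apply]
        ring
      · have ho : Odd (q : ℤ) := by exact_mod_cast odd_of_level hq hM h
        simp only [if_neg h]
        rw [act_bdS, PS.upS_coe ho one_ne_zero]
        have h3 : ((!![(q : ℤ), 0; 0, 1] : Matrix (Fin 2) (Fin 2) ℤ).det : ℂ) = q := by
          rw [Matrix.det_fin_two_of]
          push_cast
          ring
        rw [h3]
        ring

lemma isHom_zero_of_inC {n : ℕ} {F : ℤ × ℤ → ℂ} (hF : IsHom n F)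
    (h : ∀ u v : ℤ, Odd u → (4 : ℤ) ∣ v → F (u, v) = 0) {w : ℤ × ℤ} (hw : inC w) : F w = 0 := by
  obtain ⟨l, a, c, hl, ha, hc, rfl⟩ := hw
  have h1 := hF l hl (a, c)
  rw [h a c ha hc, mul_zero] at h1
  exact h1

/-- **the kernel**, `n > 0` -/
theorem bdS_eq_zero_iff {M n : ℕ} (hn : n ≠ 0) (F : HF (-(n : ℤ)) M) :
    bdS M n F = 0 ↔ (F : ℤ × ℤ → ℂ) ∈ HOut (-(n : ℤ)) M := by
  constructor
  · intro h
    refine ⟨F.2, fun w hw => isHom_zero_of_inC (isHom_of_mem F.2) ?_ hw⟩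
    have h1 : ∀ x y : PS.Cusp, bval (isHom_of_mem F.2) x = bval (isHom_of_mem F.2) y := by
      intro x y
      ext i
      by_cases hi : i ≤ n
      · have h2 := congrFun (congrFun (congrFun (congrArg Subtype.val h) x) y)
          ⟨i, Nat.lt_succ_of_le hi⟩
        rw [bdS_apply] at h2
        exact sub_eq_zero.1 h2
      · rw [coeff_eq_zero_of_natDegree_lt ((natDegree_bval_le _ x).trans_lt (not_le.1 hi)),
          coeff_eq_zero_of_natDegree_lt ((natDegree_bval_le _ y).trans_lt (not_le.1 hi))]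
    have h2 := h1 (PS.Cusp.mk 1 0 odd_one (by simp)) (PS.Cusp.mk 1 4 odd_one (by simp))
    rw [bval_mk, bval_mk] at h2
    have h3 : F.1 (1, 0) = 0 := by
      have h5 := congrArg (fun P : ℂ[X] => P.eval (1 / 4 : ℂ)) h2
      simp only [dl, eval_mul, eval_C, eval_pow, eval_sub, eval_X] at h5
      push_cast at h5
      rw [zero_mul, sub_zero, one_pow, mul_one] at h5
      rw [h5]
      norm_num [hn]
    intro u v hu hv
    have h4 := h1 (PS.Cusp.mk 1 0 odd_one (by simp)) (PS.Cusp.mk u v hu hv)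
    rw [bval_mk, bval_mk, h3, map_zero, zero_mul] at h4
    have h5 : dl n (u : ℂ) (v : ℂ) ≠ 0 := by
      refine dl_ne_zero n fun h6 => ne_of_odd hu ?_
      exact_mod_cast h6.1
    exact C_eq_zero.1 ((mul_eq_zero.1 h4.symm).resolve_right h5)
  · intro h
    have h1 : ∀ x : PS.Cusp, bval (isHom_of_mem F.2) x = 0 := by
      intro x
      induction x using PS.Cusp.ind' with
      | h u v hu hv =>
        rw [bval_mk, h.2 (u, v) ⟨1, u, v, one_ne_zero, hu, hv, by simp⟩, map_zero, zero_mul]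
    refine Subtype.ext ?_
    funext x y i
    rw [bdS_apply, h1, h1]
    simp

/-- **the kernel**, `n = 0` -/
theorem bdS_zero_eq_zero_iff {M : ℕ} (F : HF (-((0 : ℕ) : ℤ)) M) :
    bdS M 0 F = 0 ↔ ∃ c : ℂ, ∀ v, inC v → (F : ℤ × ℤ → ℂ) v = c := by
  constructor
  · intro h
    refine ⟨F.1 (1, 0), ?_⟩
    rintro w ⟨l, a, c, hl, ha, hc, rfl⟩
    have h1 := F.2.2.1 l hl (a, c)
    have h2 := congrFun (congrFun (congrFun (congrArg Subtype.val h)
      (PS.Cusp.mk a c ha hc)) (PS.Cusp.mk 1 0 odd_one (by simp))) 0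
    rw [bdS_apply, bval_mk, bval_mk] at h2
    have h3 : F.1 (a, c) - F.1 (1, 0) = 0 := by
      simpa [dl] using h2
    rw [h1]
    simp only [Nat.cast_zero, neg_zero, zpow_zero, one_mul]
    exact sub_eq_zero.1 h3
  · rintro ⟨c, hc⟩
    refine Subtype.ext ?_
    funext x y i
    induction x using PS.Cusp.ind' with
    | h u v hu hv =>
      induction y using PS.Cusp.ind' with
      | h u' v' hu' hv' =>
        rw [bdS_apply, bval_mk, bval_mk, hc (u, v) ⟨1, u, v, one_ne_zero, hu, hv, by simp⟩,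
          hc (u', v') ⟨1, u', v', one_ne_zero, hu', hv', by simp⟩]
        simp [dl]

end Gouvea.Cnt
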