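import Pool.Agent.Work.MP_d3517d_nt.PS.Defs

/-!
# The dimension of the space of Manin symbols (MP_d3517d_nt, COUNT (i))

`X M = SL₂(ℤ) / Γ₀(M)`, `4 ∣ M`.  The functions `F : X M → V_n` with `F + S F = 0` and
`F + R F + R² F = 0` form a space of dimension at most `[SL₂(ℤ) : Γ₀(M)] (n + 1) / 6`
(plus one for `n = 0`).
-/

open Matrix CongruenceSubgroup Module
open scoped MatrixGroups

noncomputable section

namespace Gouvea.Cnt

/-- the cosets of `Γ₀(M)` -/
abbrev X (M : ℕ) : Type := SL(2, ℤ) ⧸ Gamma0 M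

/-- the action of `SL₂(ℤ)` on the functions on the cosets with values in `V_n` -/
def rho (M n : ℕ) (h : SL(2, ℤ)) :
    (X M → Fin (n + 1) → ℂ) →ₗ[ℂ] (X M → Fin (n + 1) → ℂ) where
  toFun F x := (PS.slk n ((h⁻¹ : SL(2, ℤ)).1.map (Int.cast : ℤ → ℂ))).mulVec (F (h⁻¹ • x))
  map_add' F G := by
    funext x
    simp only [Pi.add_apply, Matrix.mulVec_add]
  map_smul' c F := by
    funext x
    simp only [Pi.smul_apply, Matrix.mulVec_smul, RingHom.id_apply]

lemma rho_apply (M n : ℕ) (h : SL(2, ℤ)) (F : X M → Fin (n + 1) → ℂ) (x : X M) :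
    rho M n h F x =
      (PS.slk n ((h⁻¹ : SL(2, ℤ)).1.map (Int.cast : ℤ → ℂ))).mulVec (F (h⁻¹ • x)) := rfl

lemma rho_mul (M n : ℕ) (g h : SL(2, ℤ)) (F : X M → Fin (n + 1) → ℂ) :
    rho M n (g * h) F = rho M n g (rho M n h F) := by
  funext x
  rw [rho_apply, rho_apply, rho_apply, Matrix.mulVec_mulVec, ← PS.slk_mul, ← PS.map_cast_mul,
    _root_.mul_inv_rev, mul_smul]
  rfl

lemma rho_one (M n : ℕ) (F : X M → Fin (n + 1) → ℂ) : rho M n 1 F = F := by
  funext x
  have h1 : (1 : SL(2, ℤ)).1.map (Int.cast : ℤ → ℂ) = 1 := by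
    simp
  rw [rho_apply, inv_one, one_smul, h1, PS.slk_one, Matrix.one_mulVec]

lemma neg_one_smul_X (M : ℕ) (x : X M) : (-1 : SL(2, ℤ)) • x = x := by
  induction x using QuotientGroup.induction_on with
  | H g =>
    rw [MulAction.Quotient.smul_mk]
    refine QuotientGroup.eq.2 ?_
    have h1 : ((-1 : SL(2, ℤ)) • g)⁻¹ * g = -1 := by
      rw [smul_eq_mul, neg_one_mul]
      rw [_root_.inv_neg, neg_mul, inv_mul_cancel]
    rw [h1, Gamma0_mem]
    simp

lemma rho_neg_one (M n : ℕ) (hn : Even n) (F : X M → Fin (n + 1) → ℂ) :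
    rho M n (-1) F = F := by
  funext x
  have h0 : (-1 : SL(2, ℤ))⁻¹ = -1 := by
    rw [_root_.inv_neg, inv_one]
  have h1 : (-1 : SL(2, ℤ)).1.map (Int.cast : ℤ → ℂ) = -1 := by
    ext i j
    fin_cases i <;> fin_cases j <;> simp
  rw [rho_apply, h0, neg_one_smul_X, h1, PS.slk_neg n hn, PS.slk_one, Matrix.one_mulVec]

/-- `S = (0 -1; 1 0)` -/
def Sm : SL(2, ℤ) := ⟨!![0, -1; 1, 0], by simp⟩

/-- `R = (1 -1; 1 0)` -/
def Rm : SL(2, ℤ) := ⟨!![1, -1; 1, 0], by simp⟩

lemma Sm_sq : Sm * Sm = -1 := by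
  ext i j
  fin_cases i <;> fin_cases j <;> simp [Sm]

lemma Rm_cube : Rm * (Rm * Rm) = -1 := by
  ext i j
  fin_cases i <;> fin_cases j <;> simp [Rm]


/-- the Manin symbols of level `Γ₀(M)` with values in `V_n` -/
def Man (M n : ℕ) : Submodule ℂ (X M → Fin (n + 1) → ℂ) :=
  LinearMap.ker (1 + rho M n Sm) ⊓ LinearMap.ker (1 + rho M n Rm + rho M n (Rm * Rm))

section Fix

variable {M : ℕ}

/-- if `h` fixes the coset of `g`, then `g⁻¹ h g ∈ Γ₀(M)` -/
lemma mem_of_fix {h g : SL(2, ℤ)} (hx : h • (QuotientGroup.mk g : X M) = QuotientGroup.mk g) :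
    g⁻¹ * h * g ∈ Gamma0 M := by
  rw [MulAction.Quotient.smul_mk] at hx
  have h1 := QuotientGroup.eq.1 hx.symm
  rwa [smul_eq_mul, ← mul_assoc] at h1

/-- an element of `Γ₀(M)`, `4 ∣ M`, has a trace not `≡ 0, ±1` mod `4` -/
lemma trace_ne (hM : 4 ∣ M) {g : SL(2, ℤ)} (hg : g ∈ Gamma0 M) :
    ((Matrix.trace g.1 : ℤ) : ZMod 4) = 2 := by
  rw [Gamma0_mem, ZMod.intCast_zmod_eq_zero_iff_dvd] at hg
  have h4 : (4 : ℤ) ∣ g 1 0 := (Int.natCast_dvd_natCast.2 hM).trans hg
  have h5 : ((g 1 0 : ℤ) : ZMod 4) = 0 := (ZMod.intCast_zmod_eq_zero_iff_dvd _ 4).2 h4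
  have hd := Matrix.SpecialLinearGroup.det_coe g
  rw [Matrix.det_fin_two] at hd
  have h2 := congrArg (Int.cast : ℤ → ZMod 4) hd
  push_cast at h2
  rw [h5, mul_zero, sub_zero] at h2
  rw [Matrix.trace_fin_two]
  push_cast
  generalize ((g.1 0 0 : ℤ) : ZMod 4) = a at *
  generalize ((g.1 1 1 : ℤ) : ZMod 4) = d at *
  revert a d
  decide

lemma trace_conj (g h : SL(2, ℤ)) : Matrix.trace (g⁻¹ * h * g).1 = Matrix.trace h.1 := by
  have h1 : (g⁻¹ * h * g).1 = (g⁻¹ : SL(2, ℤ)).1 * h.1 * g.1 := rfl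
  rw [h1, Matrix.trace_mul_comm, ← Matrix.mul_assoc]
  have h2 : g.1 * (g⁻¹ : SL(2, ℤ)).1 = 1 := by
    have h3 : (g * g⁻¹ : SL(2, ℤ)).1 = 1 := by
      rw [mul_inv_cancel]
      rfl
    exact h3
  rw [h2, Matrix.one_mul]

lemma no_fix (hM : 4 ∣ M) {h : SL(2, ℤ)} (ht : ((Matrix.trace h.1 : ℤ) : ZMod 4) ≠ 2) (x : X M) :
    h • x ≠ x := by
  induction x using QuotientGroup.induction_on with
  | H g =>
    intro hx
    have h1 := trace_ne hM (mem_of_fix hx)
    rw [trace_conj] at h1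
    exact ht h1

end Fix

/-- the trace of `rho h` vanishes if `h` has no fixed point -/
lemma trace_rho (M n : ℕ) [NeZero M] {h : SL(2, ℤ)} (hh : ∀ x : X M, h⁻¹ • x ≠ x) :
    LinearMap.trace ℂ _ (rho M n h) = 0 := by
  classical
  have : Finite (X M) := inferInstance
  have : Fintype (X M) := Fintype.ofFinite _
  rw [LinearMap.trace_eq_matrix_trace ℂ (Pi.basis fun _ : X M => Pi.basisFun ℂ (Fin (n + 1))),
    Matrix.trace]
  refine Finset.sum_eq_zero fun i _ => ?_
  rw [Matrix.diag_apply, LinearMap.toMatrix_apply, Pi.basis_apply, Pi.basis_repr, Pi.basisFun_repr,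
    rho_apply]
  rw [Pi.single_eq_of_ne (hh i.1), Matrix.mulVec_zero]
  rfl


section Dim

variable (M n : ℕ) [NeZero M]

lemma finrank_W : finrank ℂ (X M → Fin (n + 1) → ℂ) = (Gamma0 M).index * (n + 1) := by
  have : Finite (X M) := inferInstance
  have : Fintype (X M) := Fintype.ofFinite _
  rw [Module.finrank_pi_fintype]
  simp only [Module.finrank_fintype_fun_eq_card, Fintype.card_fin, Finset.sum_const,
    Finset.card_univ, smul_eq_mul]
  rw [Subgroup.index, ← Nat.card_eq_fintype_card]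

omit [NeZero M] in
lemma ss (hn : Even n) (F : X M → Fin (n + 1) → ℂ) : rho M n Sm (rho M n Sm F) = F := by
  rw [← rho_mul, Sm_sq, rho_neg_one M n hn]

omit [NeZero M] in
lemma rrr (hn : Even n) (F : X M → Fin (n + 1) → ℂ) :
    rho M n Rm (rho M n (Rm * Rm) F) = F := by
  rw [← rho_mul, Rm_cube, rho_neg_one M n hn]

omit [NeZero M] in
lemma rrr' (hn : Even n) (F : X M → Fin (n + 1) → ℂ) :
    rho M n (Rm * Rm) (rho M n Rm F) = F := by
  rw [← rho_mul, mul_assoc, Rm_cube, rho_neg_one M n hn]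

omit [NeZero M] in
lemma rr (F : X M → Fin (n + 1) → ℂ) : rho M n Rm (rho M n Rm F) = rho M n (Rm * Rm) F := by
  rw [← rho_mul]

omit [NeZero M] in
lemma r4 (hn : Even n) (F : X M → Fin (n + 1) → ℂ) :
    rho M n (Rm * Rm) (rho M n (Rm * Rm) F) = rho M n Rm F := by
  rw [rho_mul M n Rm Rm F, rrr' M n hn]

lemma finrank_A (hM : 4 ∣ M) (hn : Even n) :
    2 * finrank ℂ (LinearMap.ker (1 + rho M n Sm)) = finrank ℂ (X M → Fin (n + 1) → ℂ) := by
  have : Finite (X M) := inferInstance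
  have h1 : LinearMap.IsProj (LinearMap.ker (1 + rho M n Sm))
      ((1 / 2 : ℂ) • (1 - rho M n Sm)) := by
    constructor
    · intro F
      rw [LinearMap.mem_ker]
      simp only [LinearMap.add_apply, LinearMap.smul_apply, LinearMap.sub_apply,
        Module.End.one_apply, map_smul, map_sub, ss M n hn]
      module
    · intro F hF
      rw [LinearMap.mem_ker, LinearMap.add_apply, Module.End.one_apply] at hF
      have h2 : rho M n Sm F = -F := eq_neg_of_add_eq_zero_right hF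
      simp only [LinearMap.smul_apply, LinearMap.sub_apply, Module.End.one_apply, h2]
      module
  have h3 := h1.trace
  have h4 : LinearMap.trace ℂ _ (rho M n Sm) = 0 := by
    refine trace_rho M n fun x hx => ?_
    refine no_fix (h := Sm) hM ?_ x ?_
    · simp [Sm, Matrix.trace_fin_two]
      decide
    · rw [inv_smul_eq_iff] at hx
      exact hx.symm
  rw [map_smul, map_sub, h4, LinearMap.trace_one, sub_zero, smul_eq_mul] at h3
  have h5 : ((2 * finrank ℂ (LinearMap.ker (1 + rho M n Sm)) : ℕ) : ℂ) =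
      (finrank ℂ (X M → Fin (n + 1) → ℂ) : ℂ) := by
    push_cast
    rw [← h3]
    ring
  exact_mod_cast h5

lemma finrank_B (hM : 4 ∣ M) (hn : Even n) :
    3 * finrank ℂ (LinearMap.ker (1 + rho M n Rm + rho M n (Rm * Rm))) =
      2 * finrank ℂ (X M → Fin (n + 1) → ℂ) := by
  have : Finite (X M) := inferInstance
  have h1 : LinearMap.IsProj (LinearMap.ker (1 + rho M n Rm + rho M n (Rm * Rm)))
      ((1 / 3 : ℂ) • ((2 : ℂ) • 1 - rho M n Rm - rho M n (Rm * Rm))) := by
    constructor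
    · intro F
      rw [LinearMap.mem_ker]
      simp only [LinearMap.add_apply, LinearMap.smul_apply, LinearMap.sub_apply,
        Module.End.one_apply, map_smul, map_sub, rr M n, rrr M n hn, rrr' M n hn, r4 M n hn]
      module
    · intro F hF
      rw [LinearMap.mem_ker, LinearMap.add_apply, LinearMap.add_apply, Module.End.one_apply] at hF
      have h2 : rho M n (Rm * Rm) F = -(F + rho M n Rm F) := eq_neg_of_add_eq_zero_right hF
      simp only [LinearMap.smul_apply, LinearMap.sub_apply, Module.End.one_apply, h2]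
      module
  have h3 := h1.trace
  have h4 : LinearMap.trace ℂ _ (rho M n Rm) = 0 := by
    refine trace_rho M n fun x hx => ?_
    refine no_fix (h := Rm) hM ?_ x ?_
    · simp [Rm, Matrix.trace_fin_two]
      decide
    · rw [inv_smul_eq_iff] at hx
      exact hx.symm
  have h4' : LinearMap.trace ℂ _ (rho M n (Rm * Rm)) = 0 := by
    refine trace_rho M n fun x hx => ?_
    refine no_fix (h := Rm * Rm) hM ?_ x ?_
    · simp [Rm, Matrix.trace_fin_two]
      decide
    · rw [inv_smul_eq_iff] at hx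
      exact hx.symm
  rw [map_smul, map_sub, map_sub, map_smul, h4, h4', LinearMap.trace_one, sub_zero, sub_zero,
    smul_eq_mul, smul_eq_mul] at h3
  have h5 : ((3 * finrank ℂ (LinearMap.ker (1 + rho M n Rm + rho M n (Rm * Rm))) : ℕ) : ℂ) =
      ((2 * finrank ℂ (X M → Fin (n + 1) → ℂ) : ℕ) : ℂ) := by
    push_cast
    rw [← h3]
    ring
  exact_mod_cast h5

end Dim


section Quot

variable {M n : ℕ}

/-- the elements which act trivially on the quotient by `D` -/
def triv (M n : ℕ) (D : Submodule ℂ (X M → Fin (n + 1) → ℂ)) : Subgroup SL(2, ℤ) where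
  carrier := {g | ∀ F, F - rho M n g F ∈ D}
  one_mem' F := by
    rw [rho_one, sub_self]
    exact D.zero_mem
  mul_mem' {g h} hg hh F := by
    have h1 := D.add_mem (hh F) (hg (rho M n h F))
    rw [← rho_mul] at h1
    convert h1 using 1
    abel
  inv_mem' {g} hg F := by
    have h1 := D.neg_mem (hg (rho M n g⁻¹ F))
    rw [← rho_mul, mul_inv_cancel, rho_one] at h1
    convert h1 using 1
    abel

lemma triv_top {D : Submodule ℂ (X M → Fin (n + 1) → ℂ)} (hS : Sm ∈ triv M n D)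
    (hR : Rm ∈ triv M n D) : triv M n D = ⊤ := by
  rw [eq_top_iff, ← SpecialLinearGroup.SL2Z_generators, Subgroup.closure_le]
  have h1 : ModularGroup.S = Sm := by
    ext i j
    fin_cases i <;> fin_cases j <;> simp [Sm, ModularGroup.S]
  have h2 : ModularGroup.T * Sm = Rm := by
    ext i j
    fin_cases i <;> fin_cases j <;> simp [Sm, Rm, ModularGroup.T]
  intro g hg
  rcases hg with hg | hg
  · rw [hg, h1]
    exact hS
  · rw [Set.mem_singleton_iff.1 hg]
    have h3 : ModularGroup.T = Rm * Sm⁻¹ := by rw [← h2, mul_inv_cancel_right]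
    rw [h3]
    exact (triv M n D).mul_mem hR ((triv M n D).inv_mem hS)

lemma rho_single [DecidableEq (X M)] (g : SL(2, ℤ)) (x : X M) (v : Fin (n + 1) → ℂ) :
    rho M n g (Pi.single x v) = Pi.single (g • x)
      ((PS.slk n ((g⁻¹ : SL(2, ℤ)).1.map (Int.cast : ℤ → ℂ))).mulVec v) := by
  funext y
  rw [rho_apply]
  by_cases hy : y = g • x
  · rw [hy, inv_smul_smul, Pi.single_eq_same, Pi.single_eq_same]
  · have h1 : g⁻¹ • y ≠ x := fun h => hy (inv_smul_eq_iff.1 h)
    rw [Pi.single_eq_of_ne h1, Pi.single_eq_of_ne hy, Matrix.mulVec_zero]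

/-- the value of a linear map on `X^i` -/
def va {Q : Type*} [AddCommGroup Q] [Module ℂ Q] (l : (Fin (n + 1) → ℂ) →ₗ[ℂ] Q) (i : ℕ) : Q :=
  if h : i < n + 1 then l (Pi.single ⟨i, h⟩ 1) else 0

lemma va_slk {Q : Type*} [AddCommGroup Q] [Module ℂ Q] (l : (Fin (n + 1) → ℂ) →ₗ[ℂ] Q)
    (g : Matrix (Fin 2) (Fin 2) ℂ) (j : ℕ) (hj : j < n + 1) :
    l ((PS.slk n g).mulVec (Pi.single ⟨j, hj⟩ 1)) =
      ∑ i ∈ Finset.range (n + 1), slR n g i j • va l i := by
  classical
  rw [← Fin.sum_univ_eq_sum_range (fun i => slR n g i j • va l i) (n + 1)]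
  have h1 : (PS.slk n g).mulVec (Pi.single ⟨j, hj⟩ 1) =
      ∑ i : Fin (n + 1), slR n g i j • (Pi.single i 1 : Fin (n + 1) → ℂ) := by
    rw [Matrix.mulVec_single_one]
    funext k
    rw [Finset.sum_apply, Finset.sum_eq_single k]
    · simp [Matrix.col_apply]
    · intro b _ hb
      rw [Pi.smul_apply, Pi.single_eq_of_ne hb.symm, smul_zero]
    · simp
  rw [h1, map_sum]
  refine Finset.sum_congr rfl fun i _ => ?_
  rw [map_smul]
  congr 1
  unfold va
  rw [dif_pos i.2]

lemma va_T {Q : Type*} [AddCommGroup Q] [Module ℂ Q] (l : (Fin (n + 1) → ℂ) →ₗ[ℂ] Q)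
    (hT : ∀ v, l ((PS.slk n (!![1, 1; 0, 1] : Matrix (Fin 2) (Fin 2) ℂ)).mulVec v) = l v)
    (i : ℕ) (hi : i < n) : va l i = 0 := by
  induction i using Nat.strong_induction_on with
  | _ i ih =>
    have h1 := hT (Pi.single ⟨i + 1, by omega⟩ 1)
    rw [va_slk] at h1
    have h2 : ∀ m, slR n (!![1, 1; 0, 1] : Matrix (Fin 2) (Fin 2) ℂ) m (i + 1) =
        ((i + 1).choose m : ℂ) := by
      intro m
      simp [slR, Polynomial.coeff_X_add_one_pow]
    have h3 : ∑ m ∈ Finset.range (n + 1), slR n (!![1, 1; 0, 1] : Matrix (Fin 2) (Fin 2) ℂ) m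
        (i + 1) • va l m = (i + 1 : ℂ) • va l i + va l (i + 1) := by
      rw [← Finset.sum_subset (s₁ := {i, i + 1})]
      · rw [Finset.sum_pair (by omega), h2, h2]
        simp
      · intro m hm
        rw [Finset.mem_insert, Finset.mem_singleton] at hm
        rw [Finset.mem_range]
        omega
      · intro m _ hm2
        rw [Finset.mem_insert, Finset.mem_singleton] at hm2
        rcases lt_or_ge m i with h | h
        · rw [ih m h (by omega), smul_zero]
        · rw [h2, Nat.choose_eq_zero_of_lt (by omega), Nat.cast_zero, zero_smul]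
    have h4 : l (Pi.single ⟨i + 1, by omega⟩ 1) = va l (i + 1) := by
      unfold va
      rw [dif_pos]
    rw [h3, h4, add_eq_right] at h1
    have h5 : (i + 1 : ℂ) ≠ 0 := by exact_mod_cast Nat.succ_ne_zero i
    exact (smul_eq_zero.1 h1).resolve_left h5

lemma va_U {Q : Type*} [AddCommGroup Q] [Module ℂ Q] (l : (Fin (n + 1) → ℂ) →ₗ[ℂ] Q)
    {c : ℂ} (hc : c ≠ 0) (hn : n ≠ 0)
    (hT : ∀ v, l ((PS.slk n (!![1, 1; 0, 1] : Matrix (Fin 2) (Fin 2) ℂ)).mulVec v) = l v)
    (hU : ∀ v, l ((PS.slk n (!![1, 0; c, 1] : Matrix (Fin 2) (Fin 2) ℂ)).mulVec v) = l v) :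
    va l n = 0 := by
  obtain ⟨m, rfl⟩ := Nat.exists_eq_succ_of_ne_zero hn
  have h1 := hU (Pi.single ⟨m, by omega⟩ 1)
  rw [va_slk, Finset.sum_range_succ, Finset.sum_eq_zero, zero_add] at h1
  · have h2 : slR (m + 1) (!![1, 0; c, 1] : Matrix (Fin 2) (Fin 2) ℂ) (m + 1) m = c := by
      have h3 : m + 1 - m = 1 := by omega
      rw [slR, h3, pow_one]
      simp only [of_apply, cons_val', cons_val_zero, cons_val_fin_one, cons_val_one, map_one,
        one_mul, map_zero, add_zero]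
      rw [Polynomial.coeff_X_pow_mul', if_pos (by omega)]
      have h4 : m + 1 - m = 1 := by omega
      rw [h4]
      simp [Polynomial.coeff_one]
    have h4 : l (Pi.single ⟨m, by omega⟩ 1) = va l m := by
      unfold va
      rw [dif_pos]
    rw [h2, h4, va_T l hT m (by omega)] at h1
    exact (smul_eq_zero.1 h1).resolve_left hc
  · intro i hi
    rw [Finset.mem_range] at hi
    rw [va_T l hT i hi, smul_zero]


/-- the value at the class of `1` of the quotient map -/
def l0 [DecidableEq (X M)] (D : Submodule ℂ (X M → Fin (n + 1) → ℂ)) :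
    (Fin (n + 1) → ℂ) →ₗ[ℂ] ((X M → Fin (n + 1) → ℂ) ⧸ D) :=
  D.mkQ.comp (LinearMap.single ℂ (fun _ : X M => Fin (n + 1) → ℂ) (QuotientGroup.mk 1))

lemma l0_apply [DecidableEq (X M)] (D : Submodule ℂ (X M → Fin (n + 1) → ℂ))
    (v : Fin (n + 1) → ℂ) : l0 D v = D.mkQ (Pi.single (QuotientGroup.mk 1) v) := rfl

lemma slk_inv (g : SL(2, ℤ)) (v : Fin (n + 1) → ℂ) :
    (PS.slk n ((g⁻¹ : SL(2, ℤ)).1.map (Int.cast : ℤ → ℂ))).mulVec
      ((PS.slk n (g.1.map (Int.cast : ℤ → ℂ))).mulVec v) = v := by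
  rw [Matrix.mulVec_mulVec, ← PS.slk_mul, ← PS.map_cast_mul]
  have h1 : g.1 * (g⁻¹ : SL(2, ℤ)).1 = 1 := by
    have h2 : (g * g⁻¹ : SL(2, ℤ)).1 = 1 := by
      rw [mul_inv_cancel]
      rfl
    exact h2
  rw [h1]
  have h2 : (1 : Matrix (Fin 2) (Fin 2) ℤ).map (Int.cast : ℤ → ℂ) = 1 := by simp
  rw [h2, PS.slk_one, Matrix.one_mulVec]

lemma mkQ_rho {D : Submodule ℂ (X M → Fin (n + 1) → ℂ)} (hD : triv M n D = ⊤) (g : SL(2, ℤ))
    (F : X M → Fin (n + 1) → ℂ) : D.mkQ (rho M n g F) = D.mkQ F := by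
  have h1 : g ∈ triv M n D := by
    rw [hD]
    exact Subgroup.mem_top g
  have h2 := h1 F
  rw [← Submodule.Quotient.mk_eq_zero, Submodule.Quotient.mk_sub, sub_eq_zero] at h2
  exact h2.symm

lemma l0_inv [DecidableEq (X M)] {D : Submodule ℂ (X M → Fin (n + 1) → ℂ)}
    (hD : triv M n D = ⊤) {g : SL(2, ℤ)} (hg : g ∈ Gamma0 M) (v : Fin (n + 1) → ℂ) :
    l0 D ((PS.slk n (g.1.map (Int.cast : ℤ → ℂ))).mulVec v) = l0 D v := by
  rw [l0_apply, ← mkQ_rho hD g, rho_single, slk_inv, l0_apply]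
  congr 2
  rw [MulAction.Quotient.smul_mk]
  refine QuotientGroup.eq.2 ?_
  simpa using hg

lemma l0_surj [DecidableEq (X M)] [NeZero M] {D : Submodule ℂ (X M → Fin (n + 1) → ℂ)}
    (hD : triv M n D = ⊤) : LinearMap.range (l0 D) = ⊤ := by
  have : Finite (X M) := inferInstance
  have : Fintype (X M) := Fintype.ofFinite _
  rw [eq_top_iff]
  rintro q -
  obtain ⟨F, rfl⟩ := D.mkQ_surjective q
  have h1 : F = ∑ x : X M, Pi.single x (F x) := (Finset.univ_sum_single F).symm
  rw [h1, map_sum]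
  refine Submodule.sum_mem _ fun x _ => ?_
  induction x using QuotientGroup.induction_on with
  | H g =>
    have h2 : (QuotientGroup.mk g : X M) = g • (QuotientGroup.mk 1 : X M) := by
      rw [MulAction.Quotient.smul_mk, smul_eq_mul, mul_one]
    have h3 : (Pi.single (QuotientGroup.mk g : X M) (F (QuotientGroup.mk g)) :
        X M → Fin (n + 1) → ℂ) = rho M n g (Pi.single (QuotientGroup.mk 1)
          ((PS.slk n (g.1.map (Int.cast : ℤ → ℂ))).mulVec (F (QuotientGroup.mk g)))) := by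
      rw [rho_single, slk_inv, ← h2]
    rw [h3, mkQ_rho hD]
    exact ⟨_, rfl⟩

/-- the quotient by `D` is zero for `n > 0` and at most a line for `n = 0` -/
lemma finrank_quot_le [NeZero M] {D : Submodule ℂ (X M → Fin (n + 1) → ℂ)}
    (hD : triv M n D = ⊤) :
    finrank ℂ ((X M → Fin (n + 1) → ℂ) ⧸ D) ≤ if n = 0 then 1 else 0 := by
  classical
  have h0 := LinearMap.finrank_range_le (l0 D)
  rw [l0_surj hD, finrank_top, Module.finrank_fintype_fun_eq_card, Fintype.card_fin] at h0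
  split_ifs with hn
  · subst hn
    exact h0
  · have hT : ∀ v, l0 D ((PS.slk n (!![1, 1; 0, 1] : Matrix (Fin 2) (Fin 2) ℂ)).mulVec v) =
        l0 D v := by
      intro v
      have h1 := l0_inv hD (g := ⟨!![1, 1; 0, 1], by simp⟩) (by rw [Gamma0_mem]; simp) v
      have h2 : (!![1, 1; 0, 1] : Matrix (Fin 2) (Fin 2) ℤ).map (Int.cast : ℤ → ℂ) =
          !![1, 1; 0, 1] := by
        ext i j
        fin_cases i <;> fin_cases j <;> simp
      rw [h2] at h1
      exact h1
    have hU : ∀ v, l0 D ((PS.slk n (!![1, 0; (M : ℂ), 1] : Matrix (Fin 2) (Fin 2) ℂ)).mulVec v) =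
        l0 D v := by
      intro v
      have h1 := l0_inv hD (g := ⟨!![1, 0; (M : ℤ), 1], by simp⟩) (by rw [Gamma0_mem]; simp) v
      have h2 : (!![1, 0; (M : ℤ), 1] : Matrix (Fin 2) (Fin 2) ℤ).map (Int.cast : ℤ → ℂ) =
          !![1, 0; (M : ℂ), 1] := by
        ext i j
        fin_cases i <;> fin_cases j <;> simp
      rw [h2] at h1
      exact h1
    have hz : l0 D = 0 := by
      refine LinearMap.pi_ext' fun i => LinearMap.ext_ring ?_
      have h3 : l0 D (Pi.single i 1) = va (l0 D) i := by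
        unfold va
        rw [dif_pos i.2]
      rw [LinearMap.comp_apply, LinearMap.comp_apply, LinearMap.coe_single, h3,
        LinearMap.zero_apply]
      rcases lt_or_eq_of_le (Nat.lt_succ_iff.1 i.2) with h | h
      · exact va_T _ hT i h
      · rw [h]
        exact va_U _ (by exact_mod_cast NeZero.ne M) hn hT hU
    have h4 := l0_surj hD
    rw [hz, LinearMap.range_zero] at h4
    have h5 : finrank ℂ (⊤ : Submodule ℂ ((X M → Fin (n + 1) → ℂ) ⧸ D)) = 0 := by
      rw [← h4, finrank_bot]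
    rw [finrank_top] at h5
    exact h5.le

end Quot

theorem finrank_Man_le (M n : ℕ) [NeZero M] (hM : 4 ∣ M) (hn : Even n) :
    6 * finrank ℂ (Man M n) ≤ (Gamma0 M).index * (n + 1) + if n = 0 then 6 else 0 := by
  have : Finite (X M) := inferInstance
  set A := LinearMap.ker (1 + rho M n Sm) with hA
  set B := LinearMap.ker (1 + rho M n Rm + rho M n (Rm * Rm)) with hB
  have hS : Sm ∈ triv M n (A ⊔ B) := by
    intro F
    refine Submodule.mem_sup_left ?_
    rw [hA, LinearMap.mem_ker, LinearMap.add_apply, Module.End.one_apply, map_sub, ss M n hn]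
    abel
  have hR : Rm ∈ triv M n (A ⊔ B) := by
    intro F
    refine Submodule.mem_sup_right ?_
    rw [hB, LinearMap.mem_ker, LinearMap.add_apply, LinearMap.add_apply, Module.End.one_apply,
      map_sub, map_sub, rr, rrr' M n hn]
    abel
  have h1 := finrank_quot_le (triv_top hS hR)
  have h2 := Submodule.finrank_quotient_add_finrank (A ⊔ B)
  have h3 := Submodule.finrank_sup_add_finrank_inf_eq A B
  have h4 := finrank_A M n hM hn
  have h5 := finrank_B M n hM hn
  rw [← hA] at h4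
  rw [← hB] at h5
  have h6 : Man M n = A ⊓ B := rfl
  rw [h6, ← finrank_W M n]
  split_ifs at h1 ⊢ <;> omega

end Gouvea.Cnt
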