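import Pool.Agent.Work.MP_d3517d_nt.Cnt.ResDefs
import Pool.Agent.Work.MP_d3517d_nt.Cnt.Manin

/-!
# The sum of a homogeneous function over the cosets of `Γ₀(M)` (MP_d3517d_nt, COUNT (W))

`E0 M h = ∑ h(g⁻¹ (1,0))` over the cosets `g Γ₀(M)` of `SL₂(ℤ)`.  There is a function `h` of degree
`2` which vanishes at the cusps `u/v`, `4 ∣ v`, with `E0 M h ≠ 0`.
-/

open CongruenceSubgroup
open scoped MatrixGroups

noncomputable section

namespace Gouvea.Cnt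

/-- the value of `h` at `g⁻¹ (1,0)`, as a function of the coset `g Γ₀(M)` -/
def E0fun (M : ℕ) (h : ℤ × ℤ → ℂ) (x : X M) : ℂ := h (vm (x.out⁻¹ : SL(2, ℤ)).1 (1, 0))

/-- **The sum over the cosets.** -/
def E0 (M : ℕ) (h : ℤ × ℤ → ℂ) : ℂ := ∑ᶠ x : X M, E0fun M h x

lemma HF_vm {e : ℤ} {M : ℕ} {h : ℤ × ℤ → ℂ} (hh : h ∈ HF e M) {g : SL(2, ℤ)} (hg : g ∈ Gamma0 M)
    (v : ℤ × ℤ) : h (vm g.1 v) = h v := hh.2.2 g hg v

lemma HF_smul {e : ℤ} {M : ℕ} {h : ℤ × ℤ → ℂ} (hh : h ∈ HF e M) {l : ℤ} (hl : l ≠ 0)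
    (v : ℤ × ℤ) : h (l * v.1, l * v.2) = (l : ℂ) ^ e * h v := hh.2.1 l hl v

lemma vm_SL_mul (g k : SL(2, ℤ)) (v : ℤ × ℤ) : vm (g * k).1 v = vm g.1 (vm k.1 v) :=
  vm_mul g.1 k.1 v

lemma vm_one_E0 (v : ℤ × ℤ) : vm (1 : SL(2, ℤ)).1 v = v := by
  simp [vm]

/-- `h(g⁻¹ v)` depends only on the coset `g Γ₀(M)`. -/
lemma HF_inv_eq {e : ℤ} {M : ℕ} {h : ℤ × ℤ → ℂ} (hh : h ∈ HF e M) {g k : SL(2, ℤ)}
    (hgk : (QuotientGroup.mk g : X M) = QuotientGroup.mk k) (v : ℤ × ℤ) :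
    h (vm (g⁻¹).1 v) = h (vm (k⁻¹).1 v) := by
  have h1 : g⁻¹ * k ∈ Gamma0 M := QuotientGroup.eq.1 hgk
  have h2 : g⁻¹ = (g⁻¹ * k) * k⁻¹ := by group
  rw [h2, vm_SL_mul, HF_vm hh h1]

lemma E0fun_mk {e : ℤ} {M : ℕ} {h : ℤ × ℤ → ℂ} (hh : h ∈ HF e M) (g : SL(2, ℤ)) :
    E0fun M h (QuotientGroup.mk g) = h (vm (g⁻¹).1 (1, 0)) :=
  HF_inv_eq hh (QuotientGroup.out_eq' _) _

instance finite_X (M : ℕ) [NeZero M] : Finite (X M) := inferInstance

lemma E0_eq_sum (M : ℕ) [Fintype (X M)] (h : ℤ × ℤ → ℂ) : E0 M h = ∑ x : X M, E0fun M h x :=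
  finsum_eq_sum_of_fintype _

/-- the sum over the cosets, as a linear map -/
def E0L (M : ℕ) [NeZero M] : (ℤ × ℤ → ℂ) →ₗ[ℂ] ℂ where
  toFun h := E0 M h
  map_add' h k := by
    have : Fintype (X M) := Fintype.ofFinite _
    simp only [E0_eq_sum, ← Finset.sum_add_distrib]
    rfl
  map_smul' a h := by
    have : Fintype (X M) := Fintype.ofFinite _
    simp only [E0_eq_sum, RingHom.id_apply, smul_eq_mul, Finset.mul_sum]
    rfl

@[simp] lemma E0L_apply (M : ℕ) [NeZero M] (h : ℤ × ℤ → ℂ) : E0L M h = E0 M h := rfl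

lemma E0_add (M : ℕ) [NeZero M] (h k : ℤ × ℤ → ℂ) : E0 M (h + k) = E0 M h + E0 M k :=
  (E0L M).map_add h k

lemma E0_smul (M : ℕ) [NeZero M] (a : ℂ) (h : ℤ × ℤ → ℂ) : E0 M (a • h) = a * E0 M h :=
  (E0L M).map_smul a h

lemma E0_sum (M : ℕ) [NeZero M] {ι : Type*} (s : Finset ι) (h : ι → ℤ × ℤ → ℂ) :
    E0 M (∑ i ∈ s, h i) = ∑ i ∈ s, E0 M (h i) := by
  rw [← E0L_apply, map_sum]
  rfl

/-! ### A function with `E0 ≠ 0` -/

/-- `gcd²` on the vectors `l (a, c)`, `(a, c)` primitive with `c` odd, and `0` on the others -/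
def hodd (v : ℤ × ℤ) : ℂ :=
  if (v.2 / (Int.gcd v.1 v.2 : ℤ)) % 2 = 0 then 0 else ((Int.gcd v.1 v.2 : ℕ) : ℂ) ^ 2

lemma hodd_eq {l a c : ℤ} (hl : l ≠ 0) (hac : IsCoprime a c) :
    hodd (l * a, l * c) = if c % 2 = 0 then 0 else (l : ℂ) ^ 2 := by
  have h1 : Int.gcd (l * a) (l * c) = l.natAbs := by
    rw [Int.gcd_mul_left, Int.isCoprime_iff_gcd_eq_one.1 hac, mul_one]
  have h2 : ((l.natAbs : ℕ) : ℂ) ^ 2 = (l : ℂ) ^ 2 := by
    rcases Int.natAbs_eq l with h3 | h3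
    · have h4 : (l : ℂ) = ((l.natAbs : ℕ) : ℂ) := by
        conv_lhs => rw [h3]
        exact Int.cast_natCast _
      rw [h4]
    · have h4 : (l : ℂ) = -((l.natAbs : ℕ) : ℂ) := by
        conv_lhs => rw [h3]
        rw [Int.cast_neg, Int.cast_natCast]
      rw [h4, neg_sq]
  simp only [hodd]
  rw [h1, h2]
  rcases le_or_gt 0 l with h | h
  · have h3 : ((l.natAbs : ℕ) : ℤ) = l := Int.natAbs_of_nonneg h
    rw [h3, Int.mul_ediv_cancel_left _ hl]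
  · have h3 : ((l.natAbs : ℕ) : ℤ) = -l := by omega
    have h4 : l * c / ((l.natAbs : ℕ) : ℤ) = -c := by
      rw [h3, show l * c = -l * -c by ring, Int.mul_ediv_cancel_left _ (by omega)]
    have h5 : (-c) % 2 = 0 ↔ c % 2 = 0 := by omega
    rw [h4]
    simp only [h5]

lemma hodd_zero : hodd (0, 0) = 0 := by
  simp [hodd]

/-- every vector is `0` or a multiple of a primitive vector -/
lemma exists_prim (v : ℤ × ℤ) :
    v = (0, 0) ∨ ∃ l a c : ℤ, l ≠ 0 ∧ IsCoprime a c ∧ v = (l * a, l * c) := by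
  obtain ⟨x, y⟩ := v
  rcases Nat.eq_zero_or_pos (Int.gcd x y) with h | h
  · left
    obtain ⟨h1, h2⟩ := Int.gcd_eq_zero_iff.1 h
    rw [h1, h2]
  · right
    obtain ⟨a, c, hac, h1, h2⟩ := Int.exists_gcd_one h
    refine ⟨(Int.gcd x y : ℤ), a, c, by positivity, Int.isCoprime_iff_gcd_eq_one.2 hac, ?_⟩
    rw [mul_comm _ a, mul_comm _ c, ← h1, ← h2]

lemma isCoprime_vm (g : SL(2, ℤ)) {a c : ℤ} (h : IsCoprime a c) :
    IsCoprime (vm g.1 (a, c)).1 (vm g.1 (a, c)).2 := by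
  obtain ⟨u, w, huw⟩ := h
  have hd := Matrix.SpecialLinearGroup.det_coe g
  rw [Matrix.det_fin_two] at hd
  refine ⟨u * g.1 1 1 - w * g.1 1 0, w * g.1 0 0 - u * g.1 0 1, ?_⟩
  simp only [vm]
  linear_combination (u * a + w * c) * hd + huw

lemma vm_smul_E0 (g : Matrix (Fin 2) (Fin 2) ℤ) (l a c : ℤ) :
    vm g (l * a, l * c) = (l * (vm g (a, c)).1, l * (vm g (a, c)).2) := by
  simp only [vm]
  refine Prod.ext ?_ ?_ <;> ring

lemma hodd_mem {M : ℕ} (hM : 2 ∣ M) : hodd ∈ HF 2 M := by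
  refine ⟨hodd_zero, fun l hl v => ?_, fun g hg v => ?_⟩
  · rcases exists_prim v with rfl | ⟨k, a, c, hk, hac, rfl⟩
    · simp [hodd_zero]
    · simp only
      rw [← mul_assoc, ← mul_assoc, hodd_eq (mul_ne_zero hl hk) hac, hodd_eq hk hac]
      split_ifs
      · rw [mul_zero]
      · push_cast
        rw [mul_pow]
        norm_cast
  · rcases exists_prim v with rfl | ⟨k, a, c, hk, hac, rfl⟩
    · simp [vm]
    · rw [vm_smul_E0, hodd_eq hk (isCoprime_vm g hac), hodd_eq hk hac]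
      have h1 : (2 : ℤ) ∣ g.1 1 0 := by
        have h2 := Gamma0_mem.1 hg
        rw [ZMod.intCast_zmod_eq_zero_iff_dvd] at h2
        exact (by exact_mod_cast hM : (2 : ℤ) ∣ (M : ℤ)).trans h2
      have hd := Matrix.SpecialLinearGroup.det_coe g
      rw [Matrix.det_fin_two] at hd
      obtain ⟨t, ht⟩ := h1
      have h3 : Odd (g.1 1 1) := by
        by_contra hcon
        rw [Int.not_odd_iff_even] at hcon
        obtain ⟨s, hs⟩ := hcon
        rw [ht, hs] at hd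
        have : (2 : ℤ) ∣ 1 := ⟨g.1 0 0 * s - g.1 0 1 * t, by linear_combination -hd⟩
        omega
      obtain ⟨s, hs⟩ := h3
      have h4 : (vm g.1 (a, c)).2 % 2 = 0 ↔ c % 2 = 0 := by
        have h5 : (vm g.1 (a, c)).2 = 2 * (t * a + s * c) + c := by
          simp only [vm]
          rw [ht, hs]
          ring
        rw [h5]
        omega
      simp only [h4]

lemma hodd_mem_HOut {M : ℕ} (hM : 2 ∣ M) : hodd ∈ HOut 2 M := by
  refine ⟨hodd_mem hM, ?_⟩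
  rintro v ⟨l, a, c, hl, ha, hc, rfl⟩
  rcases exists_prim (l * a, l * c) with h | ⟨k, a', c', hk, hac, h⟩
  · rw [h, hodd_zero]
  · rw [h, hodd_eq hk hac]
    obtain ⟨h1, h2⟩ := Prod.ext_iff.1 h
    simp only at h1 h2
    -- `a c' = a' c`
    have h3 : a * c' = a' * c := by
      have h4 : l * k * (a * c') = l * k * (a' * c) := by
        linear_combination (k * c') * h1 - (k * a') * h2
      exact mul_left_cancel₀ (mul_ne_zero hl hk) h4
    have h5 : c' % 2 = 0 := by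
      obtain ⟨s, hs⟩ := ha
      obtain ⟨t, ht⟩ := hc
      have h6 : c' = 2 * (2 * a' * t - s * c') := by
        rw [hs, ht] at h3
        linear_combination h3
      omega
    rw [if_pos h5]

/-- `hodd` has real nonnegative values -/
lemma hodd_re_nonneg (v : ℤ × ℤ) : ∃ r : ℕ, hodd v = (r : ℂ) := by
  unfold hodd
  split_ifs
  · exact ⟨0, by simp⟩
  · exact ⟨(Int.gcd v.1 v.2) ^ 2, by push_cast; rfl⟩

lemma hodd_one : hodd (0, 1) = 1 := by
  have h1 := hodd_eq (l := 1) (a := 0) (c := 1) one_ne_zero isCoprime_one_right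
  simpa using h1

/-- **There is a function `h` of degree `2` which vanishes at the cusps `u/v`, `4 ∣ v`, with
`E0 M h ≠ 0`.** -/
theorem exists_E0_ne_zero (M : ℕ) [NeZero M] (hM : 2 ∣ M) :
    ∃ h ∈ HOut 2 M, E0 M h ≠ 0 := by
  refine ⟨hodd, hodd_mem_HOut hM, ?_⟩
  have : Fintype (X M) := Fintype.ofFinite _
  choose r hr using hodd_re_nonneg
  rw [E0_eq_sum]
  have h1 : ∑ x : X M, E0fun M hodd x =
      ((∑ x : X M, r (vm (x.out⁻¹ : SL(2, ℤ)).1 (1, 0)) : ℕ) : ℂ) := by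
    push_cast
    exact Finset.sum_congr rfl fun x _ => hr _
  rw [h1, Nat.cast_ne_zero]
  have h2 : r (vm (((QuotientGroup.mk Sm⁻¹ : X M).out)⁻¹ : SL(2, ℤ)).1 (1, 0)) = 1 := by
    have h3 := E0fun_mk (hodd_mem hM) (M := M) Sm⁻¹
    rw [inv_inv] at h3
    have h4 : vm Sm.1 (1, 0) = (0, 1) := by
      simp [vm, Sm]
    rw [h4, hodd_one] at h3
    have h5 := hr (vm (((QuotientGroup.mk Sm⁻¹ : X M).out)⁻¹ : SL(2, ℤ)).1 (1, 0))
    have h6 : ((r (vm (((QuotientGroup.mk Sm⁻¹ : X M).out)⁻¹ : SL(2, ℤ)).1 (1, 0)) : ℕ) : ℂ) =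
        ((1 : ℕ) : ℂ) := by
      rw [← h5, Nat.cast_one]
      exact h3
    exact_mod_cast h6
  have h7 := Finset.single_le_sum
    (f := fun x : X M => r (vm (x.out⁻¹ : SL(2, ℤ)).1 (1, 0))) (fun x _ => Nat.zero_le _)
    (Finset.mem_univ (QuotientGroup.mk Sm⁻¹ : X M))
  simp only [h2] at h7
  omega

end Gouvea.Cnt
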