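import Pool.Agent.Work.MP_d3517d_nt.Stmt
import Pool.Agent.Work.MP_d3517d_nt.ES.DimUpper

/-!
# The dimension of the space of cusp forms of weight two, from below (MP_d3517d_nt)

`0 → S_2 → S_6 × S_8 → S_12`, `f ↦ (E₄ f, -E₆ f)`, `(g, h) ↦ E₆ g + E₄ h`, is exact, and the image
of the last map is killed by the trace to level one, which does not vanish on `Δ`.
-/

set_option autoImplicit false

open UpperHalfPlane ModularForm CongruenceSubgroup Matrix Matrix.SpecialLinearGroup
  EisensteinSeries SlashInvariantFormClass Filter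
open scoped MatrixGroups ModularForm Manifold Topology Pointwise

noncomputable section

namespace Gouvea.Cnt

open Pool.Agent.Gouv.ESDim

variable {M : ℕ}

/-- multiplication by a modular form of level one -/
def mulE {a : ℤ} (E : ModularForm 𝒮ℒ a) {k m : ℤ} (h : k + a = m) :
    CuspForm (Gam0 M) k →ₗ[ℂ] CuspForm (Gam0 M) m where
  toFun g := CuspForm.mcast h (g.mulModularForm (restrict (coe_le_SL (Gamma0 M)) E))
  map_add' x y := by
    ext z
    exact add_mul _ _ _
  map_smul' c x := by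
    ext z
    exact mul_assoc _ _ _

lemma mulE_apply {a : ℤ} (E : ModularForm 𝒮ℒ a) {k m : ℤ} (h : k + a = m)
    (g : CuspForm (Gam0 M) k) (z : ℍ) : mulE E h g z = g z * E z := rfl

lemma slash_one {k : ℤ} (E : ModularForm 𝒮ℒ k) (γ : SL(2, ℤ)) :
    ((E : ℍ → ℂ) ∣[k] γ) = E := E.slash_action_eq' _ ⟨γ, rfl⟩

/-- the trace to level one -/
def trC (M : ℕ) [NeZero M] (k : ℤ) : CuspForm (Gam0 M) k →ₗ[ℂ] CuspForm 𝒮ℒ k where
  toFun f := CuspForm.trace 𝒮ℒ f
  map_add' f g := by
    ext z
    have : ∀ q : QQ (Gamma0 M), SlashInvariantForm.quotientFunc (f + g) q =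
        SlashInvariantForm.quotientFunc f q + SlashInvariantForm.quotientFunc g q := by
      intro q
      induction q using Quotient.inductionOn with
      | h r => simp [SlashInvariantForm.quotientFunc_mk]
    simp only [CuspForm.coe_trace, this, FunLike.coe_add, Pi.add_apply, Finset.sum_add_distrib]
  map_smul' c f := by
    ext z
    have : ∀ q : QQ (Gamma0 M), SlashInvariantForm.quotientFunc (c • f) q =
        c • SlashInvariantForm.quotientFunc f q := by
      intro q
      induction q using Quotient.inductionOn with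
      | h r =>
        obtain ⟨_, γ, rfl⟩ := r
        simp only [SlashInvariantForm.quotientFunc_mk, FunLike.coe_smul]
        rw [← map_inv]
        exact SL_smul_slash _ _ _ _
    simp only [CuspForm.coe_trace, this, FunLike.coe_smul, RingHom.id_apply, Finset.smul_sum]

lemma trC_coe [NeZero M] {k : ℤ} (f : CuspForm (Gam0 M) k) [Fintype (QQ (Gamma0 M))] :
    (trC M k f : ℍ → ℂ) = ∑ q : QQ (Gamma0 M), SlashInvariantForm.quotientFunc f q := by
  change (CuspForm.trace 𝒮ℒ f : ℍ → ℂ) = _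
  rw [CuspForm.coe_trace]
  refine Finset.sum_congr ?_ fun _ _ => rfl
  ext
  simp

lemma quotientFunc_mulE {a k m : ℤ} (E : ModularForm 𝒮ℒ a) (h : k + a = m)
    (g : CuspForm (Gam0 M) k) (q : QQ (Gamma0 M)) :
    SlashInvariantForm.quotientFunc (mulE E h g) q =
      SlashInvariantForm.quotientFunc g q * E := by
  subst h
  induction q using Quotient.inductionOn with
  | h r =>
    obtain ⟨_, γ, rfl⟩ := r
    simp only [SlashInvariantForm.quotientFunc_mk]
    rw [← map_inv]
    change ((g : ℍ → ℂ) * (E : ℍ → ℂ)) ∣[k + a] (γ⁻¹ : SL(2, ℤ)) =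
      ((g : ℍ → ℂ) ∣[k] (γ⁻¹ : SL(2, ℤ))) * (E : ℍ → ℂ)
    rw [mul_slash_SL2, slash_one]

/-- the trace is linear over the forms of level one -/
lemma trC_mulE [NeZero M] {a k m : ℤ} (E : ModularForm 𝒮ℒ a) (h : k + a = m)
    (g : CuspForm (Gam0 M) k) (z : ℍ) : trC M m (mulE E h g) z = trC M k g z * E z := by
  classical
  have := Fintype.ofFinite (QQ (Gamma0 M))
  rw [trC_coe, trC_coe]
  simp only [quotientFunc_mulE, Finset.sum_apply, Pi.mul_apply, Finset.sum_mul]

lemma level_one_zero {k : ℤ} (hk : k < 12) (f : CuspForm 𝒮ℒ k) : f = 0 :=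
  rank_zero_iff_forall_zero.mp (CuspForm.rank_eq_zero_of_weight_lt_twelve hk) f

/-- `Δ` as a form of level `M` -/
def dM (M : ℕ) : CuspForm (Gam0 M) 12 :=
  crestrict (coe_le_SL (Gamma0 M)) CuspForm.discriminant

lemma trC_dM [NeZero M] : trC M 12 (dM M) ≠ 0 := by
  classical
  have := Fintype.ofFinite (QQ (Gamma0 M))
  intro h
  have h1 : (trC M 12 (dM M) : ℍ → ℂ) I = 0 := by rw [h]; rfl
  rw [trC_coe] at h1
  have h2 : ∀ q : QQ (Gamma0 M), SlashInvariantForm.quotientFunc (dM M) q =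
      ModularForm.discriminant := by
    intro q
    induction q using Quotient.inductionOn with
    | h r =>
      obtain ⟨_, γ, rfl⟩ := r
      simp only [SlashInvariantForm.quotientFunc_mk]
      rw [← map_inv]
      exact CuspForm.discriminant.slash_action_eq' _ ⟨γ⁻¹, rfl⟩
  simp only [h2, Finset.sum_const, Finset.card_univ, nsmul_eq_mul, Pi.mul_apply] at h1
  rcases mul_eq_zero.mp h1 with h3 | h3
  · have h4 : (Fintype.card (QQ (Gamma0 M)) : ℂ) = 0 := by simp at h3
    have : Nonempty (QQ (Gamma0 M)) := ⟨Quotient.mk _ 1⟩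
    exact Fintype.card_ne_zero (Nat.cast_eq_zero.mp h4)
  · exact discriminant_ne_zero I h3

lemma tendsto_E₄ : Tendsto (E₄ : ℍ → ℂ) atImInfty (𝓝 1) := by
  have hanal := ModularFormClass.analyticAt_cuspFunction_zero E₄ one_pos one_mem_strictPeriods_SL
  have hper := periodic_comp_ofComplex E₄ one_mem_strictPeriods_SL
  have h1 : cuspFunction 1 E₄ 0 = 1 := by
    rw [cuspFunction_apply_zero one_pos hanal hper, ← qExpansion_coeff_zero one_pos hanal hper]
    exact E_qExpansion_coeff_zero _ ⟨2, rfl⟩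
  rw [← h1]
  exact (hanal.continuousAt.tendsto.comp (qParam_tendsto_atImInfty one_pos)).congr
    (fun τ ↦ SlashInvariantFormClass.eq_cuspFunction E₄ τ one_mem_strictPeriods_SL one_ne_zero)

/-- division by `Δ` of a cusp form of weight `14` -/
def divF (N : CuspForm (Gam0 M) 14) (g : CuspForm (Gam0 M) 6)
    (h : ∀ z, N z / ModularForm.discriminant z * E₄ z = g z) : CuspForm (Gam0 M) 2 where
  toFun z := N z / ModularForm.discriminant z
  slash_action_eq' := by
    rintro _ ⟨γ, hγ, rfl⟩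
    change ((N : ℍ → ℂ) / (CuspForm.discriminant : ℍ → ℂ)) ∣[(14 : ℤ) - 12] γ =
      (N : ℍ → ℂ) / (CuspForm.discriminant : ℍ → ℂ)
    rw [div_slash_SL2]
    congr 1
    · exact N.slash_action_eq' _ ⟨γ, hγ, rfl⟩
    · exact CuspForm.discriminant.slash_action_eq' _ ⟨γ, rfl⟩
  holo' := N.holo'.div CuspForm.discriminant.holo' discriminant_ne_zero
  zero_at_cusps' := by
    intro c hc
    have hc' : IsCusp c 𝒮ℒ := hc.mono (coe_le_SL (Gamma0 M))
    rw [OnePoint.isZeroAt_iff_forall_SL2Z hc']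
    intro γ hγ
    have h1 : IsZeroAtImInfty ((g : ℍ → ℂ) ∣[(6 : ℤ)] γ) :=
      (OnePoint.isZeroAt_iff_forall_SL2Z hc').mp (g.zero_at_cusps' hc) γ hγ
    have h2 : ((fun z => N z / ModularForm.discriminant z) * (E₄ : ℍ → ℂ)) = (g : ℍ → ℂ) :=
      funext h
    have h3 : ((g : ℍ → ℂ) ∣[(6 : ℤ)] γ) =
        ((fun z => N z / ModularForm.discriminant z) ∣[(2 : ℤ)] γ) * (E₄ : ℍ → ℂ) := by
      rw [← h2]
      change ((fun z => N z / ModularForm.discriminant z) * (E₄ : ℍ → ℂ)) ∣[(2 : ℤ) + 4] γ = _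
      rw [mul_slash_SL2, slash_one]
    have h4 : Tendsto (fun z => ((g : ℍ → ℂ) ∣[(6 : ℤ)] γ) z / E₄ z) atImInfty (𝓝 0) := by
      have := (show Tendsto ((g : ℍ → ℂ) ∣[(6 : ℤ)] γ) atImInfty (𝓝 0) from h1).div
        tendsto_E₄ one_ne_zero
      rwa [zero_div] at this
    refine h4.congr' ?_
    filter_upwards [tendsto_E₄.eventually_ne one_ne_zero] with z hz
    rw [h3, Pi.mul_apply, mul_div_assoc, div_self hz, mul_one]

lemma divF_apply (N : CuspForm (Gam0 M) 14) (g : CuspForm (Gam0 M) 6)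
    (h : ∀ z, N z / ModularForm.discriminant z * E₄ z = g z) (z : ℍ) :
    divF N g h z = N z / ModularForm.discriminant z := rfl

/-- `(g, h) ↦ E₆ g + E₄ h` -/
def alp (M : ℕ) : Cusp M 6 × Cusp M 8 →ₗ[ℂ] Cusp M 12 :=
  (mulE E₆ (by norm_num)).coprod (mulE E₄ (by norm_num))

lemma alp_apply (g : Cusp M 6) (h : Cusp M 8) (z : ℍ) :
    alp M (g, h) z = g z * E₆ z + h z * E₄ z := rfl

/-- `f ↦ (E₄ f, -E₆ f)` -/
def kap (M : ℕ) : Cusp M 2 →ₗ[ℂ] Cusp M 6 × Cusp M 8 :=
  (mulE E₄ (by norm_num)).prod (-mulE E₆ (by norm_num))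

lemma kap_fst (f : Cusp M 2) (z : ℍ) : (kap M f).1 z = f z * E₄ z := rfl

lemma kap_snd (f : Cusp M 2) (z : ℍ) : (kap M f).2 z = -(f z * E₆ z) := rfl

/-- **exactness in the middle** -/
theorem ker_alp_le : LinearMap.ker (alp M) ≤ LinearMap.range (kap M) := by
  rintro ⟨g, h⟩ hgh
  have h0 : ∀ z, g z * E₆ z + h z * E₄ z = 0 := fun z => by
    rw [← alp_apply, LinearMap.mem_ker.mp hgh]
    rfl
  set N : CuspForm (Gam0 M) 14 := (1 / 1728 : ℂ) •
    (mulE (k := 10) E₄ (by norm_num) (mulE (k := 6) E₄ (by norm_num) g) +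
      mulE (k := 8) E₆ (by norm_num) h) with hN
  have hNz : ∀ z, N z = (g z * E₄ z * E₄ z + h z * E₆ z) / 1728 := by
    intro z
    have : N z = (1 / 1728 : ℂ) * (g z * E₄ z * E₄ z + h z * E₆ z) := rfl
    rw [this]
    ring
  have hD : ∀ z : ℍ, 1728 * ModularForm.discriminant z = E₄ z ^ 3 - E₆ z ^ 2 := by
    intro z
    rw [discriminant_eq_E₄_cube_sub_E₆_sq]
    ring
  have hg : ∀ z, N z / ModularForm.discriminant z * E₄ z = g z := by
    intro z
    have hz := discriminant_ne_zero z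
    rw [div_mul_eq_mul_div, div_eq_iff hz, hNz]
    have e1 := hD z
    have e2 := h0 z
    linear_combination (g z / 1728) * e1 * (-1) + (E₆ z / 1728) * e2
  have hh : ∀ z, -(N z / ModularForm.discriminant z * E₆ z) = h z := by
    intro z
    have hz := discriminant_ne_zero z
    rw [div_mul_eq_mul_div, neg_eq_iff_eq_neg, div_eq_iff hz, hNz]
    have e1 := hD z
    have e2 := h0 z
    linear_combination (h z / 1728) * e1 + (E₄ z ^ 2 / 1728) * e2
  refine ⟨divF N g hg, Prod.ext ?_ ?_⟩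
  · ext z
    exact hg z
  · ext z
    exact hh z

/-- the image of `alp` is killed by the trace to level one -/
theorem range_alp_le [NeZero M] : LinearMap.range (alp M) ≤ LinearMap.ker (trC M 12) := by
  rintro _ ⟨⟨g, h⟩, rfl⟩
  rw [LinearMap.mem_ker]
  have h1 : alp M (g, h) = mulE (k := 6) E₆ (by norm_num) g + mulE (k := 8) E₄ (by norm_num) h :=
    rfl
  rw [h1]
  ext z
  rw [map_add, FunLike.coe_add, Pi.add_apply, trC_mulE, trC_mulE,
    level_one_zero (by norm_num) (trC M 6 g), level_one_zero (by norm_num) (trC M 8 h)]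
  simp

instance finite_cusp (M k : ℕ) [NeZero M] : FiniteDimensional ℂ (Cusp M k) :=
  finite_cuspForm M (k : ℤ)

/-- **The dimension of the cusp forms of weight two, from below.** -/
theorem wt2 (M : ℕ) [NeZero M] :
    Module.finrank ℂ (Cusp M 6) + Module.finrank ℂ (Cusp M 8) + 1 ≤
      Module.finrank ℂ (Cusp M 2) + Module.finrank ℂ (Cusp M 12) := by
  have h1 := (alp M).finrank_range_add_finrank_ker
  rw [Module.finrank_prod] at h1
  have h2 : Module.finrank ℂ (LinearMap.ker (alp M)) ≤ Module.finrank ℂ (Cusp M 2) :=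
    (Submodule.finrank_mono ker_alp_le).trans (LinearMap.finrank_range_le _)
  have h3 : Module.finrank ℂ (LinearMap.range (alp M)) < Module.finrank ℂ (Cusp M 12) := by
    refine Submodule.finrank_lt ?_
    intro h
    have h4 : dM M ∈ LinearMap.range (alp M) := h ▸ Submodule.mem_top
    exact trC_dM (range_alp_le h4)
  omega

end Gouvea.Cnt
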