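import Pool.Agent.Work.MP_d3517d_nt.Cnt.BdS
import Pool.Agent.Work.MP_d3517d_nt.P5.HeckeU
import Pool.Agent.Work.MP_d3517d_nt.ES.DescLin

/-!
# The Hecke ring on homogeneous functions (cell COUNT, MP_d3517d_nt)
-/

open Finset CongruenceSubgroup MvPolynomial
open scoped MatrixGroups

noncomputable section

namespace Gouvea.Cnt

open Gouvea.Desc

/-- the action of the upper triangular matrices on the functions on vectors -/
theorem uactF : PX.UAct (fun _ => True)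
    (fun (a b d : ℤ) (F : ℤ × ℤ → ℂ) (v : ℤ × ℤ) => F (vm !![a, b; 0, d] v)) where
  one' := trivial
  add _ _ _ _ _ _ _ := rfl
  zero _ _ _ _ _ := rfl
  mul a b d a' b' d' _ _ _ _ F := by
    funext v
    change F (vm !![a, b; 0, d] (vm !![a', b'; 0, d'] v)) =
      F (vm !![a * a', a * b' + b * d'; 0, d * d'] v)
    rw [← vm_mul]
    congr 2
    ext i j
    fin_cases i <;> fin_cases j <;> simp [Matrix.mul_apply, Fin.sum_univ_two]

lemma hop_eq_Uop {M q : ℕ} (h : q ∣ M) (F : ℤ × ℤ → ℂ) : hop M q F = PX.Uop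
    (fun (a b d : ℤ) (F : ℤ × ℤ → ℂ) (v : ℤ × ℤ) => F (vm !![a, b; 0, d] v)) q F := by
  funext v
  change ∑ b ∈ range q, F (vm !![1, (b : ℤ); 0, (q : ℤ)] v) + (if q ∣ M then 0 else _) = _
  rw [if_pos h, add_zero, PX.Uop, Finset.sum_apply]

lemma hop_eq_Top {M q : ℕ} (h : ¬ q ∣ M) (F : ℤ × ℤ → ℂ) : hop M q F = PX.Top
    (fun (a b d : ℤ) (F : ℤ × ℤ → ℂ) (v : ℤ × ℤ) => F (vm !![a, b; 0, d] v)) q F := by
  funext v
  change ∑ b ∈ range q, F (vm !![1, (b : ℤ); 0, (q : ℤ)] v) + (if q ∣ M then 0 else _) = _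
  rw [if_neg h, PX.Top, PX.Uop, Pi.add_apply, Finset.sum_apply]
  rfl

lemma HF_trans {e : ℤ} {M : ℕ} {F : ℤ × ℤ → ℂ} (hF : F ∈ HF e M) :
    (fun v : ℤ × ℤ => F (vm !![1, 1; 0, 1] v)) = F := by
  funext v
  let g : SL(2, ℤ) := ⟨!![1, 1; 0, 1], by rw [Matrix.det_fin_two_of]; norm_num⟩
  have hg : g ∈ Gamma0 M := by
    rw [Gamma0_mem]
    simp [g]
  exact hF.2.2 g hg v

/-- the operators commute -/
theorem hop_comm {e : ℤ} {M q r : ℕ} (hq : q.Prime) (hr : r.Prime) {F : ℤ × ℤ → ℂ}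
    (hF : F ∈ HF e M) : hop M q (hop M r F) = hop M r (hop M q F) := by
  by_cases hqr : q = r
  · rw [hqr]
  have hcop : Nat.Coprime q r := (Nat.coprime_primes hq hr).2 hqr
  have hu := uactF
  have hx := HF_trans hF
  by_cases h1 : q ∣ M
  · by_cases h2 : r ∣ M
    · simp only [hop_eq_Uop h1, hop_eq_Uop h2]
      exact hu.Uop_comm q r hq.pos hr.pos F
    · simp only [hop_eq_Uop h1, hop_eq_Top h2]
      exact (hu.Top_Uop_comm hx r q hr.pos trivial hq.pos hcop.symm).symm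
  · by_cases h2 : r ∣ M
    · simp only [hop_eq_Top h1, hop_eq_Uop h2]
      exact hu.Top_Uop_comm hx q r hq.pos trivial hr.pos hcop
    · simp only [hop_eq_Top h1, hop_eq_Top h2]
      exact hu.Top_comm hx q r hq.pos hr.pos trivial trivial hcop

theorem hopF_comm {e : ℤ} {M : ℕ} {q r : ℕ} (hq : q.Prime) (hr : r.Prime) :
    Commute (hopF e M hq) (hopF e M hr) := by
  refine LinearMap.ext fun F => Subtype.ext ?_
  exact hop_comm hq hr F.2

/-- the Hecke ring on the homogeneous functions, `T_q` acting by `s q • hop M q` -/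
def rhoH (e : ℤ) (M : ℕ) (s : Nat.Primes → ℂ) :
    MvPolynomial Nat.Primes ℤ →+* Module.End ℂ (HF e M) :=
  comEval (fun q => s q • hopF e M q.2) fun q r =>
    ((hopF_comm q.2 r.2).smul_right _).smul_left _

theorem rhoH_X (e : ℤ) (M : ℕ) (s : Nat.Primes → ℂ) (q : Nat.Primes) :
    rhoH e M s (X q) = s q • hopF e M q.2 := comEval_X _ _ _

end Gouvea.Cnt
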