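import Pool.Agent.Work.MP_d3517d_nt.Cnt.BdF
import Pool.Agent.Work.MP_d3517d_nt.Cnt.BdS

/-!
# Restrictions of boundary symbols are the partial boundary symbols (cell COUNT, MP_d3517d_nt)
-/

open Polynomial CongruenceSubgroup
open scoped MatrixGroups

noncomputable section

namespace Gouvea.Cnt

open Gouvea.ES Gouvea.Theta

/-- the restriction of the boundary symbol of `F` is `bdS F` -/
theorem rst_bdHF_eq (n M : ℕ) (hn : Even n) (F : HF (-(n : ℤ)) M) :
    rst n M ⟨(bdHF n M hn F).1, BF_le n M (bdHF n M hn F).2⟩ = bdS M n F := by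
  refine Subtype.ext (funext fun x => funext fun y => funext fun i => ?_)
  induction x using PS.Cusp.ind' with
  | h u v hu hv =>
    induction y using PS.Cusp.ind' with
    | h u' v' hu' hv' =>
      rw [rst_bdHF n M hn F hu hv hu' hv' i, bdS_apply, bval_mk, bval_mk, coeff_sub]

/-- the restrictions of the full boundary symbols are the partial boundary symbols -/
theorem map_rst_BF (n M : ℕ) [NeZero M] (hn : Even n) :
    ((BF n M).comap (SF n M).subtype).map (rst n M) = LinearMap.range (bdS M n) := by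
  refine le_antisymm ?_ ?_
  · rintro _ ⟨φ, hφ, rfl⟩
    obtain ⟨F, hF⟩ := bdHF_surjective n M hn ⟨φ.1, hφ⟩
    refine ⟨F, ?_⟩
    rw [← rst_bdHF_eq n M hn F]
    have h1 : (bdHF n M hn F).1 = φ.1 := congrArg Subtype.val hF
    exact congrArg (rst n M) (Subtype.ext h1)
  · rintro _ ⟨F, rfl⟩
    refine ⟨⟨(bdHF n M hn F).1, BF_le n M (bdHF n M hn F).2⟩, (bdHF n M hn F).2, ?_⟩
    exact rst_bdHF_eq n M hn F

end Gouvea.Cnt
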