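import Pool.Agent.Work.MP_d3517d_nt.Cnt.Defs
import Pool.Agent.Work.MP_d3517d_nt.Cnt.Manin

/-!
# The full modular symbols embed in the Manin symbols (cell COUNT, MP_d3517d_nt)

`φ ↦ F`, `F (g Γ₀(M))` = the coefficients of `(φ | g⁻¹)(0, ∞)`.  The map is injective because the
Farey graph is connected.
-/

open Polynomial CongruenceSubgroup OnePoint Matrix
open scoped MatrixGroups

noncomputable section

namespace Gouvea.Cnt

open Gouvea.ES Gouvea.Theta

/-- the matrix `(a b; c d)` of determinant `1` -/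
def mk2 (a b c d : ℤ) (h : a * d - b * c = 1) : SL(2, ℤ) :=
  ⟨!![a, b; c, d], by rw [Matrix.det_fin_two_of]; exact h⟩

lemma mapGL_smul_infty (g : SL(2, ℤ)) :
    (SpecialLinearGroup.mapGL ℚ g) • (∞ : OnePoint ℚ) =
      if g.1 1 0 = 0 then ∞ else (((g.1 0 0 : ℚ) / (g.1 1 0 : ℚ) : ℚ) : OnePoint ℚ) := by
  rw [smul_infty_eq_ite]
  simp

lemma mapGL_smul_zero (g : SL(2, ℤ)) :
    (SpecialLinearGroup.mapGL ℚ g) • ((0 : ℚ) : OnePoint ℚ) =
      if g.1 1 1 = 0 then ∞ else (((g.1 0 1 : ℚ) / (g.1 1 1 : ℚ) : ℚ) : OnePoint ℚ) := by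
  rw [smul_some_eq_ite]
  simp

/-- **The Farey graph is connected.** -/
theorem farey_induction (P : OnePoint ℚ → Prop) (h0 : P ∞)
    (he : ∀ g : SL(2, ℤ), P ((SpecialLinearGroup.mapGL ℚ g) • ((0 : ℚ) : OnePoint ℚ)) →
      P ((SpecialLinearGroup.mapGL ℚ g) • (∞ : OnePoint ℚ))) : ∀ x, P x := by
  have key : ∀ n : ℕ, ∀ r : ℚ, r.den = n → P (r : OnePoint ℚ) := by
    intro n
    induction n using Nat.strong_induction_on with
    | _ n ih =>
      intro r hr
      have hq : (0 : ℤ) < r.den := by exact_mod_cast r.den_pos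
      have hco : IsCoprime r.num (r.den : ℤ) := by
        rw [Int.isCoprime_iff_gcd_eq_one]
        exact r.reduced
      obtain ⟨u, v, huv⟩ := hco
      obtain ⟨q, hqdef⟩ : ∃ q : ℤ, q = (r.den : ℤ) := ⟨_, rfl⟩
      rw [← hqdef] at hq huv
      obtain ⟨d, hd⟩ : ∃ d : ℤ, d = u % q := ⟨_, rfl⟩
      obtain ⟨b, hb⟩ : ∃ b : ℤ, b = -(v + r.num * (u / q)) := ⟨_, rfl⟩
      have hdet : r.num * d - b * q = 1 := by
        have := Int.emod_add_mul_ediv u q
        rw [hb, hd]
        linear_combination huv + r.num * this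
      have hd0 : 0 ≤ d := hd ▸ Int.emod_nonneg _ hq.ne'
      have hdq : d < q := hd ▸ Int.emod_lt_of_pos _ hq
      have h1 := he (mk2 r.num b q d hdet)
      rw [mapGL_smul_infty, mapGL_smul_zero] at h1
      have e1 : (mk2 r.num b q d hdet).1 1 0 = q := rfl
      have e2 : (mk2 r.num b q d hdet).1 0 0 = r.num := rfl
      have e3 : (mk2 r.num b q d hdet).1 1 1 = d := rfl
      have e4 : (mk2 r.num b q d hdet).1 0 1 = b := rfl
      rw [e1, e2, e3, e4, if_neg hq.ne'] at h1
      have e5 : ((r.num : ℚ) / (q : ℚ)) = r := by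
        rw [hqdef]
        exact_mod_cast Rat.num_div_den r
      rw [e5] at h1
      apply h1
      split_ifs with h2
      · exact h0
      · have hdpos : 0 < d := lt_of_le_of_ne hd0 (Ne.symm h2)
        refine ih _ ?_ _ rfl
        have : (((b : ℚ) / (d : ℚ)).den : ℤ) ∣ d := by
          have := Rat.den_dvd b d
          rwa [Rat.divInt_eq_div] at this
        have h3 := Int.le_of_dvd hdpos this
        have : ((((b : ℚ) / (d : ℚ)).den : ℕ) : ℤ) < r.den := lt_of_le_of_lt h3 (hqdef ▸ hdq)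
        rw [← hr]
        exact_mod_cast this
  intro x
  induction x using OnePoint.rec with
  | infty => exact h0
  | coe r => exact key _ r rfl


/-- the cusp `0` -/
abbrev c0 : OnePoint ℚ := ((0 : ℚ) : OnePoint ℚ)

/-- the Manin symbol of a full modular symbol -/
def toX (n M : ℕ) (φ : Symb) : X M → Fin (n + 1) → ℂ :=
  fun x i => (fact n (sQ (x.out)⁻¹) φ c0 ∞).coeff i

lemma toX_mk {n M : ℕ} {φ : Symb} (h : FSM n M φ) (g : SL(2, ℤ)) (i : Fin (n + 1)) :
    toX n M φ (QuotientGroup.mk g) i = (fact n (sQ g⁻¹) φ c0 ∞).coeff i := by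
  obtain ⟨γ, hγ⟩ := QuotientGroup.mk_out_eq_mul (Gamma0 M) g
  have e : fact n (sQ ((QuotientGroup.mk g : X M).out)⁻¹) φ = fact n (sQ g⁻¹) φ := by
    rw [hγ, _root_.mul_inv_rev, sQ, map_mul, ← fact_fact]
    congr 1
    exact h.inv _ (inv_mem γ.2)
  rw [toX, e]

lemma fact_add {n : ℕ} {φ : Symb} (h : ∀ x y z, φ x y + φ y z = φ x z) (g : GQ)
    (x y z : OnePoint ℚ) : fact n g φ x y + fact n g φ y z = fact n g φ x z := by
  rw [fact, fact, fact, ← map_add, h]

lemma slashM_cancel (n : ℕ) (h : SL(2, ℤ)) {P : ℂ[X]} (hP : P.natDegree ≤ n) :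
    slashM n (matOf ℂ (sQ h⁻¹)) (slashM n (matOf ℂ (sQ h)) P) = P := by
  rw [slashM_slashM, ← matOf_mul, ← map_mul, mul_inv_cancel, map_one, matOf_one]
  exact slashM_one n P (mem_degreeLE.2 (degree_le_of_natDegree_le hP))

lemma rho_toX {n M : ℕ} {φ : Symb} (h : FSM n M φ) (a g : SL(2, ℤ)) (i : Fin (n + 1)) :
    rho M n a (toX n M φ) (QuotientGroup.mk g) i =
      ((fact n (sQ g⁻¹) φ) (sQ a • c0) (sQ a • ∞)).coeff i := by
  rw [rho_apply, MulAction.Quotient.smul_mk]
  have e1 : toX n M φ (QuotientGroup.mk (a⁻¹ • g)) =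
      fun i : Fin (n + 1) => (slashM n (matOf ℂ (sQ a))
        ((fact n (sQ g⁻¹) φ) (sQ a • c0) (sQ a • ∞))).coeff i := by
    funext j
    rw [toX_mk h, smul_eq_mul, _root_.mul_inv_rev, inv_inv, sQ, map_mul, ← fact_fact]
    rfl
  rw [e1, ← matOf_sQ, ← PS.coeff_slashM_eq, slashM_cancel]
  exact natDegree_slashM_le n _ _

lemma sQ_Sm_zero : sQ Sm • c0 = ∞ := by
  rw [sQ, c0, mapGL_smul_zero]
  simp [Sm]

lemma sQ_Sm_infty : sQ Sm • (∞ : OnePoint ℚ) = c0 := by
  rw [sQ, c0, mapGL_smul_infty]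
  simp [Sm]

lemma sQ_Rm_zero : sQ Rm • c0 = ∞ := by
  rw [sQ, c0, mapGL_smul_zero]
  simp [Rm]

lemma sQ_Rm_infty : sQ Rm • (∞ : OnePoint ℚ) = ((1 : ℚ) : OnePoint ℚ) := by
  rw [sQ, mapGL_smul_infty]
  simp [Rm]

lemma sQ_RR_zero : sQ (Rm * Rm) • c0 = ((1 : ℚ) : OnePoint ℚ) := by
  rw [sQ, map_mul, mul_smul]
  exact (congrArg _ sQ_Rm_zero).trans sQ_Rm_infty

lemma sQ_RR_infty : sQ (Rm * Rm) • (∞ : OnePoint ℚ) = c0 := by
  rw [sQ, mapGL_smul_infty]
  simp [Rm]

lemma toX_mem {n M : ℕ} {φ : Symb} (h : FSM n M φ) : toX n M φ ∈ Man M n := by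
  refine Submodule.mem_inf.2 ⟨?_, ?_⟩
  · rw [LinearMap.mem_ker]
    funext x i
    induction x using QuotientGroup.induction_on with
    | H g =>
      rw [LinearMap.add_apply, Module.End.one_apply, Pi.add_apply, Pi.add_apply, rho_toX h,
        toX_mk h, sQ_Sm_zero, sQ_Sm_infty, ← coeff_add, fact_add h.add]
      have := fact_add h.add (sQ g⁻¹) c0 c0 c0 (n := n)
      rw [add_eq_left] at this
      rw [this]
      rfl
  · rw [LinearMap.mem_ker]
    funext x i
    induction x using QuotientGroup.induction_on with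
    | H g =>
      rw [LinearMap.add_apply, LinearMap.add_apply, Module.End.one_apply, Pi.add_apply,
        Pi.add_apply, Pi.add_apply, Pi.add_apply, rho_toX h, rho_toX h,
        toX_mk h, sQ_Rm_zero, sQ_Rm_infty, sQ_RR_zero, sQ_RR_infty, ← coeff_add,
        fact_add h.add, ← coeff_add, fact_add h.add]
      have := fact_add h.add (sQ g⁻¹) c0 c0 c0 (n := n)
      rw [add_eq_left] at this
      rw [this]
      rfl

/-- the Manin symbol as a linear map -/
def toMan (n M : ℕ) : SF n M →ₗ[ℂ] Man M n where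
  toFun φ := ⟨toX n M φ.1, toX_mem φ.2⟩
  map_add' φ ψ := by
    refine Subtype.ext ?_
    funext x i
    show (fact n (sQ (x.out)⁻¹) (φ.1 + ψ.1) c0 ∞).coeff i = _
    rw [← factL_apply, map_add]
    rfl
  map_smul' a φ := by
    refine Subtype.ext ?_
    funext x i
    show (fact n (sQ (x.out)⁻¹) (a • φ.1) c0 ∞).coeff i = _
    rw [← factL_apply, _root_.map_smul]
    rfl

theorem toMan_injective (n M : ℕ) : Function.Injective (toMan n M) := by
  rw [injective_iff_map_eq_zero]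
  rintro ⟨φ, hφ⟩ h
  have hF : FSM n M φ := hφ
  have h0 : toX n M φ = 0 := congrArg Subtype.val h
  have hed : ∀ g : SL(2, ℤ), φ (sQ g • c0) (sQ g • ∞) = 0 := by
    intro g
    have h1 : fact n (sQ g) φ c0 ∞ = 0 := by
      ext j
      by_cases hj : j ≤ n
      · have h2 := toX_mk hF g⁻¹ ⟨j, Nat.lt_succ_of_le hj⟩
        rw [inv_inv, h0] at h2
        exact h2.symm
      · rw [coeff_zero]
        exact coeff_eq_zero_of_natDegree_lt ((natDegree_slashM_le n _ _).trans_lt (by omega))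
    have h3 := slashM_cancel n g (hF.deg (sQ g • c0) (sQ g • ∞))
    rw [fact] at h1
    rw [h1, map_zero] at h3
    exact h3.symm
  have hself : ∀ x, φ x x = 0 := by
    intro x
    have := hF.add x x x
    rwa [add_eq_left] at this
  have hinf : ∀ x, φ ∞ x = 0 := by
    refine farey_induction (fun x => φ ∞ x = 0) (hself ∞) ?_
    intro g hg
    have h1 := hF.add ∞ (sQ g • c0) (sQ g • ∞)
    rw [hed g, add_zero] at h1
    exact h1.symm.trans hg
  refine Subtype.ext ?_
  funext x y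
  have h1 := hF.add x ∞ y
  have h2 := hF.add ∞ x ∞
  rw [hinf x, hinf ∞, zero_add] at h2
  rw [h2, hinf y, add_zero] at h1
  exact h1.symm

theorem exists_inj (n M : ℕ) : ∃ L : SF n M →ₗ[ℂ] Man M n, Function.Injective L :=
  ⟨toMan n M, toMan_injective n M⟩

instance (n M : ℕ) [NeZero M] : FiniteDimensional ℂ (Man M n) := by
  have : Finite (X M) := inferInstance
  infer_instance

instance finiteDimensional_SF (n M : ℕ) [NeZero M] : FiniteDimensional ℂ (SF n M) :=
  FiniteDimensional.of_injective (toMan n M) (toMan_injective n M)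

/-- **The upper bound of the dimension of the space of full modular symbols.** -/
theorem finrank_SF_le {n M : ℕ} [NeZero M] (hM : 4 ∣ M) (hn : Even n) :
    6 * Module.finrank ℂ (SF n M) ≤ (Gamma0 M).index * (n + 1) + if n = 0 then 6 else 0 :=
  le_trans (Nat.mul_le_mul_left 6
    (LinearMap.finrank_le_finrank_of_injective (toMan_injective n M))) (finrank_Man_le M n hM hn)

end Gouvea.Cnt
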