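import Pool.Agent.Work.MP_d3517d_nt.Cnt.ResDefs
import Pool.Agent.Work.MP_d3517d_nt.PS.Rep
import Mathlib.GroupTheory.Transfer

/-!
# The residue theorem in weight two (MP_d3517d_nt, exact Eichler–Shimura, cell COUNT)

For `ψ` a partial symbol of weight `2` the map `γ ↦ ψ(∞, γ ∞)` is a homomorphism
`Γ₀(M) → ℂ`. Its transfer to `SL₂(ℤ)` vanishes (the abelianisation of `SL₂(ℤ)` is finite), and the
value of the transfer at `T^M` is `M` times the sum of the residues.
-/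

open Polynomial CongruenceSubgroup
open scoped MatrixGroups

noncomputable section

namespace Gouvea.Cnt

open Gouvea.ES Gouvea.Theta

namespace TwoA

/-- `slk 0 g` is the identity -/
lemma slk_zero (g : Matrix (Fin 2) (Fin 2) ℂ) : PS.slk 0 g = 1 := by
  ext i j
  have hi : i = 0 := Fin.ext (by omega)
  have hj : j = 0 := Fin.ext (by omega)
  subst hi hj
  rw [PS.slk_apply]
  simp [slR]

/-- in weight two the symbols are invariant functions -/
lemma sym_inv {M : ℕ} {ψ : PS.Cusp → PS.Cusp → Fin (0 + 1) → ℂ} (h : ψ ∈ PS.Sym ℂ M 0)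
    {g : PS.S4} (hg : PS.IsG0 M g) (x y : PS.Cusp) : ψ (g • x) (g • y) = ψ x y := by
  have h1 := congrFun (congrFun (h.2 g hg) x) y
  rw [PS.act_apply, slk_zero, Matrix.one_mulVec] at h1
  exact h1

lemma ofG0_mul {M : ℕ} (hM : 4 ∣ M) (g h : Gamma0 M) :
    PS.ofG0 hM (g * h : Gamma0 M).1 (g * h : Gamma0 M).2 =
      PS.ofG0 hM g.1 g.2 * PS.ofG0 hM h.1 h.2 := by
  refine Subtype.ext ?_
  rfl

/-- the homomorphism `γ ↦ ψ(∞, γ ∞)` -/
def lam {M : ℕ} (hM : 4 ∣ M) {ψ : PS.Cusp → PS.Cusp → Fin (0 + 1) → ℂ} (h : ψ ∈ PS.Sym ℂ M 0) :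
    Gamma0 M →* Multiplicative ℂ where
  toFun g := Multiplicative.ofAdd (ψ PS.inf (PS.ofG0 hM g.1 g.2 • PS.inf) 0)
  map_one' := by
    have h1 : PS.ofG0 hM (1 : Gamma0 M).1 (1 : Gamma0 M).2 = 1 := Subtype.ext rfl
    rw [h1, one_smul]
    have h2 := congrFun (h.1 PS.inf PS.inf PS.inf) 0
    rw [Pi.add_apply] at h2
    have h3 : ψ PS.inf PS.inf 0 = 0 := by simpa using h2
    rw [h3, ofAdd_zero]
  map_mul' g k := by
    rw [← ofAdd_add, ofG0_mul, mul_smul]
    congr 1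
    have h1 := congrFun (h.1 PS.inf (PS.ofG0 hM g.1 g.2 • PS.inf)
      (PS.ofG0 hM g.1 g.2 • PS.ofG0 hM k.1 k.2 • PS.inf)) 0
    rw [Pi.add_apply, sym_inv h (PS.isG0_ofG0 hM g.1 g.2)] at h1
    exact h1.symm

/-- homomorphisms from `SL₂(ℤ)` to `ℂ` vanish on `T` -/
lemma hom_T (f : SL(2, ℤ) →* Multiplicative ℂ) : f ModularGroup.T = 1 := by
  have hS : f ModularGroup.S = 1 := by
    have h1 : ModularGroup.S ^ 4 = 1 := by
      ext i j
      fin_cases i <;> fin_cases j <;> simp [ModularGroup.S, pow_succ, Matrix.mul_apply,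
        Fin.sum_univ_two]
    have h2 : (f ModularGroup.S) ^ 4 = 1 := by rw [← map_pow, h1, map_one]
    have h3 : (4 : ℂ) * Multiplicative.toAdd (f ModularGroup.S) = 0 := by
      have := congrArg Multiplicative.toAdd h2
      rw [toAdd_pow, toAdd_one, nsmul_eq_mul] at this
      exact_mod_cast this
    have h4 : Multiplicative.toAdd (f ModularGroup.S) = 0 :=
      (mul_eq_zero.1 h3).resolve_left (by norm_num)
    exact Multiplicative.toAdd.injective h4
  have hST : f (ModularGroup.S * ModularGroup.T) = 1 := by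
    have h1 : (ModularGroup.S * ModularGroup.T) ^ 6 = 1 := by
      ext i j
      fin_cases i <;> fin_cases j <;> simp [ModularGroup.S, ModularGroup.T, pow_succ,
        Matrix.mul_apply, Fin.sum_univ_two]
    have h2 : (f (ModularGroup.S * ModularGroup.T)) ^ 6 = 1 := by rw [← map_pow, h1, map_one]
    have h3 : (6 : ℂ) * Multiplicative.toAdd (f (ModularGroup.S * ModularGroup.T)) = 0 := by
      have := congrArg Multiplicative.toAdd h2
      rw [toAdd_pow, toAdd_one, nsmul_eq_mul] at this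
      exact_mod_cast this
    have h4 : Multiplicative.toAdd (f (ModularGroup.S * ModularGroup.T)) = 0 :=
      (mul_eq_zero.1 h3).resolve_left (by norm_num)
    exact Multiplicative.toAdd.injective h4
  rw [map_mul, hS, one_mul] at hST
  exact hST

/-- the conjugates of `T^M` are the parabolic matrices `par w M` -/
lemma conj_eq (M : ℕ) (g : SL(2, ℤ)) :
    (g⁻¹ * ModularGroup.T ^ M * g).1 = par (vm (g⁻¹).1 (1, 0)) M := by
  have hT : (ModularGroup.T ^ M).1 = !![1, (M : ℤ); 0, 1] := by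
    have := ModularGroup.coe_T_zpow (M : ℤ)
    rw [zpow_natCast] at this
    exact this
  have hd : g.1 0 0 * g.1 1 1 - g.1 0 1 * g.1 1 0 = 1 := by
    have := g.2
    rwa [Matrix.det_fin_two] at this
  have hi : (g⁻¹).1 = !![g.1 1 1, -g.1 0 1; -g.1 1 0, g.1 0 0] := by
    rw [Matrix.SpecialLinearGroup.SL2_inv_expl]
    rfl
  have hm : (g⁻¹ * ModularGroup.T ^ M * g).1 = (g⁻¹).1 * (ModularGroup.T ^ M).1 * g.1 := rfl
  rw [hm, hi, hT]
  ext i j
  fin_cases i <;> fin_cases j <;>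
    simp [par, vm, Matrix.mul_apply, Fin.sum_univ_two]
  · linear_combination hd
  · ring
  · ring
  · linear_combination hd

/-- `T^M` lies in every conjugate of `Γ₀(M)` -/
lemma conj_mem (M : ℕ) (g : SL(2, ℤ)) : g⁻¹ * ModularGroup.T ^ M * g ∈ Gamma0 M := by
  rw [Gamma0_mem]
  have h := congrFun (congrFun (conj_eq M g) 1) 0
  change ((((g⁻¹ * ModularGroup.T ^ M * g).1 1 0 : ℤ)) : ZMod M) = 0
  rw [h]
  simp [par]

/-- `T^M` fixes the cosets of `Γ₀(M)` -/
lemma T_smul (M : ℕ) (x : SL(2, ℤ) ⧸ Gamma0 M) : (ModularGroup.T ^ M) • x = x := by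
  induction x using QuotientGroup.induction_on with
  | H g =>
    rw [MulAction.Quotient.smul_mk, QuotientGroup.eq]
    have h := inv_mem (conj_mem M g)
    simpa [mul_assoc] using h

/-- the value of the homomorphism at a conjugate of `T^M` is `M` times the residue -/
lemma lam_conj {M : ℕ} [NeZero M] (hM : 4 ∣ M) {ψ : PS.Cusp → PS.Cusp → Fin (0 + 1) → ℂ}
    (h : ψ ∈ PS.Sym ℂ M 0) (g : SL(2, ℤ)) :
    Multiplicative.toAdd (lam hM h ⟨g⁻¹ * ModularGroup.T ^ M * g, conj_mem M g⟩) =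
      M * res M 0 ψ (vm (g⁻¹).1 (1, 0)) := by
  have hM0 : (M : ℂ) ≠ 0 := Nat.cast_ne_zero.2 (NeZero.ne M)
  have h1 : PS.ofG0 hM (g⁻¹ * ModularGroup.T ^ M * g) (conj_mem M g) =
      parS (vm (g⁻¹).1 (1, 0)) ((M / 4 : ℕ) : ℤ) := by
    refine Subtype.ext ?_
    have h2 : (4 : ℤ) * ((M / 4 : ℕ) : ℤ) = M := by
      have := Nat.mul_div_cancel' hM
      exact_mod_cast this
    rw [parS_coe, h2, ← conj_eq]
    rfl
  rw [res, ← mul_assoc, mul_inv_cancel₀ hM0, one_mul, hev]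
  change ψ PS.inf (PS.ofG0 hM (g⁻¹ * ModularGroup.T ^ M * g) (conj_mem M g) • PS.inf) 0 = _
  rw [h1]
  simp

/-- **The residue theorem.** -/
theorem sum_res {M : ℕ} [NeZero M] (hM : 4 ∣ M) [Fintype (SL(2, ℤ) ⧸ Gamma0 M)]
    (ψ : PS.Sym ℂ M 0) :
    ∑ x : SL(2, ℤ) ⧸ Gamma0 M, res M 0 (ψ : PS.Cusp → PS.Cusp → Fin (0 + 1) → ℂ)
      (vm (x.out⁻¹).1 (1, 0)) = 0 := by
  have hM0 : (M : ℂ) ≠ 0 := Nat.cast_ne_zero.2 (NeZero.ne M)
  set lm := lam hM ψ.2
  -- the transfer vanishes at `T^M`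
  have h1 : MonoidHom.transfer lm (ModularGroup.T ^ M) = 1 := by
    rw [map_pow, hom_T, one_pow]
  let T0 : (Gamma0 M).LeftTransversal :=
    ⟨Set.range Quotient.out, Subgroup.isComplement_range_left Quotient.out_eq'⟩
  have hT0 : ∀ q : SL(2, ℤ) ⧸ Gamma0 M, (T0.2.leftQuotientEquiv q : SL(2, ℤ)) = q.out :=
    fun q => Subgroup.IsComplement.leftQuotientEquiv_apply (f := Quotient.out)
      Quotient.out_eq' q
  rw [MonoidHom.transfer_def lm T0] at h1
  have h2 : ∑ x : SL(2, ℤ) ⧸ Gamma0 M, Multiplicative.toAdd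
      (lm ⟨x.out⁻¹ * ModularGroup.T ^ M * x.out, conj_mem M x.out⟩) = 0 := by
    have h3 := congrArg Multiplicative.toAdd h1
    rw [toAdd_one, Subgroup.leftTransversals.diff] at h3
    rw [← h3, toAdd_prod]
    have h4 : ∀ x : SL(2, ℤ) ⧸ Gamma0 M, (((ModularGroup.T ^ M) • T0).2.leftQuotientEquiv x :
        SL(2, ℤ)) = ModularGroup.T ^ M * x.out := fun x => by
      rw [Subgroup.smul_apply_eq_smul_apply_inv_smul, inv_smul_eq_iff.2 (T_smul M x).symm, hT0,
        smul_eq_mul]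
    refine Finset.sum_congr (by ext; simp) fun x _ => ?_
    congr 2
    refine Subtype.ext ?_
    change _ = (T0.2.leftQuotientEquiv x : SL(2, ℤ))⁻¹ *
      (((ModularGroup.T ^ M) • T0).2.leftQuotientEquiv x : SL(2, ℤ))
    rw [h4, hT0]
    exact mul_assoc _ _ _
  rw [Finset.sum_congr rfl fun x _ => lam_conj hM ψ.2 x.out, ← Finset.mul_sum] at h2
  exact (mul_eq_zero.1 h2).resolve_left hM0

end TwoA

end Gouvea.Cnt
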