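import Pool.Agent.Work.MP_d3517d_nt.Cnt.Ext
import Pool.Agent.Work.MP_d3517d_nt.Cnt.BdJoin
import Pool.Agent.Work.MP_d3517d_nt.Cnt.Inj
import Pool.Agent.Work.MP_d3517d_nt.Cnt.Wt2
import Pool.Agent.Work.MP_d3517d_nt.Cnt.TwoA
import Pool.Agent.Work.MP_d3517d_nt.ES.ThetaMain
import Pool.Agent.Work.MP_d3517d_nt.ES.InjWtTwo

/-!
# The exact counts (MP_d3517d_nt, exact Eichler–Shimura)
-/

open Polynomial CongruenceSubgroup Module
open scoped MatrixGroups

noncomputable section

namespace Gouvea.Cnt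

open Gouvea.ES Gouvea.Theta

variable {n M : ℕ}

/-- full symbols have no residues -/
theorem res_rst [NeZero M] (hM : 4 ∣ M) (φ : SF n M) : res M n (rst n M φ).1 = 0 := by
  funext w
  by_cases hw : w = (0, 0)
  · rw [hw]
    exact (res_mem hM (rst n M φ)).1.1
  have hMd : (M : ℤ) ∣ 4 * ((M / 4 : ℕ) : ℤ) := by
    obtain ⟨m, rfl⟩ := hM
    rw [Nat.mul_div_cancel_left m (by norm_num)]
    exact ⟨1, by push_cast; ring⟩
  set g : PS.S4 := parS w ((M / 4 : ℕ) : ℤ) with hg
  have hgG : PS.IsG0 M g := isG0_parS M w hMd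
  have hself : vm g.1 w = w := Res.vm_par_self w _
  have hfix : sQ (toSL hgG) • pt w = pt w := by
    rw [← pt_vm (toSL hgG) hw]
    exact congrArg pt hself
  obtain ⟨h1, h2, h3⟩ := φ.2
  let cf : ℂ[X] → Fin (n + 1) → ℂ := fun P i => P.coeff i
  have hcf : ∀ P Q : ℂ[X], cf (P + Q) = cf P + cf Q := fun P Q => by
    funext i
    exact coeff_add _ _ _
  have hcf0 : cf 0 = 0 := by
    funext i
    exact coeff_zero _
  have hself0 : ∀ x, φ.1 x x = 0 := fun x => by
    have := h2 x x x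
    simpa using this
  have hinv : slashM n (matOf ℂ (sQ (toSL hgG))) (φ.1 (pt w) (sQ (toSL hgG) • OnePoint.infty)) =
      φ.1 (pt w) OnePoint.infty := by
    have h4 := congrFun (congrFun (h3 _ (toSL_mem hgG)) (pt w)) OnePoint.infty
    rw [fact] at h4
    change slashM n (matOf ℂ (sQ (toSL hgG))) (φ.1 (sQ (toSL hgG) • pt w)
      (sQ (toSL hgG) • OnePoint.infty)) = _ at h4
    rwa [hfix] at h4
  have hslk : cf (φ.1 (pt w) OnePoint.infty) = (PS.slk n (g.1.map (Int.cast : ℤ → ℂ))).mulVec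
      (cf (φ.1 (pt w) (sQ (toSL hgG) • OnePoint.infty))) := by
    rw [← hinv]
    funext i
    change (slashM n (matOf ℂ (sQ (toSL hgG))) _).coeff (i : ℕ) = _
    rw [show matOf ℂ (sQ (toSL hgG)) = g.1.map (Int.cast : ℤ → ℂ) from matOf_sQ _,
      PS.coeff_slashM_eq]
  have hev1 : hev n (cf (φ.1 (pt w) (sQ (toSL hgG) • OnePoint.infty))) w =
      hev n (cf (φ.1 (pt w) OnePoint.infty)) w := by
    rw [hslk, hev_slk, hself]
  have key : hev n (cf (φ.1 OnePoint.infty (sQ (toSL hgG) • OnePoint.infty))) w = 0 := by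
    rw [← h2 OnePoint.infty (pt w) (sQ (toSL hgG) • OnePoint.infty), hcf, hev_add, hev1,
      ← hev_add, ← hcf, h2, hself0, hcf0, hev_zero]
  rw [res]
  have e : (rst n M φ).1 PS.inf (g • PS.inf) =
      cf (φ.1 OnePoint.infty (sQ (toSL hgG) • OnePoint.infty)) := by
    funext i
    change (φ.1 (toP PS.inf) (toP (g • PS.inf))).coeff i = _
    rw [toP_smul, toP_inf, ← sQ_toSL hgG]
  change (M : ℂ)⁻¹ * hev n ((rst n M φ).1 PS.inf (g • PS.inf)) w = _
  rw [e, key, mul_zero]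
  rfl

/-- **The partial symbols without residues are the restrictions of full symbols.** -/
theorem ker_resL [NeZero M] (hM : 4 ∣ M) (hn : Even n) :
    LinearMap.ker (resL M n) = LinearMap.range (rst n M) := by
  ext ψ
  rw [LinearMap.mem_ker, LinearMap.mem_range, resL_apply]
  constructor
  · exact exists_ext hM hn ψ
  · rintro ⟨φ, rfl⟩
    exact res_rst hM φ

/-! ### Cusp forms and boundary symbols -/

lemma gQ_epsM : gQ epsM = ES.eps := by
  ext i j
  rw [gQ_apply, epsM_coe]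
  fin_cases i <;> fin_cases j <;> simp [ES.eps, triQ]

/-- the full symbol of a cusp form -/
def symFu [NeZero M] (f : Gouvea.Cusp M (n + 2)) : SF n M := ⟨sym n f, FSM_sym f⟩

/-- `ε` on full symbols -/
def epsFu (φ : SF n M) : SF n M := ⟨fact n ES.eps φ.1, FSM.eps φ.2⟩

lemma rst_symFu [NeZero M] (f : Gouvea.Cusp M (n + 2)) : rst n M (symFu f) = symL' M n f := rfl

lemma rst_epsFu (φ : SF n M) : rst n M (epsFu φ) = epsL M n (rst n M φ) := by
  refine Subtype.ext ?_
  change rstFun n (fact n ES.eps φ.1) = epsS ℂ n (rstFun n φ.1)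
  rw [epsS, act_rstFun, gQ_epsM]

lemma ESmap_eq_rst [NeZero M] (f g : Gouvea.Cusp M (n + 2)) :
    ESmap M n (f, g) = rst n M (symFu (f + g) + epsFu (symFu (f - g))) := by
  rw [ESmap_apply, map_add, rst_epsFu, rst_symFu, rst_symFu, map_add, map_sub, map_sub]
  abel

theorem range_ESmap_le [NeZero M] : LinearMap.range (ESmap M n) ≤ LinearMap.range (rst n M) := by
  rintro _ ⟨⟨f, g⟩, rfl⟩
  exact ⟨_, (ESmap_eq_rst f g).symm⟩

theorem range_bdS_le [NeZero M] (hn : Even n) :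
    LinearMap.range (bdS M n) ≤ LinearMap.range (rst n M) := by
  rw [← map_rst_BF n M hn]
  rintro _ ⟨φ, -, rfl⟩
  exact ⟨φ, rfl⟩

theorem range_rst_le [NeZero M] (hn : Even n) (hn2 : 2 ≤ n) :
    LinearMap.range (rst n M) ≤ LinearMap.range (ESmap M n) ⊔ LinearMap.range (bdS M n) := by
  rintro _ ⟨φ, rfl⟩
  obtain ⟨f, g, h⟩ := exists_decomp hn2 hn φ.2
  have h1 : IsBdry n M (φ - symFu f - epsFu (symFu g) : SF n M).1 := h
  have h2 : rst n M (φ - symFu f - epsFu (symFu g)) ∈ LinearMap.range (bdS M n) := by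
    rw [← map_rst_BF n M hn]
    exact ⟨_, h1, rfl⟩
  have h3 : rst n M φ = ESmap M n ((2 : ℂ)⁻¹ • (f + g), (2 : ℂ)⁻¹ • (f - g)) +
      rst n M (φ - symFu f - epsFu (symFu g)) := by
    rw [ESmap_apply, map_sub, map_sub, rst_epsFu, rst_symFu, rst_symFu]
    simp only [map_smul, map_add, map_sub]
    module
  rw [h3]
  exact Submodule.add_mem_sup ⟨_, rfl⟩ h2

theorem disjoint_ES_bd [NeZero M] (hM : 4 ∣ M) (hn : Even n) (hn2 : 2 ≤ n) :
    Disjoint (LinearMap.range (ESmap M n)) (LinearMap.range (bdS M n)) := by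
  rw [Submodule.disjoint_def]
  rintro _ ⟨⟨f, g⟩, rfl⟩ ⟨F, hF⟩
  rw [ESmap_eq_rst, ← rst_bdHF_eq n M hn F] at hF
  set φ : SF n M := symFu (f + g) + epsFu (symFu (f - g)) with hφ
  set β : SF n M := ⟨(bdHF n M hn F).1, BF_le n M (bdHF n M hn F).2⟩ with hβ
  have h1 : rst n M (φ - β) = 0 := by rw [map_sub, hF, sub_self]
  have h2 := mem_BF_of_rst hM h1
  have h3 : φ.1 ∈ BF n M := by
    have h4 : φ.1 = (φ - β).1 + β.1 := by
      rw [Submodule.coe_sub, sub_add_cancel]
    rw [h4]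
    exact add_mem h2 (bdHF n M hn F).2
  obtain ⟨h5, h6⟩ := eq_zero_of_isBdry hn2 hn (f := f + g) (g := f - g) h3
  have h7 : f = 0 := by
    have h8 : (2 : ℂ) • f = 0 := by
      have h9 : (2 : ℂ) • f = (f + g) + (f - g) := by
        rw [two_smul]
        abel
      rw [h9, h5, h6, add_zero]
    exact (smul_eq_zero.1 h8).resolve_left two_ne_zero
  have h8 : g = 0 := by
    rw [h7, zero_add] at h5
    exact h5
  rw [h7, h8]
  exact map_zero _

/-! ### The counts -/

theorem finrank_range_rst [NeZero M] (hM : 4 ∣ M) (hn : Even n) {e : ℤ} (he : Even e) :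
    finrank ℂ (LinearMap.range (rst n M)) + finrank ℂ (HOut e M) = finrank ℂ (SF n M) := by
  rw [← finrank_ker_rst he n M hM hn]
  exact LinearMap.finrank_range_add_finrank_ker (rst n M)

theorem finrank_range_resL [NeZero M] (hM : 4 ∣ M) (hn : Even n) {e : ℤ} (he : Even e) :
    finrank ℂ (LinearMap.range (resL M n)) + finrank ℂ (SF n M) =
      finrank ℂ (PS.Sym ℂ M n) + finrank ℂ (HOut e M) := by
  have := finiteDimensional_Sym ℂ M n hn
  have h1 := LinearMap.finrank_range_add_finrank_ker (resL M n)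
  rw [ker_resL hM hn] at h1
  have h2 := finrank_range_rst (n := n) hM hn he
  omega

theorem range_resL_le [NeZero M] (hM : 4 ∣ M) :
    LinearMap.range (resL M n) ≤ HOut (n + 2) M := by
  rintro _ ⟨ψ, rfl⟩
  exact res_mem hM ψ

lemma even_cast_add_two (hn : Even n) : Even ((n : ℤ) + 2) := by
  have : Even (n : ℤ) := by exact_mod_cast hn
  exact this.add even_two

theorem finrank_Sym_le_SF [NeZero M] (hM : 4 ∣ M) (hn : Even n) :
    finrank ℂ (PS.Sym ℂ M n) ≤ finrank ℂ (SF n M) := by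
  have he := even_cast_add_two hn
  have h1 := finrank_range_resL hM hn he
  have := finite_HOut he M
  have h2 := Submodule.finrank_mono (range_resL_le (n := n) hM)
  omega

/-- **The dimension of the space of full symbols.** -/
theorem finrank_SF [NeZero M] (hM : 4 ∣ M) (hn : Even n) (hn2 : 2 ≤ n) :
    finrank ℂ (SF n M) = Fintype.card (PS.Vx M) * (n + 1) := by
  have h1 := finrank_Sym_le_SF hM hn
  rw [finrank_Sym ℂ M n hn] at h1
  have h2 := finrank_SF_le (n := n) hM hn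
  rw [if_neg (by omega), add_zero, ← six_mul_card_Vx M hM, mul_assoc] at h2
  exact le_antisymm (Nat.le_of_mul_le_mul_left h2 (by norm_num)) h1

/-- **The residues are arbitrary** for `n ≥ 2`. -/
theorem range_resL [NeZero M] (hM : 4 ∣ M) (hn : Even n) (hn2 : 2 ≤ n) :
    LinearMap.range (resL M n) = HOut (n + 2) M := by
  have he := even_cast_add_two hn
  have := finite_HOut he M
  refine Submodule.eq_of_le_of_finrank_eq (range_resL_le hM) ?_
  have h1 := finrank_range_resL hM hn he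
  rw [finrank_SF hM hn hn2, finrank_Sym ℂ M n hn] at h1
  omega

theorem finrank_range_ESmap [NeZero M] (hM : 4 ∣ M) (hn : Even n) :
    finrank ℂ (LinearMap.range (ESmap M n)) = 2 * finrank ℂ (Gouvea.Cusp M (n + 2)) := by
  rw [LinearMap.finrank_range_of_inj (ESmap_injective_all hM hn), Module.finrank_prod, two_mul]

theorem finrank_range_bdS [NeZero M] (hn : Even n) (hn2 : 2 ≤ n) {e : ℤ} (he : Even e) :
    finrank ℂ (LinearMap.range (bdS M n)) + finrank ℂ (HOut e M) = finrank ℂ (HF e M) := by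
  have hen : Even (-(n : ℤ)) := by
    rw [even_neg]
    exact_mod_cast hn
  have := finite_HF hen M
  have h1 := LinearMap.finrank_range_add_finrank_ker (bdS M n)
  have h2 : LinearMap.ker (bdS M n) = (HOut (-(n : ℤ)) M).comap (HF (-(n : ℤ)) M).subtype := by
    ext F
    rw [LinearMap.mem_ker, bdS_eq_zero_iff (by omega)]
    rfl
  have hle : HOut (-(n : ℤ)) M ≤ HF (-(n : ℤ)) M := fun F hF => hF.1
  have h3 : finrank ℂ ((HOut (-(n : ℤ)) M).comap (HF (-(n : ℤ)) M).subtype) =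
      finrank ℂ (HOut (-(n : ℤ)) M) := (Submodule.comapSubtypeEquivOfLe hle).finrank_eq
  rw [h2, h3, finrank_HOut_eq hen he, finrank_HF_eq hen he] at h1
  exact h1

/-- `2 dim S_k + c = d (k - 1)` for `k ≥ 4`, `c` the number of cusps. -/
theorem two_finrank_add [NeZero M] (hM : 4 ∣ M) (hn : Even n) (hn2 : 2 ≤ n) {e : ℤ}
    (he : Even e) : 2 * finrank ℂ (Gouvea.Cusp M (n + 2)) + finrank ℂ (HF e M) =
      Fintype.card (PS.Vx M) * (n + 1) := by
  have := finiteDimensional_Sym ℂ M n hn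
  have h1 : LinearMap.range (ESmap M n) ⊔ LinearMap.range (bdS M n) = LinearMap.range (rst n M) :=
    le_antisymm (sup_le range_ESmap_le (range_bdS_le hn)) (range_rst_le hn hn2)
  have h2 := Submodule.finrank_sup_add_finrank_inf_eq (LinearMap.range (ESmap M n))
    (LinearMap.range (bdS M n))
  rw [(disjoint_ES_bd hM hn hn2).eq_bot, finrank_bot, add_zero, h1,
    finrank_range_ESmap hM hn] at h2
  have h3 := finrank_range_bdS (M := M) hn hn2 he
  have h4 := finrank_range_rst (n := n) hM hn he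
  rw [finrank_SF hM hn hn2] at h4
  omega

/-! ### Weight two -/

theorem disjoint_ES_bd_zero [NeZero M] (hM : 4 ∣ M) :
    Disjoint (LinearMap.range (ESmap M 0)) (LinearMap.range (bdS M 0)) := by
  rw [Submodule.disjoint_def]
  rintro _ ⟨⟨f, g⟩, rfl⟩ ⟨F, hF⟩
  obtain ⟨h1, h2⟩ := ESmap_two hM f g fun γ hγ => by
    rw [← hF, bdS_apply]
    have hd : ∀ a c : ℂ, dl 0 a c = 1 := fun a c => by rw [dl, pow_zero]
    obtain ⟨hu, hv, h3⟩ := PS.smul_mk γ 1 0 odd_one (by simp)
    rw [PS.inf, h3, bval_mk, bval_mk, hd, hd]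
    have h4 : F.1 (γ.1 0 0 * 1 + γ.1 0 1 * 0, γ.1 1 0 * 1 + γ.1 1 1 * 0) = F.1 (1, 0) :=
      F.2.2.2 (toSL hγ) (toSL_mem hγ) (1, 0)
    rw [h4, sub_self]
  rw [h1, h2]
  exact map_zero _

/-- the constant function on the vectors `≠ 0` -/
def cst : ℤ × ℤ → ℂ := fun v => if v = (0, 0) then 0 else 1

lemma cst_mem (M : ℕ) : cst ∈ HF (-((0 : ℕ) : ℤ)) M := by
  refine ⟨by simp [cst], fun l hl v => ?_, fun g hg v => ?_⟩
  · rw [Nat.cast_zero, neg_zero, zpow_zero, one_mul, cst, cst]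
    by_cases hv : v = (0, 0)
    · rw [hv]
      simp
    · rw [if_neg hv, if_neg (smul_vec_ne hl hv)]
  · rw [cst, cst]
    by_cases hv : v = (0, 0)
    · rw [hv, vm_zero]
    · rw [if_neg hv, if_neg (vm_ne hv)]

lemma inC_one_zero : inC (1, 0) := ⟨1, 1, 0, one_ne_zero, odd_one, dvd_zero _, by simp⟩

lemma cst_inC {v : ℤ × ℤ} (hv : inC v) : cst v = 1 := if_neg (inC_ne hv)

/-- the kernel of `bdS` for `n = 0`, as a space of functions -/
theorem map_ker_bdS_zero (M : ℕ) :
    (LinearMap.ker (bdS M 0)).map (HF (-((0 : ℕ) : ℤ)) M).subtype =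
      HOut (-((0 : ℕ) : ℤ)) M ⊔ Submodule.span ℂ {cst} := by
  refine le_antisymm ?_ (sup_le ?_ ?_)
  · rintro _ ⟨F, hF, rfl⟩
    obtain ⟨c, hc⟩ := (bdS_zero_eq_zero_iff F).1 hF
    have h1 : (F : ℤ × ℤ → ℂ) = ((F : ℤ × ℤ → ℂ) - c • cst) + c • cst := by
      rw [sub_add_cancel]
    change (F : ℤ × ℤ → ℂ) ∈ _
    rw [h1]
    refine Submodule.add_mem_sup ⟨sub_mem F.2 (Submodule.smul_mem _ c (cst_mem M)),
      fun v hv => ?_⟩ (Submodule.smul_mem _ c (Submodule.mem_span_singleton_self _))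
    change (F : ℤ × ℤ → ℂ) v - c * cst v = 0
    rw [hc v hv, cst_inC hv, mul_one, sub_self]
  · intro F hF
    exact ⟨⟨F, hF.1⟩, (bdS_zero_eq_zero_iff _).2 ⟨0, hF.2⟩, rfl⟩
  · rw [Submodule.span_singleton_le_iff_mem]
    exact ⟨⟨cst, cst_mem M⟩, (bdS_zero_eq_zero_iff _).2 ⟨1, fun v hv => cst_inC hv⟩, rfl⟩

/-- the constants -/
theorem finrank_ker_bdS_zero [NeZero M] {e : ℤ} (he : Even e) :
    finrank ℂ (LinearMap.ker (bdS M 0)) = finrank ℂ (HOut e M) + 1 := by
  have he0 : Even (-((0 : ℕ) : ℤ)) := by simp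
  have := finite_HOut he0 M
  have h1 : finrank ℂ ((LinearMap.ker (bdS M 0)).map (HF (-((0 : ℕ) : ℤ)) M).subtype) =
      finrank ℂ (LinearMap.ker (bdS M 0)) :=
    (Submodule.equivMapOfInjective _ (Submodule.injective_subtype _) _).symm.finrank_eq
  have hcst : cst ∉ HOut (-((0 : ℕ) : ℤ)) M := fun h => by
    have h2 := h.2 (1, 0) inC_one_zero
    rw [cst_inC inC_one_zero] at h2
    exact one_ne_zero h2
  have hcst0 : cst ≠ 0 := fun h => hcst (h ▸ zero_mem _)
  have h2 := Submodule.finrank_sup_add_finrank_inf_eq (HOut (-((0 : ℕ) : ℤ)) M)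
    (Submodule.span ℂ {cst})
  have h3 : HOut (-((0 : ℕ) : ℤ)) M ⊓ Submodule.span ℂ {cst} = ⊥ := by
    rw [← disjoint_iff, Submodule.disjoint_span_singleton' hcst0]
    exact hcst
  rw [h3, finrank_bot, add_zero, finrank_span_singleton hcst0, ← map_ker_bdS_zero, h1,
    finrank_HOut_eq he0 he] at h2
  exact h2

/-- **Weight two**: the dimension of `S_2`, the full symbols, the decomposition. -/
theorem weight_two [NeZero M] (hM : 4 ∣ M) {e : ℤ} (he : Even e) :
    2 * finrank ℂ (Gouvea.Cusp M 2) + finrank ℂ (HF e M) = Fintype.card (PS.Vx M) + 2 ∧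
    finrank ℂ (SF 0 M) = Fintype.card (PS.Vx M) + 1 ∧
    LinearMap.range (ESmap M 0) ⊔ LinearMap.range (bdS M 0) = LinearMap.range (rst 0 M) := by
  have hfin := finiteDimensional_Sym ℂ M 0 Even.zero
  have he0 : Even (-((0 : ℕ) : ℤ)) := by simp
  have := finite_HF he0 M
  have h6 : 2 * finrank ℂ (Gouvea.Cusp M 6) + finrank ℂ (HF e M) =
      Fintype.card (PS.Vx M) * 5 := two_finrank_add (n := 4) hM (by decide) (by norm_num) he
  have h8 : 2 * finrank ℂ (Gouvea.Cusp M 8) + finrank ℂ (HF e M) =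
      Fintype.card (PS.Vx M) * 7 := two_finrank_add (n := 6) hM (by decide) (by norm_num) he
  have h12 : 2 * finrank ℂ (Gouvea.Cusp M 12) + finrank ℂ (HF e M) =
      Fintype.card (PS.Vx M) * 11 := two_finrank_add (n := 10) hM (by decide) (by norm_num) he
  have hw := wt2 M
  have h1 := Submodule.finrank_sup_add_finrank_inf_eq (LinearMap.range (ESmap M 0))
    (LinearMap.range (bdS M 0))
  have h1' : finrank ℂ (LinearMap.range (ESmap M 0)) = 2 * finrank ℂ (Gouvea.Cusp M 2) :=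
    finrank_range_ESmap hM Even.zero
  rw [(disjoint_ES_bd_zero hM).eq_bot, finrank_bot, add_zero, h1'] at h1
  have h2 := LinearMap.finrank_range_add_finrank_ker (bdS M 0)
  rw [finrank_ker_bdS_zero he, finrank_HF_eq he0 he] at h2
  have h3 := finrank_range_rst (n := 0) (M := M) hM Even.zero he
  have h4 : 6 * finrank ℂ (SF 0 M) ≤ (Gamma0 M).index * (0 + 1) + if (0 : ℕ) = 0 then 6 else 0 :=
    finrank_SF_le (n := 0) (M := M) hM Even.zero
  rw [if_pos rfl, ← six_mul_card_Vx M hM] at h4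
  have hle : LinearMap.range (ESmap M 0) ⊔ LinearMap.range (bdS M 0) ≤ LinearMap.range (rst 0 M) :=
    sup_le range_ESmap_le (range_bdS_le Even.zero)
  have h5 := Submodule.finrank_mono hle
  rw [h1] at h5
  refine ⟨by omega, by omega, Submodule.eq_of_le_of_finrank_le hle ?_⟩
  rw [h1]
  omega

end Gouvea.Cnt
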