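import Pool.Agent.Work.MP_d3517d_nt.Cnt.EisSys
import Pool.Agent.Work.MP_d3517d_nt.Cnt.BdJoin
import Pool.Agent.Work.MP_d3517d_nt.Cnt.Main
import Pool.Agent.Work.MP_d3517d_nt.ES.Main
import Pool.Agent.Work.MP_d3517d_nt.ES.ThetaMain

/-!
# Exact Eichler-Shimura relation for the systems of eigenvalues, `n ≥ 2` (MP_d3517d_nt)
-/

open CongruenceSubgroup Polynomial
open scoped MatrixGroups

noncomputable section

namespace Gouvea.Cnt

open Gouvea.ES Gouvea.Theta Gouvea.POS Gouvea.Sys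

/-! ### the lines -/

theorem line_in (n L d : ℕ) (h : 4 ∣ d) (ψ : DirichletCharacter ℂ (d.gcd (L / d))) :
    line (K := ℂ) (fun q : Nat.Primes => (q : ℕ)) (fun _ => 1) (fun q => (q : ℂ) ^ n) L d ψ =
      sysOf (eisV n L d ψ) := by
  apply MvPolynomial.ringHom_ext
  · intro r
    have e : (MvPolynomial.C r : MvPolynomial Nat.Primes ℤ) = (r : MvPolynomial Nat.Primes ℤ) := by
      simp
    rw [e, map_intCast, map_intCast]
  · intro q
    refine (line_X _ _ _ _ _ _ _).trans ?_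
    rw [sysOf_X]
    unfold lam eisV
    rw [if_pos h, one_mul]
    congr 1
    split_ifs
    · rfl
    · rw [pow_succ, mul_comm (((q : ℕ) : ℂ) ^ n)]
      rfl

theorem line_out (n L d : ℕ) (h : ¬ 4 ∣ d) (ψ : DirichletCharacter ℂ (d.gcd (L / d))) :
    line (K := ℂ) (fun q : Nat.Primes => (q : ℕ)) (fun q => (q : ℂ) ^ (n + 1))
      (fun q => (q : ℂ)⁻¹) L d ψ = sysOf (eisV n L d ψ) := by
  apply MvPolynomial.ringHom_ext
  · intro r
    have e : (MvPolynomial.C r : MvPolynomial Nat.Primes ℤ) = (r : MvPolynomial Nat.Primes ℤ) := by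
      simp
    rw [e, map_intCast, map_intCast]
  · intro q
    have hq0 : ((q : ℕ) : ℂ) ≠ 0 := by exact_mod_cast q.2.ne_zero
    refine (line_X _ _ _ _ _ _ _).trans ?_
    rw [sysOf_X]
    unfold lam eisV
    rw [if_neg h, mul_inv_cancel₀ hq0, one_mul]
    rfl

theorem eisL_eq (n L : ℕ) : eisL n L =
    ∑ d ∈ Sin L, ∑ ψ : DirichletCharacter ℂ (cg L d), {line (K := ℂ)
      (fun q : Nat.Primes => (q : ℕ)) (fun _ => 1) (fun q => (q : ℂ) ^ n) L d ψ} +
    ∑ d ∈ Sout L, ∑ ψ : DirichletCharacter ℂ (cg L d), {line (K := ℂ)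
      (fun q : Nat.Primes => (q : ℕ)) (fun q => (q : ℂ) ^ (n + 1)) (fun q => (q : ℂ)⁻¹) L d ψ} := by
  have h1 : eisL n L = ∑ d ∈ L.divisors, ∑ ψ : DirichletCharacter ℂ (cg L d),
      {sysOf (eisV n L d ψ)} := by
    unfold eisL
    rw [Multiset.bind, Multiset.join]
    refine Finset.sum_congr rfl fun d _ => ?_
    exact map_val_eq_sum _ _
  rw [h1, ← Finset.sum_filter_add_sum_filter_not L.divisors (4 ∣ ·)]
  congr 1
  · refine Finset.sum_congr rfl fun d hd => Finset.sum_congr rfl fun ψ _ => ?_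
    rw [line_in n L d (Finset.mem_filter.1 hd).2 ψ]
  · refine Finset.sum_congr rfl fun d hd => Finset.sum_congr rfl fun ψ _ => ?_
    rw [line_out n L d (Finset.mem_filter.1 hd).2 ψ]

/-! ### stable subspaces -/

lemma mem_of_X {ι K V : Type*} [Field K] [AddCommGroup V] [Module K V]
    {ρ : MvPolynomial ι ℤ →+* Module.End K V} {W : Submodule K V}
    (h : ∀ i, ∀ v ∈ W, ρ (MvPolynomial.X i) v ∈ W) (r : MvPolynomial ι ℤ) :
    ∀ v ∈ W, ρ r v ∈ W := by
  induction r using MvPolynomial.induction_on with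
  | C a =>
    intro v hv
    have e : (MvPolynomial.C a : MvPolynomial ι ℤ) = ((a : ℤ) : MvPolynomial ι ℤ) := by simp
    rw [e, map_intCast, Module.End.intCast_apply]
    exact zsmul_mem hv a
  | add p q hp hq =>
    intro v hv
    rw [map_add, LinearMap.add_apply]
    exact add_mem (hp v hv) (hq v hv)
  | mul_X p i hp =>
    intro v hv
    rw [map_mul, Module.End.mul_apply]
    exact hp _ (h i v hv)

variable {n M : ℕ} [NeZero M]

lemma rst_sym (f : Gouvea.Cusp M (n + 2)) : rst n M ⟨sym n f, FSM_sym f⟩ = symL' M n f := rfl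

omit [NeZero M] in
lemma rst_eps (φ : SF n M) :
    rst n M ⟨fact n ES.eps φ.1, FSM.eps φ.2⟩ = epsL M n (rst n M φ) := by
  refine Subtype.ext ?_
  change rstFun n (fact n ES.eps φ.1) = PS.act ℂ n epsM (rstFun n φ.1)
  rw [act_rstFun, gQ_epsM]

/-- the full symbol of a pair of cusp forms -/
def fullS (f g : Gouvea.Cusp M (n + 2)) : SF n M :=
  ⟨sym n f + fact n ES.eps (sym n g), (FSM_sym f).plus (FSM_sym g).eps⟩

lemma rst_fullS (f g : Gouvea.Cusp M (n + 2)) :
    rst n M (fullS f g) = symL' M n f + epsL M n (symL' M n g) := by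
  have e : fullS f g = ⟨sym n f, FSM_sym f⟩ + ⟨fact n ES.eps (sym n g), (FSM_sym g).eps⟩ := rfl
  rw [e, map_add, rst_sym, ← rst_sym g, ← rst_eps]

lemma ESmap_eq (f g : Gouvea.Cusp M (n + 2)) :
    ESmap M n (f, g) = rst n M (fullS (f + g) (f - g)) := by
  rw [ESmap_apply, rst_fullS, map_add, map_sub, map_sub]
  abel

/-- the map of the pairs of cusp forms and the boundary symbols -/
def PhiS (n M : ℕ) [NeZero M] : (Gouvea.Cusp M (n + 2) × Gouvea.Cusp M (n + 2)) ×
    LinearMap.range (bdS M n) →ₗ[ℂ] PS.Sym ℂ M n :=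
  (ESmap M n).coprod (LinearMap.range (bdS M n)).subtype

lemma PhiS_apply (x) (b : LinearMap.range (bdS M n)) : PhiS n M (x, b) = ESmap M n x + b := by
  simp [PhiS]

lemma mem_range_bdS (hn : Even n) {ψ : PS.Sym ℂ M n} :
    ψ ∈ LinearMap.range (bdS M n) ↔ ∃ φ : SF n M, φ.1 ∈ BF n M ∧ rst n M φ = ψ := by
  rw [← map_rst_BF n M hn]
  constructor
  · rintro ⟨φ, hφ, rfl⟩
    exact ⟨φ, hφ, rfl⟩
  · rintro ⟨φ, hφ, rfl⟩
    exact ⟨φ, hφ, rfl⟩

theorem PhiS_injective (h2 : 2 ≤ n) (hn : Even n) (h4 : 4 ∣ M) :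
    Function.Injective (PhiS n M) := by
  rw [injective_iff_map_eq_zero]
  rintro ⟨⟨f, g⟩, ⟨b, hb⟩⟩ h
  rw [PhiS_apply, ESmap_eq] at h
  obtain ⟨φ, hφ, hφb⟩ := (mem_range_bdS hn).1 hb
  have h' : rst n M (fullS (f + g) (f - g) + φ) = 0 := by
    rw [map_add, hφb]
    exact h
  have h3 := mem_BF_of_rst h4 h'
  have h5 : (fullS (f + g) (f - g) : SF n M).1 ∈ BF n M := by
    have : (fullS (f + g) (f - g) : SF n M).1 = (fullS (f + g) (f - g) + φ : SF n M).1 - φ.1 := by
      simp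
    rw [this]
    exact sub_mem h3 hφ
  obtain ⟨h6, h7⟩ := eq_zero_of_isBdry h2 hn h5
  have hf : f = 0 := by
    have h8 : (2 : ℂ) • f = (f + g) + (f - g) := by
      rw [two_smul]
      abel
    rw [h6, h7, add_zero] at h8
    exact (smul_eq_zero.1 h8).resolve_left two_ne_zero
  have hg : g = 0 := by
    rw [hf, zero_add] at h6
    exact h6
  subst hf hg
  have hb0 : b = 0 := by
    rw [← ESmap_eq] at h
    have h9 : ESmap M n ((0 : Gouvea.Cusp M (n + 2)), (0 : Gouvea.Cusp M (n + 2))) = 0 :=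
      map_zero (ESmap M n)
    rw [h9, zero_add] at h
    exact h
  subst hb0
  rfl

theorem range_PhiS (h2 : 2 ≤ n) (hn : Even n) :
    LinearMap.range (PhiS n M) = LinearMap.range (rst n M) := by
  apply le_antisymm
  · rintro _ ⟨⟨⟨f, g⟩, b⟩, rfl⟩
    rw [PhiS_apply, ESmap_eq]
    obtain ⟨φ, hφ, hφb⟩ := (mem_range_bdS hn).1 b.2
    rw [← hφb, ← map_add]
    exact LinearMap.mem_range_self _ _
  · rintro _ ⟨φ, rfl⟩
    obtain ⟨f, g, hb⟩ := exists_decomp h2 hn φ.2
    have hb' : φ.1 - (fullS f g : SF n M).1 ∈ BF n M := by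
      have : φ.1 - (fullS f g : SF n M).1 = φ.1 - sym n f - fact n ES.eps (sym n g) := by
        change φ.1 - (sym n f + fact n ES.eps (sym n g)) = _
        abel
      rw [this]
      exact hb
    refine ⟨(((1 / 2 : ℂ) • (f + g), (1 / 2 : ℂ) • (f - g)),
      ⟨rst n M (φ - fullS f g), (mem_range_bdS hn).2 ⟨φ - fullS f g, hb', rfl⟩⟩), ?_⟩
    rw [PhiS_apply, ESmap_eq]
    have e1 : (1 / 2 : ℂ) • (f + g) + (1 / 2 : ℂ) • (f - g) = f := by
      rw [← smul_add, show f + g + (f - g) = (2 : ℂ) • f by rw [two_smul]; abel, smul_smul]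
      norm_num
    have e2 : (1 / 2 : ℂ) • (f + g) - (1 / 2 : ℂ) • (f - g) = g := by
      rw [← smul_sub, show f + g - (f - g) = (2 : ℂ) • g by rw [two_smul]; abel, smul_smul]
      norm_num
    rw [e1, e2]
    change rst n M (fullS f g) + rst n M (φ - fullS f g) = rst n M φ
    rw [← map_add]
    congr 1
    abel

/-- **Exact Eichler-Shimura, `n ≥ 2`**, from the description of the residues. -/
theorem exactES_of (h2 : 2 ≤ n) (hn : Even n) (h4 : 4 ∣ M)
    (hker : LinearMap.ker (resL M n) = LinearMap.range (rst n M))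
    (hrange : LinearMap.range (resL M n) = HOut ((n : ℤ) + 2) M) :
    haveI := finiteDimensional_Sym ℂ M n hn
    Sys (rhoS ℂ M n h4) = 2 • Sys (rhoC M (n + 2)) + eisL n M := by
  have hfd := finiteDimensional_Sym ℂ M n hn
  have hL : 0 < M := Nat.pos_of_ne_zero (NeZero.ne M)
  set ρ := rhoS ℂ M n h4 with hρ
  have hres : ∀ (q : Nat.Primes) (ψ : PS.Sym ℂ M n),
      resL M n (ρ (MvPolynomial.X q) ψ) = ((q : ℕ) : ℂ)⁻¹ • hop M q (resL M n ψ) := by
    intro q ψ
    rw [hρ, rhoS_X, resL_apply, opS_coe, res_hecke h4 ψ q.2]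
    rfl
  have hW : ∀ r, ∀ v ∈ LinearMap.ker (resL M n), ρ r v ∈ LinearMap.ker (resL M n) := by
    refine mem_of_X fun q v hv => ?_
    rw [LinearMap.mem_ker] at hv ⊢
    rw [hres, hv, map_zero, smul_zero]
  have hbd : ∀ (q : Nat.Primes) (F : HF (-(n : ℤ)) M),
      ρ (MvPolynomial.X q) (bdS M n F) = ((q : ℕ) : ℂ) ^ n • bdS M n (hopF (-(n : ℤ)) M q.2 F) := by
    intro q F
    rw [hρ, rhoS_X, ← map_smul]
    exact Subtype.ext (bdS_hecke q.2 h4 F)
  have hB : ∀ r, ∀ v ∈ LinearMap.range (bdS M n), ρ r v ∈ LinearMap.range (bdS M n) := by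
    refine mem_of_X fun q v hv => ?_
    obtain ⟨F, rfl⟩ := hv
    rw [hbd]
    exact Submodule.smul_mem _ _ (LinearMap.mem_range_self _ _)
  -- the quotient
  obtain ⟨hfQ, hq⟩ := Sys_out hn hL h4 (quotRep ρ _ hW)
    ((LinearMap.ker (resL M n)).liftQ (resL M n) le_rfl)
    (LinearMap.ker_eq_bot.1 (Submodule.ker_liftQ_eq_bot _ _ _ le_rfl))
    (by rw [Submodule.range_liftQ, hrange]) (by
      intro q x
      induction x using Submodule.Quotient.induction_on with
      | H v =>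
        rw [quotRep_mk, Submodule.liftQ_apply, Submodule.liftQ_apply, hres])
  -- the boundary symbols
  obtain ⟨hfB, hb⟩ := Sys_in (V := LinearMap.range (bdS M n)) hn hL h4 (subRep ρ _ hB)
    (bdS M n).rangeRestrict (LinearMap.surjective_rangeRestrict _) (fun F => by
      rw [← bdS_eq_zero_iff (by omega : n ≠ 0) F]
      constructor
      · intro h
        exact congrArg Subtype.val h
      · intro h
        exact Subtype.ext h) (fun q F => Subtype.ext (hbd q F))
  -- the kernel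
  have hmem : ∀ x, PhiS n M x ∈ LinearMap.ker (resL M n) := by
    intro x
    rw [hker, ← range_PhiS h2 hn]
    exact LinearMap.mem_range_self _ _
  let Φ := (PhiS n M).codRestrict (LinearMap.ker (resL M n)) hmem
  have hΦ : Function.Bijective Φ := by
    constructor
    · intro x y hxy
      exact PhiS_injective h2 hn h4 (congrArg Subtype.val hxy)
    · rintro ⟨v, hv⟩
      have hv' := hv
      rw [hker, ← range_PhiS h2 hn] at hv'
      obtain ⟨x, hx⟩ := hv'
      exact ⟨x, Subtype.ext hx⟩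
  have hk : Sys (V := (Gouvea.Cusp M (n + 2) × Gouvea.Cusp M (n + 2)) × LinearMap.range (bdS M n))
      (prodRep (V := LinearMap.range (bdS M n)) (prodRep (rhoC M (n + 2)) (rhoC M (n + 2))) (subRep ρ _ hB)) =
      Sys (V := LinearMap.ker (resL M n)) (subRep ρ _ hW) := by
    refine Sys_congr (LinearEquiv.ofBijective Φ hΦ) ?_
    rintro r ⟨x, b⟩
    refine Subtype.ext ?_
    change PhiS n M (prodRep (rhoC M (n + 2)) (rhoC M (n + 2)) r x, subRep ρ _ hB r b) =
      ρ r (PhiS n M (x, b))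
    rw [PhiS_apply, PhiS_apply, ESmap_equivariant h4, map_add, subRep_apply]
  rw [Sys_sub_add_quot ρ _ hW, ← hk, Sys_prod, Sys_prod, hb, hq, eisL_eq, two_nsmul]
  abel

/-- **Exact Eichler-Shimura in degree `n ≥ 2`.** -/
theorem exactES_pos {n : ℕ} (h2 : 2 ≤ n) : ExactES n := by
  intro hn L _ h4
  rw [if_neg (by omega), add_zero]
  exact exactES_of h2 hn h4 (ker_resL h4 hn) (range_resL h4 hn h2)

end Gouvea.Cnt
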