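import Pool.Agent.Work.MP_d3517d_nt.Cnt.TwoA
import Pool.Agent.Work.MP_d3517d_nt.Cnt.E0

/-!
# The sum of the residues in weight two is zero (MP_d3517d_nt, COUNT (W) (a))
-/

open CongruenceSubgroup
open scoped MatrixGroups

noncomputable section

namespace Gouvea.Cnt

/-- **The residue theorem in weight two.** -/
theorem E0_res {M : ℕ} [NeZero M] (hM : 4 ∣ M) (ψ : PS.Sym ℂ M 0) :
    E0 M (res M 0 (ψ : PS.Cusp → PS.Cusp → Fin (0 + 1) → ℂ)) = 0 := by
  have : Fintype (X M) := Fintype.ofFinite _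
  rw [E0_eq_sum]
  exact TwoA.sum_res hM ψ

end Gouvea.Cnt
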