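import Pool.Agent.Work.MP_d3517d_nt.Cnt.Mean
import Pool.Agent.Work.MP_d3517d_nt.Cnt.E0

/-!
# The sum of the residues and the Hecke operators (MP_d3517d_nt, COUNT)

The mean over `SL₂(ℤ)` of `y ↦ h (δ y (1, 0))` is `q` times the mean of `y ↦ h (y (1, 0))` for every
integral matrix `δ` of determinant `q`, if `h` is homogeneous of degree `2`.
-/

open CongruenceSubgroup ModularGroup
open scoped MatrixGroups

noncomputable section

namespace Gouvea.Cnt

section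

variable {M q : ℕ}

/-- `y ↦ h (δ y (1, 0))` -/
def fv (h : ℤ × ℤ → ℂ) (δ : Matrix (Fin 2) (Fin 2) ℤ) (y : SL(2, ℤ)) : ℂ := h (vm (δ * y.1) (1, 0))

/-- the matrices of `SL₂(ℤ)` with upper right entry divisible by `q` -/
def GU (q : ℕ) : Subgroup SL(2, ℤ) where
  carrier := {g | (q : ℤ) ∣ g.1 0 1}
  mul_mem' := by
    intro a b ha hb
    change (q : ℤ) ∣ (a.1 * b.1) 0 1
    rw [Matrix.mul_apply, Fin.sum_univ_two]
    exact dvd_add (Dvd.dvd.mul_left hb _) (Dvd.dvd.mul_right ha _)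
  one_mem' := by
    change (q : ℤ) ∣ (1 : Matrix (Fin 2) (Fin 2) ℤ) 0 1
    simp
  inv_mem' := by
    intro a ha
    change (q : ℤ) ∣ (a⁻¹).1 0 1
    rw [Matrix.SpecialLinearGroup.coe_inv, Matrix.adjugate_fin_two]
    change (q : ℤ) ∣ - a.1 0 1
    exact (dvd_neg).2 ha

lemma mem_GU {g : SL(2, ℤ)} : g ∈ GU q ↔ (q : ℤ) ∣ g.1 0 1 := Iff.rfl

lemma mem_G0 {g : SL(2, ℤ)} : g ∈ Gamma0 q ↔ (q : ℤ) ∣ g.1 1 0 := by
  rw [Gamma0_mem]
  exact ZMod.intCast_zmod_eq_zero_iff_dvd _ _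

/-- conjugation by `diag (1, q)` -/
def cD (hq : q ≠ 0) : GU q ≃* Gamma0 q where
  toFun g := ⟨⟨!![g.1.1 0 0, g.1.1 0 1 / q; q * g.1.1 1 0, g.1.1 1 1], by
    obtain ⟨b, hb⟩ := mem_GU.1 g.2
    have h1 := Matrix.SpecialLinearGroup.det_coe g.1
    rw [Matrix.det_fin_two, hb] at h1
    rw [Matrix.det_fin_two_of, hb, Int.mul_ediv_cancel_left _ (by exact_mod_cast hq)]
    linear_combination h1⟩, mem_G0.2 (by
      change (q : ℤ) ∣ q * g.1.1 1 0
      exact dvd_mul_right _ _)⟩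
  invFun g := ⟨⟨!![g.1.1 0 0, q * g.1.1 0 1; g.1.1 1 0 / q, g.1.1 1 1], by
    obtain ⟨b, hb⟩ := mem_G0.1 g.2
    have h1 := Matrix.SpecialLinearGroup.det_coe g.1
    rw [Matrix.det_fin_two, hb] at h1
    rw [Matrix.det_fin_two_of, hb, Int.mul_ediv_cancel_left _ (by exact_mod_cast hq)]
    linear_combination h1⟩, mem_GU.2 (by
      change (q : ℤ) ∣ q * g.1.1 0 1
      exact dvd_mul_right _ _)⟩
  left_inv g := by
    obtain ⟨b, hb⟩ := mem_GU.1 g.2
    have hq' : (q : ℤ) ≠ 0 := by exact_mod_cast hq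
    refine Subtype.ext (Subtype.ext ?_)
    ext i j
    fin_cases i <;> fin_cases j <;> simp [hb, Int.mul_ediv_cancel_left _ hq']
  right_inv g := by
    obtain ⟨b, hb⟩ := mem_G0.1 g.2
    have hq' : (q : ℤ) ≠ 0 := by exact_mod_cast hq
    refine Subtype.ext (Subtype.ext ?_)
    ext i j
    fin_cases i <;> fin_cases j <;> simp [hb, Int.mul_ediv_cancel_left _ hq']
  map_mul' g h := by
    obtain ⟨b, hb⟩ := mem_GU.1 g.2
    obtain ⟨c, hc⟩ := mem_GU.1 h.2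
    have hq' : (q : ℤ) ≠ 0 := by exact_mod_cast hq
    refine Subtype.ext (Subtype.ext ?_)
    ext i j
    have e1 : g.1.1 0 0 * ((q : ℤ) * c) + (q : ℤ) * b * h.1.1 1 1 =
      q * (g.1.1 0 0 * c + b * h.1.1 1 1) := by ring
    have e2 : (q : ℤ) * (g.1.1 0 0 * c + b * h.1.1 1 1) / q = g.1.1 0 0 * c + b * h.1.1 1 1 :=
      Int.mul_ediv_cancel_left _ hq'
    have e3 : (q : ℤ) * b / q = b := Int.mul_ediv_cancel_left _ hq'
    have e4 : (q : ℤ) * c / q = c := Int.mul_ediv_cancel_left _ hq'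
    fin_cases i <;> fin_cases j <;>
      simp [Matrix.mul_apply, Fin.sum_univ_two, hb, hc, e1, e2, e3, e4] <;> ring

lemma cD_coe (hq : q ≠ 0) (g : GU q) :
    (cD hq g).1.1 = !![g.1.1 0 0, g.1.1 0 1 / q; q * g.1.1 1 0, g.1.1 1 1] := rfl

lemma bij_of_existsUnique {H : Type*} [Group H] {G : Subgroup H} {ι : Type*} (r : ι → H)
    (h : ∀ g, ∃! i, r i * g ∈ G) :
    Function.Bijective fun i => (QuotientGroup.mk ((r i)⁻¹) : H ⧸ G) := by
  rw [Function.bijective_iff_existsUnique]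
  intro b
  induction b using QuotientGroup.induction_on with
  | H g =>
    obtain ⟨i, hi, hu⟩ := h g
    refine ⟨i, ?_, fun j hj => hu j ?_⟩
    · beta_reduce
      rw [QuotientGroup.eq, inv_inv]
      exact hi
    · beta_reduce at hj
      rw [QuotientGroup.eq, inv_inv] at hj
      exact hj

/-- `none ↦ q ∣ c`, `some j ↦ q ∣ a + j c` -/
def cond (q : ℕ) (a c : ℤ) : Option (ZMod q) → Prop
  | none => (q : ℤ) ∣ c
  | some j => (q : ℤ) ∣ a + j.val * c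

lemma exU [hq : Fact q.Prime] {a c : ℤ} (h : ¬ ((q : ℤ) ∣ a ∧ (q : ℤ) ∣ c)) :
    ∃! i, cond q a c i := by
  by_cases hc : (q : ℤ) ∣ c
  · refine ⟨none, hc, fun i hi => ?_⟩
    cases i with
    | none => rfl
    | some j =>
      exfalso
      refine h ⟨?_, hc⟩
      have h1 : (q : ℤ) ∣ a + j.val * c := hi
      exact (dvd_add_left (hc.mul_left _)).1 h1
  · have hc' : (c : ZMod q) ≠ 0 := fun h0 => hc ((ZMod.intCast_zmod_eq_zero_iff_dvd _ _).1 h0)
    have key : ∀ j : ZMod q, cond q a c (some j) ↔ j = -(a : ZMod q) / c := by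
      intro j
      have h1 : cond q a c (some j) ↔ (q : ℤ) ∣ a + j.val * c := Iff.rfl
      rw [h1, ← ZMod.intCast_zmod_eq_zero_iff_dvd, eq_div_iff hc']
      push_cast
      rw [ZMod.natCast_zmod_val]
      constructor
      · intro h2
        linear_combination h2
      · intro h2
        linear_combination h2
    refine ⟨some (-(a : ZMod q) / c), (key _).2 rfl, fun i hi => ?_⟩
    cases i with
    | none => exact absurd hi hc
    | some j => rw [(key j).1 hi]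

/-- representatives for `GU q` -/
def rU (q : ℕ) : Option (ZMod q) → SL(2, ℤ)
  | none => S
  | some j => T ^ (j.val : ℤ)

/-- representatives for `Γ₀(q)` -/
def r0 (q : ℕ) : Option (ZMod q) → SL(2, ℤ)
  | none => 1
  | some j => S * T ^ (j.val : ℤ)

lemma rU_mem (i : Option (ZMod q)) (g : SL(2, ℤ)) :
    rU q i * g ∈ GU q ↔ cond q (g.1 0 1) (g.1 1 1) i := by
  rw [mem_GU]
  cases i with
  | none =>
    have h1 : (rU q none * g).1 0 1 = - g.1 1 1 := by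
      simp [rU, Matrix.SpecialLinearGroup.coe_mul, coe_S, Matrix.mul_apply, Fin.sum_univ_two]
    rw [h1, dvd_neg]
    rfl
  | some j =>
    have h1 : (rU q (some j) * g).1 0 1 = g.1 0 1 + j.val * g.1 1 1 := by
      rw [rU, Matrix.SpecialLinearGroup.coe_mul, coe_T_zpow]
      simp [Matrix.mul_apply, Fin.sum_univ_two]
    rw [h1]
    rfl

lemma r0_mem (i : Option (ZMod q)) (g : SL(2, ℤ)) :
    r0 q i * g ∈ Gamma0 q ↔ cond q (g.1 0 0) (g.1 1 0) i := by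
  rw [mem_G0]
  cases i with
  | none =>
    have h1 : (r0 q none * g).1 1 0 = g.1 1 0 := by
      simp [r0]
    rw [h1]
    rfl
  | some j =>
    have h1 : (r0 q (some j) * g).1 1 0 = g.1 0 0 + j.val * g.1 1 0 := by
      rw [r0, Matrix.SpecialLinearGroup.coe_mul, Matrix.SpecialLinearGroup.coe_mul, coe_T_zpow,
        coe_S]
      simp [Matrix.mul_apply, Fin.sum_univ_two]
    rw [h1]
    rfl

lemma not_both {a b c d : ℤ} [hq : Fact q.Prime] (h : a * d - b * c = 1) :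
    ¬ ((q : ℤ) ∣ b ∧ (q : ℤ) ∣ d) := by
  rintro ⟨h1, h2⟩
  have h3 : (q : ℤ) ∣ 1 := by
    rw [← h]
    exact dvd_sub (h2.mul_left _) (h1.mul_right _)
  have h4 := Int.isUnit_iff.1 (isUnit_of_dvd_one h3)
  have h5 := hq.out.two_le
  omega

lemma bij_rU [hq : Fact q.Prime] : Function.Bijective
    fun i : Option (ZMod q) => (QuotientGroup.mk ((rU q i)⁻¹) : SL(2, ℤ) ⧸ GU q) := by
  refine bij_of_existsUnique _ fun g => ?_
  simp only [rU_mem]
  have h1 := Matrix.SpecialLinearGroup.det_coe g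
  rw [Matrix.det_fin_two] at h1
  exact exU (not_both h1)

lemma bij_r0 [hq : Fact q.Prime] : Function.Bijective
    fun i : Option (ZMod q) => (QuotientGroup.mk ((r0 q i)⁻¹) : SL(2, ℤ) ⧸ Gamma0 q) := by
  refine bij_of_existsUnique _ fun g => ?_
  simp only [r0_mem]
  have h1 := Matrix.SpecialLinearGroup.det_coe g
  rw [Matrix.det_fin_two] at h1
  exact exU (not_both (a := -(g.1 0 1)) (c := -(g.1 1 1)) (by linear_combination h1))

/-! ### Stabilisers -/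

variable {h : ℤ × ℤ → ℂ}

lemma exists_conj {δ : Matrix (Fin 2) (Fin 2) ℤ} (hδ : δ.det = q) (hq : q ≠ 0) {γ : SL(2, ℤ)}
    (hγ : γ ∈ Gamma (M * q)) : ∃ γ' ∈ Gamma M, γ'.1 * δ = δ * γ.1 := by
  obtain ⟨X, hX⟩ : ∃ X : Matrix (Fin 2) (Fin 2) ℤ, γ.1 = 1 + ((M * q : ℕ) : ℤ) • X := by
    rw [Gamma_mem] at hγ
    obtain ⟨h1, h2, h3, h4⟩ := hγ
    have e1 : ((M * q : ℕ) : ℤ) ∣ γ.1 0 0 - 1 := by
      rw [← ZMod.intCast_zmod_eq_zero_iff_dvd]
      push_cast at h1 ⊢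
      rw [h1, sub_self]
    have e2 : ((M * q : ℕ) : ℤ) ∣ γ.1 0 1 := (ZMod.intCast_zmod_eq_zero_iff_dvd _ _).1 h2
    have e3 : ((M * q : ℕ) : ℤ) ∣ γ.1 1 0 := (ZMod.intCast_zmod_eq_zero_iff_dvd _ _).1 h3
    have e4 : ((M * q : ℕ) : ℤ) ∣ γ.1 1 1 - 1 := by
      rw [← ZMod.intCast_zmod_eq_zero_iff_dvd]
      push_cast at h4 ⊢
      rw [h4, sub_self]
    obtain ⟨a, ha⟩ := e1
    obtain ⟨b, hb⟩ := e2
    obtain ⟨c, hc⟩ := e3
    obtain ⟨d, hd⟩ := e4
    push_cast at ha hb hc hd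
    refine ⟨!![a, b; c, d], ?_⟩
    ext i j
    fin_cases i <;> fin_cases j
    · simp
      linear_combination ha
    · simp
      linear_combination hb
    · simp
      linear_combination hc
    · simp
      linear_combination hd
  have hmul : (1 + (M : ℤ) • (δ * X * δ.adjugate)) * δ = δ * γ.1 := by
    rw [hX, add_mul, one_mul, mul_add, mul_one, Matrix.smul_mul, mul_assoc (δ * X),
      Matrix.adjugate_mul, hδ, Matrix.mul_smul, Matrix.mul_smul, mul_one, smul_smul]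
    push_cast
    rfl
  have hdet : (1 + (M : ℤ) • (δ * X * δ.adjugate)).det = 1 := by
    have h1 := congrArg Matrix.det hmul
    rw [Matrix.det_mul, Matrix.det_mul, γ.2, mul_one, hδ] at h1
    have hq' : (q : ℤ) ≠ 0 := by exact_mod_cast hq
    exact mul_right_cancel₀ hq' (by rw [h1, one_mul])
  refine ⟨⟨_, hdet⟩, ?_, hmul⟩
  rw [Gamma_mem]
  clear hmul
  revert hdet
  generalize δ * X * δ.adjugate = Y
  intro hdet
  have e : ∀ i j, ((1 : Matrix (Fin 2) (Fin 2) ℤ) + (M : ℤ) • Y) i j =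
      (1 : Matrix (Fin 2) (Fin 2) ℤ) i j + (M : ℤ) * Y i j := fun i j => rfl
  refine ⟨?_, ?_, ?_, ?_⟩
  · change (((1 + (M : ℤ) • Y) 0 0 : ℤ) : ZMod M) = 1
    rw [e]
    simp
  · change (((1 + (M : ℤ) • Y) 0 1 : ℤ) : ZMod M) = 0
    rw [e]
    simp
  · change (((1 + (M : ℤ) • Y) 1 0 : ℤ) : ZMod M) = 0
    rw [e]
    simp
  · change (((1 + (M : ℤ) • Y) 1 1 : ℤ) : ZMod M) = 1
    rw [e]
    simp

lemma fv_mul (h : ℤ × ℤ → ℂ) (δ : Matrix (Fin 2) (Fin 2) ℤ) (g y : SL(2, ℤ)) :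
    fv h δ (g * y) = fv h (δ * g.1) y := by
  rw [fv, fv, Matrix.SpecialLinearGroup.coe_mul, mul_assoc]

lemma stb_fv {δ : Matrix (Fin 2) (Fin 2) ℤ} (hδ : δ.det = q) (hq : q ≠ 0)
    (hM : ∀ γ ∈ Gamma M, ∀ v, h (vm γ.1 v) = h v) : Gamma (M * q) ≤ stb (fv h δ) := by
  intro γ hγ y
  obtain ⟨γ', h1, h2⟩ := exists_conj hδ hq hγ
  rw [fv_mul, ← h2, fv, mul_assoc, vm_mul, hM _ h1]
  rfl

lemma finiteIndex_fv [NeZero M] {δ : Matrix (Fin 2) (Fin 2) ℤ} (hδ : δ.det = q) (hq : q ≠ 0)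
    (hM : ∀ γ ∈ Gamma M, ∀ v, h (vm γ.1 v) = h v) : (stb (fv h δ)).FiniteIndex := by
  have : NeZero q := ⟨hq⟩
  exact Subgroup.finiteIndex_of_le (stb_fv hδ hq hM)

lemma finiteIndex_GU (hq : q ≠ 0) : (GU q).FiniteIndex := by
  have : NeZero q := ⟨hq⟩
  refine Subgroup.finiteIndex_of_le (H := Gamma q) fun g hg => ?_
  rw [Gamma_mem] at hg
  exact mem_GU.2 ((ZMod.intCast_zmod_eq_zero_iff_dvd _ _).1 hg.2.1)

lemma vm_T (n : ℤ) : vm (T ^ n).1 (1, 0) = (1, 0) := by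
  rw [coe_T_zpow]
  simp [vm]

lemma vm_S : vm S.1 (1, 0) = (0, 1) := by
  rw [coe_S]
  simp [vm]

/-- `diag (1, q)` -/
def Dq (q : ℕ) : Matrix (Fin 2) (Fin 2) ℤ := !![1, 0; 0, (q : ℤ)]

lemma det_Dq (q : ℕ) : (Dq q).det = q := by
  rw [Dq, Matrix.det_fin_two_of]
  ring

/-- **The mean and `diag (1, q)`.** -/
theorem mean_Dq [NeZero M] (hq : q.Prime)
    (hl : ∀ v : ℤ × ℤ, h (q * v.1, q * v.2) = (q : ℂ) ^ 2 * h v)
    (hM : ∀ γ ∈ Gamma M, ∀ v, h (vm γ.1 v) = h v) :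
    mean (fv h (Dq q)) = q * mean (fv h 1) := by
  have : Fact q.Prime := ⟨hq⟩
  have hq0 : q ≠ 0 := hq.ne_zero
  have : NeZero q := ⟨hq0⟩
  have hGU := finiteIndex_GU hq0
  set A : ℂ := mean (fun y : Gamma0 q => h (vm y.1.1 (1, 0))) with hA
  set B : ℂ := mean (fun y : Gamma0 q => h (vm y.1.1 (0, 1))) with hB
  have hcard : Fintype.card (Option (ZMod q)) = q + 1 := by
    rw [Fintype.card_option, ZMod.card]
  have hfin : ∀ w : ℤ × ℤ, (stb (fun y : Gamma0 q => h (vm y.1.1 w))).FiniteIndex := by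
    intro w
    have hf : ((Gamma M).subgroupOf (Gamma0 q)).FiniteIndex := inferInstance
    refine Subgroup.finiteIndex_of_le (H := (Gamma M).subgroupOf (Gamma0 q)) fun γ hγ y => ?_
    beta_reduce
    rw [Subgroup.coe_mul, vm_SL_mul, hM _ (Subgroup.mem_subgroupOf.1 hγ)]
  -- first mean
  have h1 : mean (fv h (Dq q)) = ((q : ℂ) ^ 2 * B + q * A) / (q + 1) := by
    rw [mean_decomp (finiteIndex_fv (det_Dq q) hq0 hM) (fun i => (rU q i)⁻¹) bij_rU, hcard,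
      Fintype.sum_option]
    push_cast
    congr 2
    · rw [← mean_smul _ (hfin (0, 1)), ← mean_comp_equiv (cD hq0)]
      congr 1
      funext y
      obtain ⟨b, hb⟩ := mem_GU.1 y.2
      have hq' : (q : ℤ) ≠ 0 := by exact_mod_cast hq0
      have e1 : vm (Dq q * ((y : SL(2, ℤ)) * (rU q none)⁻¹⁻¹).1) (1, 0) =
          ((q : ℤ) * (vm (cD hq0 y).1.1 (0, 1)).1, (q : ℤ) * (vm (cD hq0 y).1.1 (0, 1)).2) := by
        rw [inv_inv, vm_mul, vm_SL_mul, rU, vm_S, cD_coe]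
        simp [vm, Dq, hb, Int.mul_ediv_cancel_left _ hq']
      rw [fv, e1, hl]
    · have e2 : ∀ j : ZMod q, (mean fun y : GU q =>
          fv h (Dq q) ((y : SL(2, ℤ)) * (rU q (some j))⁻¹⁻¹)) = A := by
        intro j
        rw [hA, ← mean_comp_equiv (cD hq0)]
        congr 1
        funext y
        have e1 : vm (Dq q * ((y : SL(2, ℤ)) * (rU q (some j))⁻¹⁻¹).1) (1, 0) =
            vm (cD hq0 y).1.1 (1, 0) := by
          rw [inv_inv, vm_mul, vm_SL_mul, rU, vm_T, cD_coe]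
          simp [vm, Dq]
        rw [fv, e1]
      rw [Finset.sum_congr rfl fun j _ => e2 j, Finset.sum_const, Finset.card_univ, ZMod.card,
        nsmul_eq_mul]
  -- second mean
  have h2 : mean (fv h 1) = (A + q * B) / (q + 1) := by
    have hst : (stb (fv h 1)).FiniteIndex := by
      refine Subgroup.finiteIndex_of_le (H := Gamma M) fun γ hγ y => ?_
      rw [fv, fv, one_mul, one_mul, vm_SL_mul, hM _ hγ]
    rw [mean_decomp hst (fun i => (r0 q i)⁻¹) bij_r0, hcard, Fintype.sum_option]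
    push_cast
    congr 2
    · rw [hA]
      congr 1
      funext y
      rw [fv, inv_inv, one_mul, r0, mul_one]
    · have e2 : ∀ j : ZMod q, (mean fun y : Gamma0 q =>
          fv h 1 ((y : SL(2, ℤ)) * (r0 q (some j))⁻¹⁻¹)) = B := by
        intro j
        rw [hB]
        congr 1
        funext y
        rw [fv, inv_inv, one_mul, vm_SL_mul, r0, vm_SL_mul, vm_T, vm_S]
      rw [Finset.sum_congr rfl fun j _ => e2 j, Finset.sum_const, Finset.card_univ, ZMod.card,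
        nsmul_eq_mul]
  have hq1 : (q : ℂ) + 1 ≠ 0 := by exact_mod_cast Nat.succ_ne_zero q
  rw [h1, h2]
  field_simp
  ring

/-- the mean for upper triangular matrices of determinant `q` -/
lemma mean_up [NeZero M] (hq : q.Prime)
    (hl : ∀ v : ℤ × ℤ, h (q * v.1, q * v.2) = (q : ℂ) ^ 2 * h v)
    (hM : ∀ γ ∈ Gamma M, ∀ v, h (vm γ.1 v) = h v) (b : ℤ) :
    mean (fv h !![1, b; 0, (q : ℤ)]) = q * mean (fv h 1) := by
  rw [← mean_Dq hq hl hM, ← mean_mul_left (fv h (Dq q)) (T ^ b)]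
  congr 1
  funext y
  rw [fv_mul, coe_T_zpow]
  congr 1
  ext i j
  fin_cases i <;> fin_cases j <;> simp [Dq, Matrix.mul_apply, Fin.sum_univ_two]

/-- the mean for `diag (q, 1)` -/
lemma mean_lo [NeZero M] (hq : q.Prime)
    (hl : ∀ v : ℤ × ℤ, h (q * v.1, q * v.2) = (q : ℂ) ^ 2 * h v)
    (hM : ∀ γ ∈ Gamma M, ∀ v, h (vm γ.1 v) = h v) :
    mean (fv h !![(q : ℤ), 0; 0, 1]) = q * mean (fv h 1) := by
  set h' : ℤ × ℤ → ℂ := fun v => h (vm (S⁻¹).1 v) with hh'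
  have hl' : ∀ v : ℤ × ℤ, h' (q * v.1, q * v.2) = (q : ℂ) ^ 2 * h' v := by
    intro v
    have e1 : vm (S⁻¹).1 (q * v.1, q * v.2) =
        ((q : ℤ) * (vm (S⁻¹).1 v).1, (q : ℤ) * (vm (S⁻¹).1 v).2) := by
      simp only [vm]
      refine Prod.ext ?_ ?_ <;> ring
    rw [hh']
    beta_reduce
    rw [e1, hl]
  have hM' : ∀ γ ∈ Gamma M, ∀ v, h' (vm γ.1 v) = h' v := by
    intro γ hγ v
    rw [hh']
    beta_reduce
    have e1 : S⁻¹ * γ * S ∈ Gamma M := by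
      have := (Gamma_normal (N := M)).conj_mem γ hγ S⁻¹
      rwa [inv_inv] at this
    rw [← vm_SL_mul, show S⁻¹ * γ = (S⁻¹ * γ * S) * S⁻¹ by group, vm_SL_mul, hM _ e1]
  have e1 : mean (fv h' 1) = mean (fv h 1) := by
    rw [← mean_mul_left (fv h 1) S⁻¹]
    congr 1
    funext y
    rw [fv_mul, one_mul, fv, fv, one_mul, vm_mul]
  have e2 : mean (fv h !![(q : ℤ), 0; 0, 1]) = mean (fv h' (Dq q)) := by
    rw [← mean_mul_left (fv h' (Dq q)) S]
    congr 1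
    funext y
    rw [fv_mul, fv, fv, hh']
    beta_reduce
    rw [← vm_mul, ← mul_assoc, ← mul_assoc]
    congr 3
    rw [Matrix.SpecialLinearGroup.coe_inv, coe_S, Matrix.adjugate_fin_two_of]
    ext i j
    fin_cases i <;> fin_cases j <;> simp [Dq, Matrix.mul_apply, Fin.sum_univ_two]
  rw [e2, mean_Dq hq hl' hM', e1]

lemma Gamma_le_Gamma0 (M : ℕ) : Gamma M ≤ Gamma0 M := by
  intro g hg
  rw [Gamma_mem] at hg
  exact Gamma0_mem.2 hg.2.2.1

lemma E0_eq_mean [NeZero M] (hh : ∀ g ∈ Gamma0 M, ∀ v, h (vm g.1 v) = h v) :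
    E0 M h = (Gamma0 M).index * mean (fun y : SL(2, ℤ) => h (vm y.1 (1, 0))) := by
  have h1 : Gamma0 M ≤ stb (fun y : SL(2, ℤ) => h (vm y.1 (1, 0))) := by
    intro γ hγ y
    beta_reduce
    rw [vm_SL_mul, hh _ hγ]
  have h2 : ((Gamma0 M).index : ℂ) ≠ 0 := by
    exact_mod_cast Subgroup.FiniteIndex.index_ne_zero
  rw [mean_eq h1, mul_div_cancel₀ _ h2]
  rfl

/-- **`E0` and the Hecke operators.** -/
theorem E0_hop [NeZero M] (hq : q.Prime) (hh : h ∈ HF 2 M) (hh' : hop M q h ∈ HF 2 M) :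
    E0 M (hop M q h) = (if q ∣ M then (q : ℂ) ^ 2 else q * (q + 1)) * E0 M h := by
  have hq0 : q ≠ 0 := hq.ne_zero
  have hl : ∀ v : ℤ × ℤ, h (q * v.1, q * v.2) = (q : ℂ) ^ 2 * h v := by
    intro v
    have := hh.2.1 q (by exact_mod_cast hq0) v
    rw [this]
    norm_cast
  have hM : ∀ γ ∈ Gamma M, ∀ v, h (vm γ.1 v) = h v :=
    fun γ hγ v => hh.2.2 γ (Gamma_le_Gamma0 M hγ) v
  have hdet : ∀ b : ℤ, (!![1, b; 0, (q : ℤ)] : Matrix (Fin 2) (Fin 2) ℤ).det = q := by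
    intro b
    rw [Matrix.det_fin_two_of]
    ring
  have hdet' : (!![(q : ℤ), 0; 0, 1] : Matrix (Fin 2) (Fin 2) ℤ).det = q := by
    rw [Matrix.det_fin_two_of]
    ring
  have e0 : (fun y : SL(2, ℤ) => h (vm y.1 (1, 0))) = fv h 1 := by
    funext y
    rw [fv, one_mul]
  have e1 : (fun y : SL(2, ℤ) => hop M q h (vm y.1 (1, 0))) = fun y =>
      (∑ b ∈ Finset.range q, fv h !![1, (b : ℤ); 0, (q : ℤ)] y) +
        if q ∣ M then 0 else fv h !![(q : ℤ), 0; 0, 1] y := by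
    funext y
    simp only [fv, vm_mul]
    rfl
  have e2 : mean (fun y : SL(2, ℤ) => ∑ b ∈ Finset.range q, fv h !![1, (b : ℤ); 0, (q : ℤ)] y) =
      (q : ℂ) ^ 2 * mean (fv h 1) := by
    rw [mean_sum (φ := fun b : ℕ => fv h !![1, (b : ℤ); 0, (q : ℤ)]) _
        fun (b : ℕ) _ => finiteIndex_fv (hdet (b : ℤ)) hq0 hM,
      Finset.sum_congr rfl fun (b : ℕ) _ => mean_up hq hl hM (b : ℤ), Finset.sum_const,
      Finset.card_range, nsmul_eq_mul]
    ring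
  have hf1 : (stb (fun y : SL(2, ℤ) => ∑ b ∈ Finset.range q,
      fv h !![1, (b : ℤ); 0, (q : ℤ)] y)).FiniteIndex :=
    finiteIndex_stb_sum (φ := fun b : ℕ => fv h !![1, (b : ℤ); 0, (q : ℤ)]) _
      fun (b : ℕ) _ => finiteIndex_fv (hdet (b : ℤ)) hq0 hM
  rw [E0_eq_mean hh'.2.2, E0_eq_mean hh.2.2, e0, e1]
  split_ifs with hqM
  · simp only [add_zero]
    rw [e2]
    ring
  · rw [mean_add hf1 (finiteIndex_fv hdet' hq0 hM), e2, mean_lo hq hl hM]
    ring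

end

end Gouvea.Cnt
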