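import Pool.Agent.Work.MP_d3517d_nt.Cnt.Main
import Pool.Agent.Work.MP_d3517d_nt.Cnt.TwoB
import Pool.Agent.Work.MP_d3517d_nt.Cnt.TwoAE
import Pool.Agent.Work.MP_d3517d_nt.Cnt.HopRep
import Pool.Agent.Work.MP_d3517d_nt.POS.CuspFin
import Pool.Agent.Work.MP_d3517d_nt.Cnt.ExactPos

/-!
# Exact Eichler-Shimura relation for the systems of eigenvalues in degree zero (MP_d3517d_nt)

`exactES_zero : POS.ExactES 0`, `exactES : POS.ExactES n` for all even `n`.
-/

open Polynomial CongruenceSubgroup Module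
open scoped MatrixGroups

noncomputable section

namespace Gouvea.Cnt

open Gouvea.ES Gouvea.Theta Gouvea.POS Gouvea.Sys

/-! ### Abstract tools -/

/-- stable subspaces -/
lemma stable_of_X {ι K V : Type*} [Field K] [AddCommGroup V] [Module K V]
    {ρ : MvPolynomial ι ℤ →+* Module.End K V} {W : Submodule K V}
    (h : ∀ i, ∀ v ∈ W, ρ (MvPolynomial.X i) v ∈ W) (r : MvPolynomial ι ℤ) :
    ∀ v ∈ W, ρ r v ∈ W := by
  induction r using MvPolynomial.induction_on with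
  | C a =>
    intro v hv
    have e : (MvPolynomial.C a : MvPolynomial ι ℤ) = ((a : ℤ) : MvPolynomial ι ℤ) := by simp
    rw [e, map_intCast, Module.End.intCast_apply]
    exact zsmul_mem hv a
  | add p q hp hq =>
    intro v hv
    rw [map_add, LinearMap.add_apply]
    exact add_mem (hp v hv) (hq v hv)
  | mul_X p i hp =>
    intro v hv
    rw [map_mul, Module.End.mul_apply]
    exact hp _ (h i v hv)

/-- the one dimensional representation of a system -/
def oneRep (χ : MvPolynomial Nat.Primes ℤ →+* ℂ) :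
    MvPolynomial Nat.Primes ℤ →+* Module.End ℂ ℂ :=
  (algebraMap ℂ (Module.End ℂ ℂ)).comp χ

lemma oneRep_apply (χ : MvPolynomial Nat.Primes ℤ →+* ℂ) (r : MvPolynomial Nat.Primes ℤ) (z : ℂ) :
    oneRep χ r z = χ r * z := rfl

lemma Sys_oneRep (χ : MvPolynomial Nat.Primes ℤ →+* ℂ) : Sys (oneRep χ) = {χ} := by
  refine Sys_of_finrank_one (oneRep χ) (finrank_self ℂ) fun r => ?_
  refine LinearMap.ext fun z => ?_
  rw [oneRep_apply]
  rfl

/-- the systems on the image of a map whose kernel is a stable subspace and a line -/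
theorem Sys_range_add {R V W : Type*} [CommRing R] [AddCommGroup V] [Module ℂ V] [AddCommGroup W]
    [Module ℂ W] (ρV : R →+* Module.End ℂ V) (ρW : R →+* Module.End ℂ W) (b : V →ₗ[ℂ] W)
    (Z : Submodule ℂ V) (hZ : ∀ r, ∀ v ∈ Z, ρV r v ∈ Z) [FiniteDimensional ℂ (V ⧸ Z)]
    [FiniteDimensional ℂ (LinearMap.range b)]
    (hb : ∀ r v, b (ρV r v) = ρW r (b v))
    (hr : ∀ r, ∀ w ∈ LinearMap.range b, ρW r w ∈ LinearMap.range b)
    (c : V) (hc : c ∉ Z) (χ : R →+* ℂ) (hχ : ∀ r, ρV r c = χ r • c)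
    (hk : ∀ v, b v = 0 ↔ ∃ z : ℂ, v - z • c ∈ Z) :
    Sys (subRep ρW (LinearMap.range b) hr) + {χ} = Sys (quotRep ρV Z hZ) := by
  have hle : Z ≤ LinearMap.ker b.rangeRestrict := by
    intro v hv
    rw [LinearMap.mem_ker]
    refine Subtype.ext ?_
    exact (hk v).2 ⟨0, by rwa [zero_smul, sub_zero]⟩
  let g : (V ⧸ Z) →ₗ[ℂ] LinearMap.range b := Z.liftQ b.rangeRestrict hle
  let f : ℂ →ₗ[ℂ] (V ⧸ Z) := LinearMap.toSpanSingleton ℂ (V ⧸ Z) (Z.mkQ c)
  let ρ1 : R →+* Module.End ℂ ℂ := (algebraMap ℂ (Module.End ℂ ℂ)).comp χ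
  have hρ1 : Sys ρ1 = {χ} := by
    refine Sys_of_finrank_one ρ1 (finrank_self ℂ) fun r => ?_
    refine LinearMap.ext fun z => ?_
    rfl
  have hf : ∀ r z, f (ρ1 r z) = quotRep ρV Z hZ r (f z) := by
    intro r z
    change (χ r * z) • Z.mkQ c = quotRep ρV Z hZ r (z • Z.mkQ c)
    rw [map_smul, mul_comm, ← smul_smul]
    congr 1
    change _ = Z.mkQ (ρV r c)
    rw [hχ, map_smul]
  have hg : ∀ r v, g (quotRep ρV Z hZ r v) = subRep ρW (LinearMap.range b) hr r (g v) := by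
    intro r v
    obtain ⟨v, rfl⟩ := Z.mkQ_surjective v
    exact Subtype.ext (hb r v)
  have hinj : Function.Injective f := by
    rw [← LinearMap.ker_eq_bot]
    refine LinearMap.ker_toSpanSingleton ℂ ?_
    rw [Submodule.mkQ_apply, ne_eq, Submodule.Quotient.mk_eq_zero]
    exact hc
  have hsurj : Function.Surjective g := by
    rintro ⟨_, v, rfl⟩
    exact ⟨Z.mkQ v, rfl⟩
  have hker : LinearMap.range f = LinearMap.ker g := by
    ext v
    obtain ⟨v, rfl⟩ := Z.mkQ_surjective v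
    have h1 : g (Z.mkQ v) = 0 ↔ b v = 0 := by
      rw [← Subtype.coe_inj]
      rfl
    rw [LinearMap.mem_range, LinearMap.mem_ker, h1, hk]
    refine exists_congr fun z => ?_
    change z • Z.mkQ c = Z.mkQ v ↔ _
    rw [← map_smul, eq_comm, ← sub_eq_zero, ← map_sub, Submodule.mkQ_apply,
      Submodule.Quotient.mk_eq_zero]
  rw [Sys_exact hf hg hinj hsurj hker, hρ1, add_comm]

/-- the systems on a direct sum of an embedded space and a stable subspace -/
theorem Sys_sup {R U V : Type*} [CommRing R] [AddCommGroup U] [Module ℂ U] [AddCommGroup V]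
    [Module ℂ V] [FiniteDimensional ℂ U] [FiniteDimensional ℂ V]
    (ρU : R →+* Module.End ℂ U) (ρV : R →+* Module.End ℂ V) (e : U →ₗ[ℂ] V)
    (he : ∀ r u, e (ρU r u) = ρV r (e u)) (hinj : Function.Injective e) (B K : Submodule ℂ V)
    (hB : ∀ r, ∀ v ∈ B, ρV r v ∈ B) (hK : ∀ r, ∀ v ∈ K, ρV r v ∈ K)
    (hd : Disjoint (LinearMap.range e) B) (hs : LinearMap.range e ⊔ B = K) :
    Sys (subRep ρV K hK) = Sys ρU + Sys (subRep ρV B hB) := by
  have hmem : ∀ x : U × B, e.coprod B.subtype x ∈ K := by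
    rintro ⟨u, b⟩
    rw [LinearMap.coprod_apply, ← hs]
    exact Submodule.add_mem_sup (LinearMap.mem_range_self _ _) b.2
  let Φ : (U × B) →ₗ[ℂ] K := (e.coprod B.subtype).codRestrict K hmem
  have hΦ : Function.Bijective Φ := by
    constructor
    · rw [injective_iff_map_eq_zero]
      rintro ⟨u, b⟩ h
      have h1 : e u + (b : V) = 0 := congrArg Subtype.val h
      have h2 : e u = 0 := by
        refine Submodule.disjoint_def.1 hd _ (LinearMap.mem_range_self _ _) ?_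
        rw [eq_neg_of_add_eq_zero_left h1]
        exact neg_mem b.2
      rw [h2, zero_add] at h1
      have h3 : u = 0 := hinj (by rw [h2, map_zero])
      have h4 : b = 0 := Subtype.ext h1
      rw [h3, h4]
      rfl
    · rintro ⟨v, hv⟩
      rw [← hs] at hv
      obtain ⟨_, ⟨u, rfl⟩, b, hb, rfl⟩ := Submodule.mem_sup.1 hv
      exact ⟨(u, ⟨b, hb⟩), rfl⟩
  rw [← Sys_prod]
  symm
  refine Sys_congr (LinearEquiv.ofBijective Φ hΦ) ?_
  rintro r ⟨u, b⟩
  refine Subtype.ext ?_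
  change e (ρU r u) + ρV r b = ρV r (e u + b)
  rw [he, map_add]

variable {M : ℕ}

/-! ### The residues -/

/-- the values `q⁻¹` -/
def sinv (q : Nat.Primes) : ℂ := ((q : ℕ) : ℂ)⁻¹

/-- the Hecke operators on the functions which vanish at the cusps `u/v`, `4 ∣ v` -/
def opOut (e : ℤ) (M : ℕ) (hM : 4 ∣ M) (q : Nat.Primes) : Module.End ℂ (HOut e M) :=
  (hop M q).restrict fun _ h => hop_mem_HOut q.2 hM h

lemma opOut_comm (e : ℤ) (M : ℕ) [NeZero M] (hM : 4 ∣ M) (q r : Nat.Primes) :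
    Commute (opOut e M hM q) (opOut e M hM r) := by
  refine LinearMap.ext fun F => Subtype.ext ?_
  have h := congrArg (fun T : Module.End ℂ (HF e M) => ((T ⟨F.1, F.2.1⟩ : HF e M) : ℤ × ℤ → ℂ))
    (hopF_comm (e := e) (M := M) q.2 r.2)
  exact h

/-- the representation on the functions which vanish at the cusps `u/v`, `4 ∣ v` -/
def rhoOut (e : ℤ) (M : ℕ) [NeZero M] (hM : 4 ∣ M) (s : Nat.Primes → ℂ) :
    MvPolynomial Nat.Primes ℤ →+* Module.End ℂ (HOut e M) :=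
  Gouvea.Desc.comEval (fun q => s q • opOut e M hM q) fun q r =>
    ((opOut_comm e M hM q r).smul_left _).smul_right _

lemma rhoOut_X (e : ℤ) (M : ℕ) [NeZero M] (hM : 4 ∣ M) (s : Nat.Primes → ℂ) (q : Nat.Primes)
    (x : HOut e M) : (rhoOut e M hM s (MvPolynomial.X q) x : ℤ × ℤ → ℂ) =
      s q • hop M q (x : ℤ × ℤ → ℂ) := by
  rw [rhoOut, Gouvea.Desc.comEval_X]
  rfl

theorem Sys_rhoOut {e : ℤ} (he : e = ((0 : ℕ) : ℤ) + 2) (M : ℕ) [NeZero M] (hM : 4 ∣ M) :
    ∃ _ : FiniteDimensional ℂ (HOut e M),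
      Sys (V := HOut e M) (rhoOut e M hM sinv) = eisOut 0 M := by
  have h0 := @Sys_HOut 0 Even.zero M _ hM (HOut e M) _ _
  have h1 := h0 (rhoOut e M hM sinv) (HOut e M).subtype (Submodule.injective_subtype _)
  rw [← he] at h1
  exact h1 (fun x => x.2) (fun F hF => ⟨⟨F, hF⟩, rfl⟩) (rhoOut_X e M hM sinv)

/-- the residue map in weight two -/
def resW (M : ℕ) [NeZero M] (hM : 4 ∣ M) {e : ℤ} (he : e = ((0 : ℕ) : ℤ) + 2) :
    PS.Sym ℂ M 0 →ₗ[ℂ] HOut e M :=
  (resL M 0).codRestrict (HOut e M) fun ψ => by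
    rw [he]
    exact res_mem hM ψ

lemma ker_resW (M : ℕ) [NeZero M] (hM : 4 ∣ M) {e : ℤ} (he : e = ((0 : ℕ) : ℤ) + 2) :
    LinearMap.ker (resW M hM he) = LinearMap.ker (resL M 0) := LinearMap.ker_codRestrict _ _ _

/-- the sum of the residues -/
def sumW (e : ℤ) (M : ℕ) [NeZero M] : HOut e M →ₗ[ℂ] ℂ := (E0L M).comp (HOut e M).subtype

lemma sumW_apply (e : ℤ) (M : ℕ) [NeZero M] (x : HOut e M) : sumW e M x = E0 M x := rfl

/-- the symbols without residues are stable -/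
lemma ker_resL_stable (M n : ℕ) [NeZero M] (hM : 4 ∣ M) :
    ∀ r, ∀ v ∈ LinearMap.ker (resL M n), rhoS ℂ M n hM r v ∈ LinearMap.ker (resL M n) := by
  refine stable_of_X fun q v hv => ?_
  rw [LinearMap.mem_ker, resL_apply] at hv ⊢
  rw [rhoS_X, opS_coe, res_hecke hM v q.2, hv, map_zero, smul_zero]

/-- the quotient representation -/
def rhoQ (M n : ℕ) [NeZero M] (hM : 4 ∣ M) : MvPolynomial Nat.Primes ℤ →+*
    Module.End ℂ (PS.Sym ℂ M n ⧸ LinearMap.ker (resL M n)) :=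
  quotRep (rhoS ℂ M n hM) _ (ker_resL_stable M n hM)

lemma le_ker_resW (M : ℕ) [NeZero M] (hM : 4 ∣ M) {e : ℤ} (he : e = ((0 : ℕ) : ℤ) + 2) :
    LinearMap.ker (resL M 0) ≤ LinearMap.ker (resW M hM he) := by
  rw [ker_resW]

lemma ker_resW_le (M : ℕ) [NeZero M] (hM : 4 ∣ M) {e : ℤ} (he : e = ((0 : ℕ) : ℤ) + 2) :
    LinearMap.ker (resW M hM he) ≤ LinearMap.ker (resL M 0) := by
  rw [ker_resW]

/-- the residues on the quotient -/
def resQ (M : ℕ) [NeZero M] (hM : 4 ∣ M) {e : ℤ} (he : e = ((0 : ℕ) : ℤ) + 2) :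
    (PS.Sym ℂ M 0 ⧸ LinearMap.ker (resL M 0)) →ₗ[ℂ] HOut e M :=
  Submodule.liftQ (LinearMap.ker (resL M 0)) (resW M hM he) (le_ker_resW M hM he)

lemma resQ_mk (M : ℕ) [NeZero M] (hM : 4 ∣ M) {e : ℤ} (he : e = ((0 : ℕ) : ℤ) + 2)
    (ψ : PS.Sym ℂ M 0) :
    resQ M hM he ((LinearMap.ker (resL M 0)).mkQ ψ) = resW M hM he ψ := rfl

lemma resQ_injective (M : ℕ) [NeZero M] (hM : 4 ∣ M) {e : ℤ} (he : e = ((0 : ℕ) : ℤ) + 2) :
    Function.Injective (resQ M hM he) := by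
  rw [← LinearMap.ker_eq_bot]
  exact Submodule.ker_liftQ_eq_bot _ _ (le_ker_resW M hM he) (ker_resW_le M hM he)

lemma resQ_equivariant (M : ℕ) [NeZero M] (hM : 4 ∣ M) {e : ℤ} (he : e = ((0 : ℕ) : ℤ) + 2)
    (r : MvPolynomial Nat.Primes ℤ) (u : PS.Sym ℂ M 0 ⧸ LinearMap.ker (resL M 0)) :
    resQ M hM he (rhoQ M 0 hM r u) = rhoOut e M hM sinv r (resQ M hM he u) := by
  refine equivariant_of_X (fun q u => ?_) r u
  obtain ⟨ψ, rfl⟩ := (LinearMap.ker (resL M 0)).mkQ_surjective u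
  refine Subtype.ext ?_
  rw [rhoOut_X, resQ_mk]
  change res M 0 (rhoS ℂ M 0 hM (MvPolynomial.X q) ψ).1 = _
  rw [rhoS_X, opS_coe, res_hecke hM ψ q.2]
  rfl

lemma sumW_equivariant {e : ℤ} (he : e = 2) (M : ℕ) [NeZero M] (hM : 4 ∣ M)
    (r : MvPolynomial Nat.Primes ℤ) (v : HOut e M) :
    sumW e M (rhoOut e M hM sinv r v) = oneRep (sysOf (trivV M)) r (sumW e M v) := by
  refine equivariant_of_X (fun q v => ?_) r v
  have hq0 : ((q : ℕ) : ℂ) ≠ 0 := by exact_mod_cast q.2.ne_zero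
  have h1 : (v : ℤ × ℤ → ℂ) ∈ HF 2 M := by
    rw [← he]
    exact v.2.1
  rw [sumW_apply, sumW_apply, rhoOut_X, E0_smul, E0_hop q.2 h1 (hop_mem_HF q.2 h1), oneRep_apply,
    sysOf_X, trivV, sinv, ← mul_assoc]
  congr 1
  split_ifs
  · field_simp
  · field_simp
    ring

theorem Sys_rhoQ (M : ℕ) [NeZero M] (hM : 4 ∣ M) :
    haveI := finiteDimensional_Sym ℂ M 0 Even.zero
    Sys (V := PS.Sym ℂ M 0 ⧸ LinearMap.ker (resL M 0)) (rhoQ M 0 hM) + {sysOf (trivV M)} =
      eisOut 0 M := by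
  have hfd := finiteDimensional_Sym ℂ M 0 Even.zero
  have he : ((0 : ℕ) : ℤ) + 2 = ((0 : ℕ) : ℤ) + 2 := rfl
  obtain ⟨hfin, hS⟩ := Sys_rhoOut he M hM
  rw [← hS]
  have h2 : Even (((0 : ℕ) : ℤ) + 2) := by decide
  have hsurj : Function.Surjective (sumW (((0 : ℕ) : ℤ) + 2) M) := by
    obtain ⟨h, hh, h0⟩ := exists_E0_ne_zero M (dvd_trans (by norm_num) hM)
    intro c
    refine ⟨(c * (E0 M h)⁻¹) • ⟨h, hh⟩, ?_⟩
    rw [map_smul, sumW_apply, smul_eq_mul, inv_mul_cancel_right₀ h0]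
  have hle : LinearMap.range (resQ M hM he) ≤ LinearMap.ker (sumW (((0 : ℕ) : ℤ) + 2) M) := by
    rintro _ ⟨u, rfl⟩
    obtain ⟨ψ, rfl⟩ := (LinearMap.ker (resL M 0)).mkQ_surjective u
    exact E0_res hM ψ
  have hcount : finrank ℂ (LinearMap.range (resQ M hM he)) =
      finrank ℂ (LinearMap.ker (sumW (((0 : ℕ) : ℤ) + 2) M)) := by
    have h3 := LinearMap.finrank_range_add_finrank_ker (sumW (((0 : ℕ) : ℤ) + 2) M)
    rw [LinearMap.range_eq_top.2 hsurj, finrank_top, finrank_self] at h3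
    have h4 := LinearMap.finrank_range_of_inj (resQ_injective M hM he)
    have h5 := Submodule.finrank_quotient_add_finrank (LinearMap.ker (resL M 0))
    have h6 := LinearMap.finrank_range_add_finrank_ker (resL M 0)
    have h7 := finrank_range_resL (n := 0) (M := M) hM Even.zero h2
    have h8 := (weight_two (M := M) hM h2).2.1
    have h9 := finrank_Sym ℂ M 0 Even.zero
    omega
  have hker : LinearMap.range (resQ M hM he) = LinearMap.ker (sumW (((0 : ℕ) : ℤ) + 2) M) :=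
    Submodule.eq_of_le_of_finrank_eq hle hcount
  have h := Sys_exact (ρU := rhoQ M 0 hM) (ρV := rhoOut _ M hM sinv)
    (ρW := oneRep (sysOf (trivV M))) (resQ_equivariant M hM he)
    (sumW_equivariant (by norm_num) M hM) (resQ_injective M hM he) hsurj hker
  rw [h, Sys_oneRep]

/-! ### The boundary symbols -/

section bd

variable (M : ℕ) [NeZero M]

/-- the degree `0` -/
abbrev e0 : ℤ := -((0 : ℕ) : ℤ)

/-- the Hecke operators on the homogeneous functions of degree `0` -/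
def rhoB : MvPolynomial Nat.Primes ℤ →+* Module.End ℂ (HF e0 M) :=
  Gouvea.Desc.comEval (fun q : Nat.Primes => hopF e0 M q.2) fun q r => hopF_comm q.2 r.2

omit [NeZero M] in
lemma rhoB_X (q : Nat.Primes) : rhoB M (MvPolynomial.X q) = hopF e0 M q.2 :=
  Gouvea.Desc.comEval_X _ _ _

/-- the functions which vanish at the cusps `u/v`, `4 ∣ v` -/
def WB : Submodule ℂ (HF e0 M) := (HOut e0 M).comap (HF e0 M).subtype

omit [NeZero M] in
variable {M} in
lemma mem_WB {F : HF e0 M} : F ∈ WB M ↔ ∀ v, inC v → (F : ℤ × ℤ → ℂ) v = 0 :=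
  ⟨fun h => h.2, fun h => ⟨F.2, h⟩⟩

lemma WB_stable (hM : 4 ∣ M) : ∀ r, ∀ v ∈ WB M, rhoB M r v ∈ WB M := by
  refine stable_of_X fun q v hv => ?_
  rw [rhoB_X]
  exact hop_mem_HOut q.2 hM hv

/-- the quotient -/
abbrev QB : Type := HF e0 M ⧸ WB M

/-- the representation on the quotient -/
def rhoQB (hM : 4 ∣ M) : MvPolynomial Nat.Primes ℤ →+* Module.End ℂ (QB M) :=
  quotRep (rhoB M) (WB M) (WB_stable M hM)

theorem Sys_rhoQB (hM : 4 ∣ M) :
    ∃ _ : FiniteDimensional ℂ (QB M), Sys (V := QB M) (rhoQB M hM) = eisIn 0 M := by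
  have h0 := @Sys_HIn 0 Even.zero M _ hM (QB M) _ _
  have h1 := h0 (rhoQB M hM) (WB M).mkQ (WB M).mkQ_surjective
  have h2 := h1 (by
    intro F
    rw [Submodule.mkQ_apply, Submodule.Quotient.mk_eq_zero]
    exact mem_WB)
  exact h2 (by
    intro q F
    refine ⟨rhoB M (MvPolynomial.X q) F, ?_, rfl⟩
    rw [rhoB_X, pow_zero, one_smul]
    rfl)

lemma rhoS_bdS (hM : 4 ∣ M) (q : Nat.Primes) (F : HF e0 M) :
    rhoS ℂ M 0 hM (MvPolynomial.X q) (bdS M 0 F) = bdS M 0 (hopF e0 M q.2 F) := by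
  rw [rhoS_X]
  refine Subtype.ext ?_
  rw [opS_coe, bdS_hecke q.2 hM F, pow_zero, one_smul]

lemma range_bdS_stable (hM : 4 ∣ M) :
    ∀ r, ∀ v ∈ LinearMap.range (bdS M 0), rhoS ℂ M 0 hM r v ∈ LinearMap.range (bdS M 0) := by
  refine stable_of_X fun q v hv => ?_
  obtain ⟨F, rfl⟩ := hv
  rw [rhoS_bdS]
  exact LinearMap.mem_range_self _ _

omit [NeZero M] in
lemma hop_cst {q : ℕ} (hq : q.Prime) :
    hop M q cst = (if q ∣ M then (q : ℂ) else 1 + (q : ℂ)) • cst := by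
  funext v
  rw [hop_apply, Pi.smul_apply, smul_eq_mul]
  by_cases hv : v = (0, 0)
  · subst hv
    have h0 : cst (0, 0) = 0 := if_pos rfl
    simp only [vm_zero, h0, Finset.sum_const_zero, ite_self, mul_zero, add_zero]
  · have h1 : ∀ g : Matrix (Fin 2) (Fin 2) ℤ, g.det ≠ 0 → cst (vm g v) = 1 := by
      intro g hg
      refine if_neg fun h => hv ?_
      obtain ⟨x, y⟩ := v
      rw [vm, Prod.mk.injEq] at h
      obtain ⟨ha, hb⟩ := h
      rw [Matrix.det_fin_two] at hg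
      have hx : (g 0 0 * g 1 1 - g 0 1 * g 1 0) * x = 0 := by
        linear_combination g 1 1 * ha - g 0 1 * hb
      have hy : (g 0 0 * g 1 1 - g 0 1 * g 1 0) * y = 0 := by
        linear_combination g 0 0 * hb - g 1 0 * ha
      rw [Prod.mk.injEq]
      exact ⟨(mul_eq_zero.1 hx).resolve_left hg, (mul_eq_zero.1 hy).resolve_left hg⟩
    have hq0 : (q : ℤ) ≠ 0 := by exact_mod_cast hq.ne_zero
    have h2 : cst v = 1 := if_neg hv
    rw [h2, Finset.sum_congr rfl fun b _ => h1 _ (by rw [Matrix.det_fin_two_of]; simpa using hq0),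
      h1 _ (by rw [Matrix.det_fin_two_of]; simpa using hq0)]
    split_ifs
    · simp
    · simp
      ring

lemma rhoB_cst (r : MvPolynomial Nat.Primes ℤ) :
    rhoB M r ⟨cst, cst_mem M⟩ = sysOf (trivV M) r • (⟨cst, cst_mem M⟩ : HF e0 M) := by
  have h := equivariant_of_X (ρU := oneRep (sysOf (trivV M))) (ρV := rhoB M)
    (f := LinearMap.toSpanSingleton ℂ (HF e0 M) (⟨cst, cst_mem M⟩ : HF e0 M)) (fun q z => by
      rw [oneRep_apply, sysOf_X, LinearMap.toSpanSingleton_apply,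
        LinearMap.toSpanSingleton_apply, map_smul, mul_comm, ← smul_smul, rhoB_X]
      congr 1
      exact Subtype.ext (hop_cst M q.2).symm) r 1
  rw [oneRep_apply, mul_one, LinearMap.toSpanSingleton_apply, LinearMap.toSpanSingleton_apply,
    one_smul] at h
  exact h.symm

theorem Sys_range_bdS (hM : 4 ∣ M) :
    haveI := finiteDimensional_Sym ℂ M 0 Even.zero
    Sys (subRep (rhoS ℂ M 0 hM) (LinearMap.range (bdS M 0)) (range_bdS_stable M hM)) +
      {sysOf (trivV M)} = eisIn 0 M := by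
  have hfd := finiteDimensional_Sym ℂ M 0 Even.zero
  obtain ⟨hfin, hS⟩ := Sys_rhoQB M hM
  rw [← hS]
  refine Sys_range_add (rhoB M) (rhoS ℂ M 0 hM) (bdS M 0) (WB M) (WB_stable M hM) ?_
    (range_bdS_stable M hM) ⟨cst, cst_mem M⟩ ?_ (sysOf (trivV M)) (rhoB_cst M) ?_
  · intro r v
    refine equivariant_of_X (fun q z => ?_) r v
    rw [rhoB_X, rhoS_bdS]
  · intro h
    have h1 : cst (1, 0) = 0 := mem_WB.1 h (1, 0) inC_one_zero
    rw [cst_inC inC_one_zero] at h1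
    exact one_ne_zero h1
  · intro F
    rw [bdS_zero_eq_zero_iff]
    refine exists_congr fun c => ?_
    rw [mem_WB]
    refine forall₂_congr fun v hv => ?_
    change _ ↔ (F : ℤ × ℤ → ℂ) v - c * cst v = 0
    rw [cst_inC hv, mul_one, sub_eq_zero]

end bd

/-! ### The theorem -/

theorem Sys_ker_resL [NeZero M] (hM : 4 ∣ M) :
    haveI := finiteDimensional_Sym ℂ M 0 Even.zero
    Sys (subRep (rhoS ℂ M 0 hM) (LinearMap.ker (resL M 0)) (ker_resL_stable M 0 hM)) =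
      2 • Sys (rhoC M (0 + 2)) + Sys (subRep (rhoS ℂ M 0 hM) (LinearMap.range (bdS M 0))
        (range_bdS_stable M hM)) := by
  have hfd := finiteDimensional_Sym ℂ M 0 Even.zero
  have h2 : Even (((0 : ℕ) : ℤ) + 2) := by decide
  have hs : LinearMap.range (ESmap M 0) ⊔ LinearMap.range (bdS M 0) =
      LinearMap.ker (resL M 0) := by
    rw [ker_resL hM Even.zero]
    exact (weight_two (M := M) hM h2).2.2
  have h := Sys_sup (prodRep (rhoC M (0 + 2)) (rhoC M (0 + 2))) (rhoS ℂ M 0 hM) (ESmap M 0)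
    (ESmap_equivariant hM) (ESmap_injective_all hM Even.zero) (LinearMap.range (bdS M 0))
    (LinearMap.ker (resL M 0)) (range_bdS_stable M hM) (ker_resL_stable M 0 hM)
    (disjoint_ES_bd_zero hM) hs
  rw [h, Sys_prod, two_nsmul]

/-- **Exact Eichler-Shimura in degree `0`.** -/
theorem exactES_zero : ExactES 0 := by
  intro hn L _ hL
  rw [if_pos rfl]
  have hfd := finiteDimensional_Sym ℂ L 0 Even.zero
  have h1 := Sys_sub_add_quot (rhoS ℂ L 0 hL) (LinearMap.ker (resL L 0)) (ker_resL_stable L 0 hL)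
  have h2 : Sys (quotRep (rhoS ℂ L 0 hL) (LinearMap.ker (resL L 0)) (ker_resL_stable L 0 hL)) +
      {sysOf (trivV L)} = eisOut 0 L := Sys_rhoQ L hL
  have h3 := Sys_range_bdS L hL
  rw [Gouvea.POS.eisL_eq, ← h2, ← h3, h1, Sys_ker_resL hL, two_nsmul {sysOf (trivV L)}]
  abel

/-- **Exact Eichler-Shimura** in all degrees. -/
theorem exactES (n : ℕ) (hn : Even n) : ExactES n := by
  rcases Nat.eq_zero_or_pos n with rfl | h
  · exact exactES_zero
  · obtain ⟨m, hm⟩ := hn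
    exact exactES_pos (by omega)

end Gouvea.Cnt
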