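import Pool.Agent.Work.MP_d3517d_nt.Cnt.Defs
import Pool.Agent.Work.MP_d3517d_nt.ES.Link

/-!
# Residues of partial modular symbols: definitions (MP_d3517d_nt, exact Eichler–Shimura)

* `rst n M` : restriction of full symbols to the cusps `u/v`, `4 ∣ v`;
* `par w j` : the unipotent matrix `v ↦ v + j det(w, v) w`;
* `hev n P w` : the value at the vector `w` of the homogeneous polynomial of degree `n`;
* `res M n ψ w = M⁻¹ ψ(x, par w M x)(w)` : the residue of `ψ` at the vector `w`;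
* `HF e M` : functions on vectors, homogeneous of degree `e`, invariant under `Γ₀(M)`;
* `hop M q` : the Hecke operators on functions on vectors.
-/

open Polynomial CongruenceSubgroup
open scoped MatrixGroups

noncomputable section

namespace Gouvea.Cnt

open Gouvea.ES Gouvea.Theta

/-- the values of the restriction of a full symbol -/
def rstFun (n : ℕ) (φ : Symb) : PS.Cusp → PS.Cusp → Fin (n + 1) → ℂ :=
  fun x y i => (φ (toP x) (toP y)).coeff i

/-- a matrix of `Γ₀(M)` in `S4` as a matrix of `SL₂(ℤ)` -/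
def toSL {M : ℕ} {g : PS.S4} (hg : PS.IsG0 M g) : SL(2, ℤ) := ⟨g.1, hg.1⟩

lemma toSL_mem {M : ℕ} {g : PS.S4} (hg : PS.IsG0 M g) : toSL hg ∈ Gamma0 M :=
  Gamma0_mem.2 ((ZMod.intCast_zmod_eq_zero_iff_dvd _ _).2 hg.2)

lemma sQ_toSL {M : ℕ} {g : PS.S4} (hg : PS.IsG0 M g) : sQ (toSL hg) = gQ g := by
  ext i j
  rw [gQ_apply]
  rfl

lemma act_rstFun (n : ℕ) (φ : Symb) (g : PS.S4) :
    PS.act ℂ n g (rstFun n φ) = rstFun n (fact n (gQ g) φ) := by
  funext x y i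
  rw [PS.act_apply]
  change (PS.slk n (g.1.map (Int.cast : ℤ → ℂ))).mulVec
    (fun j : Fin (n + 1) => (φ (toP (g • x)) (toP (g • y))).coeff j) i = _
  rw [← PS.coeff_slashM_eq]
  change _ = (slashM n (matOf ℂ (gQ g)) (φ (gQ g • toP x) (gQ g • toP y))).coeff i
  rw [matOf_gQ, toP_smul, toP_smul]

/-- **Restriction** of full symbols to the cusps `u/v`, `4 ∣ v`. -/
def rst (n M : ℕ) : SF n M →ₗ[ℂ] PS.Sym ℂ M n where
  toFun φ := ⟨rstFun n φ, by
    obtain ⟨h1, h2, h3⟩ := φ.2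
    refine ⟨fun x y z => ?_, fun g hg => ?_⟩
    · funext i
      change (φ.1 (toP x) (toP y)).coeff i + (φ.1 (toP y) (toP z)).coeff i =
        (φ.1 (toP x) (toP z)).coeff i
      rw [← coeff_add, h2]
    · rw [act_rstFun, ← sQ_toSL hg, h3 _ (toSL_mem hg)]⟩
  map_add' φ ψ := by
    refine Subtype.ext ?_
    funext x y i
    exact coeff_add _ _ _
  map_smul' a φ := by
    refine Subtype.ext ?_
    funext x y i
    exact coeff_smul _ _ _

lemma rst_coe (n M : ℕ) (φ : SF n M) :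
    (rst n M φ : PS.Cusp → PS.Cusp → Fin (n + 1) → ℂ) = rstFun n φ.1 := rfl

/-- a matrix times a vector -/
def vm (g : Matrix (Fin 2) (Fin 2) ℤ) (v : ℤ × ℤ) : ℤ × ℤ :=
  (g 0 0 * v.1 + g 0 1 * v.2, g 1 0 * v.1 + g 1 1 * v.2)

lemma vm_mul (g h : Matrix (Fin 2) (Fin 2) ℤ) (v : ℤ × ℤ) : vm (g * h) v = vm g (vm h v) := by
  simp only [vm, Matrix.mul_apply, Fin.sum_univ_two]
  refine Prod.ext ?_ ?_ <;> ring

/-- the vectors `(l a, l c)` with `a` odd and `4 ∣ c`: those of the cusps of `PS.Cusp` -/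
def inC (v : ℤ × ℤ) : Prop := ∃ l a c : ℤ, l ≠ 0 ∧ Odd a ∧ (4 : ℤ) ∣ c ∧ v = (l * a, l * c)

/-- functions on vectors, homogeneous of degree `e`, invariant under `Γ₀(M)` -/
def HF (e : ℤ) (M : ℕ) : Submodule ℂ (ℤ × ℤ → ℂ) where
  carrier := {F | F (0, 0) = 0 ∧ (∀ l : ℤ, l ≠ 0 → ∀ v : ℤ × ℤ, F (l * v.1, l * v.2) =
    (l : ℂ) ^ e * F v) ∧ ∀ g ∈ Gamma0 M, ∀ v, F (vm g.1 v) = F v}
  add_mem' := by
    rintro F G ⟨h1, h2, h3⟩ ⟨k1, k2, k3⟩
    refine ⟨by simp [h1, k1], fun l hl v => ?_, fun g hg v => ?_⟩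
    · simp only [Pi.add_apply]
      rw [h2 l hl, k2 l hl, mul_add]
    · simp only [Pi.add_apply]
      rw [h3 g hg, k3 g hg]
  zero_mem' := ⟨rfl, fun l hl v => by simp, fun g hg v => rfl⟩
  smul_mem' := by
    rintro a F ⟨h1, h2, h3⟩
    refine ⟨by simp [h1], fun l hl v => ?_, fun g hg v => ?_⟩
    · simp only [Pi.smul_apply, smul_eq_mul]
      rw [h2 l hl, mul_left_comm]
    · simp only [Pi.smul_apply, smul_eq_mul]
      rw [h3 g hg]

/-- those which vanish at the cusps of `PS.Cusp` -/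
def HOut (e : ℤ) (M : ℕ) : Submodule ℂ (ℤ × ℤ → ℂ) where
  carrier := {F | F ∈ HF e M ∧ ∀ v, inC v → F v = 0}
  add_mem' := by
    rintro F G ⟨h1, h2⟩ ⟨k1, k2⟩
    exact ⟨add_mem h1 k1, fun v hv => by simp [h2 v hv, k2 v hv]⟩
  zero_mem' := ⟨zero_mem _, fun v hv => rfl⟩
  smul_mem' := by
    rintro a F ⟨h1, h2⟩
    exact ⟨Submodule.smul_mem _ _ h1, fun v hv => by simp [h2 v hv]⟩

/-- the Hecke operators on functions on vectors -/
def hop (M q : ℕ) : (ℤ × ℤ → ℂ) →ₗ[ℂ] (ℤ × ℤ → ℂ) where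
  toFun F v := ∑ b ∈ Finset.range q, F (vm !![1, (b : ℤ); 0, (q : ℤ)] v) +
    if q ∣ M then 0 else F (vm !![(q : ℤ), 0; 0, 1] v)
  map_add' F G := by
    funext v
    simp only [Pi.add_apply, Finset.sum_add_distrib]
    split_ifs <;> ring
  map_smul' a F := by
    funext v
    simp only [Pi.smul_apply, smul_eq_mul, RingHom.id_apply, ← Finset.mul_sum]
    split_ifs <;> ring

/-- `v ↦ v + j det(w, v) w` -/
def par (w : ℤ × ℤ) (j : ℤ) : Matrix (Fin 2) (Fin 2) ℤ :=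
  !![1 - j * (w.1 * w.2), j * w.1 ^ 2; -(j * w.2 ^ 2), 1 + j * (w.1 * w.2)]

lemma det_par (w : ℤ × ℤ) (j : ℤ) : (par w j).det = 1 := by
  rw [par, Matrix.det_fin_two_of]
  ring

lemma vm_par (w v : ℤ × ℤ) (j : ℤ) : vm (par w j) v =
    (v.1 + j * (w.1 * v.2 - w.2 * v.1) * w.1, v.2 + j * (w.1 * v.2 - w.2 * v.1) * w.2) := by
  simp only [vm, par, Matrix.of_apply, Matrix.cons_val', Matrix.cons_val_zero,
    Matrix.cons_val_one, Matrix.empty_val', Matrix.cons_val_fin_one]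
  refine Prod.ext ?_ ?_ <;> ring

lemma par_mul (w : ℤ × ℤ) (i j : ℤ) : par w i * par w j = par w (i + j) := by
  ext a b
  fin_cases a <;> fin_cases b <;>
    simp [par, Matrix.mul_apply, Fin.sum_univ_two] <;> ring

/-- the matrix `par w (4 j)` in `S4` -/
def parS (w : ℤ × ℤ) (j : ℤ) : PS.S4 :=
  ⟨par w (4 * j), by
    refine ⟨by rw [det_par]; exact one_ne_zero, ?_, ?_⟩
    · refine ⟨-(2 * j * (w.1 * w.2)), ?_⟩
      simp only [par, Matrix.of_apply, Matrix.cons_val', Matrix.cons_val_zero,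
        Matrix.empty_val', Matrix.cons_val_fin_one]
      ring
    · refine ⟨-(j * w.2 ^ 2), ?_⟩
      simp only [par, Matrix.of_apply, Matrix.cons_val', Matrix.cons_val_zero,
        Matrix.cons_val_one, Matrix.empty_val', Matrix.cons_val_fin_one]
      ring⟩

lemma parS_coe (w : ℤ × ℤ) (j : ℤ) : (parS w j).1 = par w (4 * j) := rfl

lemma isG0_parS (M : ℕ) (w : ℤ × ℤ) {j : ℤ} (hj : (M : ℤ) ∣ 4 * j) : PS.IsG0 M (parS w j) := by
  refine ⟨det_par _ _, ?_⟩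
  rw [parS_coe]
  simp only [par, Matrix.of_apply, Matrix.cons_val', Matrix.cons_val_zero,
    Matrix.cons_val_one, Matrix.empty_val', Matrix.cons_val_fin_one]
  rw [dvd_neg]
  exact hj.mul_right _

/-- the value at `w` of the homogeneous polynomial of degree `n` with coefficients `P` -/
def hev (n : ℕ) (P : Fin (n + 1) → ℂ) (w : ℤ × ℤ) : ℂ :=
  ∑ i : Fin (n + 1), P i * ((w.1 : ℂ) ^ (i : ℕ) * (w.2 : ℂ) ^ (n - (i : ℕ)))

/-- **The residue of a partial symbol at a vector.** -/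
def res (M n : ℕ) (ψ : PS.Cusp → PS.Cusp → Fin (n + 1) → ℂ) (w : ℤ × ℤ) : ℂ :=
  (M : ℂ)⁻¹ * hev n (ψ PS.inf (parS w ((M / 4 : ℕ) : ℤ) • PS.inf)) w

end Gouvea.Cnt
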