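import Pool.Agent.Work.MP_d3517d_nt.Cnt.Bdry
import Pool.Agent.Work.MP_d3517d_nt.Cnt.Form
import Pool.Agent.Work.MP_d3517d_nt.Cnt.ResDefs

/-!
# Boundary symbols as homogeneous functions on vectors (cell COUNT, MP_d3517d_nt)

* `Fof e M he : (Cu M → ℂ) →ₗ (ℤ × ℤ → ℂ)`, injective with range `HF e M` (`e` even);
  `outC M` corresponds to `HOut e M`;
* `wHF n M : HF (-n) M ≃ WF n M`, `w x = F v • (v.1 - v.2 X)^n` for `x = v.1 / v.2`;
* `ker (rst n M)` consists of boundary symbols and has the dimension of `HOut (-n) M`.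
-/

open Polynomial CongruenceSubgroup
open scoped MatrixGroups

noncomputable section

namespace Gouvea.Cnt

open Gouvea.ES Gouvea.Theta

/-! ### Vectors and points -/

/-- the first column -/
def col (g : SL(2, ℤ)) : ℤ × ℤ := (g 0 0, g 1 0)

/-- the point of `ℙ¹(ℚ)` of a vector -/
def pt (v : ℤ × ℤ) : OnePoint ℚ :=
  if v.2 = 0 then OnePoint.infty else (((v.1 : ℚ) / (v.2 : ℚ) : ℚ) : OnePoint ℚ)

lemma pt_smul {l : ℤ} (hl : l ≠ 0) (v : ℤ × ℤ) : pt (l * v.1, l * v.2) = pt v := by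
  have hl' : (l : ℚ) ≠ 0 := by exact_mod_cast hl
  unfold pt
  by_cases h : v.2 = 0
  · rw [if_pos h, if_pos (by simp [h])]
  · rw [if_neg h, if_neg (by simp [h, hl])]
    congr 1
    push_cast
    rw [mul_div_mul_left _ _ hl']

lemma pt_col (g : SL(2, ℤ)) : pt (col g) = sQ g • (OnePoint.infty : OnePoint ℚ) := by
  rw [OnePoint.smul_infty_eq_ite, pt, col]
  have h1 : ∀ i j, (sQ g : GQ) i j = ((g i j : ℤ) : ℚ) := fun i j => by simp
  rw [h1, h1]
  by_cases h : g 1 0 = 0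
  · rw [if_pos h, if_pos (by rw [h]; simp)]
  · rw [if_neg h, if_neg (by exact_mod_cast h)]

lemma vm_col (g h : SL(2, ℤ)) : vm g.1 (col h) = col (g * h) := by
  simp only [vm, col]
  refine Prod.ext ?_ ?_
  · show _ = (g * h).1 0 0
    rw [Matrix.SpecialLinearGroup.coe_mul, Matrix.mul_apply, Fin.sum_univ_two]
  · show _ = (g * h).1 1 0
    rw [Matrix.SpecialLinearGroup.coe_mul, Matrix.mul_apply, Fin.sum_univ_two]

lemma vm_scal (g : Matrix (Fin 2) (Fin 2) ℤ) (l : ℤ) (v : ℤ × ℤ) :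
    vm g (l * v.1, l * v.2) = (l * (vm g v).1, l * (vm g v).2) := by
  simp only [vm]
  refine Prod.ext ?_ ?_ <;> simp only <;> ring

lemma isCoprime_col (g : SL(2, ℤ)) : IsCoprime (g 0 0) (g 1 0) := by
  refine ⟨g 1 1, -(g 0 1), ?_⟩
  have h := g.2
  rw [Matrix.det_fin_two] at h
  linear_combination h

lemma gcd_col (l : ℤ) (g : SL(2, ℤ)) : Int.gcd (l * (col g).1) (l * (col g).2) = l.natAbs := by
  rw [Int.gcd_mul_left, col, Int.isCoprime_iff_gcd_eq_one.1 (isCoprime_col g), mul_one]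

lemma exists_col {v : ℤ × ℤ} (hv : v ≠ (0, 0)) :
    ∃ g : SL(2, ℤ), v = ((Int.gcd v.1 v.2 : ℤ) * (col g).1, (Int.gcd v.1 v.2 : ℤ) * (col g).2) := by
  have hg : 0 < Int.gcd v.1 v.2 := by
    refine Int.gcd_pos_iff.2 ?_
    by_contra h
    rw [not_or, not_not, not_not] at h
    exact hv (Prod.ext h.1 h.2)
  have h1 : IsCoprime (v.1 / (Int.gcd v.1 v.2 : ℤ)) (v.2 / (Int.gcd v.1 v.2 : ℤ)) :=
    Int.isCoprime_iff_gcd_eq_one.2 (Int.gcd_ediv_gcd_ediv_gcd hg)
  obtain ⟨g, hg0, hg1⟩ := h1.exists_SL2_col 0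
  refine ⟨g, Prod.ext ?_ ?_⟩
  · show v.1 = (Int.gcd v.1 v.2 : ℤ) * g 0 0
    rw [hg0, Int.mul_ediv_cancel' (Int.gcd_dvd_left _ _)]
  · show v.2 = (Int.gcd v.1 v.2 : ℤ) * g 1 0
    rw [hg1, Int.mul_ediv_cancel' (Int.gcd_dvd_right _ _)]

lemma gcd_ne {v : ℤ × ℤ} (hv : v ≠ (0, 0)) : ((Int.gcd v.1 v.2 : ℕ) : ℤ) ≠ 0 := by
  intro h
  have h1 : Int.gcd v.1 v.2 = 0 := by exact_mod_cast h
  rw [Int.gcd_eq_zero_iff] at h1
  exact hv (Prod.ext h1.1 h1.2)

lemma col_ne (g : SL(2, ℤ)) : col g ≠ (0, 0) := by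
  intro h
  have h1 : g 0 0 = 0 := congrArg Prod.fst h
  have h2 : g 1 0 = 0 := congrArg Prod.snd h
  have h3 := isCoprime_col g
  rw [h1, h2] at h3
  exact not_isUnit_zero (isCoprime_zero_left.1 h3)

lemma vm_one (v : ℤ × ℤ) : vm (1 : SL(2, ℤ)).1 v = v := by
  rw [Matrix.SpecialLinearGroup.coe_one]
  simp only [vm, Matrix.one_apply_eq]
  rw [Matrix.one_apply_ne (by decide), Matrix.one_apply_ne (by decide)]
  refine Prod.ext ?_ ?_ <;> simp

lemma vm_ne {g : SL(2, ℤ)} {v : ℤ × ℤ} (hv : v ≠ (0, 0)) : vm g.1 v ≠ (0, 0) := by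
  intro h
  have h1 : vm (g⁻¹ * g).1 v = (0, 0) := by
    rw [Matrix.SpecialLinearGroup.coe_mul, vm_mul, h]
    simp [vm]
  rw [inv_mul_cancel, vm_one] at h1
  exact hv h1

lemma gcd_vm (g : SL(2, ℤ)) {v : ℤ × ℤ} (hv : v ≠ (0, 0)) :
    Int.gcd (vm g.1 v).1 (vm g.1 v).2 = Int.gcd v.1 v.2 := by
  obtain ⟨h, hh⟩ := exists_col hv
  set l : ℤ := (Int.gcd v.1 v.2 : ℤ) with hl
  have h1 : vm g.1 v = (l * (col (g * h)).1, l * (col (g * h)).2) := by
    rw [hh, vm_scal, vm_col]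
  rw [h1, gcd_col, hl, Int.natAbs_natCast]

lemma pt_vm (g : SL(2, ℤ)) {v : ℤ × ℤ} (hv : v ≠ (0, 0)) : pt (vm g.1 v) = sQ g • pt v := by
  obtain ⟨h, hh⟩ := exists_col hv
  rw [hh, vm_scal, vm_col, pt_smul (gcd_ne hv), pt_smul (gcd_ne hv), pt_col, pt_col, sQ_mul,
    mul_smul]

lemma inC_iff {v : ℤ × ℤ} : inC v ↔ ∃ (l a c : ℤ) (_ : l ≠ 0) (ha : Odd a) (hc : (4 : ℤ) ∣ c),
    v = (l * a, l * c) ∧ pt v = toP (PS.Cusp.mk a c ha hc) := by
  constructor
  · rintro ⟨l, a, c, hl, ha, hc, rfl⟩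
    exact ⟨l, a, c, hl, ha, hc, rfl, (pt_smul hl (a, c)).trans (toP_mk a c ha hc).symm⟩
  · rintro ⟨l, a, c, hl, ha, hc, rfl, -⟩
    exact ⟨l, a, c, hl, ha, hc, rfl⟩

lemma inC_ne {v : ℤ × ℤ} (hv : inC v) : v ≠ (0, 0) := by
  obtain ⟨l, a, c, hl, ha, hc, rfl⟩ := hv
  intro h
  have h1 : l * a = 0 := congrArg Prod.fst h
  rcases mul_eq_zero.1 h1 with h2 | h2
  · exact hl h2
  · rw [h2] at ha
    exact (by decide : ¬ Odd (0 : ℤ)) ha

/-! ### Homogeneous functions of even degree -/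

variable {e : ℤ} {M : ℕ}

lemma cast_gcd_zpow {e : ℤ} (he : Even e) (l : ℤ) : ((l.natAbs : ℤ) : ℂ) ^ e = (l : ℂ) ^ e := by
  rcases Int.natAbs_eq l with h | h
  · rw [← h]
  · conv_rhs => rw [h]
    push_cast
    rw [he.neg_zpow]

/-- the homogeneous function attached to a function on `Cu M` -/
def Fof (e : ℤ) (M : ℕ) : (Cu M → ℂ) →ₗ[ℂ] (ℤ × ℤ → ℂ) where
  toFun β v := if v = (0, 0) then 0 else
    (((Int.gcd v.1 v.2 : ℕ) : ℤ) : ℂ) ^ e * β (cuMk M (pt v))
  map_add' β β' := by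
    funext v
    simp only [Pi.add_apply]
    split_ifs <;> ring
  map_smul' a β := by
    funext v
    simp only [Pi.smul_apply, smul_eq_mul, RingHom.id_apply]
    split_ifs <;> ring

lemma Fof_apply_of_ne (e : ℤ) (M : ℕ) (β : Cu M → ℂ) {v : ℤ × ℤ} (hv : v ≠ (0, 0)) :
    Fof e M β v = (((Int.gcd v.1 v.2 : ℕ) : ℤ) : ℂ) ^ e * β (cuMk M (pt v)) := if_neg hv

lemma Fof_zero (e : ℤ) (M : ℕ) (β : Cu M → ℂ) : Fof e M β (0, 0) = 0 := by
  simp [Fof]

lemma Fof_col (e : ℤ) (M : ℕ) (β : Cu M → ℂ) (g : SL(2, ℤ)) :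
    Fof e M β (col g) = β (cuMk M (sQ g • (OnePoint.infty : OnePoint ℚ))) := by
  rw [Fof_apply_of_ne e M β (col_ne g), pt_col]
  have h : Int.gcd (col g).1 (col g).2 = 1 := Int.isCoprime_iff_gcd_eq_one.1 (isCoprime_col g)
  rw [h]
  simp

lemma smul_vec_ne {l : ℤ} (hl : l ≠ 0) {v : ℤ × ℤ} (hv : v ≠ (0, 0)) :
    ((l * v.1, l * v.2) : ℤ × ℤ) ≠ (0, 0) := by
  intro h
  have h1 : l * v.1 = 0 := congrArg Prod.fst h
  have h2 : l * v.2 = 0 := congrArg Prod.snd h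
  exact hv (Prod.ext ((mul_eq_zero.1 h1).resolve_left hl) ((mul_eq_zero.1 h2).resolve_left hl))

lemma Fof_mem (he : Even e) (M : ℕ) (β : Cu M → ℂ) : Fof e M β ∈ HF e M := by
  refine ⟨Fof_zero e M β, fun l hl v => ?_, fun g hg v => ?_⟩
  · by_cases hv : v = (0, 0)
    · subst hv
      simp [Fof_zero]
    · rw [Fof_apply_of_ne e M β hv, Fof_apply_of_ne e M β (smul_vec_ne hl hv), pt_smul hl,
        Int.gcd_mul_left, Nat.cast_mul, Int.cast_mul, mul_zpow, cast_gcd_zpow he, mul_assoc]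
  · by_cases hv : v = (0, 0)
    · subst hv
      simp [vm, Fof_zero]
    · rw [Fof_apply_of_ne e M β hv, Fof_apply_of_ne e M β (vm_ne hv), pt_vm g hv, gcd_vm g hv,
        cuMk_smul hg]

lemma HF_neg (he : Even e) {F : ℤ × ℤ → ℂ} (hF : F ∈ HF e M) (v : ℤ × ℤ) :
    F (-v.1, -v.2) = F v := by
  have h := hF.2.1 (-1) (by norm_num) v
  rw [neg_one_mul, neg_one_mul] at h
  rw [h]
  push_cast
  rw [he.neg_one_zpow, one_mul]

/-- an element of `HF` depends on the point only, on primitive vectors -/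
lemma HF_col (he : Even e) {F : ℤ × ℤ → ℂ} (hF : F ∈ HF e M) {g h : SL(2, ℤ)}
    (hgh : sQ g • (OnePoint.infty : OnePoint ℚ) = sQ h • OnePoint.infty) :
    F (col g) = F (col h) := by
  set k : SL(2, ℤ) := h⁻¹ * g with hk
  have h1 : sQ k • (OnePoint.infty : OnePoint ℚ) = OnePoint.infty := by
    rw [hk, sQ_mul, mul_smul, hgh, sQ_inv, inv_smul_smul]
  have h0 : k 1 0 = 0 := by
    have := OnePoint.smul_infty_eq_self_iff.1 h1
    simpa using this
  have hdet : k 0 0 * k 1 1 = 1 := by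
    have := k.2
    rw [Matrix.det_fin_two] at this
    have h1 : k.1 1 0 = 0 := h0
    rw [h1, mul_zero, sub_zero] at this
    exact this
  have hg : g = h * k := by rw [hk]; group
  have hc : col g = vm h.1 (col k) := by rw [vm_col, ← hg]
  have hv : vm h.1 (k 0 0, 0) = (k 0 0 * (col h).1, k 0 0 * (col h).2) := by
    simp only [vm, col]
    refine Prod.ext ?_ ?_ <;> simp <;> ring
  have hc' : col g = (k 0 0 * (col h).1, k 0 0 * (col h).2) := by
    rw [hc, ← hv]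
    congr 1
    exact Prod.ext rfl h0
  rcases Int.eq_one_or_neg_one_of_mul_eq_one' hdet with h2 | h2
  · rw [hc', h2.1, one_mul, one_mul]
  · rw [hc', h2.1, neg_one_mul, neg_one_mul, HF_neg he hF]

lemma Fof_surj (he : Even e) {F : ℤ × ℤ → ℂ} (hF : F ∈ HF e M) : ∃ β, Fof e M β = F := by
  refine ⟨Quotient.lift (fun x => F (col (gOf x))) fun x y hxy => ?_, ?_⟩
  · obtain ⟨g, hg, rfl⟩ := hxy
    have h1 : F (col (gOf x)) = F (col (g * gOf x)) := by rw [← vm_col, hF.2.2 g hg]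
    show F (col (gOf x)) = F (col (gOf (sQ g • x)))
    rw [h1]
    refine HF_col he hF ?_
    rw [gOf_smul, sQ_mul, mul_smul, gOf_smul]
  · funext v
    by_cases hv : v = (0, 0)
    · rw [hv, Fof_zero, hF.1]
    · rw [Fof_apply_of_ne e M _ hv]
      show (((Int.gcd v.1 v.2 : ℕ) : ℤ) : ℂ) ^ e * F (col (gOf (pt v))) = F v
      obtain ⟨g, hg⟩ := exists_col hv
      have h1 : F (col (gOf (pt v))) = F (col g) := by
        refine HF_col he hF ?_
        rw [gOf_smul, ← pt_col, ← pt_smul (gcd_ne hv) (col g), ← hg]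
      rw [h1, ← hF.2.1 _ (gcd_ne hv), ← hg]

lemma Fof_injective (e : ℤ) (M : ℕ) : Function.Injective (Fof e M) := by
  intro β β' h
  funext c
  induction c using Quotient.inductionOn with
  | h x =>
    have h1 := congrFun h (col (gOf x))
    rw [Fof_col, Fof_col, gOf_smul] at h1
    exact h1

theorem range_Fof (he : Even e) (M : ℕ) : LinearMap.range (Fof e M) = HF e M := by
  refine le_antisymm ?_ fun F hF => ?_
  · rintro _ ⟨β, rfl⟩
    exact Fof_mem he M β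
  · obtain ⟨β, rfl⟩ := Fof_surj he hF
    exact ⟨β, rfl⟩

/-- the functions on `Cu M` which vanish at the cusps of `PS.Cusp` -/
def outC (M : ℕ) : Submodule ℂ (Cu M → ℂ) where
  carrier := {β | ∀ x : PS.Cusp, β (cuMk M (toP x)) = 0}
  add_mem' := by
    intro β β' h h' x
    rw [Pi.add_apply, h x, h' x, add_zero]
  zero_mem' := fun x => rfl
  smul_mem' := by
    intro a β h x
    rw [Pi.smul_apply, h x, smul_zero]

lemma Fof_mem_out (he : Even e) {β : Cu M → ℂ} : Fof e M β ∈ HOut e M ↔ β ∈ outC M := by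
  constructor
  · rintro ⟨-, h⟩ x
    refine PS.Cusp.ind' (P := fun x => β (cuMk M (toP x)) = 0) (fun u v hu hv => ?_) x
    have h0 : inC (u, v) := ⟨1, u, v, one_ne_zero, hu, hv, by simp⟩
    have h1 := h (u, v) h0
    rw [Fof_apply_of_ne e M β (inC_ne h0)] at h1
    have h2 := (mul_eq_zero.1 h1).resolve_left
      (zpow_ne_zero _ (by exact_mod_cast gcd_ne (inC_ne h0)))
    rw [toP_mk]
    exact h2
  · intro h
    refine ⟨Fof_mem he M β, fun v hv => ?_⟩
    rw [Fof_apply_of_ne e M β (inC_ne hv)]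
    obtain ⟨l, a, c, -, ha, hc, -, hp⟩ := inC_iff.1 hv
    rw [hp, h, mul_zero]

theorem map_Fof_outC (he : Even e) (M : ℕ) : (outC M).map (Fof e M) = HOut e M := by
  refine le_antisymm ?_ fun F hF => ?_
  · rintro _ ⟨β, hβ, rfl⟩
    exact (Fof_mem_out he).2 hβ
  · obtain ⟨β, rfl⟩ := Fof_surj he hF.1
    exact ⟨β, (Fof_mem_out he).1 hF, rfl⟩

theorem finrank_HF (he : Even e) (M : ℕ) [NeZero M] :
    Module.finrank ℂ (HF e M) = Nat.card (Cu M) := by
  have := Fintype.ofFinite (Cu M)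
  rw [← range_Fof he M, LinearMap.finrank_range_of_inj (Fof_injective e M),
    Module.finrank_fintype_fun_eq_card, Nat.card_eq_fintype_card]

theorem finite_HF (he : Even e) (M : ℕ) [NeZero M] : Module.Finite ℂ (HF e M) := by
  rw [← range_Fof he M]
  infer_instance

theorem finrank_HF_eq {e' : ℤ} (he : Even e) (he' : Even e') (M : ℕ) [NeZero M] :
    Module.finrank ℂ (HF e M) = Module.finrank ℂ (HF e' M) := by
  rw [finrank_HF he, finrank_HF he']

theorem finrank_HOut (he : Even e) (M : ℕ) :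
    Module.finrank ℂ (HOut e M) = Module.finrank ℂ (outC M) := by
  rw [← map_Fof_outC he M]
  exact ((Submodule.equivMapOfInjective _ (Fof_injective e M) (outC M)).finrank_eq).symm

theorem finite_HOut (he : Even e) (M : ℕ) [NeZero M] : Module.Finite ℂ (HOut e M) := by
  rw [← map_Fof_outC he M]
  infer_instance

theorem finrank_HOut_eq {e' : ℤ} (he : Even e) (he' : Even e') (M : ℕ) :
    Module.finrank ℂ (HOut e M) = Module.finrank ℂ (HOut e' M) := by
  rw [finrank_HOut he, finrank_HOut he']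

/-! ### The invariant functions of a homogeneous function -/

/-- `uu n x` is the polynomial `(a - c X)^n`, `(a, c)` the first column of `gOf x` -/
lemma uu_eq_dl (n : ℕ) (x : OnePoint ℚ) :
    uu n x = dl n ((col (gOf x)).1 : ℂ) ((col (gOf x)).2 : ℂ) := by
  have h1 : (1 : ℂ[X]) = (C 1 + C 0 * X) ^ n := by simp
  rw [uu, h1, slashM_lin, dl]
  congr 1
  have h2 : ∀ i j, matOf ℂ (sQ (gOf x)⁻¹) i j = (((gOf x)⁻¹.1 i j : ℤ) : ℂ) := by
    intro i j
    rw [matOf_sQ]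
    rfl
  rw [h2, h2, h2, h2, Matrix.SpecialLinearGroup.SL2_inv_expl]
  simp [col]
  ring

lemma col_dl (n : ℕ) (v : ℤ × ℤ) (hv : v ≠ (0, 0)) {F : ℤ × ℤ → ℂ} (hn : Even n)
    (hF : F ∈ HF (-n) M) :
    F v • dl n (v.1 : ℂ) (v.2 : ℂ) =
      F (col (gOf (pt v))) • uu n (pt v) := by
  obtain ⟨g, hg⟩ := exists_col hv
  have he : Even (-(n : ℤ)) := by
    rw [even_neg]
    exact_mod_cast hn
  set l : ℤ := ((Int.gcd v.1 v.2 : ℕ) : ℤ) with hl
  have hl0 : l ≠ 0 := gcd_ne hv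
  have hl0' : (l : ℂ) ≠ 0 := by exact_mod_cast hl0
  have hgp : sQ g • (OnePoint.infty : OnePoint ℚ) = pt v := by
    rw [← pt_col, ← pt_smul hl0 (col g), ← hg]
  have h1 : F (col (gOf (pt v))) = F (col g) := HF_col he hF (by rw [gOf_smul, hgp])
  have h2 : uu n (pt v) = dl n ((col g).1 : ℂ) ((col g).2 : ℂ) := by
    rw [← uu_eq hn hgp]
    have h1 : (1 : ℂ[X]) = (C 1 + C 0 * X) ^ n := by simp
    rw [h1, slashM_lin, dl]
    congr 1
    have h2 : ∀ i j, matOf ℂ (sQ g⁻¹) i j = ((g⁻¹.1 i j : ℤ) : ℂ) := by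
      intro i j
      rw [matOf_sQ]
      rfl
    rw [h2, h2, h2, h2, Matrix.SpecialLinearGroup.SL2_inv_expl]
    simp [col]
    ring
  have h3 : F v = (l : ℂ) ^ (-(n : ℤ)) * F (col g) := by
    conv_lhs => rw [hg]
    exact hF.2.1 l hl0 (col g)
  have h4 : dl n (v.1 : ℂ) (v.2 : ℂ) = C ((l : ℂ) ^ n) * dl n ((col g).1 : ℂ) ((col g).2 : ℂ) := by
    rw [← dl_smul]
    congr 1
    · have := congrArg Prod.fst hg
      exact_mod_cast congrArg (Int.cast : ℤ → ℂ) this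
    · have := congrArg Prod.snd hg
      exact_mod_cast congrArg (Int.cast : ℤ → ℂ) this
  rw [h1, h2, h3, h4, ← smul_eq_C_mul, smul_smul]
  congr 1
  rw [zpow_neg, zpow_natCast, mul_comm _ (F (col g)), mul_assoc,
    inv_mul_cancel₀ (pow_ne_zero n hl0'), mul_one]

/-- the invariant function of a homogeneous function of degree `-n` -/
def wHF (n M : ℕ) (hn : Even n) : HF (-n) M →ₗ[ℂ] WF n M where
  toFun F := ⟨fun x => F.1 (col (gOf x)) • uu n x, by
    refine ⟨fun x => (natDegree_smul_le _ _).trans (uu_deg n x), fun g hg x => ?_⟩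
    have he : Even (-(n : ℤ)) := by
      rw [even_neg]
      exact_mod_cast hn
    rw [map_smul, uu_inv hn]
    congr 1
    have h1 : F.1 (col (gOf x)) = F.1 (col (g * gOf x)) := by rw [← vm_col, F.2.2.2 g hg]
    rw [h1]
    refine HF_col he F.2 ?_
    rw [gOf_smul, sQ_mul, mul_smul, gOf_smul]⟩
  map_add' F G := by
    refine Subtype.ext (funext fun x => ?_)
    exact add_smul _ _ _
  map_smul' a F := by
    refine Subtype.ext (funext fun x => ?_)
    exact mul_smul _ _ _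

lemma wHF_apply (n M : ℕ) (hn : Even n) (F : HF (-n) M) (x : OnePoint ℚ) :
    (wHF n M hn F).1 x = F.1 (col (gOf x)) • uu n x := rfl

/-- the formula with an arbitrary vector -/
theorem wHF_pt (n M : ℕ) (hn : Even n) (F : HF (-n) M) {v : ℤ × ℤ} (hv : v ≠ (0, 0)) :
    (wHF n M hn F).1 (pt v) = C (F.1 v) * dl n (v.1 : ℂ) (v.2 : ℂ) := by
  rw [wHF_apply, ← col_dl n v hv hn F.2, smul_eq_C_mul]

lemma wHF_injective (n M : ℕ) (hn : Even n) : Function.Injective (wHF n M hn) := by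
  rw [injective_iff_map_eq_zero]
  intro F hF
  refine Subtype.ext (funext fun v => ?_)
  by_cases hv : v = (0, 0)
  · rw [hv]
    exact F.2.1
  · have h1 := wHF_pt n M hn F hv
    rw [hF] at h1
    have h2 : dl n (v.1 : ℂ) (v.2 : ℂ) ≠ 0 := by
      refine dl_ne_zero n fun h => hv ?_
      exact Prod.ext (by exact_mod_cast h.1) (by exact_mod_cast h.2)
    have h3 : C (F.1 v) = (0 : ℂ[X]) := (mul_eq_zero.1 h1.symm).resolve_right h2
    exact C_eq_zero.1 h3

lemma wHF_surjective (n M : ℕ) [NeZero M] (hn : Even n) : Function.Surjective (wHF n M hn) := by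
  intro w
  obtain ⟨β, rfl⟩ := wOf_surjective n M hn w
  have he : Even (-(n : ℤ)) := by
    rw [even_neg]
    exact_mod_cast hn
  refine ⟨⟨Fof (-n) M β, Fof_mem he M β⟩, Subtype.ext (funext fun x => ?_)⟩
  rw [wHF_apply, wOf_apply]
  congr 1
  show Fof (-n) M β (col (gOf x)) = β (cuMk M x)
  rw [Fof_col, gOf_smul]

/-- the boundary symbol of a homogeneous function of degree `-n` -/
def bdHF (n M : ℕ) (hn : Even n) : HF (-n) M →ₗ[ℂ] BF n M := (bd n M).comp (wHF n M hn)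

lemma bdHF_apply (n M : ℕ) (hn : Even n) (F : HF (-n) M) (x y : OnePoint ℚ) :
    (bdHF n M hn F).1 x y = (wHF n M hn F).1 x - (wHF n M hn F).1 y := rfl

theorem bdHF_surjective (n M : ℕ) [NeZero M] (hn : Even n) :
    Function.Surjective (bdHF n M hn) :=
  (bd_surjective n M).comp (wHF_surjective n M hn)

theorem bdHF_injective (n M : ℕ) [NeZero M] (hn : Even n) (h2 : 2 ≤ n) :
    Function.Injective (bdHF n M hn) :=
  (LinearMap.ker_eq_bot.1 (ker_bd_eq_bot hn h2)).comp (wHF_injective n M hn)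

/-- `BF n M` is isomorphic to `HF (-n) M` for `n ≥ 2` even -/
def bdEquiv (n M : ℕ) [NeZero M] (hn : Even n) (h2 : 2 ≤ n) : HF (-n) M ≃ₗ[ℂ] BF n M :=
  LinearEquiv.ofBijective (bdHF n M hn) ⟨bdHF_injective n M hn h2, bdHF_surjective n M hn⟩

theorem finrank_BF_eq_HF {e : ℤ} (he : Even e) (n M : ℕ) [NeZero M] (hn : Even n) (h2 : 2 ≤ n) :
    Module.finrank ℂ (BF n M) = Module.finrank ℂ (HF e M) := by
  rw [finrank_BF n M hn h2, finrank_HF he]

theorem finrank_BF_zero_eq_HF {e : ℤ} (he : Even e) (M : ℕ) [NeZero M] :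
    Module.finrank ℂ (BF 0 M) + 1 = Module.finrank ℂ (HF e M) := by
  rw [finrank_BF_zero M, finrank_HF he]

/-! ### The kernel of the restriction -/

lemma coeff_ext {n : ℕ} {P Q : ℂ[X]} (hP : P.natDegree ≤ n) (hQ : Q.natDegree ≤ n)
    (h : ∀ i : Fin (n + 1), P.coeff i = Q.coeff i) : P = Q := by
  ext i
  by_cases hi : i < n + 1
  · exact h ⟨i, hi⟩
  · rw [coeff_eq_zero_of_natDegree_lt (by omega), coeff_eq_zero_of_natDegree_lt (by omega)]

lemma rst_eq_zero_iff {n M : ℕ} {φ : SF n M} :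
    rst n M φ = 0 ↔ ∀ x y : PS.Cusp, φ.1 (toP x) (toP y) = 0 := by
  constructor
  · intro h x y
    refine coeff_ext (n := n) (φ.2.deg _ _) (by simp) fun i => ?_
    rw [coeff_zero]
    exact congrFun (congrFun (congrFun (congrArg Subtype.val h) x) y) i
  · intro h
    refine Subtype.ext (funext fun x => funext fun y => funext fun i => ?_)
    show (φ.1 (toP x) (toP y)).coeff i = 0
    rw [h x y, coeff_zero]

/-- a cusp of the form `g ∞`, `g ∈ Γ₀(M)`, `4 ∣ M` -/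
lemma exists_toP {M : ℕ} (hM : 4 ∣ M) {g : SL(2, ℤ)} (hg : g ∈ Gamma0 M) :
    ∃ x : PS.Cusp, toP x = sQ g • (OnePoint.infty : OnePoint ℚ) := by
  have h4 : (4 : ℤ) ∣ g 1 0 := by
    rw [Gamma0_mem] at hg
    exact (by exact_mod_cast hM : (4 : ℤ) ∣ (M : ℤ)).trans
      ((ZMod.intCast_zmod_eq_zero_iff_dvd _ _).1 hg)
  have hodd : Odd (g 0 0) := by
    rcases Int.even_or_odd (g 0 0) with h | h
    · exfalso
      obtain ⟨t, ht⟩ := h
      obtain ⟨s, hs⟩ := h4
      have h1 : IsCoprime (2 * t) (2 * (2 * s)) := by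
        have := isCoprime_col g
        rw [ht, hs] at this
        rwa [show t + t = 2 * t by ring, show (4 : ℤ) * s = 2 * (2 * s) by ring] at this
      have h2 := h1.of_mul_left_left.of_mul_right_left
      rw [isCoprime_self] at h2
      exact absurd (Int.isUnit_iff.1 h2) (by decide)
    · exact h
  refine ⟨PS.Cusp.mk (g 0 0) (g 1 0) hodd h4, ?_⟩
  rw [toP_mk, ← pt_col]
  rfl

/-- the invariant function of a symbol in the kernel of the restriction -/
theorem exists_WF_of_rst {n M : ℕ} (hM : 4 ∣ M) {φ : SF n M} (h : rst n M φ = 0) :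
    ∃ w : WF n M, (bd n M w).1 = φ.1 ∧ ∀ x : PS.Cusp, w.1 (toP x) = 0 := by
  rw [rst_eq_zero_iff] at h
  have hinf : ∀ x : PS.Cusp, φ.1 (toP x) OnePoint.infty = 0 := fun x => by
    rw [← toP_inf]
    exact h x PS.inf
  refine ⟨⟨fun x => φ.1 x OnePoint.infty, fun x => φ.2.deg _ _, fun g hg x => ?_⟩, ?_, hinf⟩
  · obtain ⟨y, hy⟩ := exists_toP hM hg
    have h1 : slashM n (matOf ℂ (sQ g)) (φ.1 (sQ g • x) (sQ g • OnePoint.infty)) =
        φ.1 x OnePoint.infty := congrFun (congrFun (φ.2.inv g hg) x) OnePoint.infty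
    show slashM n (matOf ℂ (sQ g)) (φ.1 (sQ g • x) OnePoint.infty) = φ.1 x OnePoint.infty
    rw [← φ.2.add (sQ g • x) (sQ g • OnePoint.infty) OnePoint.infty, ← hy, hinf, add_zero, hy, h1]
  · funext x y
    show φ.1 x OnePoint.infty - φ.1 y OnePoint.infty = φ.1 x y
    rw [← φ.2.add x y OnePoint.infty]
    ring

/-- **The kernel of the restriction consists of boundary symbols.** -/
theorem mem_BF_of_rst {n M : ℕ} (hM : 4 ∣ M) {φ : SF n M} (h : rst n M φ = 0) :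
    φ.1 ∈ BF n M := by
  obtain ⟨w, hw, -⟩ := exists_WF_of_rst hM h
  rw [← hw]
  exact (bd n M w).2

/-- the map `HOut (-n) M → ker (rst n M)` -/
def outKer (n M : ℕ) (hn : Even n) : HOut (-n) M →ₗ[ℂ] LinearMap.ker (rst n M) where
  toFun F := ⟨⟨(bdHF n M hn ⟨F.1, F.2.1⟩).1, BF_le n M (bdHF n M hn ⟨F.1, F.2.1⟩).2⟩, by
    rw [LinearMap.mem_ker, rst_eq_zero_iff]
    have hz : ∀ x : PS.Cusp, (wHF n M hn ⟨F.1, F.2.1⟩).1 (toP x) = 0 := by
      intro x
      refine PS.Cusp.ind' (P := fun x => (wHF n M hn ⟨F.1, F.2.1⟩).1 (toP x) = 0)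
        (fun u v hu hv => ?_) x
      have h0 : inC (u, v) := ⟨1, u, v, one_ne_zero, hu, hv, by simp⟩
      have h1 : toP (PS.Cusp.mk u v hu hv) = pt (u, v) := rfl
      rw [h1, wHF_pt n M hn _ (inC_ne h0)]
      show C (F.1 (u, v)) * _ = 0
      rw [F.2.2 _ h0, C_0, zero_mul]
    intro x y
    show (wHF n M hn ⟨F.1, F.2.1⟩).1 (toP x) - (wHF n M hn ⟨F.1, F.2.1⟩).1 (toP y) = 0
    rw [hz x, hz y, sub_zero]⟩
  map_add' F G := by
    refine Subtype.ext (Subtype.ext ?_)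
    have h1 : (⟨(F + G).1, (F + G).2.1⟩ : HF (-n) M) = ⟨F.1, F.2.1⟩ + ⟨G.1, G.2.1⟩ := rfl
    show (bdHF n M hn ⟨(F + G).1, (F + G).2.1⟩).1 = _
    rw [h1, map_add]
    rfl
  map_smul' a F := by
    refine Subtype.ext (Subtype.ext ?_)
    have h1 : (⟨(a • F).1, (a • F).2.1⟩ : HF (-n) M) = a • ⟨F.1, F.2.1⟩ := rfl
    show (bdHF n M hn ⟨(a • F).1, (a • F).2.1⟩).1 = _
    rw [h1, map_smul]
    rfl

lemma outKer_coe (n M : ℕ) (hn : Even n) (F : HOut (-n) M) (x y : OnePoint ℚ) :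
    (outKer n M hn F).1.1 x y = F.1 (col (gOf x)) • uu n x - F.1 (col (gOf y)) • uu n y := rfl

lemma outKer_injective (n M : ℕ) (hn : Even n) : Function.Injective (outKer n M hn) := by
  rw [injective_iff_map_eq_zero]
  intro F hF
  have h0 : F.1 (col (gOf OnePoint.infty)) = 0 := by
    refine F.2.2 _ ?_
    have h1 : sQ (gOf OnePoint.infty) • (OnePoint.infty : OnePoint ℚ) = OnePoint.infty :=
      gOf_smul _
    have h2 : (gOf OnePoint.infty) 1 0 = 0 := by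
      have := OnePoint.smul_infty_eq_self_iff.1 h1
      simpa using this
    have h3 := isCoprime_col (gOf OnePoint.infty)
    rw [h2, isCoprime_zero_right] at h3
    refine ⟨(gOf OnePoint.infty) 0 0, 1, 0, h3.ne_zero, odd_one, dvd_zero _, ?_⟩
    refine Prod.ext ?_ ?_
    · simp [col]
    · rw [mul_zero]
      exact h2
  have h1 : ∀ x, F.1 (col (gOf x)) • uu n x = 0 := by
    intro x
    have h2 := outKer_coe n M hn F x OnePoint.infty
    rw [hF, h0, zero_smul, sub_zero] at h2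
    exact h2.symm
  refine Subtype.ext (funext fun v => ?_)
  by_cases hv : v = (0, 0)
  · rw [hv]
    exact F.2.1.1
  · have h2 := col_dl n v hv hn F.2.1
    rw [h1] at h2
    have h3 : dl n (v.1 : ℂ) (v.2 : ℂ) ≠ 0 := by
      refine dl_ne_zero n fun h => hv ?_
      exact Prod.ext (by exact_mod_cast h.1) (by exact_mod_cast h.2)
    exact (smul_eq_zero.1 h2).resolve_right h3

lemma outKer_surjective (n M : ℕ) [NeZero M] (hM : 4 ∣ M) (hn : Even n) :
    Function.Surjective (outKer n M hn) := by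
  rintro ⟨φ, hφ⟩
  obtain ⟨w, hw, hw0⟩ := exists_WF_of_rst hM (LinearMap.mem_ker.1 hφ)
  obtain ⟨F, rfl⟩ := wHF_surjective n M hn w
  have hout : F.1 ∈ HOut (-n) M := by
    refine ⟨F.2, fun v hv => ?_⟩
    obtain ⟨l, a, c, -, ha, hc, -, hp⟩ := inC_iff.1 hv
    have h1 := wHF_pt n M hn F (inC_ne hv)
    rw [hp, hw0] at h1
    have h2 : dl n (v.1 : ℂ) (v.2 : ℂ) ≠ 0 := by
      refine dl_ne_zero n fun h => inC_ne hv ?_
      exact Prod.ext (by exact_mod_cast h.1) (by exact_mod_cast h.2)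
    exact C_eq_zero.1 ((mul_eq_zero.1 h1.symm).resolve_right h2)
  exact ⟨⟨F.1, hout⟩, Subtype.ext (Subtype.ext hw)⟩

/-- **The kernel of the restriction of full symbols** is isomorphic to `HOut (-n) M`. -/
def outEquiv (n M : ℕ) [NeZero M] (hM : 4 ∣ M) (hn : Even n) :
    HOut (-n) M ≃ₗ[ℂ] LinearMap.ker (rst n M) :=
  LinearEquiv.ofBijective (outKer n M hn) ⟨outKer_injective n M hn, outKer_surjective n M hM hn⟩

theorem finrank_ker_rst {e : ℤ} (he : Even e) (n M : ℕ) [NeZero M] (hM : 4 ∣ M) (hn : Even n) :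
    Module.finrank ℂ (LinearMap.ker (rst n M)) = Module.finrank ℂ (HOut e M) := by
  rw [← (outEquiv n M hM hn).finrank_eq]
  refine finrank_HOut_eq ?_ he M
  rw [even_neg]
  exact_mod_cast hn

/-- the values of the restriction of a boundary symbol -/
theorem rst_bdHF (n M : ℕ) (hn : Even n) (F : HF (-n) M) {a c a' c' : ℤ} (ha : Odd a)
    (hc : (4 : ℤ) ∣ c) (ha' : Odd a') (hc' : (4 : ℤ) ∣ c') (i : Fin (n + 1)) :
    (rst n M ⟨(bdHF n M hn F).1, BF_le n M (bdHF n M hn F).2⟩).1 (PS.Cusp.mk a c ha hc)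
        (PS.Cusp.mk a' c' ha' hc') i =
      (C (F.1 (a, c)) * dl n (a : ℂ) (c : ℂ) - C (F.1 (a', c')) * dl n (a' : ℂ) (c' : ℂ)).coeff i := by
  have h0 : inC (a, c) := ⟨1, a, c, one_ne_zero, ha, hc, by simp⟩
  have h0' : inC (a', c') := ⟨1, a', c', one_ne_zero, ha', hc', by simp⟩
  show ((wHF n M hn F).1 (pt (a, c)) - (wHF n M hn F).1 (pt (a', c'))).coeff i = _
  rw [wHF_pt n M hn F (inC_ne h0), wHF_pt n M hn F (inC_ne h0')]

end Gouvea.Cnt
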