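import Pool.Agent.Work.MP_d3517d_nt.Cnt.ResDefs

/-!
# Evaluation of homogeneous polynomials at vectors (MP_d3517d_nt)
-/

open Polynomial CongruenceSubgroup
open scoped MatrixGroups

noncomputable section

namespace Gouvea.Cnt

open Gouvea.ES Gouvea.Theta

/-- the polynomial with given coefficients -/
def pol {n : ℕ} (v : Fin (n + 1) → ℂ) : ℂ[X] := ∑ i : Fin (n + 1), C (v i) * X ^ (i : ℕ)

lemma coeff_pol {n : ℕ} (v : Fin (n + 1) → ℂ) (i : Fin (n + 1)) : (pol v).coeff i = v i := by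
  classical
  rw [pol, finsetSum_coeff, Finset.sum_eq_single i]
  · simp
  · intro j _ hj
    rw [coeff_C_mul, coeff_X_pow, if_neg, mul_zero]
    exact fun h => hj (Fin.ext h.symm)
  · simp

lemma coeff_pol_of_le {n : ℕ} (v : Fin (n + 1) → ℂ) {i : ℕ} (hi : i < n + 1) :
    (pol v).coeff i = v ⟨i, hi⟩ := coeff_pol v ⟨i, hi⟩

lemma natDegree_pol_le {n : ℕ} (v : Fin (n + 1) → ℂ) : (pol v).natDegree ≤ n := by
  rw [pol]
  refine natDegree_sum_le_of_forall_le _ _ fun i _ => ?_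
  exact (natDegree_C_mul_X_pow_le _ _).trans (Nat.lt_succ_iff.1 i.2)

lemma pol_add {n : ℕ} (u v : Fin (n + 1) → ℂ) : pol (u + v) = pol u + pol v := by
  simp [pol, add_mul, Finset.sum_add_distrib]

lemma pol_sub {n : ℕ} (u v : Fin (n + 1) → ℂ) : pol (u - v) = pol u - pol v := by
  simp [pol, sub_mul, Finset.sum_sub_distrib]

lemma pol_zero {n : ℕ} : pol (0 : Fin (n + 1) → ℂ) = 0 := by simp [pol]

lemma pol_smul {n : ℕ} (c : ℂ) (v : Fin (n + 1) → ℂ) : pol (c • v) = c • pol v := by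
  simp [pol, Finset.smul_sum, smul_eq_C_mul, mul_assoc]

/-- polynomials of degree at most `n` are given by their coefficients -/
lemma pol_coeff {n : ℕ} {P : ℂ[X]} (h : P.natDegree ≤ n) :
    pol (fun i : Fin (n + 1) => P.coeff i) = P := by
  ext i
  rcases lt_or_ge i (n + 1) with hi | hi
  · exact coeff_pol _ ⟨i, hi⟩
  · have h1 := natDegree_pol_le (fun i : Fin (n + 1) => P.coeff i)
    rw [coeff_eq_zero_of_natDegree_lt (lt_of_le_of_lt h1 hi),
      coeff_eq_zero_of_natDegree_lt (lt_of_le_of_lt h hi)]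

lemma pol_inj {n : ℕ} {u v : Fin (n + 1) → ℂ} (h : pol u = pol v) : u = v := by
  funext i
  rw [← coeff_pol u i, h, coeff_pol]

/-- the action on coefficients and on polynomials -/
lemma pol_slk (n : ℕ) (g : Matrix (Fin 2) (Fin 2) ℂ) (v : Fin (n + 1) → ℂ) :
    pol ((PS.slk n g).mulVec v) = slashM n g (pol v) := by
  have h : (fun i : Fin (n + 1) => (slashM n g (pol v)).coeff i) = (PS.slk n g).mulVec v := by
    funext i
    rw [PS.coeff_slashM_eq]
    congr 1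
    funext j
    exact coeff_pol v j
  rw [← h, pol_coeff (natDegree_slashM_le n g _)]

lemma hev_eq (n : ℕ) (v : Fin (n + 1) → ℂ) (w : ℤ × ℤ) :
    hev n v w = MvPolynomial.aeval ![((w.1 : ℤ) : ℂ), ((w.2 : ℤ) : ℂ)] (homogenize (pol v) n) := by
  rw [aeval_homogenize, hev, ← Fin.sum_univ_eq_sum_range (fun j => algebraMap ℂ ℂ
    ((pol v).coeff j) * (((w.1 : ℤ) : ℂ) ^ j * ((w.2 : ℤ) : ℂ) ^ (n - j))) (n + 1)]
  refine Finset.sum_congr rfl fun i _ => ?_
  rw [coeff_pol]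
  rfl

/-- **`hev` is equivariant.** -/
theorem hev_slk (n : ℕ) (g : Matrix (Fin 2) (Fin 2) ℤ) (v : Fin (n + 1) → ℂ) (w : ℤ × ℤ) :
    hev n ((PS.slk n (g.map (Int.cast : ℤ → ℂ))).mulVec v) w = hev n v (vm g w) := by
  rw [hev_eq, hev_eq, pol_slk, homogenize_slashM, ← AlgHom.comp_apply, MvPolynomial.comp_aeval]
  have h : (fun i => (MvPolynomial.aeval (R := ℂ) ![((w.1 : ℤ) : ℂ), ((w.2 : ℤ) : ℂ)])
      (![MvPolynomial.C ((g.map (Int.cast : ℤ → ℂ)) 0 0) * MvPolynomial.X 0 +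
        MvPolynomial.C ((g.map (Int.cast : ℤ → ℂ)) 0 1) * MvPolynomial.X 1,
        MvPolynomial.C ((g.map (Int.cast : ℤ → ℂ)) 1 0) * MvPolynomial.X 0 +
        MvPolynomial.C ((g.map (Int.cast : ℤ → ℂ)) 1 1) * MvPolynomial.X 1] i)) =
      ![(((vm g w).1 : ℤ) : ℂ), (((vm g w).2 : ℤ) : ℂ)] := by
    funext i
    fin_cases i <;> simp [vm]
  rw [h]

lemma hev_add (n : ℕ) (u v : Fin (n + 1) → ℂ) (w : ℤ × ℤ) :
    hev n (u + v) w = hev n u w + hev n v w := by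
  simp [hev, add_mul, Finset.sum_add_distrib]

lemma hev_sub (n : ℕ) (u v : Fin (n + 1) → ℂ) (w : ℤ × ℤ) :
    hev n (u - v) w = hev n u w - hev n v w := by
  simp [hev, sub_mul, Finset.sum_sub_distrib]

lemma hev_smul (n : ℕ) (c : ℂ) (u : Fin (n + 1) → ℂ) (w : ℤ × ℤ) :
    hev n (c • u) w = c * hev n u w := by
  simp [hev, Finset.mul_sum, mul_assoc]

lemma hev_zero (n : ℕ) (w : ℤ × ℤ) : hev n 0 w = 0 := by simp [hev]

/-- homogeneity -/
lemma hev_mul (n : ℕ) (v : Fin (n + 1) → ℂ) (l : ℤ) (w : ℤ × ℤ) :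
    hev n v (l * w.1, l * w.2) = (l : ℂ) ^ n * hev n v w := by
  rw [hev, hev, Finset.mul_sum]
  refine Finset.sum_congr rfl fun i _ => ?_
  have h : (i : ℕ) + (n - (i : ℕ)) = n := Nat.add_sub_of_le (Nat.lt_succ_iff.1 i.2)
  have h2 : (l : ℂ) ^ n = (l : ℂ) ^ (i : ℕ) * (l : ℂ) ^ (n - (i : ℕ)) := by rw [← pow_add, h]
  push_cast
  rw [mul_pow, mul_pow, h2]
  ring

/-- the value at `(1, 0)` is the top coefficient -/
lemma hev_one_zero (n : ℕ) (v : Fin (n + 1) → ℂ) : hev n v (1, 0) = v (Fin.last n) := by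
  rw [hev, Finset.sum_eq_single (Fin.last n)]
  · simp
  · intro i _ hi
    have h : n - (i : ℕ) ≠ 0 := by
      have h1 := i.2
      have h2 : (i : ℕ) ≠ n := fun h => hi (Fin.ext h)
      omega
    simp [h]
  · simp

end Gouvea.Cnt
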