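import Pool.Agent.Work.MP_d3517d_nt.Cnt.ResDefs
import Pool.Agent.Work.MP_d3517d_nt.PS.Rep

/-!
# Residues of partial modular symbols (MP_d3517d_nt, exact Eichler–Shimura)

The residue `res M n ψ` of a partial symbol `ψ` of level `Γ₀(M)` is a function on vectors,
homogeneous of degree `n + 2`, invariant under `Γ₀(M)`, zero at the cusps of `PS.Cusp`, and
`res (T_q ψ) = q⁻¹ hop (res ψ)`.
-/

open Polynomial CongruenceSubgroup
open scoped MatrixGroups

noncomputable section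

namespace Gouvea.Cnt

open Gouvea.ES Gouvea.Theta

namespace Res

/-! ### The homogeneous value -/

variable {n : ℕ}

lemma hev_add (P Q : Fin (n + 1) → ℂ) (w : ℤ × ℤ) : hev n (P + Q) w = hev n P w + hev n Q w := by
  simp [hev, add_mul, Finset.sum_add_distrib]

lemma hev_zero (w : ℤ × ℤ) : hev n 0 w = 0 := by simp [hev]

lemma hev_neg (P : Fin (n + 1) → ℂ) (w : ℤ × ℤ) : hev n (-P) w = -hev n P w := by
  simp [hev]

lemma hev_smul (a : ℂ) (P : Fin (n + 1) → ℂ) (w : ℤ × ℤ) : hev n (a • P) w = a * hev n P w := by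
  simp [hev, Finset.mul_sum, mul_assoc]

lemma hev_sum {ι : Type*} (s : Finset ι) (u : ι → Fin (n + 1) → ℂ) (w : ℤ × ℤ) :
    hev n (∑ i ∈ s, u i) w = ∑ i ∈ s, hev n (u i) w := by
  classical
  induction s using Finset.induction_on with
  | empty => simp [hev_zero]
  | insert a s ha ih => rw [Finset.sum_insert ha, Finset.sum_insert ha, hev_add, ih]

lemma hev_scale (l : ℤ) (P : Fin (n + 1) → ℂ) (w : ℤ × ℤ) :
    hev n P (l * w.1, l * w.2) = (l : ℂ) ^ n * hev n P w := by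
  rw [hev, hev, Finset.mul_sum]
  refine Finset.sum_congr rfl fun i _ => ?_
  have h : (l : ℂ) ^ n = (l : ℂ) ^ (i : ℕ) * (l : ℂ) ^ (n - (i : ℕ)) := by
    rw [← pow_add, Nat.add_sub_cancel' (Nat.lt_succ_iff.1 i.2)]
  rw [h]
  push_cast
  rw [mul_pow, mul_pow]
  ring

lemma sum_slR (n : ℕ) (g : Matrix (Fin 2) (Fin 2) ℂ) (a c : ℂ) (j : ℕ) (hj : j ≤ n) :
    ∑ i ∈ Finset.range (n + 1), slR n g i j * (a ^ i * c ^ (n - i)) =
      (g 0 0 * a + g 0 1 * c) ^ j * (g 1 0 * a + g 1 1 * c) ^ (n - j) := by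
  have h1 := aeval_homogenize (A := ℂ) n (slashM n g (X ^ j)) a c
  have h2 := aeval_homogenize (A := ℂ) n (X ^ j : ℂ[X]) (g 0 0 * a + g 0 1 * c)
    (g 1 0 * a + g 1 1 * c)
  have h3 : ∑ i ∈ Finset.range (n + 1), slR n g i j * (a ^ i * c ^ (n - i)) =
      MvPolynomial.aeval ![a, c] (homogenize (slashM n g (X ^ j)) n) := by
    rw [h1]
    refine Finset.sum_congr rfl fun i _ => ?_
    rw [slR_eq n g i j hj]
    rfl
  rw [h3, homogenize_slashM, ← AlgHom.comp_apply, MvPolynomial.comp_aeval]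
  have h4 : (fun i => (MvPolynomial.aeval (R := ℂ) ![a, c])
        (![MvPolynomial.C (g 0 0) * MvPolynomial.X 0 + MvPolynomial.C (g 0 1) * MvPolynomial.X 1,
        MvPolynomial.C (g 1 0) * MvPolynomial.X 0 + MvPolynomial.C (g 1 1) * MvPolynomial.X 1] i))
        = ![g 0 0 * a + g 0 1 * c, g 1 0 * a + g 1 1 * c] := by
    funext i
    fin_cases i <;> simp
  rw [h4, h2, Finset.sum_eq_single j]
  · simp
  · intro i _ hij
    simp [coeff_X_pow, hij]
  · intro h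
    exact absurd (Finset.mem_range.2 (Nat.lt_succ_of_le hj)) h

/-- `(P | g)(w) = P(g w)` -/
lemma hev_slk (g : Matrix (Fin 2) (Fin 2) ℤ) (w : ℤ × ℤ) (P : Fin (n + 1) → ℂ) :
    hev n ((PS.slk n (g.map (Int.cast : ℤ → ℂ))).mulVec P) w = hev n P (vm g w) := by
  have e : ∀ i : Fin (n + 1), (PS.slk n (g.map (Int.cast : ℤ → ℂ))).mulVec P i =
      ∑ j : Fin (n + 1), slR n (g.map (Int.cast : ℤ → ℂ)) i j * P j := fun i => rfl
  simp only [hev, e, Finset.sum_mul]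
  rw [Finset.sum_comm]
  refine Finset.sum_congr rfl fun j _ => ?_
  have h := sum_slR n (g.map (Int.cast : ℤ → ℂ)) (w.1 : ℂ) (w.2 : ℂ) j (Nat.lt_succ_iff.1 j.2)
  rw [← Fin.sum_univ_eq_sum_range (fun i => slR n (g.map (Int.cast : ℤ → ℂ)) i j *
    ((w.1 : ℂ) ^ i * (w.2 : ℂ) ^ (n - i))) (n + 1)] at h
  have h5 : (((vm g w).1 : ℤ) : ℂ) = (g.map (Int.cast : ℤ → ℂ)) 0 0 * w.1 +
      (g.map (Int.cast : ℤ → ℂ)) 0 1 * w.2 := by
    simp [vm]
  have h6 : (((vm g w).2 : ℤ) : ℂ) = (g.map (Int.cast : ℤ → ℂ)) 1 0 * w.1 +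
      (g.map (Int.cast : ℤ → ℂ)) 1 1 * w.2 := by
    simp [vm]
  rw [h5, h6, ← h, Finset.mul_sum]
  refine Finset.sum_congr rfl fun i _ => ?_
  ring

/-! ### Matrices -/

lemma parS_mul (w : ℤ × ℤ) (i j : ℤ) : parS w i * parS w j = parS w (i + j) := by
  apply Subtype.ext
  rw [Submonoid.coe_mul, parS_coe, parS_coe, parS_coe, par_mul, mul_add]

lemma parS_zero (w : ℤ × ℤ) : parS w 0 = 1 := by
  apply Subtype.ext
  rw [parS_coe, Submonoid.coe_one, par]
  ext a b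
  fin_cases a <;> fin_cases b <;> simp

lemma vm_par_self (w : ℤ × ℤ) (j : ℤ) : vm (par w j) w = w := by
  rw [vm_par]
  refine Prod.ext ?_ ?_ <;> simp only <;> ring

lemma parS_scale (l : ℤ) (w : ℤ × ℤ) (j : ℤ) :
    parS (l * w.1, l * w.2) j = parS w (l ^ 2 * j) := by
  apply Subtype.ext
  rw [parS_coe, parS_coe, par, par]
  ext a b
  fin_cases a <;> fin_cases b <;> simp <;> ring

/-- `g par(w, det(g) j) = par(g w, j) g` -/
lemma mul_parS (g : PS.S4) (w : ℤ × ℤ) (j : ℤ) :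
    g * parS w (g.1.det * j) = parS (vm g.1 w) j * g := by
  apply Subtype.ext
  rw [Submonoid.coe_mul, Submonoid.coe_mul, parS_coe, parS_coe, par, par, Matrix.det_fin_two]
  ext a b
  fin_cases a <;> fin_cases b <;>
    simp [Matrix.mul_apply, Fin.sum_univ_two, vm] <;> ring

/-! ### The residue -/

variable {M : ℕ} {ψ : PS.Cusp → PS.Cusp → Fin (n + 1) → ℂ}

/-- the value of `(ψ | g)` -/
lemma hev_act (g : PS.S4) (ψ : PS.Cusp → PS.Cusp → Fin (n + 1) → ℂ) (x y : PS.Cusp)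
    (w : ℤ × ℤ) : hev n (PS.act ℂ n g ψ x y) w = hev n (ψ (g • x) (g • y)) (vm g.1 w) := by
  rw [PS.act_apply, hev_slk]

lemma sym_self (hψ : ψ ∈ PS.Sym ℂ M n) (x : PS.Cusp) : ψ x x = 0 := by
  have := hψ.1 x x x
  simpa using this

lemma hev_inv (hψ : ψ ∈ PS.Sym ℂ M n) {w : ℤ × ℤ} {g : PS.S4} (hg : PS.IsG0 M g)
    (hw : vm g.1 w = w) (x y : PS.Cusp) : hev n (ψ (g • x) (g • y)) w = hev n (ψ x y) w := by
  have h := hev_act g ψ x y w
  rw [hψ.2 g hg, hw] at h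
  exact h.symm

/-- independence of the cusp -/
lemma indep (hψ : ψ ∈ PS.Sym ℂ M n) {w : ℤ × ℤ} {g : PS.S4} (hg : PS.IsG0 M g)
    (hw : vm g.1 w = w) (x y : PS.Cusp) : hev n (ψ x (g • x)) w = hev n (ψ y (g • y)) w := by
  have h1 : ψ x (g • x) = ψ x y + ψ y (g • y) + ψ (g • y) (g • x) := by
    rw [hψ.1, hψ.1]
  have h2 : ψ y x = -ψ x y := by
    have := hψ.1 x y x
    rw [sym_self hψ] at this
    exact eq_neg_of_add_eq_zero_right this
  rw [h1, hev_add, hev_add, hev_inv hψ hg hw, h2, hev_neg]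
  ring

/-- additivity -/
lemma add_par (hψ : ψ ∈ PS.Sym ℂ M n) {w : ℤ × ℤ} {i : ℤ} (hi : (M : ℤ) ∣ 4 * i)
    (j : ℤ) (x : PS.Cusp) :
    hev n (ψ x (parS w (i + j) • x)) w =
      hev n (ψ x (parS w i • x)) w + hev n (ψ x (parS w j • x)) w := by
  rw [← parS_mul, mul_smul, ← hψ.1 x (parS w j • x), hev_add,
    indep hψ (isG0_parS M w hi) (vm_par_self w _) (parS w j • x) x]
  ring

lemma nsmul_par (hψ : ψ ∈ PS.Sym ℂ M n) {w : ℤ × ℤ} {i : ℤ} (hi : (M : ℤ) ∣ 4 * i)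
    (x : PS.Cusp) (m : ℕ) :
    hev n (ψ x (parS w (m * i) • x)) w = m * hev n (ψ x (parS w i • x)) w := by
  induction m with
  | zero => rw [Nat.cast_zero, zero_mul, parS_zero, one_smul, sym_self hψ, hev_zero]; simp
  | succ m ih =>
    have h1 : ((m + 1 : ℕ) : ℤ) * i = m * i + i := by push_cast; ring
    have h2 : (M : ℤ) ∣ 4 * (m * i) := by
      rw [mul_left_comm]
      exact hi.mul_left _
    rw [h1, add_par hψ h2, ih]
    push_cast
    ring

/-- **independence** of the cusp and of the power. -/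
theorem res_eq_nat [NeZero M] (hM : 4 ∣ M) (hψ : ψ ∈ PS.Sym ℂ M n) (w : ℤ × ℤ) (x : PS.Cusp)
    {j : ℕ} (hj : M ∣ 4 * j) : hev n (ψ x (parS w j • x)) w = 4 * j * res M n ψ w := by
  obtain ⟨m, hm⟩ := hM
  have hM0 : (M : ℂ) ≠ 0 := by exact_mod_cast NeZero.ne M
  have hm4 : M / 4 = m := by omega
  rw [hm, mul_dvd_mul_iff_left (by norm_num)] at hj
  obtain ⟨t, ht⟩ := hj
  have h1 : (M : ℤ) ∣ 4 * (m : ℤ) := by rw [hm]; push_cast; exact dvd_rfl
  have h2 : ((j : ℕ) : ℤ) = (t : ℕ) * (m : ℤ) := by rw [ht]; push_cast; ring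
  rw [h2, nsmul_par hψ h1, res, hm4, indep hψ (isG0_parS M w h1) (vm_par_self w _) PS.inf x]
  have h3 : (M : ℂ) = 4 * m := by rw [hm]; push_cast; ring
  have h4 : (j : ℂ) = m * t := by rw [ht]; push_cast; ring
  have hm0 : (m : ℂ) ≠ 0 := by
    intro h5
    rw [h3, h5, mul_zero] at hM0
    exact hM0 rfl
  rw [h3, h4]
  field_simp

/-- the same for integers -/
theorem res_eq_int [NeZero M] (hM : 4 ∣ M) (hψ : ψ ∈ PS.Sym ℂ M n) (w : ℤ × ℤ) (x : PS.Cusp)
    {j : ℤ} (hj : (M : ℤ) ∣ 4 * j) : hev n (ψ x (parS w j • x)) w = 4 * j * res M n ψ w := by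
  obtain ⟨m, rfl | rfl⟩ := Int.eq_nat_or_neg j
  · have hj' : M ∣ 4 * m := by exact_mod_cast hj
    have := res_eq_nat hM hψ w x hj'
    exact_mod_cast this
  · have hj1 : (M : ℤ) ∣ 4 * (m : ℤ) := by
      rw [mul_neg, dvd_neg] at hj
      exact hj
    have hj' : M ∣ 4 * m := by exact_mod_cast hj1
    have h1 := res_eq_nat hM hψ w x hj'
    have h2 := add_par hψ (w := w) hj (m : ℤ) x
    rw [neg_add_cancel, parS_zero, one_smul, sym_self hψ, hev_zero, h1] at h2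
    push_cast
    linear_combination -h2

end Res

variable {n M : ℕ} [NeZero M]

/-- **independence** of the cusp and of the power. -/
theorem res_eq (hM : 4 ∣ M) (ψ : PS.Sym ℂ M n) (w : ℤ × ℤ) (x : PS.Cusp)
    {j : ℤ} (hj : (M : ℤ) ∣ 4 * j) :
    hev n (ψ.1 x (parS w j • x)) w = 4 * j * res M n ψ.1 w := Res.res_eq_int hM ψ.2 w x hj

omit [NeZero M] in
/-- the matrix of `Γ₀(M)`, `4 ∣ M`, in `S4` -/
def ofSL (hM : 4 ∣ M) {g : SL(2, ℤ)} (hg : g ∈ Gamma0 M) : PS.S4 :=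
  ⟨g.1, by
    have h1 : (M : ℤ) ∣ g 1 0 := (ZMod.intCast_zmod_eq_zero_iff_dvd _ _).1 (Gamma0_mem.1 hg)
    have h4 : (4 : ℤ) ∣ g 1 0 := (Int.natCast_dvd_natCast.2 hM).trans h1
    have hdet := g.det_coe
    refine ⟨by rw [hdet]; exact one_ne_zero, ?_, h4⟩
    rw [Matrix.det_fin_two] at hdet
    obtain ⟨c, hc⟩ := h4
    rw [hc] at hdet
    by_contra hodd
    rw [Int.not_odd_iff_even] at hodd
    obtain ⟨a, ha⟩ := hodd
    rw [ha] at hdet
    have h5 : (2 : ℤ) * (a * g.1 1 1 - 2 * (g.1 0 1 * c)) = 1 := by linear_combination hdet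
    omega⟩

omit [NeZero M] in
lemma ofSL_coe (hM : 4 ∣ M) {g : SL(2, ℤ)} (hg : g ∈ Gamma0 M) : (ofSL hM hg).1 = g.1 := rfl

omit [NeZero M] in
lemma isG0_ofSL (hM : 4 ∣ M) {g : SL(2, ℤ)} (hg : g ∈ Gamma0 M) : PS.IsG0 M (ofSL hM hg) :=
  ⟨g.det_coe, (ZMod.intCast_zmod_eq_zero_iff_dvd _ _).1 (Gamma0_mem.1 hg)⟩

/-- **The residues are homogeneous functions of degree `n + 2`, zero at the cusps `u/v`,
`4 ∣ v`.** -/
theorem res_mem (hM : 4 ∣ M) (ψ : PS.Sym ℂ M n) : res M n ψ.1 ∈ HOut (n + 2) M := by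
  have hM0 : (M : ℂ) ≠ 0 := by exact_mod_cast NeZero.ne M
  have hMd : (M : ℤ) ∣ 4 * (M : ℤ) := Dvd.intro_left _ rfl
  refine ⟨⟨?_, fun l hl v => ?_, fun g hg v => ?_⟩, fun v hv => ?_⟩
  · have h := res_eq hM ψ (0, 0) PS.inf hMd
    have h1 : parS (0, 0) (M : ℤ) = 1 := by
      apply Subtype.ext
      rw [parS_coe, Submonoid.coe_one, par]
      ext a b
      fin_cases a <;> fin_cases b <;> simp
    rw [h1, one_smul, Res.sym_self ψ.2, Res.hev_zero] at h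
    have h2 : (4 : ℂ) * ((M : ℤ) : ℂ) ≠ 0 := by
      push_cast
      exact mul_ne_zero (by norm_num) hM0
    exact (mul_eq_zero.1 h.symm).resolve_left h2
  · have h1 := res_eq hM ψ (l * v.1, l * v.2) PS.inf hMd
    have h2 := res_eq hM ψ v PS.inf (j := l ^ 2 * M) (by
      rw [mul_left_comm]
      exact hMd.mul_left _)
    rw [Res.parS_scale, Res.hev_scale, h2] at h1
    have h3 : (4 : ℂ) * (M : ℂ) ≠ 0 := mul_ne_zero (by norm_num) hM0
    have h4 : (l : ℂ) ^ ((n : ℤ) + 2) = (l : ℂ) ^ n * (l : ℂ) ^ 2 := by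
      rw [← pow_add]
      exact_mod_cast rfl
    rw [h4]
    refine mul_left_cancel₀ h3 ?_
    push_cast at h1
    linear_combination -h1
  · have hG := isG0_ofSL hM hg
    have hdet : (ofSL hM hg).1.det = 1 := hG.1
    have h1 := res_eq hM ψ (vm g.1 v) (ofSL hM hg • PS.inf) hMd
    have h2 := res_eq hM ψ v PS.inf hMd
    have h3 := Res.mul_parS (ofSL hM hg) v (M : ℤ)
    rw [hdet, one_mul, ofSL_coe] at h3
    rw [← mul_smul, ← h3, mul_smul] at h1
    have h4 := Res.hev_act (ofSL hM hg) ψ.1 PS.inf (parS v (M : ℤ) • PS.inf) v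
    rw [ψ.2.2 _ hG, ofSL_coe] at h4
    rw [← h4, h2] at h1
    have h5 : (4 : ℂ) * ((M : ℤ) : ℂ) ≠ 0 := by
      push_cast
      exact mul_ne_zero (by norm_num) hM0
    exact (mul_left_cancel₀ h5 h1).symm
  · obtain ⟨l, a, c, hl, ha, hc, rfl⟩ := hv
    have h := res_eq hM ψ (l * a, l * c) (PS.Cusp.mk a c ha hc) hMd
    have h1 : parS (l * a, l * c) (M : ℤ) • PS.Cusp.mk a c ha hc = PS.Cusp.mk a c ha hc := by
      obtain ⟨h1, h2, h3⟩ := PS.smul_mk (parS (l * a, l * c) (M : ℤ)) a c ha hc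
      rw [h3, PS.Cusp.mk_eq]
      simp only [parS_coe, par, Matrix.of_apply, Matrix.cons_val', Matrix.cons_val_zero,
        Matrix.cons_val_one, Matrix.cons_val_fin_one]
      ring
    rw [h1, Res.sym_self ψ.2, Res.hev_zero] at h
    have h2 : (4 : ℂ) * ((M : ℤ) : ℂ) ≠ 0 := by
      push_cast
      exact mul_ne_zero (by norm_num) hM0
    exact (mul_eq_zero.1 h.symm).resolve_left h2

/-- the residue of `ψ | g`, with the same power -/
lemma res_act (hM : 4 ∣ M) (ψ : PS.Sym ℂ M n) (g : PS.S4) (w : ℤ × ℤ) (x : PS.Cusp) {j : ℤ}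
    (hj : (M : ℤ) ∣ 4 * j) :
    hev n (PS.act ℂ n g ψ.1 x (parS w (g.1.det * j) • x)) w =
      4 * j * res M n ψ.1 (vm g.1 w) := by
  rw [Res.hev_act, ← mul_smul, Res.mul_parS, mul_smul, res_eq hM ψ _ _ hj]

/-- **The residues and the Hecke operators.** -/
theorem res_hecke (hM : 4 ∣ M) (ψ : PS.Sym ℂ M n) {q : ℕ} (hq : q.Prime) :
    res M n (PS.hecke ℂ M n q ψ.1) = (q : ℂ)⁻¹ • hop M q (res M n ψ.1) := by
  have hM0 : (M : ℂ) ≠ 0 := by exact_mod_cast NeZero.ne M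
  have hq0 : (q : ℂ) ≠ 0 := by exact_mod_cast hq.ne_zero
  have hqz : (q : ℤ) ≠ 0 := by exact_mod_cast hq.ne_zero
  have hMd : (M : ℤ) ∣ 4 * (M : ℤ) := Dvd.intro_left _ rfl
  funext w
  have h1 := res_eq hM ⟨_, PS.hecke_mem hq hM (NeZero.ne M) ψ.2⟩ w PS.inf
    (j := q * M) (by rw [mul_left_comm]; exact hMd.mul_left _)
  have h2 : ∀ b : ℕ, hev n (PS.act ℂ n (PS.upS 1 b q) ψ.1 PS.inf
      (parS w (q * M) • PS.inf)) w = 4 * M * res M n ψ.1 (vm !![1, (b : ℤ); 0, (q : ℤ)] w) := by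
    intro b
    have hd : (PS.upS 1 b q).1.det = q := by
      rw [PS.upS_coe odd_one hqz, Matrix.det_fin_two_of]
      ring
    have h3 := res_act hM ψ (PS.upS 1 b q) w PS.inf hMd
    rw [hd, PS.upS_coe odd_one hqz] at h3
    push_cast at h3
    exact h3
  have h3 : ¬ q ∣ M → hev n (PS.act ℂ n (PS.upS q 0 1) ψ.1 PS.inf
      (parS w (q * M) • PS.inf)) w = 4 * M * res M n ψ.1 (vm !![(q : ℤ), 0; 0, 1] w) := by
    intro hqM
    have hodd : Odd (q : ℤ) := by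
      have h4 : q ≠ 2 := by
        rintro rfl
        exact hqM (dvd_trans (by norm_num) hM)
      exact_mod_cast hq.odd_of_ne_two h4
    have hd : (PS.upS q 0 1).1.det = q := by
      rw [PS.upS_coe hodd one_ne_zero, Matrix.det_fin_two_of]
      ring
    have h3 := res_act hM ψ (PS.upS q 0 1) w PS.inf hMd
    rw [hd, PS.upS_coe hodd one_ne_zero] at h3
    push_cast at h3
    exact h3
  have h4 : hev n (PS.hecke ℂ M n q ψ.1 PS.inf (parS w (q * M) • PS.inf)) w =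
      4 * M * hop M q (res M n ψ.1) w := by
    rw [PS.hecke, LinearMap.add_apply, LinearMap.sum_apply]
    simp only [Pi.add_apply, Finset.sum_apply]
    rw [Res.hev_add, Res.hev_sum]
    simp only [h2]
    change _ = 4 * (M : ℂ) * (∑ b ∈ Finset.range q, res M n ψ.1 (vm !![1, (b : ℤ); 0, (q : ℤ)] w) +
      if q ∣ M then 0 else res M n ψ.1 (vm !![(q : ℤ), 0; 0, 1] w))
    rw [mul_add, Finset.mul_sum]
    congr 1
    split_ifs with h5
    · rw [mul_zero]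
      exact Res.hev_zero w
    · exact h3 h5
  rw [h4] at h1
  have h5 : (4 : ℂ) * (M : ℂ) * q ≠ 0 := mul_ne_zero (mul_ne_zero (by norm_num) hM0) hq0
  show res M n (PS.hecke ℂ M n q ψ.1) w = (q : ℂ)⁻¹ * hop M q (res M n ψ.1) w
  push_cast at h1
  field_simp
  refine mul_left_cancel₀ (mul_ne_zero (by norm_num : (4 : ℂ) ≠ 0) hM0) ?_
  linear_combination -h1

/-- the residue as a linear map -/
def resL (M n : ℕ) : PS.Sym ℂ M n →ₗ[ℂ] (ℤ × ℤ → ℂ) where
  toFun ψ := res M n ψ.1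
  map_add' φ ψ := by
    funext w
    simp only [res, Submodule.coe_add, Pi.add_apply]
    rw [Res.hev_add, mul_add]
  map_smul' a φ := by
    funext w
    simp only [res, Submodule.coe_smul, Pi.smul_apply, RingHom.id_apply, smul_eq_mul]
    rw [Res.hev_smul]
    ring

@[simp] lemma resL_apply (M n : ℕ) (ψ : PS.Sym ℂ M n) : resL M n ψ = res M n ψ.1 := rfl

end Gouvea.Cnt
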