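import Pool.Agent.Work.MP_d3517d_nt.Cnt.Defs
import Pool.Agent.Work.MP_d3517d_nt.ES.ThetaBdry

/-!
# The dimension of the space of boundary symbols (cell COUNT, MP_d3517d_nt)

* `finite_Cu` : the set of cusps of `Γ₀(M)` is finite;
* `finrank_BF`, `finrank_BF_zero` : `dim BF n M = #Cu M` for `n ≥ 2` even, `dim BF 0 M + 1 = #Cu M`.
-/

open Polynomial CongruenceSubgroup
open scoped MatrixGroups

noncomputable section

namespace Gouvea.Cnt

open Gouvea.ES Gouvea.Theta

lemma sQ_mul (g h : SL(2, ℤ)) : sQ (g * h) = sQ g * sQ h := map_mul _ _ _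

lemma sQ_inv (g : SL(2, ℤ)) : sQ g⁻¹ = (sQ g)⁻¹ := map_inv _ _

lemma sQ_one : sQ 1 = 1 := map_one _

lemma exists_g (x : OnePoint ℚ) : ∃ g : SL(2, ℤ), sQ g • (OnePoint.infty : OnePoint ℚ) = x :=
  OnePoint.exists_mem_SL2 ℤ x

/-- an element of `SL₂(ℤ)` which maps `∞` to `x` -/
def gOf (x : OnePoint ℚ) : SL(2, ℤ) := (exists_g x).choose

lemma gOf_smul (x : OnePoint ℚ) : sQ (gOf x) • (OnePoint.infty : OnePoint ℚ) = x :=
  (exists_g x).choose_spec

lemma slashM_sQ_mul (n : ℕ) (g h : SL(2, ℤ)) (P : ℂ[X]) :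
    slashM n (matOf ℂ (sQ (g * h))) P =
      slashM n (matOf ℂ (sQ h)) (slashM n (matOf ℂ (sQ g)) P) := by
  rw [slashM_slashM, ← matOf_mul, sQ_mul]

lemma slashM_sQ_one (n : ℕ) {P : ℂ[X]} (hP : P.natDegree ≤ n) :
    slashM n (matOf ℂ (sQ 1)) P = P := by
  rw [sQ_one, matOf_one]
  exact slashM_one n P (mem_degreeLE.2 (natDegree_le_iff_degree_le.1 hP))

/-- `1 | k = 1` for `k ∈ SL₂(ℤ)` fixing `∞`, `n` even -/
lemma slashM_fix {n : ℕ} (hn : Even n) {k : SL(2, ℤ)}
    (hk : sQ k • (OnePoint.infty : OnePoint ℚ) = OnePoint.infty) :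
    slashM n (matOf ℂ (sQ k)) 1 = 1 := by
  have h0 : k 1 0 = 0 := by
    have := OnePoint.smul_infty_eq_self_iff.1 hk
    simpa using this
  have hdet : k 0 0 * k 1 1 = 1 := by
    have := k.2
    rw [Matrix.det_fin_two] at this
    have h1 : k.1 1 0 = 0 := h0
    rw [h1, mul_zero, sub_zero] at this
    exact this
  have h1 : (k 1 1) ^ n = 1 := by
    rcases Int.eq_one_or_neg_one_of_mul_eq_one' hdet with h | h
    · rw [h.2, one_pow]
    · rw [h.2, hn.neg_one_pow]
  rw [slashM_apply, Finset.sum_eq_single 0]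
  · rw [matOf_sQ]
    have h2 : (k.1.map (Int.cast : ℤ → ℂ)) 1 0 = 0 := by
      rw [Matrix.map_apply]
      exact_mod_cast h0
    have h3 : (k.1.map (Int.cast : ℤ → ℂ)) 1 1 ^ n = 1 := by
      rw [Matrix.map_apply]
      exact_mod_cast congrArg (Int.cast : ℤ → ℂ) h1
    rw [h2, coeff_one_zero, C_1, one_mul, pow_zero, one_mul, C_0, zero_mul, zero_add, Nat.sub_zero,
      ← C_pow, h3, C_1]
  · intro j _ hj
    rw [coeff_one, if_neg hj, C_0, zero_mul]
  · intro h
    exact absurd (Finset.mem_range.2 (Nat.succ_pos n)) h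

/-- the invariant family of polynomials `1 | g⁻¹`, `g ∞ = x` -/
def uu (n : ℕ) (x : OnePoint ℚ) : ℂ[X] := slashM n (matOf ℂ (sQ (gOf x)⁻¹)) 1

lemma uu_deg (n : ℕ) (x : OnePoint ℚ) : (uu n x).natDegree ≤ n := natDegree_slashM_le _ _ _

lemma uu_eq {n : ℕ} (hn : Even n) {g : SL(2, ℤ)} {x : OnePoint ℚ}
    (hg : sQ g • (OnePoint.infty : OnePoint ℚ) = x) :
    slashM n (matOf ℂ (sQ g⁻¹)) 1 = uu n x := by
  have h1 : g⁻¹ = (g⁻¹ * gOf x) * (gOf x)⁻¹ := by group
  have h2 : sQ (g⁻¹ * gOf x) • (OnePoint.infty : OnePoint ℚ) = OnePoint.infty := by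
    rw [sQ_mul, mul_smul, gOf_smul, ← hg, sQ_inv, inv_smul_smul]
  rw [h1, slashM_sQ_mul, slashM_fix hn h2]
  rfl

lemma uu_inv {n : ℕ} (hn : Even n) (h : SL(2, ℤ)) (x : OnePoint ℚ) :
    slashM n (matOf ℂ (sQ h)) (uu n (sQ h • x)) = uu n x := by
  have h1 : sQ (h * gOf x) • (OnePoint.infty : OnePoint ℚ) = sQ h • x := by
    rw [sQ_mul, mul_smul, gOf_smul]
  rw [← uu_eq hn h1, ← slashM_sQ_mul]
  have h2 : (h * gOf x)⁻¹ * h = (gOf x)⁻¹ := by group
  rw [h2]
  rfl

lemma uu_slash {n : ℕ} (x : OnePoint ℚ) : slashM n (matOf ℂ (sQ (gOf x))) (uu n x) = 1 := by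
  rw [uu, ← slashM_sQ_mul, inv_mul_cancel, slashM_sQ_one]
  simp

lemma uu_ne_zero (n : ℕ) (x : OnePoint ℚ) : uu n x ≠ 0 := by
  intro h
  have := uu_slash (n := n) x
  rw [h, map_zero] at this
  exact zero_ne_one this

/-! ### The invariant functions on the cusps -/

/-- the `Γ₀(M)`-invariant functions on `ℙ¹(ℚ)` with values in the polynomials of degree `≤ n` -/
def WF (n M : ℕ) : Submodule ℂ (OnePoint ℚ → ℂ[X]) where
  carrier := {w | (∀ x, (w x).natDegree ≤ n) ∧
    ∀ g ∈ Gamma0 M, ∀ x, slashM n (matOf ℂ (sQ g)) (w (sQ g • x)) = w x}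
  add_mem' := by
    rintro w v ⟨h1, h2⟩ ⟨k1, k2⟩
    refine ⟨fun x => ?_, fun g hg x => ?_⟩
    · exact (natDegree_add_le _ _).trans (max_le (h1 x) (k1 x))
    · rw [Pi.add_apply, map_add, h2 g hg x, k2 g hg x]
      rfl
  zero_mem' := ⟨fun x => by simp, fun g hg x => by simp⟩
  smul_mem' := by
    rintro a w ⟨h1, h2⟩
    refine ⟨fun x => ?_, fun g hg x => ?_⟩
    · exact (natDegree_smul_le _ _).trans (h1 x)
    · rw [Pi.smul_apply, map_smul, h2 g hg x]
      rfl

/-- the class of a point of `ℙ¹(ℚ)` in `Cu M` -/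
def cuMk (M : ℕ) (x : OnePoint ℚ) : Cu M := Quotient.mk (cuSetoid M) x

lemma cuMk_smul {M : ℕ} {g : SL(2, ℤ)} (hg : g ∈ Gamma0 M) (x : OnePoint ℚ) :
    cuMk M (sQ g • x) = cuMk M x :=
  (Quotient.sound (s := cuSetoid M) ⟨g, hg, rfl⟩).symm

/-- a polynomial which is invariant under a nonzero translation is constant -/
lemma eq_C_of_evalPeriod {P : ℂ[X]} {m : ℂ} (hm : m ≠ 0) (h : ∀ r : ℂ, P.eval (r + m) = P.eval r) :
    P = C (P.eval 0) := by
  have h1 : ∀ j : ℕ, P.eval ((j : ℂ) * m) = P.eval 0 := by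
    intro j
    induction j with
    | zero => simp
    | succ j ih =>
      rw [← ih, ← h ((j : ℂ) * m)]
      congr 1
      push_cast
      ring
  refine sub_eq_zero.1 (Polynomial.eq_zero_of_infinite_isRoot _ ?_)
  refine (Set.infinite_range_of_injective (f := fun j : ℕ => (j : ℂ) * m) ?_).mono ?_
  · intro i j hij
    exact_mod_cast mul_right_cancel₀ hm hij
  · rintro _ ⟨j, rfl⟩
    show IsRoot _ _
    rw [IsRoot, eval_sub, eval_C, h1 j, sub_self]

/-- the translation by `m` in `SL₂(ℤ)` -/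
def tr (m : ℤ) : SL(2, ℤ) := ⟨!![1, m; 0, 1], by rw [Matrix.det_fin_two_of]; ring⟩

lemma tr_smul (m : ℤ) : sQ (tr m) • (OnePoint.infty : OnePoint ℚ) = OnePoint.infty := by
  rw [OnePoint.smul_infty_eq_self_iff]
  simp [tr]

lemma eval_tr (n : ℕ) (m : ℤ) {P : ℂ[X]} (hP : P.natDegree ≤ n) (r : ℂ) :
    (slashM n (matOf ℂ (sQ (tr m))) P).eval r = P.eval (r + m) := by
  have h : matOf ℂ (sQ (tr m)) = !![1, (m : ℂ); 0, 1] := by
    rw [matOf_sQ]
    ext i j
    fin_cases i <;> fin_cases j <;> simp [tr]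
  rw [h, Bdry.eval_slashM n _ hP (by simp)]
  simp

/-- **Structure of the invariant functions**: `w x` is a multiple of `uu n x`. -/
lemma exists_smul_uu {n M : ℕ} [NeZero M] {w : OnePoint ℚ → ℂ[X]} (hw : w ∈ WF n M)
    (x : OnePoint ℚ) : ∃ c : ℂ, w x = c • uu n x := by
  set g := gOf x with hg
  set P := slashM n (matOf ℂ (sQ g)) (w x) with hP
  have hPdeg : P.natDegree ≤ n := natDegree_slashM_le _ _ _
  -- the parabolic element
  set γ : SL(2, ℤ) := g * tr M * g⁻¹ with hγ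
  have hγM : γ ∈ Gamma0 M := by
    have h1 : tr (M : ℤ) ∈ Gamma M := by
      rw [Gamma_mem]
      simp [tr]
    have h2 : γ ∈ Gamma M := (Gamma_normal M).conj_mem _ h1 g
    rw [Gamma_mem] at h2
    rw [Gamma0_mem]
    exact h2.2.2.1
  have hγx : sQ γ • x = x := by
    rw [hγ, sQ_mul, sQ_mul, mul_smul, mul_smul]
    have h1 : sQ g⁻¹ • x = OnePoint.infty := by
      rw [sQ_inv, inv_smul_eq_iff, hg, gOf_smul]
    rw [h1, tr_smul, hg, gOf_smul]
  have hinv : slashM n (matOf ℂ (sQ γ)) (w x) = w x := by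
    have := hw.2 γ hγM x
    rwa [hγx] at this
  have hPinv : slashM n (matOf ℂ (sQ (tr M))) P = P := by
    rw [hP, ← slashM_sQ_mul]
    have h1 : g * tr M = γ * g := by rw [hγ]; group
    rw [h1, slashM_sQ_mul, hinv]
  have hPC : P = C (P.eval 0) := by
    refine eq_C_of_evalPeriod (m := ((M : ℤ) : ℂ)) (by exact_mod_cast NeZero.ne M) fun r => ?_
    rw [← eval_tr n M hPdeg, hPinv]
  refine ⟨P.eval 0, ?_⟩
  have h1 : w x = slashM n (matOf ℂ (sQ g⁻¹)) P := by
    rw [hP, ← slashM_sQ_mul, mul_inv_cancel, slashM_sQ_one _ (hw.1 x)]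
  rw [h1, hPC, eval_C, ← mul_one (C (P.eval 0)), ← smul_eq_C_mul, map_smul]
  rfl

/-- the invariant function attached to a function on `Cu M` -/
def wOf (n M : ℕ) (hn : Even n) : (Cu M → ℂ) →ₗ[ℂ] WF n M where
  toFun β := ⟨fun x => β (cuMk M x) • uu n x, by
    refine ⟨fun x => (natDegree_smul_le _ _).trans (uu_deg n x), fun g hg x => ?_⟩
    rw [map_smul, cuMk_smul hg, uu_inv hn]⟩
  map_add' β β' := by
    refine Subtype.ext (funext fun x => ?_)
    exact add_smul _ _ _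
  map_smul' a β := by
    refine Subtype.ext (funext fun x => ?_)
    exact mul_smul _ _ _

lemma wOf_apply (n M : ℕ) (hn : Even n) (β : Cu M → ℂ) (x : OnePoint ℚ) :
    (wOf n M hn β).1 x = β (cuMk M x) • uu n x := rfl

lemma wOf_injective (n M : ℕ) (hn : Even n) : Function.Injective (wOf n M hn) := by
  intro β β' h
  funext c
  induction c using Quotient.inductionOn with
  | h x =>
    have h1 : β (cuMk M x) • uu n x = β' (cuMk M x) • uu n x := by
      rw [← wOf_apply n M hn, h, wOf_apply]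
    exact smul_left_injective ℂ (uu_ne_zero n x) h1

lemma wOf_surjective (n M : ℕ) [NeZero M] (hn : Even n) : Function.Surjective (wOf n M hn) := by
  intro w
  choose c hc using exists_smul_uu w.2
  have hinv : ∀ g ∈ Gamma0 M, ∀ x, c (sQ g • x) = c x := by
    intro g hg x
    have h1 := w.2.2 g hg x
    rw [hc x, hc (sQ g • x), map_smul, uu_inv hn] at h1
    exact smul_left_injective ℂ (uu_ne_zero n x) h1
  refine ⟨Quotient.lift c fun x y hxy => ?_, ?_⟩
  · obtain ⟨g, hg, rfl⟩ := hxy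
    exact (hinv g hg x).symm
  · refine Subtype.ext (funext fun x => ?_)
    rw [wOf_apply, hc x]
    rfl

/-! ### The cusps -/

theorem finite_Cu (M : ℕ) [NeZero M] : Finite (Cu M) := by
  have hfin : Finite (SL(2, ℤ) ⧸ Gamma0 M) :=
    Subgroup.finite_quotient_of_finiteIndex
  let f : SL(2, ℤ) ⧸ Gamma0 M → Cu M := Quotient.lift
    (fun g : SL(2, ℤ) => cuMk M (sQ g⁻¹ • (OnePoint.infty : OnePoint ℚ))) (by
      intro a b hab
      have h1 : a⁻¹ * b ∈ Gamma0 M := QuotientGroup.leftRel_apply.1 hab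
      have h2 : a⁻¹ = (a⁻¹ * b) * b⁻¹ := by group
      show cuMk M _ = cuMk M _
      rw [h2, sQ_mul, mul_smul, cuMk_smul h1])
  refine Finite.of_surjective f fun c => ?_
  induction c using Quotient.inductionOn with
  | h x =>
    refine ⟨QuotientGroup.mk (gOf x)⁻¹, ?_⟩
    show cuMk M (sQ (gOf x)⁻¹⁻¹ • (OnePoint.infty : OnePoint ℚ)) = cuMk M x
    rw [inv_inv, gOf_smul]

instance (M : ℕ) [NeZero M] : Finite (Cu M) := finite_Cu M

theorem finrank_WF (n M : ℕ) [NeZero M] (hn : Even n) :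
    Module.finrank ℂ (WF n M) = Nat.card (Cu M) := by
  rw [← (LinearEquiv.ofBijective (wOf n M hn)
    ⟨wOf_injective n M hn, wOf_surjective n M hn⟩).finrank_eq]
  have := Fintype.ofFinite (Cu M)
  rw [Module.finrank_fintype_fun_eq_card, Nat.card_eq_fintype_card]

theorem finite_WF (n M : ℕ) [NeZero M] (hn : Even n) : Module.Finite ℂ (WF n M) :=
  Module.Finite.of_surjective (wOf n M hn) (wOf_surjective n M hn)

/-! ### Boundary symbols -/

/-- the boundary symbol of an invariant function -/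
def bd (n M : ℕ) : WF n M →ₗ[ℂ] BF n M where
  toFun w := ⟨fun x y => w.1 x - w.1 y, ⟨w.1, w.2.1, w.2.2, fun _ _ => rfl⟩⟩
  map_add' w v := by
    refine Subtype.ext (funext fun x => funext fun y => ?_)
    show (w.1 x + v.1 x) - (w.1 y + v.1 y) = (w.1 x - w.1 y) + (v.1 x - v.1 y)
    ring
  map_smul' a w := by
    refine Subtype.ext (funext fun x => funext fun y => ?_)
    exact (smul_sub a (w.1 x) (w.1 y)).symm

lemma bd_surjective (n M : ℕ) : Function.Surjective (bd n M) := by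
  rintro ⟨φ, w, h1, h2, h3⟩
  refine ⟨⟨w, h1, h2⟩, Subtype.ext (funext fun x => funext fun y => ?_)⟩
  exact (h3 x y).symm

lemma mem_ker_bd {n M : ℕ} {w : WF n M} : w ∈ LinearMap.ker (bd n M) ↔ ∀ x y, w.1 x = w.1 y := by
  rw [LinearMap.mem_ker]
  constructor
  · intro h x y
    exact sub_eq_zero.1 (congrFun (congrFun (congrArg Subtype.val h) x) y)
  · intro h
    refine Subtype.ext (funext fun x => funext fun y => ?_)
    exact sub_eq_zero.2 (h x y)

theorem finite_BF (n M : ℕ) [NeZero M] (hn : Even n) : Module.Finite ℂ (BF n M) := by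
  have := finite_WF n M hn
  exact Module.Finite.of_surjective (bd n M) (bd_surjective n M)

theorem finrank_BF_add (n M : ℕ) [NeZero M] (hn : Even n) :
    Module.finrank ℂ (BF n M) + Module.finrank ℂ (LinearMap.ker (bd n M)) =
      Nat.card (Cu M) := by
  have := finite_WF n M hn
  rw [← finrank_WF n M hn, ← (bd n M).finrank_range_add_finrank_ker,
    LinearMap.range_eq_top.2 (bd_surjective n M), finrank_top]

lemma ker_bd_eq_bot {n M : ℕ} [NeZero M] (hn : Even n) (h2 : 2 ≤ n) :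
    LinearMap.ker (bd n M) = ⊥ := by
  rw [eq_bot_iff]
  intro w hw
  rw [mem_ker_bd] at hw
  have key : w.1 OnePoint.infty = 0 := by
    obtain ⟨c, hc⟩ := exists_smul_uu w.2 OnePoint.infty
    obtain ⟨d, hd⟩ := exists_smul_uu w.2 ((0 : ℚ) : OnePoint ℚ)
    have h1 : uu n OnePoint.infty = 1 := by
      rw [← uu_eq hn (g := 1) (by rw [sQ_one, one_smul]), inv_one, slashM_sQ_one]
      simp
    -- the element `S`
    set S : SL(2, ℤ) := ⟨!![0, -1; 1, 0], by rw [Matrix.det_fin_two_of]; ring⟩ with hS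
    have hS0 : sQ S • (OnePoint.infty : OnePoint ℚ) = ((0 : ℚ) : OnePoint ℚ) := by
      rw [OnePoint.smul_infty_eq_ite]
      simp [hS]
    have h2' : uu n ((0 : ℚ) : OnePoint ℚ) = (-X) ^ n := by
      rw [← uu_eq hn hS0, slashM_apply, Finset.sum_eq_single 0]
      · have h3 : matOf ℂ (sQ S⁻¹) 1 0 = -1 := by
          rw [matOf_sQ]
          simp [hS, Matrix.SpecialLinearGroup.SL2_inv_expl]
        have h4 : matOf ℂ (sQ S⁻¹) 1 1 = 0 := by
          rw [matOf_sQ]
          simp [hS, Matrix.SpecialLinearGroup.SL2_inv_expl]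
        rw [h3, h4]
        simp
      · intro j _ hj
        rw [coeff_one, if_neg hj, C_0, zero_mul]
      · intro h
        exact absurd (Finset.mem_range.2 (Nat.succ_pos n)) h
    have h5 := hw OnePoint.infty ((0 : ℚ) : OnePoint ℚ)
    rw [hc, hd, h1, h2', hn.neg_pow] at h5
    have h6 := congrArg (fun P : ℂ[X] => P.coeff 0) h5
    simp only [coeff_smul, coeff_one_zero, coeff_X_pow] at h6
    rw [if_neg (by omega)] at h6
    rw [hc, show c = 0 by simpa using h6, zero_smul]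
  refine (Submodule.mem_bot ℂ).2 (Subtype.ext (funext fun x => ?_))
  rw [hw x OnePoint.infty, key]
  rfl

/-- **The dimension of the space of boundary symbols**, `n ≥ 2` even. -/
theorem finrank_BF (n M : ℕ) [NeZero M] (hn : Even n) (h2 : 2 ≤ n) :
    Module.finrank ℂ (BF n M) = Nat.card (Cu M) := by
  have h := finrank_BF_add n M hn
  rwa [ker_bd_eq_bot hn h2, finrank_bot, add_zero] at h

lemma finrank_ker_bd_zero (M : ℕ) [NeZero M] :
    Module.finrank ℂ (LinearMap.ker (bd 0 M)) = 1 := by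
  have hmem : (fun _ : OnePoint ℚ => (1 : ℂ[X])) ∈ WF 0 M := by
    refine ⟨fun x => by simp, fun g _ x => ?_⟩
    rw [slashM_apply]
    simp
  let e : WF 0 M := ⟨fun _ => 1, hmem⟩
  have he : e ∈ LinearMap.ker (bd 0 M) := mem_ker_bd.2 fun x y => rfl
  refine finrank_eq_one (⟨e, he⟩ : LinearMap.ker (bd 0 M)) ?_ ?_
  · intro h
    have h1 : (1 : ℂ[X]) = 0 := congrFun (congrArg (fun t => t.1.1) h) OnePoint.infty
    exact one_ne_zero h1
  · rintro ⟨w, hw⟩
    rw [mem_ker_bd] at hw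
    refine ⟨(w.1 OnePoint.infty).coeff 0, Subtype.ext (Subtype.ext (funext fun x => ?_))⟩
    show (w.1 OnePoint.infty).coeff 0 • (1 : ℂ[X]) = w.1 x
    rw [hw x OnePoint.infty, smul_eq_C_mul, mul_one]
    exact (eq_C_of_natDegree_le_zero (w.2.1 _)).symm

/-- **The dimension of the space of boundary symbols**, `n = 0`. -/
theorem finrank_BF_zero (M : ℕ) [NeZero M] :
    Module.finrank ℂ (BF 0 M) + 1 = Nat.card (Cu M) := by
  rw [← finrank_BF_add 0 M Even.zero, finrank_ker_bd_zero]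

end Gouvea.Cnt
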