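import Pool.Agent.Work.MP_d3517d_nt.ES.ThetaDefs
import Pool.Agent.Work.MP_d3517d_nt.ES.CountSym

/-!
# Exact counts (cell COUNT, MP_d3517d_nt): definitions

* `SF n M` : the space of full modular symbols of level `Γ₀(M)`, weight `n + 2`;
* `BF n M` : its subspace of boundary symbols;
* `Cu M` : the set of cusps `Γ₀(M) \ ℙ¹(ℚ)`.
-/

open Polynomial CongruenceSubgroup
open scoped MatrixGroups

noncomputable section

namespace Gouvea.Cnt

open Gouvea.ES Gouvea.Theta

/-- `SL₂(ℤ)` in `GL₂(ℚ)` -/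
abbrev sQ (g : SL(2, ℤ)) : GQ := Matrix.SpecialLinearGroup.mapGL ℚ g

lemma matOf_one (A : Type*) [Field A] [CharZero A] : matOf A (1 : GQ) = 1 := by
  rw [matOf, Units.val_one]
  exact Matrix.map_one _ (map_zero _) (map_one _)

lemma matOf_mul (A : Type*) [Field A] [CharZero A] (g h : GQ) :
    matOf A (g * h) = matOf A g * matOf A h := by
  rw [matOf, matOf, matOf, Units.val_mul]
  exact Matrix.map_mul (f := algebraMap ℚ A)

lemma matOf_sQ (g : SL(2, ℤ)) : matOf ℂ (sQ g) = g.1.map (Int.cast : ℤ → ℂ) := by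
  ext i j
  simp [matOf]

/-- the action of `GL₂(ℚ)` on functions of two cusps, as a linear map -/
def factL (n : ℕ) (g : GQ) : Symb →ₗ[ℂ] Symb where
  toFun φ := fact n g φ
  map_add' φ ψ := by
    funext x y
    simp [fact]
  map_smul' a φ := by
    funext x y
    simp [fact]

@[simp] lemma factL_apply (n : ℕ) (g : GQ) (φ : Symb) : factL n g φ = fact n g φ := rfl

lemma fact_fact (n : ℕ) (g h : GQ) (φ : Symb) : fact n g (fact n h φ) = fact n (h * g) φ := by
  funext x y
  rw [fact, fact, fact, mul_smul, mul_smul, matOf_mul, slashM_slashM]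

/-- **The space of full modular symbols** of level `Γ₀(M)`, weight `n + 2`. -/
def SF (n M : ℕ) : Submodule ℂ Symb where
  carrier := {φ | FSM n M φ}
  add_mem' := by
    rintro φ ψ ⟨h1, h2, h3⟩ ⟨k1, k2, k3⟩
    refine ⟨fun x y => ?_, fun x y z => ?_, fun g hg => ?_⟩
    · exact (natDegree_add_le _ _).trans (max_le (h1 x y) (k1 x y))
    · simp only [Pi.add_apply]
      rw [← h2 x y z, ← k2 x y z]
      abel
    · rw [← factL_apply, map_add, factL_apply, factL_apply, h3 g hg, k3 g hg]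
  zero_mem' := ⟨fun x y => by simp, fun x y z => by simp, fun g hg => by
    rw [← factL_apply, map_zero]⟩
  smul_mem' := by
    rintro a φ ⟨h1, h2, h3⟩
    refine ⟨fun x y => ?_, fun x y z => ?_, fun g hg => ?_⟩
    · exact (natDegree_smul_le _ _).trans (h1 x y)
    · simp only [Pi.smul_apply]
      rw [← h2 x y z, smul_add]
    · rw [← factL_apply, map_smul, factL_apply, h3 g hg]

lemma mem_SF {n M : ℕ} {φ : Symb} : φ ∈ SF n M ↔ FSM n M φ := Iff.rfl

/-- **The space of boundary symbols.** -/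
def BF (n M : ℕ) : Submodule ℂ Symb where
  carrier := {φ | IsBdry n M φ}
  add_mem' := by
    rintro φ ψ ⟨w, h1, h2, h3⟩ ⟨v, k1, k2, k3⟩
    refine ⟨w + v, fun x => ?_, fun g hg x => ?_, fun x y => ?_⟩
    · exact (natDegree_add_le _ _).trans (max_le (h1 x) (k1 x))
    · rw [Pi.add_apply, map_add, h2 g hg x, k2 g hg x]
      rfl
    · rw [Pi.add_apply, Pi.add_apply, h3, k3, Pi.add_apply, Pi.add_apply]
      abel
  zero_mem' := ⟨0, fun x => by simp, fun g hg x => by simp, fun x y => by simp⟩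
  smul_mem' := by
    rintro a φ ⟨w, h1, h2, h3⟩
    refine ⟨a • w, fun x => ?_, fun g hg x => ?_, fun x y => ?_⟩
    · exact (natDegree_smul_le _ _).trans (h1 x)
    · rw [Pi.smul_apply, map_smul, h2 g hg x]
      rfl
    · rw [Pi.smul_apply, Pi.smul_apply, h3, Pi.smul_apply, Pi.smul_apply, smul_sub]

lemma mem_BF {n M : ℕ} {φ : Symb} : φ ∈ BF n M ↔ IsBdry n M φ := Iff.rfl

theorem BF_le (n M : ℕ) : BF n M ≤ SF n M := by
  rintro φ ⟨w, h1, h2, h3⟩
  refine ⟨fun x y => ?_, fun x y z => ?_, fun g hg => ?_⟩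
  · rw [h3]
    exact (natDegree_sub_le _ _).trans (max_le (h1 x) (h1 y))
  · rw [h3, h3, h3]
    abel
  · funext x y
    rw [fact, h3, map_sub, h2 g hg, h2 g hg, h3]

/-- two points of `ℙ¹(ℚ)` which define the same cusp of `Γ₀(M)` -/
def cuSetoid (M : ℕ) : Setoid (OnePoint ℚ) where
  r x y := ∃ g ∈ Gamma0 M, sQ g • x = y
  iseqv := by
    refine ⟨fun x => ⟨1, one_mem _, by simp [sQ]⟩, ?_, ?_⟩
    · rintro x y ⟨g, hg, rfl⟩
      refine ⟨g⁻¹, inv_mem hg, ?_⟩
      rw [sQ, map_inv, inv_smul_smul]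
    · rintro x y z ⟨g, hg, rfl⟩ ⟨h, hh, rfl⟩
      refine ⟨h * g, mul_mem hh hg, ?_⟩
      rw [sQ, map_mul, mul_smul]

/-- **The cusps of `Γ₀(M)`.** -/
def Cu (M : ℕ) : Type := Quotient (cuSetoid M)

end Gouvea.Cnt
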