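import Pool.Agent.Work.MP_d3517d_nt.Cnt.BdF
import Pool.Agent.Work.MP_d3517d_nt.Cnt.BdS
import Pool.Agent.Work.MP_d3517d_nt.POS.CuspSys
import Pool.Agent.Work.MP_d3517d_nt.POS.ExDefs

/-!
# The Eisenstein systems (MP_d3517d_nt, exact Eichler-Shimura)

The systems of eigenvalues of the Hecke operators `q^n hop q` on `HF (-n) / HOut (-n)` and
`q⁻¹ hop q` on `HOut (n + 2)` are the lines `eisV n L d ψ`, `4 ∣ d` and `¬ 4 ∣ d`.
-/

open Finset CongruenceSubgroup
open scoped MatrixGroups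

noncomputable section

namespace Gouvea.Cnt

open Gouvea.ES Gouvea.Theta Gouvea.POS Gouvea.Sys

/-! ### the functions of the lines -/

variable {L d : ℕ}

/-- the function of the line `(d, ψ)` on primitive vectors -/
def eLine (L d : ℕ) (ψ : DirichletCharacter ℂ (cg L d)) (v : ℤ × ℤ) : ℂ :=
  if cd L v.2 = d then ψ ((cs L d v.1 v.2 : ZMod (cg L d))) else 0

lemma cd_neg (L : ℕ) (v : ℤ) : cd L (-v) = cd L v := by
  unfold cd
  rw [Int.neg_gcd]

lemma eLine_neg (ψ : DirichletCharacter ℂ (cg L d)) (v : ℤ × ℤ) :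
    eLine L d ψ (-v.1, -v.2) = eLine L d ψ v := by
  unfold eLine
  rw [cd_neg]
  by_cases h : cd L v.2 = d
  · rw [if_pos h, if_pos h]
    congr 1
    unfold cs
    have hd : (d : ℤ) ∣ v.2 := by
      rw [← h]
      exact cd_dvd_left L v.2
    rw [Int.neg_ediv_of_dvd hd, neg_mul_neg]
  · rw [if_neg h, if_neg h]

lemma eLine_vm (hL : 0 < L) (ψ : DirichletCharacter ℂ (cg L d)) {g : SL(2, ℤ)} (hg : g ∈ Gamma0 L)
    (v : ℤ × ℤ) : eLine L d ψ (vm g.1 v) = eLine L d ψ v := by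
  have hdet : g.1 0 0 * g.1 1 1 - g.1 0 1 * g.1 1 0 = 1 := by
    have h := g.2
    rw [Matrix.det_fin_two] at h
    exact h
  have hc : (L : ℤ) ∣ g.1 1 0 := (ZMod.intCast_zmod_eq_zero_iff_dvd _ _).1 (Gamma0_mem.1 hg)
  unfold eLine
  have e1 : cd L (vm g.1 v).2 = cd L v.2 := cd_smul hdet hc
  rw [e1]
  by_cases h : cd L v.2 = d
  · rw [if_pos h, if_pos h]
    congr 1
    have := cs_smul hL (u := v.1) (v := v.2) hdet hc
    rw [h] at this
    exact this
  · rw [if_neg h, if_neg h]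

/-- its homogeneous extension of degree `e` -/
def FE (e : ℤ) (L d : ℕ) (ψ : DirichletCharacter ℂ (cg L d)) (v : ℤ × ℤ) : ℂ :=
  if v = (0, 0) then 0 else (((Int.gcd v.1 v.2 : ℕ) : ℤ) : ℂ) ^ e *
    eLine L d ψ (v.1 / (Int.gcd v.1 v.2 : ℕ), v.2 / (Int.gcd v.1 v.2 : ℕ))

lemma FE_eq {e : ℤ} (he : Even e) (ψ : DirichletCharacter ℂ (cg L d)) {l : ℤ} (hl : l ≠ 0)
    (g : SL(2, ℤ)) :
    FE e L d ψ (l * (col g).1, l * (col g).2) = (l : ℂ) ^ e * eLine L d ψ (col g) := by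
  have hne : ((l * (col g).1, l * (col g).2) : ℤ × ℤ) ≠ (0, 0) := smul_vec_ne hl (col_ne g)
  have hgcd : Int.gcd (l * (col g).1) (l * (col g).2) = l.natAbs := gcd_col l g
  rw [FE, if_neg hne]
  simp only
  rw [hgcd, cast_gcd_zpow he]
  congr 1
  rcases Int.natAbs_eq l with h | h
  · rw [← h, Int.mul_ediv_cancel_left _ hl, Int.mul_ediv_cancel_left _ hl]
  · have h' : ((l.natAbs : ℕ) : ℤ) = -l := by omega
    rw [h', ← eLine_neg ψ (col g)]
    have hl' : -l ≠ 0 := neg_ne_zero.2 hl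
    rw [show l * (col g).1 = (-l) * (-(col g).1) by ring,
      show l * (col g).2 = (-l) * (-(col g).2) by ring, Int.mul_ediv_cancel_left _ hl',
      Int.mul_ediv_cancel_left _ hl']

lemma FE_zero (e : ℤ) (ψ : DirichletCharacter ℂ (cg L d)) : FE e L d ψ (0, 0) = 0 := by
  simp [FE]

lemma FE_mem {e : ℤ} (he : Even e) (hL : 0 < L) (ψ : DirichletCharacter ℂ (cg L d)) :
    FE e L d ψ ∈ HF e L := by
  refine ⟨FE_zero e ψ, fun l hl v => ?_, fun g hg v => ?_⟩
  · by_cases hv : v = (0, 0)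
    · subst hv
      simp [FE_zero]
    · obtain ⟨g, hg⟩ := exists_col hv
      set m : ℤ := ((Int.gcd v.1 v.2 : ℕ) : ℤ) with hm
      have hm0 : m ≠ 0 := gcd_ne hv
      rw [hg]
      have e1 : ((l * (m * (col g).1), l * (m * (col g).2)) : ℤ × ℤ) =
          ((l * m) * (col g).1, (l * m) * (col g).2) := by
        rw [mul_assoc, mul_assoc]
      simp only
      rw [e1, FE_eq he ψ (mul_ne_zero hl hm0) g, FE_eq he ψ hm0 g, Int.cast_mul, mul_zpow, mul_assoc]
  · by_cases hv : v = (0, 0)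
    · subst hv
      simp [vm, FE_zero]
    · obtain ⟨h, hh⟩ := exists_col hv
      set m : ℤ := ((Int.gcd v.1 v.2 : ℕ) : ℤ) with hm
      have hm0 : m ≠ 0 := gcd_ne hv
      rw [hh, vm_scal, vm_col, FE_eq he ψ hm0, FE_eq he ψ hm0, ← vm_col, eLine_vm hL ψ hg]

lemma exists_col_of_coprime {u v : ℤ} (h : IsCoprime u v) : ∃ g : SL(2, ℤ), col g = (u, v) := by
  obtain ⟨g, h0, h1⟩ := h.exists_SL2_col 0
  exact ⟨g, Prod.ext h0 h1⟩

lemma FE_coprime {e : ℤ} (he : Even e) (ψ : DirichletCharacter ℂ (cg L d)) {u v : ℤ}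
    (h : IsCoprime u v) :
    FE e L d ψ (u, v) = if cd L v = d then ψ (cs L d u v) else 0 := by
  obtain ⟨g, hg⟩ := exists_col_of_coprime h
  have := FE_eq he ψ one_ne_zero g
  rw [hg] at this
  simp only [one_mul, Int.cast_one, one_zpow] at this
  exact this

/-! ### the vectors of the cusps `4 ∣ c` -/

lemma odd_of_coprime {u v : ℤ} (h : IsCoprime u v) (hv : (4 : ℤ) ∣ v) : Odd u := by
  rw [← Int.not_even_iff_odd]
  intro hu
  obtain ⟨a, b, hab⟩ := h
  have h1 : (2 : ℤ) ∣ 1 := by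
    rw [← hab]
    exact dvd_add (hu.two_dvd.mul_left a) (((by norm_num : (2 : ℤ) ∣ 4).trans hv).mul_left b)
  exact absurd h1 (by norm_num)

lemma inC_coprime {u v : ℤ} (h : IsCoprime u v) : inC (u, v) ↔ (4 : ℤ) ∣ v := by
  constructor
  · rintro ⟨l, a, c, hl, ha, hc, huv⟩
    have h1 : u = l * a := congrArg Prod.fst huv
    have h2 : v = l * c := congrArg Prod.snd huv
    rw [h2]
    exact hc.mul_left l
  · intro hv
    exact ⟨1, u, v, one_ne_zero, odd_of_coprime h hv, hv, by simp⟩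

lemma inC_smul {l : ℤ} (hl : l ≠ 0) {u v : ℤ} (h : IsCoprime u v) :
    inC (l * u, l * v) ↔ (4 : ℤ) ∣ v := by
  constructor
  · rintro ⟨m, a, c, hm, ha, hc, huv⟩
    have h1 : l * u = m * a := congrArg Prod.fst huv
    have h2 : l * v = m * c := congrArg Prod.snd huv
    have h3 : u * c = a * v := by
      have h4 : (l * m) * (u * c) = (l * m) * (a * v) := by
        calc (l * m) * (u * c) = (l * u) * (m * c) := by ring
          _ = (m * a) * (l * v) := by rw [h1, h2]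
          _ = (l * m) * (a * v) := by ring
      exact mul_left_cancel₀ (mul_ne_zero hl hm) h4
    have h5 : (4 : ℤ) ∣ a * v := by
      rw [← h3]
      exact hc.mul_left u
    have h6 : IsCoprime (4 : ℤ) a := by
      have : IsCoprime (2 : ℤ) a := by
        rw [Int.isCoprime_iff_gcd_eq_one]
        exact Int.isCoprime_iff_gcd_eq_one.1 ((Int.isCoprime_two_left).2 ha)
      have h7 := this.pow_left (m := 2)
      norm_num at h7
      exact h7
    exact h6.dvd_of_dvd_mul_left h5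
  · intro hv
    exact ⟨l, u, v, hl, odd_of_coprime h hv, hv, rfl⟩

lemma four_dvd_cd (h4 : 4 ∣ L) {v : ℤ} : 4 ∣ cd L v ↔ (4 : ℤ) ∣ v := by
  constructor
  · intro h
    exact (Int.natCast_dvd_natCast.2 h).trans (cd_dvd_left L v)
  · intro h
    have : (4 : ℤ) ∣ (cd L v : ℤ) := Int.dvd_coe_gcd h (by exact_mod_cast h4)
    exact_mod_cast this

/-! ### the two halves of the cusps -/

/-- the divisors of `L` divisible by `4` -/
def Sin (L : ℕ) : Finset ℕ := L.divisors.filter (4 ∣ ·)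

/-- the divisors of `L` not divisible by `4` -/
def Sout (L : ℕ) : Finset ℕ := L.divisors.filter (¬ 4 ∣ ·)

lemma cd_mem_Sin (hL : 0 < L) (h4 : 4 ∣ L) {v : ℤ} : cd L v ∈ Sin L ↔ (4 : ℤ) ∣ v := by
  rw [Sin, Finset.mem_filter, four_dvd_cd h4, Nat.mem_divisors]
  exact ⟨fun h => h.2, fun h => ⟨⟨cd_dvd_right L v, hL.ne'⟩, h⟩⟩

lemma cd_mem_Sout (hL : 0 < L) (h4 : 4 ∣ L) {v : ℤ} : cd L v ∈ Sout L ↔ ¬ (4 : ℤ) ∣ v := by
  rw [Sout, Finset.mem_filter, four_dvd_cd h4, Nat.mem_divisors]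
  exact ⟨fun h => h.2, fun h => ⟨⟨cd_dvd_right L v, hL.ne'⟩, h⟩⟩

lemma FE_mem_HOut {e : ℤ} (he : Even e) (hL : 0 < L) (h4 : 4 ∣ L) (hd : d ∈ Sout L)
    (ψ : DirichletCharacter ℂ (cg L d)) : FE e L d ψ ∈ HOut e L := by
  refine ⟨FE_mem he hL ψ, fun v hv => ?_⟩
  obtain ⟨g, hg⟩ := exists_col (inC_ne hv)
  have hm0 := gcd_ne (inC_ne hv)
  rw [hg] at hv
  have h1 : (4 : ℤ) ∣ (col g).2 := (inC_smul hm0 (isCoprime_col g)).1 hv
  rw [hg, FE_eq he ψ hm0, eLine, if_neg, mul_zero]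
  intro h2
  rw [← h2, cd_mem_Sout hL h4] at hd
  exact hd h1

open Classical in
/-- restriction to the vectors of the cusps `4 ∣ c` -/
def trc (e : ℤ) (L : ℕ) : HF e L →ₗ[ℂ] (ℤ × ℤ → ℂ) where
  toFun F v := if inC v then F.1 v else 0
  map_add' F G := by
    funext v
    simp only [Pi.add_apply, Submodule.coe_add]
    split_ifs <;> simp
  map_smul' a F := by
    funext v
    simp only [Pi.smul_apply, Submodule.coe_smul, smul_eq_mul, RingHom.id_apply]
    split_ifs <;> simp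

lemma trc_of_inC {e : ℤ} {L : ℕ} (F : HF e L) {v : ℤ × ℤ} (hv : inC v) : trc e L F v = F.1 v :=
  if_pos hv

lemma trc_of_not {e : ℤ} {L : ℕ} (F : HF e L) {v : ℤ × ℤ} (hv : ¬ inC v) : trc e L F v = 0 :=
  if_neg hv

lemma trc_eq_zero {e : ℤ} {L : ℕ} (F : HF e L) : trc e L F = 0 ↔ F.1 ∈ HOut e L := by
  constructor
  · intro h
    exact ⟨F.2, fun v hv => by rw [← trc_of_inC F hv, h]; rfl⟩
  · intro h
    funext v
    by_cases hv : inC v
    · rw [trc_of_inC F hv]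
      exact h.2 v hv
    · exact trc_of_not F hv

lemma inC_vm (h4 : 4 ∣ L) {g : SL(2, ℤ)} (hg : g ∈ Gamma0 L) {u v : ℤ} (h : IsCoprime u v) :
    inC (vm g.1 (u, v)) ↔ inC (u, v) := by
  obtain ⟨k, hk⟩ := exists_col_of_coprime h
  rw [← hk, vm_col]
  have hc : (L : ℤ) ∣ g.1 1 0 := (ZMod.intCast_zmod_eq_zero_iff_dvd _ _).1 (Gamma0_mem.1 hg)
  have h4' : (4 : ℤ) ∣ g.1 1 0 := (Int.natCast_dvd_natCast.2 h4).trans hc
  have e1 : inC (col (g * k)) ↔ (4 : ℤ) ∣ (col (g * k)).2 := inC_coprime (isCoprime_col (g * k))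
  have e2 : inC (col k) ↔ (4 : ℤ) ∣ (col k).2 := inC_coprime (isCoprime_col k)
  have hdet : g.1 0 0 * g.1 1 1 - g.1 0 1 * g.1 1 0 = 1 := by
    have h := g.2
    rw [Matrix.det_fin_two] at h
    exact h
  rw [e1, e2, ← vm_col]
  change (4 : ℤ) ∣ g.1 1 0 * (col k).1 + g.1 1 1 * (col k).2 ↔ _
  rw [dvd_add_right (h4'.mul_right _)]
  constructor
  · intro h5
    have h6 : (col k).2 = g.1 0 0 * (g.1 1 1 * (col k).2) - g.1 0 1 * (col k).2 * g.1 1 0 := by
      linear_combination (-(col k).2) * hdet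
    rw [h6]
    exact dvd_sub (h5.mul_left _) (h4'.mul_left _)
  · intro h5
    exact h5.mul_left _

lemma mk_mem_Gamma0 {a b c e : ℤ} (h : a * e - b * c = 1) (hc : (L : ℤ) ∣ c) :
    ∃ g ∈ Gamma0 L, (g : SL(2, ℤ)).1 = !![a, b; c, e] := by
  let g : SL(2, ℤ) := ⟨!![a, b; c, e], by rw [Matrix.det_fin_two_of]; exact h⟩
  refine ⟨g, ?_, rfl⟩
  rw [Gamma0_mem]
  exact (ZMod.intCast_zmod_eq_zero_iff_dvd _ _).2 hc

lemma hop_val (L q : ℕ) (F : ℤ × ℤ → ℂ) (u v : ℤ) :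
    hop L q F (u, v) = ∑ b ∈ Finset.range q, F (u + b * v, q * v) +
      if q ∣ L then 0 else F (q * u, v) := by
  rw [hop_apply]
  have h1 : ∀ b : ℕ, vm !![1, (b : ℤ); 0, (q : ℤ)] (u, v) = (u + b * v, q * v) := by
    intro b
    simp [vm]
  have h2 : vm !![(q : ℤ), 0; 0, 1] (u, v) = (q * u, v) := by simp [vm]
  simp only [h1, h2]

section Systems

variable {V : Type*} [AddCommGroup V] [Module ℂ V]

/-- **The systems of the boundary symbols.** -/
theorem Sys_in {n : ℕ} (hn : Even n) (hL : 0 < L) (h4 : 4 ∣ L)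
    (ρ : MvPolynomial Nat.Primes ℤ →+* Module.End ℂ V) (β : HF (-(n : ℤ)) L →ₗ[ℂ] V)
    (hsurj : Function.Surjective β) (hker : ∀ F, β F = 0 ↔ F.1 ∈ HOut (-(n : ℤ)) L)
    (hρ : ∀ (q : Nat.Primes) (F : HF (-(n : ℤ)) L),
      ρ (MvPolynomial.X q) (β F) = ((q : ℕ) : ℂ) ^ n • β (hopF (-(n : ℤ)) L q.2 F)) :
    ∃ _ : FiniteDimensional ℂ V, Sys ρ = ∑ d ∈ Sin L, ∑ ψ : DirichletCharacter ℂ (cg L d),
      {line (fun q : Nat.Primes => (q : ℕ)) (fun _ => 1) (fun q => (q : ℂ) ^ n) L d ψ} := by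
  have he : Even (-(n : ℤ)) := by
    have : Even (n : ℤ) := by exact_mod_cast hn
    exact this.neg
  obtain ⟨s, hs⟩ := β.exists_rightInverse_of_surjective (LinearMap.range_eq_top.2 hsurj)
  have hev : ∀ F, (trc (-(n : ℤ)) L ∘ₗ s) (β F) = trc (-(n : ℤ)) L F := by
    intro F
    have h1 : β (s (β F) - F) = 0 := by
      rw [map_sub, sub_eq_zero]
      exact LinearMap.congr_fun hs (β F)
    have h2 := (trc_eq_zero _).2 ((hker _).1 h1)
    rw [map_sub, sub_eq_zero] at h2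
    exact h2
  refine Sys_cusps (fun q : Nat.Primes => (q : ℕ)) (fun q => q.2) hL (Sin L) ?_ ρ
    (trc (-(n : ℤ)) L ∘ₗ s) (fun _ => 1) (fun q => (q : ℂ) ^ n) ?_ ?_ ?_ ?_ ?_ ?_
  · intro d hd
    exact Nat.dvd_of_mem_divisors (Finset.mem_filter.1 hd).1
  · intro x hx
    obtain ⟨F, rfl⟩ := hsurj x
    rw [hker]
    refine ⟨F.2, fun v hv => ?_⟩
    obtain ⟨g, hg⟩ := exists_col (inC_ne hv)
    have hm0 := gcd_ne (inC_ne hv)
    rw [hg] at hv
    have h1 : (4 : ℤ) ∣ (col g).2 := (inC_smul hm0 (isCoprime_col g)).1 hv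
    rw [hg, F.2.2.1 _ hm0]
    have h2 := hx (col g).1 (col g).2 (isCoprime_col g) ((cd_mem_Sin hL h4).2 h1)
    rw [hev] at h2
    have h3 : trc (-(n : ℤ)) L F (col g) = 0 := h2
    have h5 : inC (col g) := (inC_coprime (isCoprime_col g)).2 h1
    rw [trc_of_inC _ h5] at h3
    rw [h3, mul_zero]
  · intro d hd ψ
    refine ⟨β ⟨FE (-(n : ℤ)) L d ψ, FE_mem he hL ψ⟩, fun u v huv => ?_⟩
    rw [hev]
    by_cases h : (4 : ℤ) ∣ v
    · rw [trc_of_inC _ ((inC_coprime huv).2 h)]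
      exact FE_coprime he ψ huv
    · rw [trc_of_not _ (fun h' => h ((inC_coprime huv).1 h')), if_neg]
      intro h2
      rw [← h2, cd_mem_Sin hL h4] at hd
      exact h hd
  · intro x a b c e u v h1 h2 huv
    obtain ⟨F, rfl⟩ := hsurj x
    obtain ⟨g, hg, hg'⟩ := mk_mem_Gamma0 (L := L) h1 h2
    have e1 : ((a * u + b * v, c * u + e * v) : ℤ × ℤ) = vm g.1 (u, v) := by
      rw [hg']
      simp [vm]
    rw [hev, e1]
    by_cases h : inC (u, v)
    · rw [trc_of_inC _ h, trc_of_inC _ ((inC_vm h4 hg huv).2 h)]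
      exact F.2.2.2 g hg _
    · rw [trc_of_not _ h, trc_of_not _ (fun h' => h ((inC_vm h4 hg huv).1 h'))]
  · intro x q u v huv
    obtain ⟨F, rfl⟩ := hsurj x
    have hq0 : ((q : ℕ) : ℤ) ≠ 0 := by exact_mod_cast q.2.ne_zero
    have hq0' : ((q : ℕ) : ℂ) ≠ 0 := by exact_mod_cast q.2.ne_zero
    rw [hev, one_mul]
    by_cases h : inC (u, v)
    · have h' : inC (((q : ℕ) : ℤ) * u, ((q : ℕ) : ℤ) * v) :=
        (inC_smul hq0 huv).2 ((inC_coprime huv).1 h)
      rw [trc_of_inC _ h, trc_of_inC _ h']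
      have := F.2.2.1 _ hq0 (u, v)
      simp only at this
      rw [this, Int.cast_natCast, zpow_neg, zpow_natCast, mul_inv_cancel_left₀ (pow_ne_zero _ hq0')]
    · have h' : ¬ inC (((q : ℕ) : ℤ) * u, ((q : ℕ) : ℤ) * v) := fun h' =>
        h ((inC_coprime huv).2 ((inC_smul hq0 huv).1 h'))
      rw [trc_of_not _ h, trc_of_not _ h', mul_zero]
  · intro x u v huv h
    obtain ⟨F, rfl⟩ := hsurj x
    rw [hev, trc_of_not]
    intro h'
    exact h ((cd_mem_Sin hL h4).2 ((inC_coprime huv).1 h'))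
  · intro x q u v huv h
    obtain ⟨F, rfl⟩ := hsurj x
    have h1 : (4 : ℤ) ∣ v := (cd_mem_Sin hL h4).1 h
    have h2 : inC (u, v) := (inC_coprime huv).2 h1
    have hodd := odd_of_coprime huv h1
    rw [hρ, map_smul, Pi.smul_apply, smul_eq_mul, hev, trc_of_inC _ h2, hopF_coe, hop_val, hev]
    congr 1
    congr 1
    · refine Finset.sum_congr rfl fun b _ => ?_
      rw [trc_of_inC]
      refine ⟨1, u + b * v, (q : ℕ) * v, one_ne_zero, ?_, h1.mul_left _, by simp⟩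
      have : Even ((b : ℤ) * v) := by
        have h3 : Even v := by
          obtain ⟨t, rfl⟩ := h1
          exact ⟨2 * t, by ring⟩
        exact h3.mul_left _
      exact hodd.add_even this
    · split_ifs with hqL
      · rfl
      · rw [trc_of_inC]
        have hq : Odd (((q : ℕ) : ℤ)) := by exact_mod_cast odd_of_level q.2 h4 hqL
        exact ⟨1, (q : ℕ) * u, v, one_ne_zero, hq.mul hodd, h1, by simp⟩

/-- **The systems of the residues.** -/
theorem Sys_out {n : ℕ} (hn : Even n) (hL : 0 < L) (h4 : 4 ∣ L)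
    (ρ : MvPolynomial Nat.Primes ℤ →+* Module.End ℂ V) (γ : V →ₗ[ℂ] (ℤ × ℤ → ℂ))
    (hinj : Function.Injective γ) (hrange : LinearMap.range γ = HOut ((n : ℤ) + 2) L)
    (hρ : ∀ (q : Nat.Primes) (x : V),
      γ (ρ (MvPolynomial.X q) x) = ((q : ℕ) : ℂ)⁻¹ • hop L q (γ x)) :
    ∃ _ : FiniteDimensional ℂ V, Sys ρ = ∑ d ∈ Sout L, ∑ ψ : DirichletCharacter ℂ (cg L d),
      {line (fun q : Nat.Primes => (q : ℕ)) (fun q => (q : ℂ) ^ (n + 1)) (fun q => (q : ℂ)⁻¹)
        L d ψ} := by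
  have he : Even ((n : ℤ) + 2) := by
    have : Even (n : ℤ) := by exact_mod_cast hn
    exact this.add even_two
  have hmem : ∀ x, γ x ∈ HOut ((n : ℤ) + 2) L := by
    intro x
    rw [← hrange]
    exact LinearMap.mem_range_self γ x
  refine Sys_cusps (fun q : Nat.Primes => (q : ℕ)) (fun q => q.2) hL (Sout L) ?_ ρ
    γ (fun q => (q : ℂ) ^ (n + 1)) (fun q => (q : ℂ)⁻¹) ?_ ?_ ?_ ?_ ?_ ?_
  · intro d hd
    exact Nat.dvd_of_mem_divisors (Finset.mem_filter.1 hd).1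
  · intro x hx
    apply hinj
    rw [map_zero]
    funext v
    by_cases hv : v = (0, 0)
    · rw [hv]
      exact (hmem x).1.1
    · obtain ⟨g, hg⟩ := exists_col hv
      have hm0 := gcd_ne hv
      rw [hg, (hmem x).1.2.1 _ hm0]
      by_cases h1 : (4 : ℤ) ∣ (col g).2
      · have h2 : inC (col g) := (inC_coprime (isCoprime_col g)).2 h1
        rw [(hmem x).2 _ h2, mul_zero]
        rfl
      · have h2 := hx (col g).1 (col g).2 (isCoprime_col g) ((cd_mem_Sout hL h4).2 h1)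
        have h3 : γ x (col g) = 0 := h2
        rw [h3, mul_zero]
        rfl
  · intro d hd ψ
    have h1 : FE ((n : ℤ) + 2) L d ψ ∈ LinearMap.range γ := by
      rw [hrange]
      exact FE_mem_HOut he hL h4 hd ψ
    obtain ⟨x, hx⟩ := h1
    refine ⟨x, fun u v huv => ?_⟩
    rw [hx]
    exact FE_coprime he ψ huv
  · intro x a b c e u v h1 h2 huv
    obtain ⟨g, hg, hg'⟩ := mk_mem_Gamma0 (L := L) h1 h2
    have e1 : ((a * u + b * v, c * u + e * v) : ℤ × ℤ) = vm g.1 (u, v) := by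
      rw [hg']
      simp [vm]
    rw [e1]
    exact (hmem x).1.2.2 g hg _
  · intro x q u v huv
    have hq0 : ((q : ℕ) : ℤ) ≠ 0 := by exact_mod_cast q.2.ne_zero
    have hq0' : ((q : ℕ) : ℂ) ≠ 0 := by exact_mod_cast q.2.ne_zero
    have := (hmem x).1.2.1 _ hq0 (u, v)
    simp only at this
    rw [this, Int.cast_natCast, ← mul_assoc]
    congr 1
    rw [show ((n : ℤ) + 2) = ((n + 2 : ℕ) : ℤ) by push_cast; ring, zpow_natCast]
    field_simp
    ring
  · intro x u v huv h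
    have h1 : (4 : ℤ) ∣ v := by
      by_contra h'
      exact h ((cd_mem_Sout hL h4).2 h')
    exact (hmem x).2 _ ((inC_coprime huv).2 h1)
  · intro x q u v huv h
    rw [hρ, Pi.smul_apply, smul_eq_mul, hop_val]

end Systems

end Gouvea.Cnt
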