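import Pool.Agent.Work.MP_d3517d_nt.Cnt.Hev
import Pool.Agent.Work.MP_d3517d_nt.Cnt.Form
import Pool.Agent.Work.MP_d3517d_nt.Cnt.Res

/-!
# Extension of partial symbols to all cusps (MP_d3517d_nt)

A partial symbol whose residues vanish is the restriction of a full symbol.
-/

open Polynomial CongruenceSubgroup
open scoped MatrixGroups

noncomputable section

namespace Gouvea.Cnt

open Gouvea.ES Gouvea.Theta

/-! ### Abstract extension over orbits -/

/-- **extension over orbits** -/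
theorem orbit_ext {H G Y V : Type*} [Group H] [MulAction H Y] [Group G] (j : G →* H)
    [AddCommGroup V] (A : G → V →+ V) (A_mul : ∀ g h v, A (g * h) v = A h (A g v))
    (A_one : ∀ v, A 1 v = v) (κ : G → V) (hκ : ∀ g h, κ (g * h) = A h (κ g) + κ h)
    (hst : ∀ y : Y, ∃ u₀ : V, ∀ s, j s • y = y → A s u₀ = u₀ + κ s) :
    ∃ u : Y → V, ∀ g y, A g (u (j g • y)) = u y + κ g := by
  classical
  let S : Setoid Y :=
    { r := fun x y => ∃ g : G, j g • x = y
      iseqv := by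
        refine ⟨fun x => ⟨1, by simp⟩, ?_, ?_⟩
        · rintro x y ⟨g, rfl⟩
          exact ⟨g⁻¹, by rw [map_inv, inv_smul_smul]⟩
        · rintro x y z ⟨g, rfl⟩ ⟨h, rfl⟩
          exact ⟨h * g, by rw [map_mul, mul_smul]⟩ }
  let r : Y → Y := fun y => (Quotient.mk S y).out
  have hr : ∀ y, ∃ g : G, j g • r y = y := fun y => Quotient.mk_out (s := S) y
  have hrg : ∀ (g : G) y, r (j g • y) = r y := by
    intro g y
    have h : Quotient.mk S (j g • y) = Quotient.mk S y :=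
      (Quotient.sound (s := S) ⟨g, rfl⟩).symm
    change (Quotient.mk S (j g • y)).out = (Quotient.mk S y).out
    rw [h]
  choose t ht using hr
  choose u₀ hu₀ using hst
  refine ⟨fun y => A (t y)⁻¹ (u₀ (r y) + κ (t y)), fun g y => ?_⟩
  have hinj : ∀ (g : G) (a b : V), A g a = A g b → a = b := by
    intro g a b h
    have h1 := congrArg (A g⁻¹) h
    rwa [← A_mul, ← A_mul, mul_inv_cancel, A_one, A_one] at h1
  refine hinj (t y) _ _ ?_
  change A (t y) (A g (A (t (j g • y))⁻¹ (u₀ (r (j g • y)) + κ (t (j g • y))))) =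
    A (t y) (A (t y)⁻¹ (u₀ (r y) + κ (t y)) + κ g)
  set s : G := (t (j g • y))⁻¹ * g * t y with hs
  have e1 : ∀ v, A (t y) (A g (A (t (j g • y))⁻¹ v)) = A s v := fun v => by
    rw [← A_mul, ← A_mul, hs, mul_assoc]
  have e2 : ∀ w, A (t y) (A (t y)⁻¹ w + κ g) = w + A (t y) (κ g) := fun w => by
    rw [map_add, ← A_mul, inv_mul_cancel, A_one]
  have hsy : j s • r y = r y := by
    rw [hs, map_mul, map_mul, mul_smul, mul_smul, ht y, map_inv]
    have h1 := ht (j g • y)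
    rw [hrg] at h1
    rw [inv_smul_eq_iff]
    exact h1.symm
  have h1 : t (j g • y) * s = g * t y := by rw [hs, ← mul_assoc, mul_inv_cancel_left]
  have h2 := hκ (t (j g • y)) s
  rw [h1, hκ] at h2
  rw [e1, e2, hrg g y, map_add, hu₀ (r y) s hsy, add_assoc, add_assoc]
  congr 1
  rw [add_comm (κ s), ← h2, add_comm]

/-! ### The action of `SL₂(ℤ)` on coefficient vectors -/

/-- the action of `SL₂(ℤ)` on coefficient vectors -/
def AV (n : ℕ) (g : SL(2, ℤ)) : (Fin (n + 1) → ℂ) →+ (Fin (n + 1) → ℂ) :=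
  (Matrix.mulVecLin (PS.slk n (g.1.map (Int.cast : ℤ → ℂ)))).toAddMonoidHom

lemma AV_apply (n : ℕ) (g : SL(2, ℤ)) (v : Fin (n + 1) → ℂ) :
    AV n g v = (PS.slk n (g.1.map (Int.cast : ℤ → ℂ))).mulVec v := rfl

lemma AV_mul (n : ℕ) (g h : SL(2, ℤ)) (v : Fin (n + 1) → ℂ) :
    AV n (g * h) v = AV n h (AV n g v) := by
  rw [AV_apply, AV_apply, AV_apply, Matrix.mulVec_mulVec, Matrix.SpecialLinearGroup.coe_mul,
    PS.map_cast_mul, PS.slk_mul]

lemma AV_one (n : ℕ) (v : Fin (n + 1) → ℂ) : AV n 1 v = v := by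
  rw [AV_apply, Matrix.SpecialLinearGroup.coe_one, Matrix.map_one _ Int.cast_zero Int.cast_one,
    PS.slk_one, Matrix.one_mulVec]

lemma hev_AV (n : ℕ) (g : SL(2, ℤ)) (v : Fin (n + 1) → ℂ) (w : ℤ × ℤ) :
    hev n (AV n g v) w = hev n v (vm g.1 w) := hev_slk n g.1 v w

lemma pol_AV (n : ℕ) (g : SL(2, ℤ)) (v : Fin (n + 1) → ℂ) :
    pol (AV n g v) = slashM n (g.1.map (Int.cast : ℤ → ℂ)) (pol v) := pol_slk n _ v

/-- the matrix `(1 j; 0 1)` -/
def Tj (j : ℤ) : SL(2, ℤ) := ⟨!![1, j; 0, 1], by simp⟩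

/-- `par w j` as an element of `SL₂(ℤ)` -/
def parSL (w : ℤ × ℤ) (j : ℤ) : SL(2, ℤ) := ⟨par w j, det_par w j⟩

lemma parSL_mul (w : ℤ × ℤ) (i j : ℤ) : parSL w i * parSL w j = parSL w (i + j) :=
  Subtype.ext (par_mul w i j)

lemma parSL_zero (w : ℤ × ℤ) : parSL w 0 = 1 := by
  refine Subtype.ext ?_
  ext a b
  fin_cases a <;> fin_cases b <;> simp [parSL, par]

/-- the first column -/
def colv (g : SL(2, ℤ)) : ℤ × ℤ := (g.1 0 0, g.1 1 0)

lemma vm_one_zero (g : SL(2, ℤ)) : vm g.1 (1, 0) = colv g := by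
  simp [vm, colv]

lemma parSL_conj (g : SL(2, ℤ)) (j : ℤ) : parSL (colv g) j * g = g * Tj j := by
  have h := g.2
  rw [Matrix.det_fin_two] at h
  refine Subtype.ext ?_
  change par (colv g) j * g.1 = g.1 * !![1, j; 0, 1]
  ext a b
  fin_cases a <;> fin_cases b <;>
    simp [par, colv, Matrix.mul_apply, Fin.sum_univ_two]
  · ring
  · linear_combination (j * g.1 0 0) * h
  · ring
  · linear_combination (j * g.1 1 0) * h

/-! ### The difference equation -/

lemma slashM_T (n : ℕ) (j : ℤ) {P : ℂ[X]} (hP : P.natDegree ≤ n) :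
    slashM n ((Tj j).1.map (Int.cast : ℤ → ℂ)) P = P.comp (X + C (j : ℂ)) := by
  rw [slashM_apply, Polynomial.comp, Polynomial.eval₂_eq_sum_range' (n := n + 1) _
    (Nat.lt_succ_of_le hP)]
  refine Finset.sum_congr rfl fun i _ => ?_
  simp [Tj]

lemma diff_surj {j : ℂ} (hj : j ≠ 0) (m : ℕ) (Q : ℂ[X]) (hQ : Q.degree < m) :
    ∃ U : ℂ[X], U.natDegree ≤ m ∧ U.comp (X + C j) - U = Q := by
  induction m generalizing Q with
  | zero =>
    have h : Q = 0 := by
      rw [← degree_eq_bot]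
      exact (Nat.WithBot.lt_zero_iff).1 (by simpa using hQ)
    exact ⟨0, by simp, by simp [h]⟩
  | succ m ih =>
    set c : ℂ := Q.coeff m / ((m + 1) * j) with hc
    set U₁ : ℂ[X] := C c * X ^ (m + 1) with hU₁
    have hm : ((m : ℂ) + 1) * j ≠ 0 := mul_ne_zero (by exact_mod_cast Nat.succ_ne_zero m) hj
    have hcoef : ∀ i, (U₁.comp (X + C j) - U₁).coeff i =
        c * (j ^ (m + 1 - i) * ((m + 1).choose i : ℂ)) - c * (if i = m + 1 then 1 else 0) := by
      intro i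
      rw [hU₁, mul_comp, C_comp, pow_comp, X_comp, coeff_sub, coeff_C_mul, coeff_C_mul,
        coeff_X_add_C_pow, coeff_X_pow]
    obtain ⟨U₂, h1, h2⟩ := ih (Q - (U₁.comp (X + C j) - U₁)) (by
      rw [degree_lt_iff_coeff_zero]
      intro i hi
      have hQ' : ∀ i, m + 1 ≤ i → Q.coeff i = 0 := fun i hi =>
        coeff_eq_zero_of_degree_lt (lt_of_lt_of_le hQ (by exact_mod_cast hi))
      rw [coeff_sub, hcoef]
      rcases Nat.lt_or_ge m i with h | h
      · rw [hQ' i h]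
        rcases Nat.lt_or_ge (m + 1) i with h' | h'
        · rw [Nat.choose_eq_zero_of_lt h', if_neg (by omega)]
          simp
        · have : i = m + 1 := by omega
          subst this
          simp
      · have : i = m := le_antisymm h hi
        subst this
        rw [if_neg (by omega), Nat.choose_succ_self_right, hc]
        have e : i + 1 - i = 1 := by omega
        rw [e]
        push_cast
        field_simp
        ring)
    refine ⟨U₁ + U₂, ?_, ?_⟩
    · refine (natDegree_add_le _ _).trans (max_le ?_ (h1.trans (Nat.le_succ m)))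
      exact natDegree_C_mul_X_pow_le _ _
    · rw [add_comp]
      linear_combination h2

/-- **the difference equation in coordinates** -/
theorem exists_AV_sub {n : ℕ} {j : ℤ} (hj : j ≠ 0) (Q : Fin (n + 1) → ℂ)
    (hQ : Q (Fin.last n) = 0) : ∃ U, AV n (Tj j) U = U + Q := by
  have h1 : (pol Q).degree < n := by
    rw [degree_lt_iff_coeff_zero]
    intro i hi
    rcases Nat.lt_or_ge i (n + 1) with h | h
    · have : i = n := by omega
      subst this
      rw [← hQ]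
      exact coeff_pol Q (Fin.last i)
    · exact coeff_eq_zero_of_natDegree_lt (lt_of_le_of_lt (natDegree_pol_le Q) h)
  obtain ⟨U, h2, h3⟩ := diff_surj (by exact_mod_cast hj : (j : ℂ) ≠ 0) n (pol Q) h1
  refine ⟨fun i => U.coeff i, pol_inj ?_⟩
  rw [pol_AV, pol_add, pol_coeff h2, slashM_T n j h2]
  linear_combination h3

/-! ### The cocycle of a partial symbol -/

section

variable {M n : ℕ}

/-- an element of `Γ₀(M)`, `4 ∣ M`, in `S4` -/
def ofG (hM : 4 ∣ M) (g : Gamma0 M) : PS.S4 := ofSL hM g.2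

lemma isG0_ofG (hM : 4 ∣ M) (g : Gamma0 M) : PS.IsG0 M (ofG hM g) := isG0_ofSL hM g.2

lemma gQ_ofG (hM : 4 ∣ M) (g : Gamma0 M) : gQ (ofG hM g) = sQ g.1 := by
  ext i j
  rw [gQ_apply]
  rfl

lemma ofG_mul (hM : 4 ∣ M) (g h : Gamma0 M) : ofG hM (g * h) = ofG hM g * ofG hM h :=
  Subtype.ext rfl

/-- `ψ` is invariant -/
lemma AV_psi (hM : 4 ∣ M) (ψ : PS.Sym ℂ M n) (g : Gamma0 M) (x y : PS.Cusp) :
    AV n g.1 (ψ.1 (ofG hM g • x) (ofG hM g • y)) = ψ.1 x y :=
  congrFun (congrFun (ψ.2.2 _ (isG0_ofG hM g)) x) y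

/-- the cocycle of a partial symbol -/
def kapS (hM : 4 ∣ M) (ψ : PS.Sym ℂ M n) (g : Gamma0 M) : Fin (n + 1) → ℂ :=
  AV n g.1 (ψ.1 PS.inf (ofG hM g • PS.inf))

lemma AV_inf (hM : 4 ∣ M) (ψ : PS.Sym ℂ M n) (g : Gamma0 M) (x : PS.Cusp) :
    AV n g.1 (ψ.1 PS.inf (ofG hM g • x)) = ψ.1 PS.inf x + kapS hM ψ g := by
  have h := ψ.2.1 PS.inf (ofG hM g • PS.inf) (ofG hM g • x)
  rw [← h, map_add, AV_psi]
  exact add_comm _ _

lemma kapS_mul (hM : 4 ∣ M) (ψ : PS.Sym ℂ M n) (g h : Gamma0 M) :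
    kapS hM ψ (g * h) = AV n h.1 (kapS hM ψ g) + kapS hM ψ h := by
  rw [kapS, ofG_mul, mul_smul, Subgroup.coe_mul, AV_mul, AV_inf, map_add]
  exact add_comm _ _

/-- `par w M` as an element of `Γ₀(M)` -/
def parG (M : ℕ) (w : ℤ × ℤ) (j : ℤ) : Gamma0 M := ⟨parSL w (M * j), by
  rw [Gamma0_mem, ZMod.intCast_zmod_eq_zero_iff_dvd]
  change (M : ℤ) ∣ -(M * j * w.2 ^ 2)
  rw [mul_assoc, dvd_neg]
  exact dvd_mul_right _ _⟩

lemma ofG_parG (hM : 4 ∣ M) (w : ℤ × ℤ) :
    ofG hM (parG M w 1) = parS w ((M / 4 : ℕ) : ℤ) := by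
  refine Subtype.ext ?_
  change par w (M * 1) = par w (4 * ((M / 4 : ℕ) : ℤ))
  congr 1
  obtain ⟨m, rfl⟩ := hM
  rw [Nat.mul_div_cancel_left m (by norm_num)]
  push_cast
  ring

lemma parG_mul (w : ℤ × ℤ) (i j : ℤ) : parG M w i * parG M w j = parG M w (i + j) := by
  refine Subtype.ext ?_
  change parSL w (M * i) * parSL w (M * j) = parSL w (M * (i + j))
  rw [parSL_mul, mul_add]

lemma hev_kapS (hM : 4 ∣ M) [NeZero M] (ψ : PS.Sym ℂ M n) (w : ℤ × ℤ) :
    hev n (kapS hM ψ (parG M w 1)) w = M * res M n ψ.1 w := by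
  rw [kapS, hev_AV, ofG_parG, res, ← mul_assoc,
    mul_inv_cancel₀ (by exact_mod_cast NeZero.ne M), one_mul]
  congr 1
  exact Res.vm_par_self w _

/-- a matrix which fixes the vector `(a, c) = g ∞` -/
lemma eq_parSL (g₀ : SL(2, ℤ)) (g : SL(2, ℤ)) (h : g₀⁻¹ * g * g₀ = Tj ((g₀⁻¹ * g * g₀).1 0 1)) :
    g = parSL (colv g₀) ((g₀⁻¹ * g * g₀).1 0 1) := by
  have h1 := parSL_conj g₀ ((g₀⁻¹ * g * g₀).1 0 1)
  rw [← h] at h1
  have h2 : parSL (colv g₀) ((g₀⁻¹ * g * g₀).1 0 1) * g₀ = g * g₀ := by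
    rw [h1, ← mul_assoc, ← mul_assoc, mul_inv_cancel, one_mul]
  exact (mul_right_cancel h2).symm

/-- the stabiliser of a cusp -/
lemma stab_cusp {g₀ s : SL(2, ℤ)} (hs : sQ s • (sQ g₀ • (OnePoint.infty : OnePoint ℚ)) =
      sQ g₀ • OnePoint.infty) :
    ∃ e b : ℤ, e ^ 2 = 1 ∧ vm s.1 (colv g₀) = (e * (colv g₀).1, e * (colv g₀).2) ∧
      s * s = parSL (colv g₀) b := by
  set t := g₀⁻¹ * s * g₀ with ht
  have h1 : sQ t • (OnePoint.infty : OnePoint ℚ) = OnePoint.infty := by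
    rw [ht, sQ, map_mul, map_mul, mul_smul, mul_smul, hs, map_inv, inv_smul_smul]
  have h2 : (sQ t) 1 0 = 0 := OnePoint.smul_infty_eq_self_iff.1 h1
  have h3 : t.1 1 0 = 0 := by
    have h4 : ((t.1 1 0 : ℤ) : ℚ) = 0 := h2
    exact_mod_cast h4
  have hdet := t.2
  rw [Matrix.det_fin_two, h3, mul_zero, sub_zero] at hdet
  have hst : s * g₀ = g₀ * t := by rw [ht]; group
  have hd : t.1 1 1 = t.1 0 0 := by
    rcases Int.isUnit_iff.1 (IsUnit.of_mul_eq_one _ hdet) with h | h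
    · rw [h] at hdet ⊢
      linarith
    · rw [h] at hdet ⊢
      linarith
  refine ⟨t.1 0 0, 2 * t.1 0 0 * t.1 0 1, ?_, ?_, ?_⟩
  · rw [sq]
    nth_rw 2 [← hd]
    exact hdet
  · have e1 : vm (s * g₀).1 (1, 0) = vm (g₀ * t).1 (1, 0) := by rw [hst]
    rw [Matrix.SpecialLinearGroup.coe_mul, Matrix.SpecialLinearGroup.coe_mul, vm_mul, vm_mul,
      vm_one_zero, vm_one_zero] at e1
    rw [e1]
    simp only [colv, vm, h3]
    refine Prod.ext ?_ ?_ <;> ring
  · have e2 : s * s * g₀ = g₀ * (t * t) := by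
      rw [mul_assoc, hst, ← mul_assoc, hst, mul_assoc]
    have e3 : t * t = Tj (2 * t.1 0 0 * t.1 0 1) := by
      have hsq : t.1 0 0 * t.1 0 0 = 1 := by
        nth_rw 2 [← hd]
        exact hdet
      refine Subtype.ext ?_
      change t.1 * t.1 = !![1, 2 * t.1 0 0 * t.1 0 1; 0, 1]
      ext a b
      fin_cases a <;> fin_cases b <;> simp [Matrix.mul_apply, Fin.sum_univ_two, h3, hd, hsq]
      ring
    rw [e3, ← parSL_conj] at e2
    exact mul_right_cancel e2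

lemma mul_parSL (g : SL(2, ℤ)) (w : ℤ × ℤ) (j : ℤ) :
    g * parSL w j = parSL (vm g.1 w) j * g := by
  have h := g.2
  rw [Matrix.det_fin_two] at h
  refine Subtype.ext ?_
  change g.1 * par w j = par (vm g.1 w) j * g.1
  ext a b
  fin_cases a <;> fin_cases b <;>
    simp [par, vm, Matrix.mul_apply, Fin.sum_univ_two]
  · linear_combination (j * (g.1 0 0 * w.1 + g.1 0 1 * w.2) * w.2) * h
  · linear_combination (-(j * (g.1 0 0 * w.1 + g.1 0 1 * w.2) * w.1)) * h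
  · linear_combination (j * (g.1 1 0 * w.1 + g.1 1 1 * w.2) * w.2) * h
  · linear_combination (-(j * (g.1 1 0 * w.1 + g.1 1 1 * w.2) * w.1)) * h

lemma parSL_scale (e : ℤ) (he : e ^ 2 = 1) (w : ℤ × ℤ) (j : ℤ) :
    parSL (e * w.1, e * w.2) j = parSL w j := by
  refine Subtype.ext ?_
  change par (e * w.1, e * w.2) j = par w j
  ext a b
  fin_cases a <;> fin_cases b <;> simp only [par, Matrix.of_apply, Matrix.cons_val', Fin.zero_eta,
    Fin.mk_one, Matrix.cons_val_zero, Matrix.cons_val_one, Matrix.cons_val_fin_one]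
  · linear_combination (-(j * w.1 * w.2)) * he
  · linear_combination (j * w.1 ^ 2) * he
  · linear_combination (-(j * w.2 ^ 2)) * he
  · linear_combination (j * w.1 * w.2) * he

lemma parSL_pow (w : ℤ × ℤ) (b : ℤ) (m : ℕ) : parSL w b ^ m = parSL w (m * b) := by
  induction m with
  | zero => rw [pow_zero, Nat.cast_zero, zero_mul, parSL_zero]
  | succ m ih =>
    rw [pow_succ, ih, parSL_mul]
    congr 1
    push_cast
    ring

/-- **The key step**: the cocycle is a coboundary on the stabiliser of a cusp where the residue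
vanishes. -/
theorem exists_stab (hM : 4 ∣ M) [NeZero M] (hn : Even n) (ψ : PS.Sym ℂ M n) (g₀ : SL(2, ℤ))
    (h0 : res M n ψ.1 (colv g₀) = 0) :
    ∃ u₀ : Fin (n + 1) → ℂ, ∀ s : Gamma0 M, sQ s.1 • (sQ g₀ • (OnePoint.infty : OnePoint ℚ)) =
      sQ g₀ • OnePoint.infty → AV n s.1 u₀ = u₀ + kapS hM ψ s := by
  set w := colv g₀ with hw
  set s₀ : Gamma0 M := parG M w 1 with hs₀
  have hMz : (M : ℤ) ≠ 0 := by exact_mod_cast NeZero.ne M
  have hs₀' : s₀.1 = parSL w M := by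
    rw [hs₀]
    change parSL w (M * 1) = _
    rw [mul_one]
  have hconj : s₀.1 * g₀ = g₀ * Tj M := by rw [hs₀', hw, parSL_conj]
  -- the coboundary for `s₀`
  obtain ⟨U, hU⟩ := exists_AV_sub (n := n) hMz (AV n g₀ (kapS hM ψ s₀)) (by
    rw [← hev_one_zero n (AV n g₀ (kapS hM ψ s₀)), hev_AV, vm_one_zero, ← hw, hs₀, hev_kapS, h0,
      mul_zero])
  set u₀ := AV n g₀⁻¹ U with hu₀
  have hs₀u : AV n s₀.1 u₀ = u₀ + kapS hM ψ s₀ := by
    have e : g₀⁻¹ * s₀.1 = Tj M * g₀⁻¹ := by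
      rw [inv_mul_eq_iff_eq_mul, ← mul_assoc, ← hconj, mul_inv_cancel_right]
    rw [hu₀, ← AV_mul, e, AV_mul, hU, map_add, ← AV_mul n g₀ g₀⁻¹, mul_inv_cancel, AV_one]
  refine ⟨u₀, fun s hs => ?_⟩
  -- the cocycle of differences
  let δ : Gamma0 M → Fin (n + 1) → ℂ := fun g => AV n g.1 u₀ - u₀ - kapS hM ψ g
  have hδ : ∀ g h, δ (g * h) = AV n h.1 (δ g) + δ h := by
    intro g h
    change AV n (g.1 * h.1) u₀ - u₀ - kapS hM ψ (g * h) = AV n h.1 (AV n g.1 u₀ - u₀ - kapS hM ψ g) +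
      (AV n h.1 u₀ - u₀ - kapS hM ψ h)
    rw [kapS_mul, AV_mul, map_sub, map_sub]
    abel
  have hδ0 : δ s₀ = 0 := by
    change AV n s₀.1 u₀ - u₀ - kapS hM ψ s₀ = 0
    rw [hs₀u]
    abel
  have hδ1 : δ 1 = 0 := by
    have h := hδ 1 1
    rw [mul_one, Subgroup.coe_one, AV_one] at h
    exact left_eq_add.1 h
  -- `δ` vanishes on the powers of `s₀`
  have hδn : ∀ j : ℕ, δ (parG M w j) = 0 := by
    intro j
    induction j with
    | zero =>
      have : parG M w ((0 : ℕ) : ℤ) = 1 := by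
        refine Subtype.ext ?_
        change parSL w (M * ((0 : ℕ) : ℤ)) = 1
        rw [Nat.cast_zero, mul_zero, parSL_zero]
      rw [this, hδ1]
    | succ j ih =>
      rw [Nat.cast_succ, ← parG_mul, hδ, ih, map_zero, zero_add]
      exact hδ0
  have hδz : ∀ j : ℤ, δ (parG M w j) = 0 := by
    intro j
    obtain ⟨m, rfl | rfl⟩ := Int.eq_nat_or_neg j
    · exact hδn m
    · have h := hδ (parG M w m) (parG M w (-m))
      rw [parG_mul, add_neg_cancel, hδn m, map_zero, zero_add] at h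
      rw [← h]
      exact hδn 0
  obtain ⟨e, b, he, hsw, hss⟩ := stab_cusp hs
  rw [← hw] at hsw hss
  -- `s` commutes with `s₀`
  have hcomm : s * s₀ = s₀ * s := by
    refine Subtype.ext ?_
    change s.1 * s₀.1 = s₀.1 * s.1
    rw [hs₀', mul_parSL, hsw, parSL_scale e he]
  -- `δ s` is a multiple of the invariant vector
  have hfix : AV n s₀.1 (δ s) = δ s := by
    have h1 := hδ s s₀
    have h2 := hδ s₀ s
    rw [hδ0, map_zero, zero_add] at h2
    rw [hδ0, add_zero] at h1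
    rw [← h1, hcomm, h2]
  have hfix2 : AV n s.1 (δ s) = δ s := by
    have hw0 : ¬ (((w.1 : ℤ) : ℂ) = 0 ∧ ((w.2 : ℤ) : ℂ) = 0) := by
      rintro ⟨h1, h2⟩
      have h1' : g₀.1 0 0 = 0 := by exact_mod_cast h1
      have h2' : g₀.1 1 0 = 0 := by exact_mod_cast h2
      have h3 := g₀.2
      rw [Matrix.det_fin_two, h1', h2'] at h3
      simp at h3
    have h1 : slashM n !![1 - (M : ℂ) * (((w.1 : ℤ) : ℂ) * ((w.2 : ℤ) : ℂ)),
        (M : ℂ) * ((w.1 : ℤ) : ℂ) ^ 2; -((M : ℂ) * ((w.2 : ℤ) : ℂ) ^ 2),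
        1 + (M : ℂ) * (((w.1 : ℤ) : ℂ) * ((w.2 : ℤ) : ℂ))] (pol (δ s)) = pol (δ s) := by
      have e1 := congrArg pol hfix
      rw [pol_AV] at e1
      have e2 : s₀.1.1.map (Int.cast : ℤ → ℂ) = !![1 - (M : ℂ) * (((w.1 : ℤ) : ℂ) *
          ((w.2 : ℤ) : ℂ)), (M : ℂ) * ((w.1 : ℤ) : ℂ) ^ 2; -((M : ℂ) * ((w.2 : ℤ) : ℂ) ^ 2),
          1 + (M : ℂ) * (((w.1 : ℤ) : ℂ) * ((w.2 : ℤ) : ℂ))] := by
        rw [hs₀']
        ext a b
        fin_cases a <;> fin_cases b <;> simp [parSL, par]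
      rw [← e2]
      exact e1
    obtain ⟨κ, hκ⟩ := eq_dl_of_fixed (natDegree_pol_le (δ s))
      (by exact_mod_cast NeZero.ne M : (M : ℂ) ≠ 0) hw0 h1
    have h2 := slashM_dl_smul n (s.1.1.map (Int.cast : ℤ → ℂ)) ((w.1 : ℤ) : ℂ) ((w.2 : ℤ) : ℂ)
    have h3 : (s.1.1.map (Int.cast : ℤ → ℂ)) 0 0 * ((w.1 : ℤ) : ℂ) +
        (s.1.1.map (Int.cast : ℤ → ℂ)) 0 1 * ((w.2 : ℤ) : ℂ) = (e : ℂ) * ((w.1 : ℤ) : ℂ) := by
      have h4 := congrArg Prod.fst hsw
      simp only [vm] at h4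
      simp only [Matrix.map_apply]
      exact_mod_cast h4
    have h3' : (s.1.1.map (Int.cast : ℤ → ℂ)) 1 0 * ((w.1 : ℤ) : ℂ) +
        (s.1.1.map (Int.cast : ℤ → ℂ)) 1 1 * ((w.2 : ℤ) : ℂ) = (e : ℂ) * ((w.2 : ℤ) : ℂ) := by
      have h4 := congrArg Prod.snd hsw
      simp only [vm] at h4
      simp only [Matrix.map_apply]
      exact_mod_cast h4
    have hdet : (s.1.1.map (Int.cast : ℤ → ℂ)).det = 1 := by
      have h4 := s.1.2
      rw [Matrix.det_fin_two] at h4 ⊢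
      simp only [Matrix.map_apply]
      exact_mod_cast h4
    have hen : (e : ℂ) ^ n = 1 := by
      obtain ⟨m, rfl⟩ := hn
      rw [← two_mul, pow_mul]
      have : (e : ℂ) ^ 2 = 1 := by exact_mod_cast he
      rw [this, one_pow]
    rw [h3, h3', dl_smul, hen, hdet, one_pow, map_one, one_mul] at h2
    refine pol_inj ?_
    rw [pol_AV, hκ, ← smul_eq_C_mul, map_smul, h2]
  -- hence `δ (s ^ (2 M)) = 2 M δ s`
  have hpow : ∀ m : ℕ, δ (s ^ m) = m • δ s := by
    intro m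
    induction m with
    | zero => rw [pow_zero, zero_smul, hδ1]
    | succ m ih => rw [pow_succ, hδ, ih, map_nsmul, hfix2, succ_nsmul]
  have hlast : δ (s ^ (2 * M)) = 0 := by
    have h1 : s ^ (2 * M) = parG M w b := by
      refine Subtype.ext ?_
      change (s ^ (2 * M) : Gamma0 M).1 = parSL w (M * b)
      rw [Subgroup.coe_pow, pow_mul, sq, hss, parSL_pow]
    rw [h1]
    exact hδz b
  rw [hpow] at hlast
  have hMc : ((2 * M : ℕ) : ℂ) ≠ 0 := by exact_mod_cast mul_ne_zero two_ne_zero (NeZero.ne M)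
  have hds : δ s = 0 := by
    rw [← Nat.cast_smul_eq_nsmul ℂ] at hlast
    exact (smul_eq_zero.1 hlast).resolve_left hMc
  have hds' : AV n s.1 u₀ - u₀ - kapS hM ψ s = 0 := hds
  rw [sub_sub, sub_eq_zero] at hds'
  exact hds'

/-! ### The extension -/

/-- the cusps `u/v` are different points of `ℙ¹(ℚ)` -/
theorem toP_injective : Function.Injective toP := by
  intro x y
  refine PS.Cusp.ind' (P := fun x => toP x = toP y → x = y) (fun u v hu hv => ?_) x
  refine PS.Cusp.ind' (P := fun y => toP (PS.Cusp.mk u v hu hv) = toP y →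
    PS.Cusp.mk u v hu hv = y) (fun u' v' hu' hv' h => ?_) y
  rw [PS.Cusp.mk_eq]
  rw [toP_mk, toP_mk] at h
  by_cases hv0 : v = 0
  · by_cases hv0' : v' = 0
    · rw [hv0, hv0']
      ring
    · rw [if_pos hv0, if_neg hv0'] at h
      exact absurd h.symm (OnePoint.coe_ne_infty _)
  · by_cases hv0' : v' = 0
    · rw [if_neg hv0, if_pos hv0'] at h
      exact absurd h (OnePoint.coe_ne_infty _)
    · rw [if_neg hv0, if_neg hv0'] at h
      have h1 : ((u : ℚ) / v) = (u' : ℚ) / v' := OnePoint.coe_injective h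
      have h2 : (v : ℚ) ≠ 0 := by exact_mod_cast hv0
      have h3 : (v' : ℚ) ≠ 0 := by exact_mod_cast hv0'
      rw [div_eq_div_iff h2 h3] at h1
      exact_mod_cast h1

/-- **Extension**: a partial symbol whose residues vanish is the restriction of a full symbol. -/
theorem exists_ext (hM : 4 ∣ M) [NeZero M] (hn : Even n) (ψ : PS.Sym ℂ M n)
    (h0 : res M n ψ.1 = 0) : ∃ φ : SF n M, rst n M φ = ψ := by
  classical
  let j : Gamma0 M →* GQ := (Matrix.SpecialLinearGroup.mapGL ℚ).comp (Gamma0 M).subtype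
  obtain ⟨u, hu⟩ := orbit_ext (Y := OnePoint ℚ) j (fun g => AV n g.1)
    (fun g h v => AV_mul n g.1 h.1 v) (fun v => AV_one n v) (kapS hM ψ) (kapS_mul hM ψ)
    (fun y => by
      obtain ⟨g₀, rfl⟩ := OnePoint.exists_mem_SL2 ℤ y
      obtain ⟨u₀, h⟩ := exists_stab hM hn ψ g₀ (congrFun h0 _)
      exact ⟨u₀, fun s hs => h s hs⟩)
  let u' : OnePoint ℚ → Fin (n + 1) → ℂ := fun y =>
    if h : ∃ c, toP c = y then ψ.1 PS.inf h.choose else u y
  have hu'1 : ∀ c, u' (toP c) = ψ.1 PS.inf c := by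
    intro c
    have h : ∃ d, toP d = toP c := ⟨c, rfl⟩
    change (if h : ∃ d, toP d = toP c then ψ.1 PS.inf h.choose else u (toP c)) = _
    rw [dif_pos h, toP_injective h.choose_spec]
  have hu'2 : ∀ y, (¬ ∃ c, toP c = y) → u' y = u y := fun y h => dif_neg h
  have hG : ∀ (g : Gamma0 M) (c : PS.Cusp), sQ g.1 • toP c = toP (ofG hM g • c) := by
    intro g c
    rw [toP_smul, gQ_ofG]
  have hu' : ∀ (g : Gamma0 M) y, AV n g.1 (u' (sQ g.1 • y)) = u' y + kapS hM ψ g := by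
    intro g y
    by_cases h : ∃ c, toP c = y
    · obtain ⟨c, rfl⟩ := h
      rw [hG, hu'1, hu'1, AV_inf]
    · have h' : ¬ ∃ c, toP c = sQ g.1 • y := by
        rintro ⟨c, hc⟩
        refine h ⟨ofG hM g⁻¹ • c, ?_⟩
        rw [← hG, hc, Subgroup.coe_inv, sQ, map_inv, inv_smul_smul]
      rw [hu'2 y h, hu'2 _ h']
      exact hu g y
  refine ⟨⟨fun x y => pol (u' y - u' x), ?_, ?_, ?_⟩, ?_⟩
  · exact fun x y => natDegree_pol_le _
  · intro x y z
    rw [← pol_add]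
    congr 1
    abel
  · intro g hg
    funext x y
    change slashM n (matOf ℂ (sQ g)) (pol (u' (sQ g • y) - u' (sQ g • x))) = pol (u' y - u' x)
    have e : matOf ℂ (sQ g) = g.1.map (Int.cast : ℤ → ℂ) := matOf_sQ g
    rw [e, ← pol_AV, map_sub, hu' ⟨g, hg⟩ y, hu' ⟨g, hg⟩ x]
    congr 1
    abel
  · refine Subtype.ext ?_
    funext x y i
    change (pol (u' (toP y) - u' (toP x))).coeff i = ψ.1 x y i
    rw [coeff_pol, hu'1, hu'1, ← ψ.2.1 PS.inf x y, add_sub_cancel_left]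

end

end Gouvea.Cnt
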