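import Mathlib

/-!
# The mean of a function of finite level on a group (MP_d3517d_nt, COUNT)

For a group `H` and `φ : H → ℂ` whose left stabiliser has finite index, `mean φ` is the mean of `φ`
over the right cosets of any subgroup of finite index of the stabiliser.
-/

noncomputable section

namespace Gouvea.Cnt

section

variable {H : Type*} [Group H]

/-- the left stabiliser of a function -/
def stb (φ : H → ℂ) : Subgroup H where
  carrier := {g | ∀ y, φ (g * y) = φ y}
  mul_mem' := by
    intro a b ha hb y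
    rw [mul_assoc, ha, hb]
  one_mem' := fun y => by rw [one_mul]
  inv_mem' := by
    intro a ha y
    have := ha (a⁻¹ * y)
    rw [mul_inv_cancel_left] at this
    exact this.symm

lemma mem_stb {φ : H → ℂ} {g : H} : g ∈ stb φ ↔ ∀ y, φ (g * y) = φ y := Iff.rfl

/-- the sum over the cosets -/
def csum (K : Subgroup H) (φ : H → ℂ) : ℂ := ∑ᶠ x : H ⧸ K, φ (x.out⁻¹)

/-- **The mean** of a function of finite level. -/
def mean (φ : H → ℂ) : ℂ := csum (stb φ) φ / (stb φ).index

/-- the function on the cosets -/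
def lft (K : Subgroup H) (φ : H → ℂ) (h : K ≤ stb φ) : H ⧸ K → ℂ :=
  Quotient.lift (fun y : H => φ y⁻¹) fun a b hab => by
    have h1 : a⁻¹ * b ∈ K := QuotientGroup.leftRel_apply.1 hab
    have h2 := mem_stb.1 (h (K.inv_mem h1)) a⁻¹
    rw [mul_inv_rev, inv_inv, mul_assoc, mul_inv_cancel, mul_one] at h2
    exact h2.symm

lemma lft_mk {K : Subgroup H} {φ : H → ℂ} (h : K ≤ stb φ) (y : H) :
    lft K φ h (QuotientGroup.mk y) = φ y⁻¹ := rfl

lemma csum_eq {K : Subgroup H} {φ : H → ℂ} (h : K ≤ stb φ) :
    csum K φ = ∑ᶠ x, lft K φ h x := by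
  refine finsum_congr fun x => ?_
  conv_rhs => rw [← QuotientGroup.out_eq' x]
  rfl

/-- decomposition of the sum over the cosets of a smaller subgroup -/
lemma csum_decomp {K G : Subgroup H} (hKG : K ≤ G) [K.FiniteIndex] {φ : H → ℂ}
    (h : K ≤ stb φ) {ι : Type*} [Fintype ι] (ρ : ι → H)
    (hρ : Function.Bijective fun i => (QuotientGroup.mk (ρ i) : H ⧸ G)) :
    csum K φ = ∑ i, csum (K.subgroupOf G) fun y : G => φ ((y : H) * (ρ i)⁻¹) := by
  classical
  have hG : G.FiniteIndex := Subgroup.finiteIndex_of_le hKG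
  have hK' : (K.subgroupOf G).FiniteIndex := inferInstance
  let σ := Equiv.ofBijective _ hρ
  have hσ : ∀ i, σ i = (QuotientGroup.mk (ρ i) : H ⧸ G) := fun i => rfl
  let e := Subgroup.quotientEquivProdOfLE' hKG (fun x => ρ (σ.symm x)) (fun x => by
    rw [← hσ, Equiv.apply_symm_apply])
  have hst : ∀ i, K.subgroupOf G ≤ stb fun y : G => φ ((y : H) * (ρ i)⁻¹) := by
    intro i g hg y
    have := mem_stb.1 (h (Subgroup.mem_subgroupOf.1 hg)) ((y : H) * (ρ i)⁻¹)
    beta_reduce
    rw [Subgroup.coe_mul, mul_assoc]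
    exact this
  let _ : Fintype (H ⧸ K) := Fintype.ofFinite _
  let _ : Fintype (H ⧸ G) := Fintype.ofFinite _
  let _ : Fintype (G ⧸ K.subgroupOf G) := Fintype.ofFinite _
  rw [csum_eq h, finsum_eq_sum_of_fintype, ← e.symm.sum_comp, Fintype.sum_prod_type,
    ← σ.sum_comp]
  refine Finset.sum_congr rfl fun i _ => ?_
  rw [csum_eq (hst i), finsum_eq_sum_of_fintype]
  refine Finset.sum_congr rfl fun b _ => ?_
  induction b using QuotientGroup.induction_on with
  | H b =>
    have h1 : e.symm (σ i, QuotientGroup.mk b) = QuotientGroup.mk (ρ (σ.symm (σ i)) * b) := rfl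
    rw [h1, lft_mk, lft_mk, Equiv.symm_apply_apply, mul_inv_rev]
    rfl

lemma csum_mono {K G : Subgroup H} (hKG : K ≤ G) [K.FiniteIndex] {φ : H → ℂ}
    (h : G ≤ stb φ) : csum K φ = K.relIndex G * csum G φ := by
  classical
  have hG : G.FiniteIndex := Subgroup.finiteIndex_of_le hKG
  have hK' : (K.subgroupOf G).FiniteIndex := inferInstance
  let _ : Fintype (H ⧸ G) := Fintype.ofFinite _
  let _ : Fintype (G ⧸ K.subgroupOf G) := Fintype.ofFinite _
  rw [csum_decomp hKG (hKG.trans h) (fun x : H ⧸ G => x.out) (by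
    have : (fun i : H ⧸ G => (QuotientGroup.mk i.out : H ⧸ G)) = id := by
      funext i
      exact QuotientGroup.out_eq' i
    rw [this]
    exact Function.bijective_id), csum, finsum_eq_sum_of_fintype, Finset.mul_sum]
  refine Finset.sum_congr rfl fun x _ => ?_
  have h1 : ∀ y : G, φ ((y : H) * x.out⁻¹) = φ x.out⁻¹ := fun y => mem_stb.1 (h y.2) _
  simp only [h1]
  rw [csum, finsum_eq_sum_of_fintype, Finset.sum_const, Finset.card_univ, nsmul_eq_mul,
    Subgroup.relIndex, Subgroup.index, Nat.card_eq_fintype_card]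

/-- the mean can be computed with every subgroup of finite index of the stabiliser -/
theorem mean_eq {K : Subgroup H} [K.FiniteIndex] {φ : H → ℂ} (h : K ≤ stb φ) :
    mean φ = csum K φ / K.index := by
  have h0 : (stb φ).FiniteIndex := Subgroup.finiteIndex_of_le h
  have h1 : (K.relIndex (stb φ) : ℂ) ≠ 0 := by
    have : K.relIndex (stb φ) ≠ 0 := fun h2 => by
      have h3 := Subgroup.relIndex_mul_index h
      rw [h2, zero_mul] at h3
      exact Subgroup.FiniteIndex.index_ne_zero h3.symm
    exact_mod_cast this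
  rw [mean, csum_mono h le_rfl, ← Subgroup.relIndex_mul_index h, Nat.cast_mul,
    mul_div_mul_left _ _ h1]

/-- decomposition of the mean -/
theorem mean_decomp {G : Subgroup H} [G.FiniteIndex] {φ : H → ℂ} (h : (stb φ).FiniteIndex)
    {ι : Type*} [Fintype ι] (ρ : ι → H)
    (hρ : Function.Bijective fun i => (QuotientGroup.mk (ρ i) : H ⧸ G)) :
    mean φ = (∑ i, mean fun y : G => φ ((y : H) * (ρ i)⁻¹)) / Fintype.card ι := by
  classical
  set K : Subgroup H := stb φ ⊓ G with hK
  have hKf : K.FiniteIndex := inferInstance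
  have hKG : K ≤ G := inf_le_right
  have hKs : K ≤ stb φ := inf_le_left
  have hK' : (K.subgroupOf G).FiniteIndex := inferInstance
  have hst : ∀ i, K.subgroupOf G ≤ stb fun y : G => φ ((y : H) * (ρ i)⁻¹) := by
    intro i g hg y
    have := mem_stb.1 (hKs (Subgroup.mem_subgroupOf.1 hg)) ((y : H) * (ρ i)⁻¹)
    beta_reduce
    rw [Subgroup.coe_mul, mul_assoc]
    exact this
  have hcard : Fintype.card ι = G.index := by
    rw [Subgroup.index, ← Nat.card_eq_fintype_card, Nat.card_congr (Equiv.ofBijective _ hρ)]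
  have hidx : (K.index : ℂ) = (K.subgroupOf G).index * Fintype.card ι := by
    rw [hcard, ← Nat.cast_mul]
    congr 1
    exact (Subgroup.relIndex_mul_index hKG).symm
  rw [mean_eq hKs, csum_decomp hKG hKs ρ hρ, hidx, ← div_div, Finset.sum_div]
  congr 1
  refine Finset.sum_congr rfl fun i _ => ?_
  rw [mean_eq (hst i)]

/-- invariance under isomorphisms -/
theorem mean_comp_equiv {H' : Type*} [Group H'] (c : H' ≃* H) (φ : H → ℂ) :
    mean (fun y => φ (c y)) = mean φ := by
  have hst : stb (fun y => φ (c y)) = (stb φ).comap c.toMonoidHom := by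
    ext g
    rw [mem_stb, Subgroup.mem_comap, mem_stb]
    constructor
    · intro hg y
      have := hg (c.symm y)
      rw [map_mul, MulEquiv.apply_symm_apply] at this
      exact this
    · intro hg y
      rw [map_mul]
      exact hg (c y)
  have hidx : (stb (fun y => φ (c y))).index = (stb φ).index := by
    rw [hst]
    exact Subgroup.index_comap_of_surjective _ c.surjective
  rw [mean, mean, hidx]
  congr 1
  let e : H' ⧸ stb (fun y => φ (c y)) ≃ H ⧸ stb φ := Quotient.congr c.toEquiv (fun a b => by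
    rw [QuotientGroup.leftRel_apply, QuotientGroup.leftRel_apply, hst, Subgroup.mem_comap]
    change c (a⁻¹ * b) ∈ stb φ ↔ (c a)⁻¹ * c b ∈ stb φ
    rw [map_mul, map_inv])
  rw [csum_eq le_rfl, csum_eq le_rfl, ← finsum_comp_equiv e]
  refine finsum_congr fun x => ?_
  induction x using QuotientGroup.induction_on with
  | H a =>
    have h1 : e (QuotientGroup.mk a) = QuotientGroup.mk (c a) := rfl
    rw [h1, lft_mk, lft_mk, map_inv]

/-- invariance under right translations -/
theorem mean_mul_right (φ : H → ℂ) (g : H) : mean (fun y => φ (y * g)) = mean φ := by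
  have hst : stb (fun y => φ (y * g)) = stb φ := by
    ext a
    rw [mem_stb, mem_stb]
    constructor
    · intro h y
      have := h (y * g⁻¹)
      rwa [mul_assoc, mul_assoc, inv_mul_cancel, mul_one] at this
    · intro h y
      rw [mul_assoc]
      exact h _
  rw [mean, mean, hst]
  congr 1
  rw [csum_eq (φ := fun y => φ (y * g)) hst.ge, csum_eq (le_refl (stb φ)),
    ← finsum_comp_equiv (MulAction.toPerm g : Equiv.Perm (H ⧸ stb φ))]
  refine finsum_congr fun x => ?_
  induction x using QuotientGroup.induction_on with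
  | H a =>
    have h1 : (MulAction.toPerm g : Equiv.Perm (H ⧸ stb φ)) (QuotientGroup.mk a) =
        QuotientGroup.mk (g * a) := rfl
    rw [h1, lft_mk, lft_mk, mul_inv_rev, inv_mul_cancel_right]

/-- invariance under left translations -/
theorem mean_mul_left (φ : H → ℂ) (g : H) : mean (fun y => φ (g * y)) = mean φ := by
  have h1 : (fun y => φ (g * y)) = fun y => (fun x => φ (x * g)) (MulAut.conj g y) := by
    funext y
    beta_reduce
    rw [MulAut.conj_apply, inv_mul_cancel_right]
  rw [h1, mean_comp_equiv (MulAut.conj g) (fun x => φ (x * g)), mean_mul_right]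

lemma le_stb_add (φ ψ : H → ℂ) : stb φ ⊓ stb ψ ≤ stb (fun y => φ y + ψ y) := by
  intro g hg y
  beta_reduce
  rw [mem_stb.1 hg.1, mem_stb.1 hg.2]

theorem mean_add {φ ψ : H → ℂ} (hφ : (stb φ).FiniteIndex) (hψ : (stb ψ).FiniteIndex) :
    mean (fun y => φ y + ψ y) = mean φ + mean ψ := by
  classical
  have hK : (stb φ ⊓ stb ψ).FiniteIndex := inferInstance
  let _ : Fintype (H ⧸ (stb φ ⊓ stb ψ)) := Fintype.ofFinite _
  rw [mean_eq (le_stb_add φ ψ), mean_eq (inf_le_left : stb φ ⊓ stb ψ ≤ stb φ),
    mean_eq (inf_le_right : stb φ ⊓ stb ψ ≤ stb ψ), ← add_div]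
  congr 1
  rw [csum, csum, csum, finsum_eq_sum_of_fintype, finsum_eq_sum_of_fintype,
    finsum_eq_sum_of_fintype, Finset.sum_add_distrib]

theorem mean_smul (a : ℂ) {φ : H → ℂ} (hφ : (stb φ).FiniteIndex) :
    mean (fun y => a * φ y) = a * mean φ := by
  classical
  have h1 : stb φ ≤ stb (fun y => a * φ y) := by
    intro g hg y
    beta_reduce
    rw [mem_stb.1 hg]
  let _ : Fintype (H ⧸ stb φ) := Fintype.ofFinite _
  rw [mean_eq h1, mean_eq (le_refl (stb φ)), ← mul_div_assoc]
  congr 1
  rw [csum, csum, finsum_eq_sum_of_fintype, finsum_eq_sum_of_fintype, Finset.mul_sum]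

lemma finiteIndex_stb_sum {ι : Type*} (s : Finset ι) {φ : ι → H → ℂ}
    (h : ∀ i ∈ s, (stb (φ i)).FiniteIndex) : (stb (fun y => ∑ i ∈ s, φ i y)).FiniteIndex := by
  classical
  induction s using Finset.induction_on with
  | empty =>
    have : stb (fun y : H => ∑ i ∈ (∅ : Finset ι), φ i y) = ⊤ := by
      rw [eq_top_iff]
      intro g _ y
      simp
    rw [this]
    infer_instance
  | insert i s hi ih =>
    have h1 := h i (Finset.mem_insert_self i s)
    have h2 := ih fun j hj => h j (Finset.mem_insert_of_mem hj)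
    have h3 : (stb (φ i) ⊓ stb (fun y => ∑ i ∈ s, φ i y)).FiniteIndex := inferInstance
    refine Subgroup.finiteIndex_of_le (H := stb (φ i) ⊓ stb (fun y => ∑ i ∈ s, φ i y)) ?_
    intro g hg y
    beta_reduce
    rw [Finset.sum_insert hi, Finset.sum_insert hi]
    exact le_stb_add (φ i) (fun y => ∑ i ∈ s, φ i y) hg y

theorem mean_sum {ι : Type*} (s : Finset ι) {φ : ι → H → ℂ}
    (h : ∀ i ∈ s, (stb (φ i)).FiniteIndex) :
    mean (fun y => ∑ i ∈ s, φ i y) = ∑ i ∈ s, mean (φ i) := by
  classical
  induction s using Finset.induction_on with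
  | empty =>
    have h0 : mean (fun _ : H => (0 : ℂ)) = 0 := by
      rw [mean, csum, finsum_zero, zero_div]
    simpa using h0
  | insert i s hi ih =>
    have h1 := h i (Finset.mem_insert_self i s)
    have h2 : ∀ j ∈ s, (stb (φ j)).FiniteIndex := fun j hj => h j (Finset.mem_insert_of_mem hj)
    rw [Finset.sum_insert hi, ← ih h2, ← mean_add h1 (finiteIndex_stb_sum s h2)]
    congr 1
    funext y
    rw [Finset.sum_insert hi]

end

end Gouvea.Cnt
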